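import Pool.Agent.ZOL.SgDefs

/-!
# The analytic part of the density theorem

JOB ZOL-Ana2.  Prove the theorem of this file (remove the `sorry`, keep the statement).

Plan.  `sd q M = (s, d)` with `d - s = (-1)^M`, `s + (q - 1) d = (q - 1)^(M + 1)` (inductions), so for `M`
even `d/s = 1 + 1/s` and `q s = (q - 1)^(M+1) - (q - 1)`; `s > 0` for `M ≥ 2`.  Put
`h_x = log (-b_x / a_x) < 0`, `h_y = log (-b_y/a_y) < 0`, `L_x(M) = log (d/s) > 0` at `x`, `L_y(M)` at `y`.
`1/(1 + s) ≤ log (1 + 1/s) ≤ 1/s`, so `L_y(M)/L_x(M) ≤ (1 + s_x)/s_y → 0` for `M → ∞` because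
`(x - 1)^M/(y - 1)^M → 0` (`x < y`).  Choose `M` even, `M ≥ 2`, with `-h_x/L_x < -h_y/L_y`, i.e.
`h_y L_x < h_x L_y`.  Choose a rational `l/k0` strictly between `-h_x/L_x` and `-h_y/L_y`, `k0 ≥ 1`; then
`k0 h_x + l L_x > 0` and `k0 h_y + l L_y < 0`.  To make `k` odd and the last number large negative take
`k = (2 j + 1) k0`, `l' = (2 j + 1) l` — this needs `k0` odd: choose the rational with odd denominator
(the rationals `l/(2 i + 1)`, `i` large, are dense: take `k0 = 2 i + 1` with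
`(2 i + 1) (-h_y/L_y + h_x/L_x) > 1`, then there is an integer `l` in between).  With `j` large:
`k h_x + l' L_x + log (x - 1) > 0` (already for all `j`, `x > 2`), and
`k h_y + l' L_y + log (y - 1) < 0` for `j` large.  Exponentiate:
`(-b_x/a_x)^k (d/s)^l' (x - 1) > 1` gives `a_x^k s^l' < (x - 1) (-b_x)^k d^l' = -(x - 1) b_x^k d^l'`
(`k` odd: `(-b)^k = -b^k`), the first claim; the second in the same way.
(`h_x`, `h_y` negative and `l > 0` are automatic.)
-/

set_option autoImplicit false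

namespace Pool.Agent.ZOL

private theorem sd_sub (q : ℝ) (M : ℕ) : (sd q M).2 - (sd q M).1 = (-1) ^ M := by
  induction M with
  | zero => rw [sd_zero]; norm_num
  | succ M ih =>
    rw [sd_succ, pow_succ, ← ih]
    ring

private theorem sd_add (q : ℝ) (M : ℕ) :
    (sd q M).1 + (q - 1) * (sd q M).2 = (q - 1) ^ (M + 1) := by
  induction M with
  | zero => rw [sd_zero]; ring
  | succ M ih =>
    rw [sd_succ, pow_succ (q - 1) (M + 1), ← ih]
    ring

private theorem sd_even (q : ℝ) {M : ℕ} (hM : Even M) :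
    (sd q M).2 = (sd q M).1 + 1 ∧ q * (sd q M).1 = (q - 1) * ((q - 1) ^ M - 1) := by
  have h1 := sd_sub q M
  have h2 := sd_add q M
  rw [hM.neg_one_pow] at h1
  have h3 : (sd q M).2 = (sd q M).1 + 1 := by linarith
  refine ⟨h3, ?_⟩
  rw [h3, pow_succ] at h2
  linarith

private theorem sd_bd {q : ℝ} (hq : 4 ≤ q) {M : ℕ} (hM : Even M) (hM2 : 2 ≤ M) :
    (q - 1) ^ M / 2 ≤ (sd q M).1 ∧ 1 + (sd q M).1 ≤ 2 * (q - 1) ^ M := by
  obtain ⟨-, h⟩ := sd_even q hM
  have hZ : 3 ≤ (q - 1) ^ M := by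
    calc (3 : ℝ) ≤ 3 ^ 1 := by norm_num
      _ ≤ 3 ^ M := pow_le_pow_right₀ (by norm_num) (by omega)
      _ ≤ (q - 1) ^ M := pow_le_pow_left₀ (by norm_num) (by linarith) M
  set Z := (q - 1) ^ M with hZd
  set s := (sd q M).1 with hs
  constructor
  · by_contra hc
    push Not at hc
    have h1 : q * s < q * (Z / 2) := mul_lt_mul_of_pos_left hc (by linarith)
    have h2 : q * (Z / 2) ≤ (q - 1) * (Z - 1) := by nlinarith
    linarith
  · by_contra hc
    push Not at hc
    have h1 : q * (2 * Z - 1) < q * s := mul_lt_mul_of_pos_left (by linarith) (by linarith)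
    nlinarith

private theorem expo1 {a b s d c : ℝ} (ha : 0 < a) (hb : 0 < b) (hs : 0 < s) (hd : 0 < d)
    (hc : 0 < c) (k l : ℕ) (h : 0 < k * Real.log (b / a) + l * Real.log (d / s) + Real.log c) :
    a ^ k * s ^ l < c * (b ^ k * d ^ l) := by
  rw [← Real.log_lt_log_iff (by positivity) (by positivity),
    Real.log_mul (by positivity) (by positivity), Real.log_mul (by positivity) (by positivity),
    Real.log_mul (by positivity) (by positivity), Real.log_pow, Real.log_pow, Real.log_pow,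
    Real.log_pow]
  rw [Real.log_div hb.ne' ha.ne', Real.log_div hd.ne' hs.ne'] at h
  linarith

private theorem expo2 {a b s d c : ℝ} (ha : 0 < a) (hb : 0 < b) (hs : 0 < s) (hd : 0 < d)
    (hc : 0 < c) (k l : ℕ) (h : k * Real.log (b / a) + l * Real.log (d / s) + Real.log c < 0) :
    c * (b ^ k * d ^ l) < a ^ k * s ^ l := by
  rw [← Real.log_lt_log_iff (by positivity) (by positivity),
    Real.log_mul (by positivity) (by positivity), Real.log_mul (by positivity) (by positivity),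
    Real.log_mul (by positivity) (by positivity), Real.log_pow, Real.log_pow, Real.log_pow,
    Real.log_pow]
  rw [Real.log_div hb.ne' ha.ne', Real.log_div hd.ne' hs.ne'] at h
  linarith

private theorem log_bd {s : ℝ} (hs : 0 < s) :
    1 / (1 + s) ≤ Real.log ((s + 1) / s) ∧ Real.log ((s + 1) / s) ≤ 1 / s := by
  constructor
  · have h1 := Real.log_le_sub_one_of_pos (show 0 < s / (s + 1) by positivity)
    have h2 : Real.log (s / (s + 1)) = -Real.log ((s + 1) / s) := by
      rw [← Real.log_inv, inv_div]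
    have h3 : s / (s + 1) - 1 = -(1 / (1 + s)) := by
      field_simp
      ring
    rw [h2, h3] at h1
    linarith
  · have h1 := Real.log_le_sub_one_of_pos (show 0 < (s + 1) / s by positivity)
    have h3 : (s + 1) / s - 1 = 1 / s := by
      field_simp
      ring
    rw [h3] at h1
    exact h1

/-- rationals with odd denominator in an interval, and a large odd multiple -/
private theorem pick {A B Lx Ly c : ℝ} (hA : 0 < A) (hLx : 0 < Lx) (hLy : 0 < Ly)
    (h : A * Ly < B * Lx) :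
    ∃ k l : ℕ, Odd k ∧ 0 ≤ l * Lx - k * A ∧ l * Ly - k * B + c < 0 := by
  have hαβ : A / Lx < B / Ly := by
    rw [div_lt_div_iff₀ hLx hLy]
    exact h
  obtain ⟨i, hi⟩ := exists_nat_gt (1 / (B / Ly - A / Lx))
  have hd : 0 < B / Ly - A / Lx := by linarith
  have hi1 : 1 < ((2 * i + 1 : ℕ) : ℝ) * (B / Ly - A / Lx) := by
    rw [div_lt_iff₀ hd] at hi
    push_cast
    have h0 : (0 : ℝ) ≤ i := Nat.cast_nonneg i
    nlinarith
  set k0 : ℕ := 2 * i + 1 with hk0
  have hk0r : (0 : ℝ) < (k0 : ℝ) := by rw [hk0]; positivity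
  set l0 : ℕ := ⌊(k0 : ℝ) * (A / Lx)⌋₊ + 1 with hl0
  have hl1 : (k0 : ℝ) * (A / Lx) < (l0 : ℝ) := by
    rw [hl0]
    push_cast
    exact Nat.lt_floor_add_one _
  have hl2 : (l0 : ℝ) < (k0 : ℝ) * (B / Ly) := by
    have h1 : ((⌊(k0 : ℝ) * (A / Lx)⌋₊ : ℕ) : ℝ) ≤ (k0 : ℝ) * (A / Lx) :=
      Nat.floor_le (by positivity)
    rw [hl0]
    push_cast
    linarith
  have e1 : 0 < (l0 : ℝ) * Lx - k0 * A := by
    have h1 : (k0 : ℝ) * (A / Lx) * Lx < (l0 : ℝ) * Lx := mul_lt_mul_of_pos_right hl1 hLx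
    have h2 : (k0 : ℝ) * (A / Lx) * Lx = k0 * A := by field_simp
    linarith
  have e2 : 0 < (k0 : ℝ) * B - l0 * Ly := by
    have h1 : (l0 : ℝ) * Ly < (k0 : ℝ) * (B / Ly) * Ly := mul_lt_mul_of_pos_right hl2 hLy
    have h2 : (k0 : ℝ) * (B / Ly) * Ly = k0 * B := by field_simp
    linarith
  obtain ⟨j, hj⟩ := exists_nat_gt (c / ((k0 : ℝ) * B - l0 * Ly))
  rw [div_lt_iff₀ e2] at hj
  refine ⟨(2 * j + 1) * k0, (2 * j + 1) * l0, ?_, ?_, ?_⟩
  · exact (odd_two_mul_add_one j).mul (odd_two_mul_add_one i)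
  · push_cast
    have h1 : (2 * (j : ℝ) + 1) * l0 * Lx - (2 * (j : ℝ) + 1) * k0 * A =
        (2 * (j : ℝ) + 1) * ((l0 : ℝ) * Lx - k0 * A) := by ring
    rw [h1]
    positivity
  · push_cast
    have h1 : (2 * (j : ℝ) + 1) * l0 * Ly - (2 * (j : ℝ) + 1) * k0 * B + c =
        c - j * ((k0 : ℝ) * B - l0 * Ly) - (j + 1) * ((k0 : ℝ) * B - l0 * Ly) := by ring
    rw [h1]
    have h2 : 0 < ((j : ℝ) + 1) * ((k0 : ℝ) * B - l0 * Ly) := by positivity
    linarith

theorem ana2 {x y ax bx ay bY : ℝ} (hx : 4 ≤ x) (hxy : x < y) (hax : bx < 0) (hbx : -bx < ax)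
    (hay : bY < 0) (hby : -bY < ay) : ∃ k l M : ℕ, Odd k ∧ Even M ∧ 2 ≤ M ∧
      ax ^ k * (sd x M).1 ^ l + (x - 1) * (bx ^ k * (sd x M).2 ^ l) < 0 ∧
      0 < ay ^ k * (sd y M).1 ^ l + (y - 1) * (bY ^ k * (sd y M).2 ^ l) := by
  have hax0 : 0 < ax := by linarith
  have hay0 : 0 < ay := by linarith
  have hbx0 : 0 < -bx := by linarith
  have hby0 : 0 < -bY := by linarith
  set A := -Real.log (-bx / ax) with hA
  set B := -Real.log (-bY / ay) with hB
  have hA0 : 0 < A := by
    have : Real.log (-bx / ax) < 0 :=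
      Real.log_neg (by positivity) ((div_lt_one hax0).mpr hbx)
    linarith
  have hB0 : 0 < B := by
    have : Real.log (-bY / ay) < 0 :=
      Real.log_neg (by positivity) ((div_lt_one hay0).mpr hby)
    linarith
  have hr : 1 < (y - 1) / (x - 1) := by
    rw [one_lt_div (by linarith)]
    linarith
  obtain ⟨n, hn⟩ := pow_unbounded_of_one_lt (4 * A / B) hr
  set M := 2 * n + 2 with hM
  have hMe : Even M := ⟨n + 1, by omega⟩
  have hM2 : 2 ≤ M := by omega
  have hrM : 4 * A / B < ((y - 1) / (x - 1)) ^ M :=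
    lt_of_lt_of_le hn (pow_le_pow_right₀ hr.le (by omega))
  obtain ⟨sx1, sx2⟩ := sd_bd hx hMe hM2
  obtain ⟨sy1, sy2⟩ := sd_bd (hx.trans hxy.le) hMe hM2
  have hx1 : 0 < (x - 1) ^ M := pow_pos (by linarith) M
  have hy1 : 0 < (y - 1) ^ M := pow_pos (by linarith) M
  have hsx : 0 < (sd x M).1 := by linarith
  have hsy : 0 < (sd y M).1 := by linarith
  have hdx : 0 < (sd x M).2 := by
    rw [(sd_even x hMe).1]; linarith
  have hdy : 0 < (sd y M).2 := by
    rw [(sd_even y hMe).1]; linarith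
  obtain ⟨lx1, lx2⟩ := log_bd hsx
  obtain ⟨ly1, ly2⟩ := log_bd hsy
  rw [← (sd_even x hMe).1] at lx1 lx2
  rw [← (sd_even y hMe).1] at ly1 ly2
  set Lx := Real.log ((sd x M).2 / (sd x M).1) with hLx
  set Ly := Real.log ((sd y M).2 / (sd y M).1) with hLy
  have hLx0 : 0 < Lx := lt_of_lt_of_le (by positivity) lx1
  have hLy0 : 0 < Ly := lt_of_lt_of_le (by positivity) ly1
  have hkey : A * Ly < B * Lx := by
    have h1 : 4 * A * (x - 1) ^ M < B * (y - 1) ^ M := by
      rw [div_pow, div_lt_div_iff₀ hB0 hx1] at hrM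
      linarith
    have h2 : A * (1 + (sd x M).1) < B * (sd y M).1 := by
      have h3 : A * (1 + (sd x M).1) ≤ A * (2 * (x - 1) ^ M) :=
        mul_le_mul_of_nonneg_left sx2 hA0.le
      have h4 : B * ((y - 1) ^ M / 2) ≤ B * (sd y M).1 := mul_le_mul_of_nonneg_left sy1 hB0.le
      linarith
    calc A * Ly ≤ A * (1 / (sd y M).1) := mul_le_mul_of_nonneg_left ly2 hA0.le
      _ = A / (sd y M).1 := by ring
      _ < B / (1 + (sd x M).1) := by
          rw [div_lt_div_iff₀ hsy (by positivity)]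
          exact h2
      _ = B * (1 / (1 + (sd x M).1)) := by ring
      _ ≤ B * Lx := mul_le_mul_of_nonneg_left lx1 hB0.le
  obtain ⟨k, l, hk, h1, h2⟩ := pick (c := Real.log (y - 1)) hA0 hLx0 hLy0 hkey
  refine ⟨k, l, M, hk, hMe, hM2, ?_, ?_⟩
  · have hlog : 0 < Real.log (x - 1) := Real.log_pos (by linarith)
    have h3 := expo1 hax0 hbx0 hsx hdx (show 0 < x - 1 by linarith) k l (by
      rw [← hLx]
      have : (k : ℝ) * Real.log (-bx / ax) = -(k * A) := by rw [hA]; ring
      rw [this]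
      linarith)
    rw [hk.neg_pow] at h3
    linarith
  · have h3 := expo2 hay0 hby0 hsy hdy (show 0 < y - 1 by linarith) k l (by
      rw [← hLy]
      have : (k : ℝ) * Real.log (-bY / ay) = -(k * B) := by rw [hB]; ring
      rw [this]
      linarith)
    rw [hk.neg_pow] at h3
    linarith

end Pool.Agent.ZOL
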