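import Pool.Agent.ZOL.Defs
import Pool.Agent.SB.GEul

/-!
# Discs are closed under chords, merges of neighbouring corners and rotation



Plan.  `Disc H l` (`SB/Disc.lean`) is witnessed by `a b f x w` with `IsPl a b`, `Trk a b f x w`,
`marks w = l`, `∀ u v, H.Adj u v → Lk a u v`.
* chords: split `w = w1 ++ Sum.inl p :: (w2 ++ Sum.inl r :: w3)` with `exists_split_mark` (twice; the
  number of the mark is `l1.length`, then `l2.length`); `IsPl.insert_trk` (`PG/Track.lean`) gives the
  plane structure `addE a p r` with the two tracked faces: the outer one has the marks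
  `marks w1 ++ p :: r :: marks w3` (`marks_liftTok`), the inner one `p :: (marks w2 ++ [r])`.
  Links: `lk_addG`-type: an edge of `ad H p r` is an edge of `H` (`some e`) or `pr` (`none`).
* `disc_mg`: insert the edge `p r` between the two neighbouring corners (`w2` has no marks; only the
  outer face is used), then contract it: `IsPl.contract`, `Trk.contract` (`PG/Fill.lean`), `lk_mgG`
  (`PG/FillMain.lean`); `marks_contrTok`: the marks are the images of `l1 ++ p :: r :: l3` under
  `merge p r`; `p` and `r` have the same image, so `Disc.sublist` removes one of them.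
  (`(addE a p r none).1 ≠ (addE a p r none).2` is `hpr`; the types `{e // e ≠ none}` are fine.)
* `disc_rot`: split `w = w1 ++ w2` at the marks (`exists_split_mark` or induction), `path_append`; the
  word `w2 ++ w1` is a closed path from the middle vertex; `Nodup`, `mem` by `List.perm_append_comm`.
* `disc_pl`: `Pl.of_spanning` (`PG/Minor.lean` or `FillMain.lean`).
-/

set_option autoImplicit false

noncomputable section

namespace Pool.Agent.ZOL

open Pool.Agent.Helper1.PG
open Pool.Agent.Helper36.BL (cp cnt cols cp_eval mem_cols IsMinor)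
open Pool.Agent.U5 (P)
open Pool.Agent.SB (Disc ad eqv)

variable {V : Type} [Fintype V] {H : SimpleGraph V}

theorem disc_pl {l : List V} (h : Disc H l) : Pl H := by
  obtain ⟨F, E, i1, i2, a, b, f, x, w, h1, -, -, h4⟩ := h
  exact Pl.of_spanning h1 h4

/-- split a word at a given mark -/
private theorem split_one {V0 E0 : Type} (w : List (Tok V0 E0)) (l1 l' : List V0) (v : V0)
    (h : marks w = l1 ++ v :: l') :
    ∃ w1 w', w = w1 ++ Sum.inl v :: w' ∧ marks w1 = l1 ∧ marks w' = l' := by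
  obtain ⟨w1, w', h1, h2, h3⟩ := exists_split_mark w l1.length v (by
    rw [h, List.getElem?_append_right le_rfl, Nat.sub_self]
    rfl)
  refine ⟨w1, w', h1, ?_, ?_⟩
  · rw [h2, h, List.take_left]
  · rw [h3, h, List.drop_append]
    simp

/-- split the marks of a word -/
private theorem split_app {V0 E0 : Type} : ∀ (w : List (Tok V0 E0)) (l1 l2 : List V0),
    marks w = l1 ++ l2 → ∃ w1 w2, w = w1 ++ w2 ∧ marks w1 = l1 ∧ marks w2 = l2
  | w, [], l2, h => ⟨[], w, rfl, rfl, h⟩
  | w, v :: l1, l2, h => by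
    obtain ⟨w1, w', h1, h2, h3⟩ := split_one w [] (l1 ++ l2) v h
    obtain ⟨w3, w4, h4, h5, h6⟩ := split_app w' l1 l2 h3
    refine ⟨w1 ++ Sum.inl v :: w3, w4, ?_, ?_, h6⟩
    · rw [h1, h4, List.append_assoc]
      rfl
    · rw [marks_append, h2]
      show v :: marks w3 = _
      rw [h5]

private theorem chord_aux {l1 l2 l3 : List V} {p r : V}
    (h : Disc H (l1 ++ p :: (l2 ++ r :: l3))) :
    ∃ (F E : Type) (_ : Fintype F) (_ : Fintype E) (a : E → V × V) (b : E → F × F) (f : F) (x : V)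
      (w1 w2 w3 : List (Tok V E)), IsPl a b ∧
      Trk a b f x (w1 ++ Sum.inl p :: (w2 ++ Sum.inl r :: w3)) ∧ marks w1 = l1 ∧
      marks w2 = l2 ∧ marks w3 = l3 ∧ ∀ u v, H.Adj u v → Lk a u v := by
  obtain ⟨F, E, i1, i2, a, b, f, x, w, h1, h2, h3, h4⟩ := h
  obtain ⟨w1, w', h5, h6, h7⟩ := split_one w l1 (l2 ++ r :: l3) p h3
  obtain ⟨w2, w3, h8, h9, h10⟩ := split_one w' l2 l3 r h7
  rw [h5, h8] at h2
  exact ⟨F, E, i1, i2, a, b, f, x, w1, w2, w3, h1, h2, h6, h9, h10, h4⟩

private theorem lk_addE {V0 E0 : Type} {H0 : SimpleGraph V0} {a : E0 → V0 × V0}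
    (h : ∀ u v, H0.Adj u v → Lk a u v) (p r : V0) :
    ∀ u v, H0.Adj u v → Lk (addE a p r) u v := by
  intro u v huv
  obtain ⟨e, he⟩ := h u v huv
  exact ⟨some e, he⟩

private theorem lk_ad {V0 E0 : Type} {H0 : SimpleGraph V0} {a : E0 → V0 × V0}
    (h : ∀ u v, H0.Adj u v → Lk a u v) (p r : V0) :
    ∀ u v, (ad H0 p r).Adj u v → Lk (addE a p r) u v := by
  rintro u v (huv | ⟨-, ⟨rfl, rfl⟩ | ⟨rfl, rfl⟩⟩)
  · exact lk_addE h p r u v huv
  · exact ⟨none, Or.inl ⟨rfl, rfl⟩⟩
  · exact ⟨none, Or.inr ⟨rfl, rfl⟩⟩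

theorem disc_chordO {l1 l2 l3 : List V} {p r : V} (h : Disc H (l1 ++ p :: (l2 ++ r :: l3)))
    (hpr : p ≠ r) : Disc (ad H p r) (l1 ++ p :: r :: l3) := by
  obtain ⟨F, E, i1, i2, a, b, f, x, w1, w2, w3, h1, h2, h3, -, h5, h6⟩ := chord_aux h
  obtain ⟨A1, A2, g1, -, g3, -⟩ := h1.insert_trk h2
  refine ⟨Option F, Option E, inferInstance, inferInstance, addE a p r, splitF b f A1 A2, some f, x,
    _, g1, g3, ?_, lk_ad h6 p r⟩
  rw [marks_append, marks_liftTok, h3]
  show l1 ++ p :: r :: marks (liftTok w3) = _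
  rw [marks_liftTok, h5]

theorem disc_chordI {l1 l2 l3 : List V} {p r : V} (h : Disc H (l1 ++ p :: (l2 ++ r :: l3)))
    (hpr : p ≠ r) : Disc (ad H p r) (p :: (l2 ++ [r])) := by
  obtain ⟨F, E, i1, i2, a, b, f, x, w1, w2, w3, h1, h2, -, h4, -, h6⟩ := chord_aux h
  obtain ⟨A1, A2, g1, g2, -, -⟩ := h1.insert_trk h2
  refine ⟨Option F, Option E, inferInstance, inferInstance, addE a p r, splitF b f A1 A2, none, p,
    _, g1, g2, ?_, lk_ad h6 p r⟩
  show p :: marks (liftTok w2 ++ [Sum.inl r, Sum.inr ((none, true), p)]) = _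
  rw [marks_append, marks_liftTok, h4]
  rfl

theorem disc_mg {l1 l3 : List V} {p r : V} (h : Disc H (l1 ++ p :: r :: l3)) (hpr : p ≠ r)
    [Fintype {v : V // v ≠ r}] :
    Disc (mgG H p r hpr) ((l1 ++ p :: l3).map (merge p r hpr)) := by
  classical
  have h' : Disc H (l1 ++ p :: ([] ++ r :: l3)) := h
  obtain ⟨F, E, i1, i2, a, b, f, x, w1, w2, w3, h1, h2, h3, -, h5, h6⟩ := chord_aux h'
  obtain ⟨A1, A2, g1, -, g3, -⟩ := h1.insert_trk h2
  have h0 : ((addE a p r) none).1 ≠ ((addE a p r) none).2 := hpr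
  let iV : Fintype {v : V // v ≠ ((addE a p r) none).2} := ‹Fintype {v : V // v ≠ r}›
  have g4 := g3.contract h0
  have hm : marks (contrTok none (merge p r hpr) (liftTok w1 ++ Sum.inl p ::
      Sum.inr ((none, false), r) :: Sum.inl r :: liftTok w3 : List (Tok V (Option E)))) =
      (l1 ++ p :: r :: l3).map (merge p r hpr) := by
    rw [marks_contrTok, marks_append, marks_liftTok, h3]
    show List.map _ (l1 ++ p :: r :: marks (liftTok w3)) = _
    rw [marks_liftTok, h5]
  have h7 : Disc (mgG H p r hpr) ((l1 ++ p :: r :: l3).map (merge p r hpr)) := by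
    refine ⟨Option F, {e : Option E // e ≠ none}, inferInstance, inferInstance,
      contr (addE a p r) none h0, del (splitF b f A1 A2) none, some f, _, _,
      g1.contract h0, g4, hm, fun u v huv => lk_mgG (a := addE a p r) (lk_addE h6 p r) h0 u v huv⟩
  refine h7.sublist (List.Sublist.map _ ?_)
  exact (List.Sublist.refl l1).append ((List.sublist_cons_self r l3).cons_cons p)

theorem disc_rot {l1 l2 : List V} (h : Disc H (l1 ++ l2)) : Disc H (l2 ++ l1) := by
  obtain ⟨F, E, i1, i2, a, b, f, x, w, h1, h2, h3, h4⟩ := h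
  obtain ⟨w1, w2, h5, h6, h7⟩ := split_app w l1 l2 h3
  rw [h5] at h2
  obtain ⟨z, h8, h9⟩ := (path_append a w1 w2 x x).1 h2.path
  have hperm : (sides (w1 ++ w2)).Perm (sides (w2 ++ w1)) := by
    rw [sides_append, sides_append]
    exact List.perm_append_comm
  refine ⟨F, E, i1, i2, a, b, f, z, w2 ++ w1, h1, ⟨?_, ?_, ?_⟩, ?_, h4⟩
  · exact (path_append a w2 w1 z z).2 ⟨x, h9, h8⟩
  · exact hperm.nodup_iff.1 h2.nodup
  · intro s
    rw [← hperm.mem_iff]
    exact h2.mem s
  · rw [marks_append, h6, h7]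

/-- two adjacent vertices of a plane graph are corners of a face -/
theorem disc_adj (h : Pl H) {x y : V} (hxy : H.Adj x y) : Disc H [x, y] := by
  have : Nonempty V := ⟨x⟩
  obtain ⟨F, E, i1, i2, a, b, hp, hl⟩ := h.exists_spanning
  obtain ⟨e, he⟩ := hl x y hxy
  obtain ⟨l, hm, ht⟩ := Pool.Agent.SB.exists_trk_side hp e false (x := x) (z := y) he
  refine ⟨F, E, i1, i2, a, b, sf b (e, false), x,
    Sum.inl x :: Sum.inr ((e, false), y) :: Sum.inl y :: l, hp, ⟨?_, ht.nodup, ht.mem⟩, ?_, hl⟩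
  · exact ⟨rfl, ht.path.1, rfl, ht.path.2⟩
  · show x :: y :: marks l = [x, y]
    rw [hm]

end Pool.Agent.ZOL
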