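import Pool.Agent.ZOL.Defs
import Mathlib.Combinatorics.SimpleGraph.Sum

/-!
# Sums over colourings of unions and merges

Plan.
* `sum_cols_mg`: `sum_mgG` (`PG/FillMain.lean`) is this statement with `if … then … else 0` and natural
  weights; the bijection of its proof (`c ↦ c ∘ Subtype.val`, `c ↦ c ∘ merge p r h`) works for real weights:
  `Finset.sum_nbij'`.
* `sum_cols_sum`: `c ↦ (c ∘ inl, c ∘ inr)` is a bijection `cols (H ⊕g H') N ≃ cols H N × cols H' N`
  (`SimpleGraph.sum_adj_inl`, …; `Equiv.sumArrowEquivProdArrow`), `Finset.sum_product'`.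
* `sum_z2`, `sum_z4`: fibre the sum over the colours of the given vertices
  (`Finset.sum_fiberwise`-type), the weight is constant on the fibres.
-/

set_option autoImplicit false

noncomputable section

namespace Pool.Agent.ZOL

open Pool.Agent.Helper1.PG
open Pool.Agent.Helper36.BL (cp cnt cols cp_eval mem_cols IsMinor)
open Pool.Agent.U5 (P)
open Pool.Agent.SB (Disc ad eqv)

open scoped Classical in
theorem sum_cols_mg {V : Type} [Fintype V] (G : SimpleGraph V) {p r : V} (h : p ≠ r)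
    (hna : ¬ G.Adj p r) [Fintype {v : V // v ≠ r}] (N : ℕ) (w : (V → Fin N) → ℝ) :
    ∑ c ∈ cols (mgG G p r h) N, w (c ∘ merge p r h) =
      ∑ c ∈ (cols G N).filter (fun c => c p = c r), w c := by
  symm
  refine Finset.sum_nbij' (fun c v => c v.1) (fun c => c ∘ merge p r h) ?_ ?_ ?_ ?_ ?_
  · intro c hc
    obtain ⟨h1, h2⟩ := Finset.mem_filter.1 hc
    rw [mem_cols] at h1 ⊢
    rintro u v ⟨_, u0, v0, h3, h4, h5⟩
    have hval : ∀ z, c (merge p r h z).1 = c z := by
      intro z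
      by_cases hz : z = r
      · rw [hz, merge_self]; exact h2
      · rw [merge_of_ne h hz]
    show c u.1 ≠ c v.1
    rw [← h3, ← h4, hval, hval]
    exact h1 u0 v0 h5
  · intro c hc
    rw [mem_cols] at hc
    refine Finset.mem_filter.2 ⟨?_, ?_⟩
    · rw [mem_cols]
      intro u v huv
      show c (merge p r h u) ≠ c (merge p r h v)
      apply hc
      refine ⟨?_, u, v, rfl, rfl, huv⟩
      intro h2
      rcases merge_eq_iff h u v h2 with h3 | h3 | h3
      · exact huv.ne h3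
      · rw [h3.1, h3.2] at huv; exact hna huv
      · rw [h3.1, h3.2] at huv; exact hna huv.symm
    · show c (merge p r h p) = c (merge p r h r)
      rw [merge_self, merge_of_ne h h]
  · intro c hc
    obtain ⟨h1, h2⟩ := Finset.mem_filter.1 hc
    funext z
    show c (merge p r h z).1 = c z
    by_cases hz : z = r
    · rw [hz, merge_self]; exact h2
    · rw [merge_of_ne h hz]
  · intro c _
    funext v
    show c (merge p r h v.1) = c v
    rw [merge_coe]
  · intro c hc
    obtain ⟨h1, h2⟩ := Finset.mem_filter.1 hc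
    refine congrArg w ?_
    funext z
    show c z = c (merge p r h z).1
    by_cases hz : z = r
    · rw [hz, merge_self]; exact h2.symm
    · rw [merge_of_ne h hz]

theorem sum_cols_sum {V V' : Type} [Fintype V] [Fintype V'] (H : SimpleGraph V)
    (H' : SimpleGraph V') (N : ℕ) (w : (V → Fin N) → (V' → Fin N) → ℝ) :
    ∑ c ∈ cols (H ⊕g H') N, w (c ∘ Sum.inl) (c ∘ Sum.inr) =
      ∑ c ∈ cols H N, ∑ c' ∈ cols H' N, w c c' := by
  rw [← Finset.sum_product']
  refine Finset.sum_nbij' (fun c => (c ∘ Sum.inl, c ∘ Sum.inr)) (fun c => Sum.elim c.1 c.2)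
    ?_ ?_ ?_ ?_ ?_
  · intro c hc
    rw [mem_cols] at hc
    refine Finset.mem_product.2 ⟨?_, ?_⟩
    · show c ∘ Sum.inl ∈ cols H N
      rw [mem_cols]
      intro x y hxy
      exact hc (Sum.inl x) (Sum.inl y) hxy
    · show c ∘ Sum.inr ∈ cols H' N
      rw [mem_cols]
      intro x y hxy
      exact hc (Sum.inr x) (Sum.inr y) hxy
  · intro c hc
    obtain ⟨h1, h2⟩ := Finset.mem_product.1 hc
    rw [mem_cols] at h1 h2 ⊢
    rintro (x | x) (y | y) hxy
    · exact h1 x y hxy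
    · exact absurd hxy (by simp)
    · exact absurd hxy (by simp)
    · exact h2 x y hxy
  · intro c _
    exact Sum.elim_comp_inl_inr c
  · intro c _
    rfl
  · intro c _
    rfl

theorem sum_z2 {V : Type} [Fintype V] (H : SimpleGraph V) (p0 p1 : V) (N : ℕ)
    (w : Fin N → Fin N → ℝ) :
    ∑ c ∈ cols H N, w (c p0) (c p1) = ∑ x0, ∑ x1, (z2 H p0 p1 N x0 x1 : ℝ) * w x0 x1 := by
  have h1 : ∀ x0 x1 : Fin N, (z2 H p0 p1 N x0 x1 : ℝ) * w x0 x1 =
      ∑ c ∈ cols H N, if c p0 = x0 ∧ c p1 = x1 then w x0 x1 else 0 := by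
    intro x0 x1
    unfold z2
    rw [← Finset.sum_filter, Finset.sum_const, nsmul_eq_mul]
  simp only [h1]
  have h2 : ∀ x0 : Fin N,
      ∑ x1, ∑ c ∈ cols H N, (if c p0 = x0 ∧ c p1 = x1 then w x0 x1 else 0) =
      ∑ c ∈ cols H N, if c p0 = x0 then w x0 (c p1) else 0 := by
    intro x0
    rw [Finset.sum_comm]
    refine Finset.sum_congr rfl fun c _ => ?_
    by_cases h : c p0 = x0
    · simp only [h, true_and, if_true]
      rw [Finset.sum_ite_eq, if_pos (Finset.mem_univ _)]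
    · simp only [h, false_and, if_false, Finset.sum_const_zero]
  simp only [h2]
  rw [Finset.sum_comm]
  refine Finset.sum_congr rfl fun c _ => ?_
  rw [Finset.sum_ite_eq, if_pos (Finset.mem_univ _)]

theorem sum_z4 {V : Type} [Fintype V] (H : SimpleGraph V) (p0 p1 p2 p3 : V) (N : ℕ)
    (w : Fin N → Fin N → Fin N → Fin N → ℝ) :
    ∑ c ∈ cols H N, w (c p0) (c p1) (c p2) (c p3) =
      ∑ x0, ∑ x1, ∑ x2, ∑ x3, (z4 H p0 p1 p2 p3 N x0 x1 x2 x3 : ℝ) * w x0 x1 x2 x3 := by
  have h1 : ∀ x0 x1 x2 x3 : Fin N, (z4 H p0 p1 p2 p3 N x0 x1 x2 x3 : ℝ) * w x0 x1 x2 x3 =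
      ∑ c ∈ cols H N,
        if c p0 = x0 ∧ c p1 = x1 ∧ c p2 = x2 ∧ c p3 = x3 then w x0 x1 x2 x3 else 0 := by
    intro x0 x1 x2 x3
    unfold z4
    rw [← Finset.sum_filter, Finset.sum_const, nsmul_eq_mul]
  simp only [h1]
  have h2 : ∀ x0 x1 x2 : Fin N,
      ∑ x3, ∑ c ∈ cols H N,
        (if c p0 = x0 ∧ c p1 = x1 ∧ c p2 = x2 ∧ c p3 = x3 then w x0 x1 x2 x3 else 0) =
      ∑ c ∈ cols H N, if c p0 = x0 ∧ c p1 = x1 ∧ c p2 = x2 then w x0 x1 x2 (c p3) else 0 := by
    intro x0 x1 x2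
    rw [Finset.sum_comm]
    refine Finset.sum_congr rfl fun c _ => ?_
    by_cases h : c p0 = x0 ∧ c p1 = x1 ∧ c p2 = x2
    · rw [if_pos h]
      simp only [h.1, h.2.1, h.2.2, true_and]
      rw [Finset.sum_ite_eq, if_pos (Finset.mem_univ _)]
    · rw [if_neg h]
      refine Finset.sum_eq_zero fun x3 _ => if_neg ?_
      rintro ⟨h3, h4, h5, _⟩
      exact h ⟨h3, h4, h5⟩
  simp only [h2]
  have h3 : ∀ x0 x1 : Fin N,
      ∑ x2, ∑ c ∈ cols H N,
        (if c p0 = x0 ∧ c p1 = x1 ∧ c p2 = x2 then w x0 x1 x2 (c p3) else 0) =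
      ∑ c ∈ cols H N, if c p0 = x0 ∧ c p1 = x1 then w x0 x1 (c p2) (c p3) else 0 := by
    intro x0 x1
    rw [Finset.sum_comm]
    refine Finset.sum_congr rfl fun c _ => ?_
    by_cases h : c p0 = x0 ∧ c p1 = x1
    · rw [if_pos h]
      simp only [h.1, h.2, true_and]
      rw [Finset.sum_ite_eq, if_pos (Finset.mem_univ _)]
    · rw [if_neg h]
      refine Finset.sum_eq_zero fun x3 _ => if_neg ?_
      rintro ⟨h3, h4, _⟩
      exact h ⟨h3, h4⟩
  simp only [h3]
  have h4 : ∀ x0 : Fin N,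
      ∑ x1, ∑ c ∈ cols H N,
        (if c p0 = x0 ∧ c p1 = x1 then w x0 x1 (c p2) (c p3) else 0) =
      ∑ c ∈ cols H N, if c p0 = x0 then w x0 (c p1) (c p2) (c p3) else 0 := by
    intro x0
    rw [Finset.sum_comm]
    refine Finset.sum_congr rfl fun c _ => ?_
    by_cases h : c p0 = x0
    · simp only [h, true_and, if_true]
      rw [Finset.sum_ite_eq, if_pos (Finset.mem_univ _)]
    · simp only [h, false_and, if_false, Finset.sum_const_zero]
  simp only [h4]
  rw [Finset.sum_comm]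
  refine Finset.sum_congr rfl fun c _ => ?_
  rw [Finset.sum_ite_eq, if_pos (Finset.mem_univ _)]

end Pool.Agent.ZOL
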