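import Pool.Agent.ZOL.Defs
import Mathlib.Combinatorics.SimpleGraph.Sum

/-!
# The disjoint union of two discs

JOB ZOL-Uni.  Prove the theorem of this file (keep the statement).

Plan.  Let `a b f x w` and `a' b' f' x' w'` witness the two discs.  New plane multigraph: vertices
`V ⊕ V'`, edges `Option (E ⊕ E')` (`none` joins `inl x` and `inr x'`), faces `F ⊕ {g : F' // g ≠ f'}`
where `f'` is identified with `f`: `φ g = if h : g = f' then inl f else inr ⟨g, h⟩`; both sides of
`none` are `inl f`.  Check `IsPl` (structure `IsPlane` with `conn`, `dconn`, `orth`, `euler`, and `fc`):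
* `conn`: map walks by `inl`, `inr`, use the edge `none`; `dconn`: map walks by `inl`, `φ`.
* `orth`: split the sum over `Option (E ⊕ E')`; the edge `none` contributes `st * 0` (both its sides are
  the same face); edges of the other part contribute `0` because `st a'' (inl v) (inr e') = 0`;
  what remains is `orth` of one of the two parts (for the face `inl f` and `v' : V'` the indicator of
  `φ g = inl f` is the one of `g = f'`).
* `euler`: `Fintype.card` of the sums, `card {g // g ≠ f'} + 1 = card F'` (`card_ne`).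
* `fc`: a face `inl g`, `g ≠ f`: `fc` of the first part; `inr g`: second part; `inl f`: `Trk.fc` for both
  words and the edge `none`.
* the word `w` (mapped by `inl`) ++ `[inr ((none, false), inr x')]` ++ `w'` (mapped by `inr`) ++
  `[inr ((none, true), inl x)]` is tracked on `inl f` from `inl x` (path, nodup, mem), its marks are
  `l.map inl ++ l'.map inr`.  If this order of `false`/`true` is awkward exchange them.
* links: `(H ⊕g H').Adj` is `H.Adj` or `H'.Adj`.
-/

set_option autoImplicit false

noncomputable section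

namespace Pool.Agent.ZOL

open Pool.Agent.Helper1.PG
open Pool.Agent.Helper36.BL (cp cnt cols cp_eval mem_cols IsMinor)
open Pool.Agent.U5 (P)
open Pool.Agent.SB (Disc ad eqv)

section

variable {V V' F F' E E' : Type}

/-- the edges of the union -/
private def uA (a : E → V × V) (a' : E' → V' × V') (x : V) (x' : V') :
    Option (E ⊕ E') → (V ⊕ V') × (V ⊕ V')
  | none => (Sum.inl x, Sum.inr x')
  | some (Sum.inl e) => (Sum.inl (a e).1, Sum.inl (a e).2)
  | some (Sum.inr e) => (Sum.inr (a' e).1, Sum.inr (a' e).2)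

open Classical in
/-- the faces of the second part -/
private def uphi (f : F) (f' : F') (g : F') : F ⊕ {g : F' // g ≠ f'} :=
  if h : g = f' then Sum.inl f else Sum.inr ⟨g, h⟩

private def uB (b : E → F × F) (b' : E' → F' × F') (f : F) (f' : F') :
    Option (E ⊕ E') → (F ⊕ {g : F' // g ≠ f'}) × (F ⊕ {g : F' // g ≠ f'})
  | none => (Sum.inl f, Sum.inl f)
  | some (Sum.inl e) => (Sum.inl (b e).1, Sum.inl (b e).2)
  | some (Sum.inr e) => (uphi f f' (b' e).1, uphi f f' (b' e).2)

private theorem uphi_self (f : F) (f' : F') : uphi f f' f' = Sum.inl f := by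
  unfold uphi
  rw [dif_pos rfl]

private theorem uphi_ne (f : F) {f' g : F'} (h : g ≠ f') : uphi f f' g = Sum.inr ⟨g, h⟩ := by
  unfold uphi
  rw [dif_neg h]

private theorem uphi_inl {f : F} {f' g : F'} : uphi f f' g = Sum.inl f ↔ g = f' := by
  by_cases h : g = f'
  · subst h
    exact ⟨fun _ => rfl, fun _ => uphi_self f g⟩
  · rw [uphi_ne f h]
    exact ⟨fun h1 => (by cases h1), fun h1 => absurd h1 h⟩

private theorem uphi_inl_ne {f g0 : F} {f' g : F'} (h0 : g0 ≠ f) :
    ¬ uphi f f' g = Sum.inl g0 := by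
  by_cases h : g = f'
  · subst h
    rw [uphi_self]
    intro h1
    exact h0 (Sum.inl.inj h1).symm
  · rw [uphi_ne f h]
    intro h1
    cases h1

private theorem uphi_inr {f : F} {f' g : F'} (k : {g : F' // g ≠ f'}) :
    uphi f f' g = Sum.inr k ↔ g = k.1 := by
  by_cases h : g = f'
  · subst h
    rw [uphi_self]
    exact ⟨fun h1 => (by cases h1), fun h1 => absurd h1.symm k.2⟩
  · rw [uphi_ne f h]
    constructor
    · intro h1
      exact congrArg Subtype.val (Sum.inr.inj h1)
    · intro h1
      exact congrArg Sum.inr (Subtype.ext h1)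

variable {a : E → V × V} {b : E → F × F} {a' : E' → V' × V'} {b' : E' → F' × F'} {x : V} {x' : V'}
  {f : F} {f' : F'}

private theorem lk_l {u v : V} (h : Lk a u v) : Lk (uA a a' x x') (Sum.inl u) (Sum.inl v) := by
  obtain ⟨e, h | h⟩ := h
  · exact ⟨some (Sum.inl e), Or.inl ⟨congrArg Sum.inl h.1, congrArg Sum.inl h.2⟩⟩
  · exact ⟨some (Sum.inl e), Or.inr ⟨congrArg Sum.inl h.1, congrArg Sum.inl h.2⟩⟩

private theorem lk_r {u v : V'} (h : Lk a' u v) : Lk (uA a a' x x') (Sum.inr u) (Sum.inr v) := by
  obtain ⟨e, h | h⟩ := h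
  · exact ⟨some (Sum.inr e), Or.inl ⟨congrArg Sum.inr h.1, congrArg Sum.inr h.2⟩⟩
  · exact ⟨some (Sum.inr e), Or.inr ⟨congrArg Sum.inr h.1, congrArg Sum.inr h.2⟩⟩

private theorem lkb_l {u v : F} (h : Lk b u v) : Lk (uB b b' f f') (Sum.inl u) (Sum.inl v) := by
  obtain ⟨e, h | h⟩ := h
  · exact ⟨some (Sum.inl e), Or.inl ⟨congrArg Sum.inl h.1, congrArg Sum.inl h.2⟩⟩
  · exact ⟨some (Sum.inl e), Or.inr ⟨congrArg Sum.inl h.1, congrArg Sum.inl h.2⟩⟩

private theorem lkb_r {u v : F'} (h : Lk b' u v) :
    Lk (uB b b' f f') (uphi f f' u) (uphi f f' v) := by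
  obtain ⟨e, h | h⟩ := h
  · exact ⟨some (Sum.inr e), Or.inl ⟨congrArg (uphi f f') h.1, congrArg (uphi f f') h.2⟩⟩
  · exact ⟨some (Sum.inr e), Or.inr ⟨congrArg (uphi f f') h.1, congrArg (uphi f f') h.2⟩⟩

private theorem inc_l {g : F} {e : E} :
    Inc (uB b b' f f') (Sum.inl g) (some (Sum.inl e)) ↔ Inc b g e := by
  constructor
  · rintro (h | h)
    · exact Or.inl (Sum.inl.inj h)
    · exact Or.inr (Sum.inl.inj h)
  · rintro (h | h)
    · exact Or.inl (congrArg Sum.inl h)
    · exact Or.inr (congrArg Sum.inl h)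

private theorem inc_r {g : F ⊕ {g : F' // g ≠ f'}} {k : F'} (hk : ∀ y, uphi f f' y = g ↔ y = k)
    {e : E'} : Inc (uB b b' f f') g (some (Sum.inr e)) ↔ Inc b' k e := by
  constructor
  · rintro (h | h)
    · exact Or.inl ((hk _).1 h)
    · exact Or.inr ((hk _).1 h)
  · rintro (h | h)
    · exact Or.inl ((hk _).2 h)
    · exact Or.inr ((hk _).2 h)

private theorem lkOn_l {g : F} {u v : V} (h : LkOn a (Inc b g) u v) :
    LkOn (uA a a' x x') (Inc (uB b b' f f') (Sum.inl g)) (Sum.inl u) (Sum.inl v) := by
  obtain ⟨e, he, h | h⟩ := h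
  · exact ⟨some (Sum.inl e), inc_l.2 he, Or.inl ⟨congrArg Sum.inl h.1, congrArg Sum.inl h.2⟩⟩
  · exact ⟨some (Sum.inl e), inc_l.2 he, Or.inr ⟨congrArg Sum.inl h.1, congrArg Sum.inl h.2⟩⟩

private theorem lkOn_r {g : F ⊕ {g : F' // g ≠ f'}} {k : F'}
    (hk : ∀ y, uphi f f' y = g ↔ y = k) {u v : V'} (h : LkOn a' (Inc b' k) u v) :
    LkOn (uA a a' x x') (Inc (uB b b' f f') g) (Sum.inr u) (Sum.inr v) := by
  obtain ⟨e, he, h | h⟩ := h
  · exact ⟨some (Sum.inr e), (inc_r hk).2 he,
      Or.inl ⟨congrArg Sum.inr h.1, congrArg Sum.inr h.2⟩⟩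
  · exact ⟨some (Sum.inr e), (inc_r hk).2 he,
      Or.inr ⟨congrArg Sum.inr h.1, congrArg Sum.inr h.2⟩⟩

private theorem plane_union [Fintype V] [Fintype V'] [Fintype F] [Fintype F'] [Fintype E]
    [Fintype E'] [Fintype {g : F' // g ≠ f'}] (h : IsPlane a b) (h' : IsPlane a' b') :
    IsPlane (uA a a' x x') (uB b b' f f') := by
  have hs : ∀ y z, Lk (uA a a' x x') y z → Lk (uA a a' x x') z y := fun _ _ h => h.symm
  have hsb : ∀ y z, Lk (uB b b' f f') y z → Lk (uB b b' f f') z y := fun _ _ h => h.symm
  have key : ∀ y, Relation.ReflTransGen (Lk (uA a a' x x')) y (Sum.inl x) := by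
    rintro (v | v)
    · exact (h.conn v x).lift Sum.inl (fun _ _ h => lk_l h)
    · refine Relation.ReflTransGen.tail
        ((h'.conn v x').lift Sum.inr (fun _ _ h => lk_r h)) ?_
      exact ⟨none, Or.inr ⟨rfl, rfl⟩⟩
  have keyb : ∀ g, Relation.ReflTransGen (Lk (uB b b' f f')) g (Sum.inl f) := by
    rintro (g | ⟨g, hg⟩)
    · exact (h.dconn g f).lift Sum.inl (fun _ _ h => lkb_l h)
    · have h1 : Relation.ReflTransGen (Lk (uB b b' f f')) (uphi f f' g) (uphi f f' f') :=
        (h'.dconn g f').lift (uphi f f') (fun _ _ h => lkb_r h)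
      rw [uphi_self, uphi_ne f hg] at h1
      exact h1
  refine ⟨?_, ?_, ?_, ?_⟩
  · intro y z
    exact (key y).trans (rtg_symm hs (key z))
  · intro y z
    exact (keyb y).trans (rtg_symm hsb (keyb z))
  · intro v g
    rw [Fintype.sum_option, Fintype.sum_sum_type]
    have h1 : st (uB b b' f f') g none = 0 := z2_add_self _
    rw [h1, mul_zero, zero_add]
    rcases v with u | u
    · have h2 : ∑ e, st (uA a a' x x') (Sum.inl u) (some (Sum.inr e)) *
          st (uB b b' f f') g (some (Sum.inr e)) = 0 := by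
        apply Finset.sum_eq_zero
        intro e _
        have h3 : st (uA a a' x x') (Sum.inl u) (some (Sum.inr e)) = 0 := by
          unfold st uA
          rw [ind_false (by simp), ind_false (by simp), add_zero]
        rw [h3, zero_mul]
      rw [h2, add_zero]
      rcases g with g | g
      · rw [← h.orth u g]
        apply Finset.sum_congr rfl
        intro e _
        have h3 : st (uA a a' x x') (Sum.inl u) (some (Sum.inl e)) = st a u e := by
          unfold st uA
          rw [ind_congr Sum.inl_injective.eq_iff, ind_congr Sum.inl_injective.eq_iff]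
        have h4 : st (uB b b' f f') (Sum.inl g) (some (Sum.inl e)) = st b g e := by
          unfold st uB
          rw [ind_congr Sum.inl_injective.eq_iff, ind_congr Sum.inl_injective.eq_iff]
        rw [h3, h4]
      · apply Finset.sum_eq_zero
        intro e _
        have h3 : st (uB b b' f f') (Sum.inr g) (some (Sum.inl e)) = 0 := by
          unfold st uB
          rw [ind_false (by simp), ind_false (by simp), add_zero]
        rw [h3, mul_zero]
    · have h2 : ∑ e, st (uA a a' x x') (Sum.inr u) (some (Sum.inl e)) *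
          st (uB b b' f f') g (some (Sum.inl e)) = 0 := by
        apply Finset.sum_eq_zero
        intro e _
        have h3 : st (uA a a' x x') (Sum.inr u) (some (Sum.inl e)) = 0 := by
          unfold st uA
          rw [ind_false (by simp), ind_false (by simp), add_zero]
        rw [h3, zero_mul]
      rw [h2, zero_add]
      have h5 : ∀ e, st (uA a a' x x') (Sum.inr u) (some (Sum.inr e)) = st a' u e := by
        intro e
        unfold st uA
        rw [ind_congr Sum.inr_injective.eq_iff, ind_congr Sum.inr_injective.eq_iff]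
      have h6 : ∀ k : F', (∀ y, uphi f f' y = g ↔ y = k) →
          ∑ e, st (uA a a' x x') (Sum.inr u) (some (Sum.inr e)) *
            st (uB b b' f f') g (some (Sum.inr e)) = 0 := by
        intro k hk
        rw [← h'.orth u k]
        apply Finset.sum_congr rfl
        intro e _
        have h7 : st (uB b b' f f') g (some (Sum.inr e)) = st b' k e := by
          unfold st uB
          rw [ind_congr (hk _), ind_congr (hk _)]
        rw [h5, h7]
      rcases g with g | g
      · by_cases hg : g = f
        · subst hg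
          exact h6 f' (fun y => uphi_inl)
        · apply Finset.sum_eq_zero
          intro e _
          have h3 : st (uB b b' f f') (Sum.inl g) (some (Sum.inr e)) = 0 := by
            unfold st uB
            rw [ind_false (uphi_inl_ne hg), ind_false (uphi_inl_ne hg), add_zero]
          rw [h3, mul_zero]
      · exact h6 g.1 (fun y => uphi_inr g)
  · have h1 := h.euler
    have h2 := h'.euler
    have h3 := card_ne f'
    rw [Fintype.card_sum, Fintype.card_sum, Fintype.card_option, Fintype.card_sum]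
    omega

private def tokL : Tok V E → Tok (V ⊕ V') (Option (E ⊕ E'))
  | Sum.inl v => Sum.inl (Sum.inl v)
  | Sum.inr (s, z) => Sum.inr ((some (Sum.inl s.1), s.2), Sum.inl z)

private def tokR : Tok V' E' → Tok (V ⊕ V') (Option (E ⊕ E'))
  | Sum.inl v => Sum.inl (Sum.inr v)
  | Sum.inr (s, z) => Sum.inr ((some (Sum.inr s.1), s.2), Sum.inr z)

private theorem sides_L : ∀ w : List (Tok V E),
    sides (w.map (tokL (V' := V') (E' := E'))) =
      (sides w).map (fun s => (some (Sum.inl s.1), s.2))
  | [] => rfl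
  | (Sum.inl _ :: w) => sides_L w
  | (Sum.inr (s, _) :: w) => congrArg ((some (Sum.inl s.1), s.2) :: ·) (sides_L w)

private theorem sides_R : ∀ w : List (Tok V' E'),
    sides (w.map (tokR (V := V) (E := E))) =
      (sides w).map (fun s => (some (Sum.inr s.1), s.2))
  | [] => rfl
  | (Sum.inl _ :: w) => sides_R w
  | (Sum.inr (s, _) :: w) => congrArg ((some (Sum.inr s.1), s.2) :: ·) (sides_R w)

private theorem marks_L : ∀ w : List (Tok V E),
    marks (w.map (tokL (V' := V') (E' := E'))) = (marks w).map Sum.inl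
  | [] => rfl
  | (Sum.inl v :: w) => congrArg (Sum.inl v :: ·) (marks_L w)
  | (Sum.inr (_, _) :: w) => marks_L w

private theorem marks_R : ∀ w : List (Tok V' E'),
    marks (w.map (tokR (V := V) (E := E))) = (marks w).map Sum.inr
  | [] => rfl
  | (Sum.inl v :: w) => congrArg (Sum.inr v :: ·) (marks_R w)
  | (Sum.inr (_, _) :: w) => marks_R w

private theorem path_L : ∀ (w : List (Tok V E)) (u v : V), Path a u w v →
    Path (uA a a' x x') (Sum.inl u) (w.map tokL) (Sum.inl v)
  | [], u, v, h => congrArg Sum.inl h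
  | (Sum.inl _ :: w), u, v, h => ⟨congrArg Sum.inl h.1, path_L w u v h.2⟩
  | (Sum.inr (s, z) :: w), u, v, h => by
    refine ⟨?_, path_L w z v h.2⟩
    rcases h.1 with ⟨h1, h2⟩ | ⟨h1, h2⟩
    · exact Or.inl ⟨congrArg Sum.inl h1, congrArg Sum.inl h2⟩
    · exact Or.inr ⟨congrArg Sum.inl h1, congrArg Sum.inl h2⟩

private theorem path_R : ∀ (w : List (Tok V' E')) (u v : V'), Path a' u w v →
    Path (uA a a' x x') (Sum.inr u) (w.map tokR) (Sum.inr v)
  | [], u, v, h => congrArg Sum.inr h
  | (Sum.inl _ :: w), u, v, h => ⟨congrArg Sum.inr h.1, path_R w u v h.2⟩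
  | (Sum.inr (s, z) :: w), u, v, h => by
    refine ⟨?_, path_R w z v h.2⟩
    rcases h.1 with ⟨h1, h2⟩ | ⟨h1, h2⟩
    · exact Or.inl ⟨congrArg Sum.inr h1, congrArg Sum.inr h2⟩
    · exact Or.inr ⟨congrArg Sum.inr h1, congrArg Sum.inr h2⟩

private theorem pl_union [Fintype V] [Fintype V'] [Fintype F] [Fintype F'] [Fintype E]
    [Fintype E'] [Fintype {g : F' // g ≠ f'}] (h : IsPl a b) (h' : IsPl a' b')
    {w : List (Tok V E)} {w' : List (Tok V' E')} (ht : Trk a b f x w) (ht' : Trk a' b' f' x' w') :
    IsPl (uA a a' x x') (uB b b' f f') := by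
  refine ⟨plane_union h.toIsPlane h'.toIsPlane, ?_⟩
  have key : ∀ d, Inc (uB b b' f f') (Sum.inl f) d → Relation.ReflTransGen
      (LkOn (uA a a' x x') (Inc (uB b b' f f') (Sum.inl f))) (Sum.inl x) (uA a a' x x' d).1 := by
    rintro (_ | e | e) hd
    · exact Relation.ReflTransGen.refl
    · exact (ht.fc (inc_l.1 hd)).lift Sum.inl (fun _ _ h => lkOn_l h)
    · have hk : ∀ y, uphi f f' y = Sum.inl f ↔ y = f' := fun y => uphi_inl
      refine Relation.ReflTransGen.head (b := Sum.inr x') ?_
        ((ht'.fc ((inc_r hk).1 hd)).lift Sum.inr (fun _ _ h => lkOn_r hk h))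
      exact ⟨none, Or.inl rfl, Or.inl ⟨rfl, rfl⟩⟩
  have hsymm : ∀ g, ∀ y z, LkOn (uA a a' x x') (Inc (uB b b' f f') g) y z →
      LkOn (uA a a' x x') (Inc (uB b b' f f') g) z y := fun _ _ _ h => h.symm
  rintro (g | g) d d' hd hd'
  · by_cases hg : g = f
    · subst hg
      exact (rtg_symm (hsymm _) (key d hd)).trans (key d' hd')
    · have hcase : ∀ d, Inc (uB b b' f f') (Sum.inl g) d → ∃ e, d = some (Sum.inl e) ∧
          Inc b g e := by
        rintro (_ | e | e) hd
        · rcases hd with hd | hd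
          · exact absurd (Sum.inl.inj hd).symm hg
          · exact absurd (Sum.inl.inj hd).symm hg
        · exact ⟨e, rfl, inc_l.1 hd⟩
        · rcases hd with hd | hd
          · exact absurd hd (uphi_inl_ne hg)
          · exact absurd hd (uphi_inl_ne hg)
      obtain ⟨e, rfl, he⟩ := hcase d hd
      obtain ⟨e', rfl, he'⟩ := hcase d' hd'
      exact (h.fc g e e' he he').lift Sum.inl (fun _ _ h => lkOn_l h)
  · have hk : ∀ y, uphi f f' y = Sum.inr g ↔ y = g.1 := fun y => uphi_inr g
    have hcase : ∀ d, Inc (uB b b' f f') (Sum.inr g) d → ∃ e, d = some (Sum.inr e) ∧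
        Inc b' g.1 e := by
      rintro (_ | e | e) hd
      · rcases hd with hd | hd
        · cases hd
        · cases hd
      · rcases hd with hd | hd
        · cases hd
        · cases hd
      · exact ⟨e, rfl, (inc_r hk).1 hd⟩
    obtain ⟨e, rfl, he⟩ := hcase d hd
    obtain ⟨e', rfl, he'⟩ := hcase d' hd'
    exact (h'.fc g.1 e e' he he').lift Sum.inr (fun _ _ h => lkOn_r hk h)

private theorem trk_union {w : List (Tok V E)} {w' : List (Tok V' E')} (ht : Trk a b f x w)
    (ht' : Trk a' b' f' x' w') :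
    Trk (uA a a' x x') (uB b b' f f') (Sum.inl f) (Sum.inl x)
      (w.map tokL ++ (Sum.inr ((none, false), Sum.inr x') ::
        (w'.map tokR ++ [Sum.inr ((none, true), Sum.inl x)]))) := by
  have hsides : sides (w.map (tokL (V' := V') (E' := E')) ++ (Sum.inr ((none, false), Sum.inr x') ::
        (w'.map tokR ++ [Sum.inr ((none, true), Sum.inl x)]))) =
      (sides w).map (fun s => (some (Sum.inl s.1), s.2)) ++ ((none, false) ::
        ((sides w').map (fun s => (some (Sum.inr s.1), s.2)) ++ [(none, true)])) := by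
    rw [sides_append, sides_L]
    congr 1
    show (none, false) :: sides (w'.map tokR ++ [Sum.inr ((none, true), Sum.inl x)]) = _
    rw [sides_append, sides_R]
    rfl
  refine ⟨?_, ?_, ?_⟩
  · rw [path_append]
    refine ⟨Sum.inl x, path_L w x x ht.path, ?_⟩
    refine ⟨Or.inl ⟨rfl, rfl⟩, ?_⟩
    rw [path_append]
    exact ⟨Sum.inr x', path_R w' x' x' ht'.path, Or.inr ⟨rfl, rfl⟩, rfl⟩
  · rw [hsides, List.nodup_append]
    refine ⟨?_, ?_, ?_⟩
    · apply ht.nodup.map
      rintro ⟨e, c⟩ ⟨e', c'⟩ hh
      simp only [Prod.mk.injEq, Option.some.injEq, Sum.inl.injEq] at hh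
      rw [hh.1, hh.2]
    · rw [List.nodup_cons, List.nodup_append]
      refine ⟨?_, ?_, List.nodup_singleton _, ?_⟩
      · simp
      · apply ht'.nodup.map
        rintro ⟨e, c⟩ ⟨e', c'⟩ hh
        simp only [Prod.mk.injEq, Option.some.injEq, Sum.inr.injEq] at hh
        rw [hh.1, hh.2]
      · intro s hs s' hs'
        rw [List.mem_map] at hs
        obtain ⟨t, _, rfl⟩ := hs
        rw [List.mem_singleton] at hs'
        subst hs'
        simp
    · intro s hs s' hs'
      rw [List.mem_map] at hs
      obtain ⟨t, _, rfl⟩ := hs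
      rw [List.mem_cons, List.mem_append, List.mem_map, List.mem_singleton] at hs'
      rcases hs' with rfl | ⟨t', _, rfl⟩ | rfl
      · simp
      · simp
      · simp
  · rintro ⟨d, c⟩
    rw [hsides]
    rcases d with _ | e | e
    · have h1 : sf (uB b b' f f') (none, c) = Sum.inl f := by
        cases c <;> rfl
      rw [h1]
      cases c <;> simp
    · have h1 : sf (uB b b' f f') (some (Sum.inl e), c) = Sum.inl (sf b (e, c)) := by
        cases c <;> rfl
      rw [h1, Sum.inl_injective.eq_iff, ← ht.mem]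
      simp
    · have h1 : sf (uB b b' f f') (some (Sum.inr e), c) = uphi f f' (sf b' (e, c)) := by
        cases c <;> rfl
      rw [h1, uphi_inl, ← ht'.mem]
      simp

end

theorem disc_union {V V' : Type} [Fintype V] [Fintype V'] {H : SimpleGraph V}
    {H' : SimpleGraph V'} {l : List V} {l' : List V'} (h : Disc H l) (h' : Disc H' l') :
    Disc (H ⊕g H') (l.map Sum.inl ++ l'.map Sum.inr) := by
  classical
  obtain ⟨F, E, i1, i2, a, b, f, x, w, h1, h2, h3, h4⟩ := h
  obtain ⟨F', E', i1', i2', a', b', f', x', w', h1', h2', h3', h4'⟩ := h'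
  refine ⟨F ⊕ {g : F' // g ≠ f'}, Option (E ⊕ E'), inferInstance, inferInstance, uA a a' x x',
    uB b b' f f', Sum.inl f, Sum.inl x, _, pl_union h1 h1' h2 h2', trk_union h2 h2', ?_, ?_⟩
  · rw [marks_append, marks_L, h3]
    congr 1
    show marks (w'.map tokR ++ [Sum.inr ((none, true), Sum.inl x)]) = _
    rw [marks_append, marks_R, h3']
    exact List.append_nil _
  · rintro (u | u) (v | v) huv
    · exact lk_l (h4 u v huv)
    · exact absurd huv (by simp)
    · exact absurd huv (by simp)
    · exact lk_r (h4' u v huv)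

end Pool.Agent.ZOL
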