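import Pool.Agent.ZOL.SgDefs
import Pool.Agent.ZOL.Clo
import Pool.Agent.ZOL.Uni
import Pool.Agent.ZOL.MgSum

/-!
# Parallel and series composition of networks

Parallel: the disjoint union is in a disc with the corners `x, y, y', x'`; merge `y'` into `y`, then `x` into `x'`.
Series: the corners are `x, y, x', y'`; merge `x'` into `y` and drop the merged corner.
-/

set_option autoImplicit false

noncomputable section

namespace Pool.Agent.ZOL

open Pool.Agent.Helper1.PG
open Pool.Agent.Helper36.BL (cp cnt cols cp_eval mem_cols IsMinor)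
open Pool.Agent.U5 (P)
open Pool.Agent.SB (Disc ad eqv)

variable {V V' : Type} [Fintype V] [Fintype V'] {H : SimpleGraph V} {H' : SimpleGraph V'}
  {x y : V} {x' y' : V'}

private theorem z2_sum {V0 : Type} [Fintype V0] (G : SimpleGraph V0) (p0 p1 : V0) (N : ℕ)
    (a b : Fin N) :
    (z2 G p0 p1 N a b : ℝ) = ∑ c ∈ cols G N, if c p0 = a ∧ c p1 = b then (1 : ℝ) else 0 := by
  unfold z2
  rw [Finset.card_filter]
  push_cast
  rfl

private theorem sum_merge {V0 : Type} [Fintype V0] (G : SimpleGraph V0) {p r : V0} (h : p ≠ r)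
    (hna : ¬ G.Adj p r) [Fintype {v : V0 // v ≠ r}] (N : ℕ) (w : (V0 → Fin N) → ℝ) :
    ∑ c ∈ cols (mgG G p r h) N, w (c ∘ merge p r h) =
      ∑ c ∈ cols G N, if c p = c r then w c else 0 := by
  rw [sum_cols_mg G h hna N w, Finset.sum_filter]

theorem exists_par2 (h : N2 H x y) (h' : N2 H' x' y') :
    ∃ (W : Type) (_ : Fintype W) (Y : SimpleGraph W) (s t : W), N2 Y s t ∧
      ∀ (N : ℕ) (a b : Fin N), z2 Y s t N a b = z2 H x y N a b * z2 H' x' y' N a b := by
  classical
  have d' : Disc H' [y', x'] := disc_rot (l1 := [x']) (l2 := [y']) h'.disc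
  have d0 : Disc (H ⊕g H') ([Sum.inl x] ++ Sum.inl y :: Sum.inr y' :: [Sum.inr x']) :=
    disc_union h.disc d'
  have hpr : (Sum.inl y : V ⊕ V') ≠ Sum.inr y' := Sum.inl_ne_inr
  have hna : ¬ (H ⊕g H').Adj (Sum.inl y) (Sum.inr y') := by simp
  have d1 := disc_mg d0 hpr
  set m := merge (Sum.inl y : V ⊕ V') (Sum.inr y') hpr with hm
  have d2 : Disc (mgG (H ⊕g H') (Sum.inl y) (Sum.inr y') hpr)
      ([] ++ m (Sum.inr x') :: m (Sum.inl x) :: [m (Sum.inl y)]) :=
    disc_rot (l1 := [m (Sum.inl x), m (Sum.inl y)]) (l2 := [m (Sum.inr x')]) d1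
  have hpr2 : m (Sum.inr x') ≠ m (Sum.inl x) := by
    intro e
    rcases merge_eq_iff hpr _ _ e with h1 | h1 | h1
    · exact Sum.inr_ne_inl h1
    · exact Sum.inr_ne_inl h1.1
    · exact h.ne (Sum.inl.inj h1.2)
  have hna2 : ¬ (mgG (H ⊕g H') (Sum.inl y) (Sum.inr y') hpr).Adj (m (Sum.inr x'))
      (m (Sum.inl x)) := by
    rintro ⟨_, u0, v0, e1, e2, e3⟩
    have h1 : u0 = Sum.inr x' := by
      rcases merge_eq_iff hpr _ _ e1 with h1 | h1 | h1
      · exact h1
      · exact absurd (Sum.inr.inj h1.2) h'.ne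
      · exact absurd h1.2 Sum.inr_ne_inl
    have h2 : v0 = Sum.inl x := by
      rcases merge_eq_iff hpr _ _ e2 with h1 | h1 | h1
      · exact h1
      · exact absurd h1.2 Sum.inl_ne_inr
      · exact absurd (Sum.inl.inj h1.2) h.ne
    rw [h1, h2] at e3
    simp at e3
  have d3 := disc_mg d2 hpr2
  refine ⟨_, inferInstance, _, _, _, ⟨d3, ?_⟩, ?_⟩
  · intro e
    rcases merge_eq_iff hpr2 _ _ e with h1 | h1 | h1
    · rcases merge_eq_iff hpr _ _ h1 with h2 | h2 | h2
      · exact Sum.inr_ne_inl h2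
      · exact Sum.inr_ne_inl h2.1
      · exact h'.ne (Sum.inr.inj h2.1)
    · rcases merge_eq_iff hpr _ _ h1.2 with h2 | h2 | h2
      · exact h.ne (Sum.inl.inj h2).symm
      · exact Sum.inl_ne_inr h2.2
      · exact Sum.inl_ne_inr h2.1
    · exact hpr2 h1.1
  · intro N a b
    have key : (z2 (mgG (mgG (H ⊕g H') (Sum.inl y) (Sum.inr y') hpr) (m (Sum.inr x'))
        (m (Sum.inl x)) hpr2) (merge (m (Sum.inr x')) (m (Sum.inl x)) hpr2 (m (Sum.inr x')))
        (merge (m (Sum.inr x')) (m (Sum.inl x)) hpr2 (m (Sum.inl y))) N a b : ℝ) =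
        z2 H x y N a b * z2 H' x' y' N a b := by
      rw [z2_sum, z2_sum, z2_sum]
      have s1 := sum_merge _ hpr2 hna2 N
        (fun c => if c (m (Sum.inr x')) = a ∧ c (m (Sum.inl y)) = b then (1 : ℝ) else 0)
      refine s1.trans ?_
      have s2 := sum_merge _ hpr hna N
        (fun c : V ⊕ V' → Fin N => if c (Sum.inr x') = c (Sum.inl x) then
          (if c (Sum.inr x') = a ∧ c (Sum.inl y) = b then (1 : ℝ) else 0) else 0)
      refine s2.trans ?_
      have s3 := sum_cols_sum H H' N
        (fun c c' => if c y = c' y' then (if c' x' = c x then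
          (if c' x' = a ∧ c y = b then (1 : ℝ) else 0) else 0) else 0)
      refine s3.trans ?_
      rw [Finset.sum_mul_sum]
      refine Finset.sum_congr rfl fun c _ => Finset.sum_congr rfl fun c' _ => ?_
      by_cases h1 : c x = a
      · by_cases h2 : c y = b
        · by_cases h3 : c' x' = a
          · by_cases h4 : c' y' = b
            · simp [h1, h2, h3, h4]
            · have h5 : b ≠ c' y' := fun e => h4 e.symm
              simp [h1, h2, h3, h4, h5]
          · simp [h1, h2, h3]
        · simp [h1, h2]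
      · by_cases h3 : c' x' = a
        · have h5 : a ≠ c x := fun e => h1 e.symm
          simp [h1, h3, h5]
        · simp [h1, h3]
    exact_mod_cast key

theorem exists_ser2 (h : N2 H x y) (h' : N2 H' x' y') :
    ∃ (W : Type) (_ : Fintype W) (Y : SimpleGraph W) (s t : W), N2 Y s t ∧
      ∀ (N : ℕ) (a b : Fin N),
        z2 Y s t N a b = ∑ c, z2 H x y N a c * z2 H' x' y' N c b := by
  classical
  have d0 : Disc (H ⊕g H') ([Sum.inl x] ++ Sum.inl y :: Sum.inr x' :: [Sum.inr y']) :=
    disc_union h.disc h'.disc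
  have hpr : (Sum.inl y : V ⊕ V') ≠ Sum.inr x' := Sum.inl_ne_inr
  have hna : ¬ (H ⊕g H').Adj (Sum.inl y) (Sum.inr x') := by simp
  have d1 := disc_mg d0 hpr
  set m := merge (Sum.inl y : V ⊕ V') (Sum.inr x') hpr with hm
  have d2 : Disc (mgG (H ⊕g H') (Sum.inl y) (Sum.inr x') hpr) [m (Sum.inl x), m (Sum.inr y')] := by
    refine d1.sublist ?_
    exact (List.sublist_cons_self (m (Sum.inl y)) [m (Sum.inr y')]).cons_cons _
  refine ⟨_, inferInstance, _, _, _, ⟨d2, ?_⟩, ?_⟩
  · intro e
    rcases merge_eq_iff hpr _ _ e with h1 | h1 | h1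
    · exact Sum.inl_ne_inr h1
    · exact h'.ne (Sum.inr.inj h1.2).symm
    · exact Sum.inl_ne_inr h1.1
  · intro N a b
    have key : (z2 (mgG (H ⊕g H') (Sum.inl y) (Sum.inr x') hpr) (m (Sum.inl x))
        (m (Sum.inr y')) N a b : ℝ) =
        ∑ c, (z2 H x y N a c : ℝ) * z2 H' x' y' N c b := by
      rw [z2_sum]
      have s1 := sum_merge _ hpr hna N
        (fun c : V ⊕ V' → Fin N => if c (Sum.inl x) = a ∧ c (Sum.inr y') = b then (1 : ℝ) else 0)
      refine s1.trans ?_
      have s2 := sum_cols_sum H H' N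
        (fun c c' => if c y = c' x' then (if c x = a ∧ c' y' = b then (1 : ℝ) else 0) else 0)
      refine s2.trans ?_
      have s3 : ∀ c : V → Fin N, ∑ c' ∈ cols H' N,
          (if c y = c' x' then (if c x = a ∧ c' y' = b then (1 : ℝ) else 0) else 0) =
          if c x = a then (z2 H' x' y' N (c y) b : ℝ) else 0 := by
        intro c
        by_cases h1 : c x = a
        · rw [if_pos h1, z2_sum]
          refine Finset.sum_congr rfl fun c' _ => ?_
          by_cases h2 : c' x' = c y
          · simp [h1, h2]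
          · have h3 : c y ≠ c' x' := fun e => h2 e.symm
            simp [h2, h3]
        · rw [if_neg h1]
          refine Finset.sum_eq_zero fun c' _ => ?_
          simp [h1]
      rw [Finset.sum_congr rfl fun c _ => s3 c]
      have s4 := sum_z2 H x y N (fun α β => if α = a then (z2 H' x' y' N β b : ℝ) else 0)
      refine s4.trans ?_
      rw [Finset.sum_eq_single a]
      · refine Finset.sum_congr rfl fun c _ => ?_
        rw [if_pos rfl]
      · intro α _ hα
        refine Finset.sum_eq_zero fun β _ => ?_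
        rw [if_neg hα, mul_zero]
      · intro hh
        exact absurd (Finset.mem_univ a) hh
    exact_mod_cast key

end Pool.Agent.ZOL
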