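import Pool.Agent.ZOL.Defs

/-!
# Polynomial identities from the integers

Plan.  `P q H` is the value of `cp H`, `eqv q H x y` of a polynomial (`SB.eqv_sum`), so each `U` is a
quotient of polynomials in `q` whose denominator is not zero for `q ≥ 4`.  If `F, G : ℝ → ℝ` are such
rational functions and agree at all natural numbers `N ≥ 4`, the polynomial `num F * den G - num G * den F`
has infinitely many zeros, hence vanishes.  Formulate once: `Rat' F := ∃ A B : ℝ[X], ∀ q ≥ 4,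
B.eval q ≠ 0 ∧ F q = A.eval q / B.eval q`, closed under `+ * - const id`, and `rat_ext`.
-/

set_option autoImplicit false

noncomputable section

namespace Pool.Agent.ZOL

open Polynomial
open Pool.Agent.Helper1.PG
open Pool.Agent.Helper36.BL (cp cnt cols cp_eval mem_cols IsMinor)
open Pool.Agent.U5 (P)
open Pool.Agent.SB (Disc ad eqv)

/-- a rational function without poles in `[4, ∞)` -/
def RatF (F : ℝ → ℝ) : Prop :=
  ∃ A B : ℝ[X], ∀ q : ℝ, 4 ≤ q → B.eval q ≠ 0 ∧ F q = A.eval q / B.eval q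

theorem RatF.add {F G : ℝ → ℝ} (hF : RatF F) (hG : RatF G) : RatF (fun q => F q + G q) := by
  obtain ⟨A, B, h1⟩ := hF
  obtain ⟨C, D, h2⟩ := hG
  refine ⟨A * D + B * C, B * D, fun q hq => ?_⟩
  obtain ⟨h3, h4⟩ := h1 q hq
  obtain ⟨h5, h6⟩ := h2 q hq
  rw [eval_mul, eval_add, eval_mul, eval_mul]
  refine ⟨mul_ne_zero h3 h5, ?_⟩
  show F q + G q = _
  rw [h4, h6, div_add_div _ _ h3 h5]

theorem RatF.sub {F G : ℝ → ℝ} (hF : RatF F) (hG : RatF G) : RatF (fun q => F q - G q) := by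
  obtain ⟨A, B, h1⟩ := hF
  obtain ⟨C, D, h2⟩ := hG
  refine ⟨A * D - B * C, B * D, fun q hq => ?_⟩
  obtain ⟨h3, h4⟩ := h1 q hq
  obtain ⟨h5, h6⟩ := h2 q hq
  rw [eval_mul, eval_sub, eval_mul, eval_mul]
  refine ⟨mul_ne_zero h3 h5, ?_⟩
  show F q - G q = _
  rw [h4, h6, div_sub_div _ _ h3 h5]

theorem RatF.mul {F G : ℝ → ℝ} (hF : RatF F) (hG : RatF G) : RatF (fun q => F q * G q) := by
  obtain ⟨A, B, h1⟩ := hF
  obtain ⟨C, D, h2⟩ := hG
  refine ⟨A * C, B * D, fun q hq => ?_⟩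
  obtain ⟨h3, h4⟩ := h1 q hq
  obtain ⟨h5, h6⟩ := h2 q hq
  rw [eval_mul, eval_mul]
  refine ⟨mul_ne_zero h3 h5, ?_⟩
  show F q * G q = _
  rw [h4, h6, div_mul_div_comm]

theorem RatF.poly (A : ℝ[X]) : RatF (fun q => A.eval q) := by
  refine ⟨A, 1, fun q _ => ?_⟩
  rw [eval_one, div_one]
  exact ⟨one_ne_zero, rfl⟩

theorem RatF.ext {F G : ℝ → ℝ} (hF : RatF F) (hG : RatF G)
    (h : ∀ N : ℕ, 4 ≤ N → F (N : ℝ) = G (N : ℝ)) : ∀ q : ℝ, 4 ≤ q → F q = G q := by
  obtain ⟨A, B, h1⟩ := hF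
  obtain ⟨C, D, h2⟩ := hG
  have h3 : A * D - C * B = 0 := by
    apply Polynomial.eq_zero_of_infinite_isRoot
    refine Set.infinite_of_injective_forall_mem (f := fun n : ℕ => ((n + 4 : ℕ) : ℝ)) ?_ ?_
    · intro m n hmn
      have h4 : m + 4 = n + 4 := Nat.cast_injective (R := ℝ) hmn
      omega
    · intro n
      have h4 : (4 : ℝ) ≤ ((n + 4 : ℕ) : ℝ) := by
        exact_mod_cast (Nat.le_add_left 4 n)
      obtain ⟨h5, h6⟩ := h1 _ h4
      obtain ⟨h7, h8⟩ := h2 _ h4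
      have h9 := h (n + 4) (Nat.le_add_left 4 n)
      rw [h6, h8, div_eq_div_iff h5 h7] at h9
      show IsRoot (A * D - C * B) ((n + 4 : ℕ) : ℝ)
      rw [IsRoot, eval_sub, eval_mul, eval_mul, h9, sub_self]
  intro q hq
  obtain ⟨h5, h6⟩ := h1 q hq
  obtain ⟨h7, h8⟩ := h2 q hq
  rw [h6, h8, div_eq_div_iff h5 h7, ← sub_eq_zero, ← eval_mul, ← eval_mul, ← eval_sub, h3,
    eval_zero]

/-- division by a polynomial without zeros -/
private theorem RatF.divP {F : ℝ → ℝ} (hF : RatF F) (D : ℝ[X])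
    (hD : ∀ q : ℝ, 4 ≤ q → D.eval q ≠ 0) : RatF (fun q => F q / D.eval q) := by
  obtain ⟨A, B, h1⟩ := hF
  refine ⟨A, B * D, fun q hq => ?_⟩
  obtain ⟨h3, h4⟩ := h1 q hq
  rw [eval_mul]
  refine ⟨mul_ne_zero h3 (hD q hq), ?_⟩
  show F q / D.eval q = _
  rw [h4, div_div]

variable {V : Type} [Fintype V]

theorem ratF_P (H : SimpleGraph V) : RatF (fun q => P q H) := RatF.poly (cp H)

theorem ratF_eqv (H : SimpleGraph V) (x y : V) : RatF (fun q => eqv q H x y) := by
  classical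
  unfold eqv
  by_cases h : x = y
  · simp only [if_pos h]
    exact ratF_P H
  · simp only [if_neg h]
    exact (ratF_P H).sub (ratF_P (ad H x y))

theorem ratF_U0 (H : SimpleGraph V) (p0 p1 p2 p3 : V) : RatF (fun q => U0 q H p0 p1 p2 p3) := by
  have h1 := (ratF_eqv H p0 p2).divP (X * (X - 1)) (by
    intro q hq
    rw [eval_mul, eval_sub, eval_X, eval_one]
    have h2 : 0 < q * (q - 1) := mul_pos (by linarith) (by linarith)
    exact h2.ne')
  simp only [eval_mul, eval_sub, eval_X, eval_one] at h1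
  exact h1

theorem ratF_U1 (H : SimpleGraph V) (p0 p1 p2 p3 : V) : RatF (fun q => U1 q H p0 p1 p2 p3) := by
  have h1 := ((ratF_P H).sub (ratF_eqv H p0 p2)).divP (X * (X - 1) * (X - C 2)) (by
    intro q hq
    rw [eval_mul, eval_mul, eval_sub, eval_sub, eval_X, eval_one, eval_C]
    have h2 : 0 < q * (q - 1) * (q - 2) :=
      mul_pos (mul_pos (by linarith) (by linarith)) (by linarith)
    exact h2.ne')
  simp only [eval_mul, eval_sub, eval_X, eval_one, eval_C] at h1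
  exact h1

theorem ratF_U2 (H : SimpleGraph V) (p0 p1 p2 p3 : V) : RatF (fun q => U2 q H p0 p1 p2 p3) := by
  have h0 := ((((RatF.poly ((X - 1) * (X - C 2))).mul (ratF_eqv H p1 p3)).add
    (ratF_eqv H p0 p2)).sub ((RatF.poly (X - 1)).mul (ratF_P H))).divP
    (X * (X - 1) * (X - C 2) * (X ^ 2 - C 3 * X + 1)) (by
    intro q hq
    simp only [eval_mul, eval_sub, eval_X, eval_one, eval_C, eval_add, eval_pow]
    have h2 : 0 < q * (q - 1) * (q - 2) :=
      mul_pos (mul_pos (by linarith) (by linarith)) (by linarith)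
    have h3 : 0 < q ^ 2 - 3 * q + 1 := by nlinarith
    exact (mul_pos h2 h3).ne')
  simp only [eval_mul, eval_sub, eval_X, eval_one, eval_C, eval_add, eval_pow] at h0
  exact h0

end Pool.Agent.ZOL
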