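import Pool.Agent.ZOL.Defs

/-!
# The three channels of a 4-disc at an integer

JOB ZOL-SumN.  Prove all theorems of this file (remove the `sorry`s, keep the statements).

Plan.  `P (N : ℝ) H = cnt H N` (`cp_eval`), `eqv (N : ℝ) H x y` is the number of `c ∈ cols H N` with
`c x = c y` (`SB.eqv_sum`, `PF` at `N`).  Fibre `cols H N` over the four colours
(`Finset.card_eq_sum_card_fiberwise` four times, or over `Fin N × Fin N × Fin N × Fin N`): `cnt H N =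
∑ x0 x1 x2 x3, z4 …`; the terms with `x0 = x1`, `x1 = x2`, `x2 = x3` or `x3 = x0` vanish (edges `e01 …`),
the others are given by `Zf`.  So with `n = N`:
`eqv 0 2 = ∑_{x0} ∑_{x1 ≠ x0} ∑_{x3 ≠ x0} (α + β + [x1 = x3] γ) = n (n-1) ((n-1)(α+β) + γ)`,
`P - eqv 0 2 = ∑_{x0 ≠ x2} ∑_{x1, x3 ∉ {x0, x2}} (α + [x1 = x3] γ) = n (n-1) (n-2) ((n-2) α + γ)`,
`eqv 1 3 = ∑_{x1} ∑_{x0, x2 ≠ x1} (α + γ + [x0 = x2] β) = n (n-1) ((n-1)(α+γ) + β)`.
Then `field_simp; ring` (`n ≥ 4`, `n ^ 2 - 3 n + 1 > 0`).  It is convenient to write the sums as sums over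
all `x` of `(1 - [x0 = x1]) …` with `[·]` real valued and `∑ x, [a = x] g x = g a`.
-/

set_option autoImplicit false

noncomputable section

namespace Pool.Agent.ZOL

open Pool.Agent.Helper1.PG
open Pool.Agent.Helper36.BL (cp cnt cols cp_eval mem_cols IsMinor)
open Pool.Agent.U5 (P)
open Pool.Agent.SB (Disc ad eqv)

variable {V : Type} [Fintype V]

open scoped Classical in
theorem eqv_nat (H : SimpleGraph V) (x y : V) (N : ℕ) :
    eqv (N : ℝ) H x y = (((cols H N).filter (fun c => c x = c y)).card : ℝ) := by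
  obtain ⟨Q, hQ, hQe⟩ := Pool.Agent.SB.eqv_sum H x y
  rw [← hQe, hQ N]
  apply congrArg (fun s : Finset (V → Fin N) => ((s.card : ℕ) : ℝ))
  ext c
  rw [Finset.mem_filter, Finset.mem_filter, mem_cols]
  exact ⟨fun h => h.2, fun h => ⟨Finset.mem_univ _, h⟩⟩

private theorem sumN_fib (H : SimpleGraph V) (p0 p1 p2 p3 : V) (N : ℕ)
    (f : Fin N → Fin N → Fin N → Fin N → ℝ) :
    ∑ c ∈ cols H N, f (c p0) (c p1) (c p2) (c p3) =
      ∑ x0, ∑ x1, ∑ x2, ∑ x3, f x0 x1 x2 x3 * (z4 H p0 p1 p2 p3 N x0 x1 x2 x3 : ℝ) := by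
  have h1 : ∀ c : V → Fin N, f (c p0) (c p1) (c p2) (c p3) =
      ∑ x0, ∑ x1, ∑ x2, ∑ x3, f x0 x1 x2 x3 *
        (if c p0 = x0 ∧ c p1 = x1 ∧ c p2 = x2 ∧ c p3 = x3 then (1 : ℝ) else 0) := by
    intro c
    rw [Finset.sum_eq_single (c p0), Finset.sum_eq_single (c p1), Finset.sum_eq_single (c p2),
      Finset.sum_eq_single (c p3)]
    · rw [if_pos ⟨rfl, rfl, rfl, rfl⟩, mul_one]
    · intro b _ hb
      rw [if_neg (fun h => hb h.2.2.2.symm), mul_zero]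
    · intro h
      exact absurd (Finset.mem_univ _) h
    · intro b _ hb
      refine Finset.sum_eq_zero fun x3 _ => ?_
      rw [if_neg (fun h => hb h.2.2.1.symm), mul_zero]
    · intro h
      exact absurd (Finset.mem_univ _) h
    · intro b _ hb
      refine Finset.sum_eq_zero fun x2 _ => Finset.sum_eq_zero fun x3 _ => ?_
      rw [if_neg (fun h => hb h.2.1.symm), mul_zero]
    · intro h
      exact absurd (Finset.mem_univ _) h
    · intro b _ hb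
      refine Finset.sum_eq_zero fun x1 _ => Finset.sum_eq_zero fun x2 _ =>
        Finset.sum_eq_zero fun x3 _ => ?_
      rw [if_neg (fun h => hb h.1.symm), mul_zero]
    · intro h
      exact absurd (Finset.mem_univ _) h
  rw [Finset.sum_congr rfl fun c _ => h1 c, Finset.sum_comm]
  refine Finset.sum_congr rfl fun x0 _ => ?_
  rw [Finset.sum_comm]
  refine Finset.sum_congr rfl fun x1 _ => ?_
  rw [Finset.sum_comm]
  refine Finset.sum_congr rfl fun x2 _ => ?_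
  rw [Finset.sum_comm]
  refine Finset.sum_congr rfl fun x3 _ => ?_
  rw [← Finset.mul_sum, Finset.sum_boole]
  rfl

theorem cnt_eq_sum4 (H : SimpleGraph V) (p0 p1 p2 p3 : V) (N : ℕ) :
    cnt H N = ∑ x0, ∑ x1, ∑ x2, ∑ x3, z4 H p0 p1 p2 p3 N x0 x1 x2 x3 := by
  have h := sumN_fib H p0 p1 p2 p3 N (fun _ _ _ _ => 1)
  simp only [one_mul, Finset.sum_const, nsmul_eq_mul, mul_one] at h
  have h2 : ((cnt H N : ℕ) : ℝ) =
      ((∑ x0, ∑ x1, ∑ x2, ∑ x3, z4 H p0 p1 p2 p3 N x0 x1 x2 x3 : ℕ) : ℝ) := by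
    push_cast
    exact h
  exact_mod_cast h2

/-- the real valued indicator -/
private def de {N : ℕ} (a b : Fin N) : ℝ := if a = b then 1 else 0

private theorem de_symm {N : ℕ} (a b : Fin N) : de a b = de b a := by
  unfold de
  by_cases h : a = b
  · rw [if_pos h, if_pos h.symm]
  · rw [if_neg h, if_neg (Ne.symm h)]

private theorem de_self {N : ℕ} (a : Fin N) : de a a = 1 := if_pos rfl

private theorem sum_de {N : ℕ} (a : Fin N) (f : Fin N → ℝ) : ∑ x, de a x * f x = f a := by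
  rw [Finset.sum_eq_single a]
  · rw [de_self, one_mul]
  · intro b _ hb
    unfold de
    rw [if_neg (Ne.symm hb), zero_mul]
  · intro h
    exact absurd (Finset.mem_univ _) h

/-- the weight of a common neighbour -/
private def ww {N : ℕ} (a b x : Fin N) : ℝ := (1 - de a x) * (1 - de x b)

private theorem sum_ww {N : ℕ} (a b : Fin N) : ∑ x, ww a b x = (N : ℝ) - 2 + de a b := by
  have h1 : ∀ x, ww a b x = 1 - de a x * 1 - de b x * 1 + de a x * de x b := by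
    intro x
    unfold ww
    rw [de_symm x b]
    ring
  rw [Finset.sum_congr rfl fun x _ => h1 x, Finset.sum_add_distrib, Finset.sum_sub_distrib,
    Finset.sum_sub_distrib, sum_de a (fun _ => 1), sum_de b (fun _ => 1),
    sum_de a (fun x => de x b)]
  simp
  ring

private theorem ww_idem {N : ℕ} (a b x : Fin N) : ww a b x * ww a b x = ww a b x := by
  unfold ww de
  split_ifs <;> norm_num

private theorem sum_pair {N : ℕ} (a b : Fin N) (A B : ℝ) :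
    ∑ x1, ∑ x3, ww a b x1 * ww a b x3 * (A + B * de x1 x3) =
      A * ((N : ℝ) - 2 + de a b) ^ 2 + B * ((N : ℝ) - 2 + de a b) := by
  have h1 : ∀ x1, ∑ x3, ww a b x1 * ww a b x3 * (A + B * de x1 x3) =
      ww a b x1 * (A * ((N : ℝ) - 2 + de a b)) + B * ww a b x1 := by
    intro x1
    have h2 : ∀ x3, ww a b x1 * ww a b x3 * (A + B * de x1 x3) =
        ww a b x1 * A * ww a b x3 + de x1 x3 * (B * ww a b x1 * ww a b x3) := by
      intro x3
      ring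
    rw [Finset.sum_congr rfl fun x _ => h2 x, Finset.sum_add_distrib, ← Finset.mul_sum, sum_ww,
      sum_de x1 (fun x3 => B * ww a b x1 * ww a b x3)]
    have h3 := ww_idem a b x1
    linear_combination B * h3
  rw [Finset.sum_congr rfl fun x _ => h1 x, Finset.sum_add_distrib, ← Finset.sum_mul,
    ← Finset.mul_sum, sum_ww]
  ring

private theorem sum_pair' {N : ℕ} (a b : Fin N) (A B : ℝ) :
    ∑ x1, ∑ x3, de x1 x3 * (ww a b x1 * ww a b x3 * (A + B * de x1 x3)) =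
      (A + B) * ((N : ℝ) - 2 + de a b) := by
  have h1 : ∀ x1, ∑ x3, de x1 x3 * (ww a b x1 * ww a b x3 * (A + B * de x1 x3)) =
      (A + B) * ww a b x1 := by
    intro x1
    rw [sum_de x1 (fun x3 => ww a b x1 * ww a b x3 * (A + B * de x1 x3)), de_self]
    have h3 := ww_idem a b x1
    linear_combination (A + B) * h3
  rw [Finset.sum_congr rfl fun x _ => h1 x, ← Finset.mul_sum, sum_ww]

private theorem sumN_z4 {H : SimpleGraph V} {p0 p1 p2 p3 : V} (h : D4 H p0 p1 p2 p3) {N : ℕ}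
    {α β γ : ℝ} (hz : Zf H p0 p1 p2 p3 N α β γ) (x0 x1 x2 x3 : Fin N) :
    (z4 H p0 p1 p2 p3 N x0 x1 x2 x3 : ℝ) =
      ww x0 x2 x1 * ww x0 x2 x3 * (α + β * de x0 x2 + γ * de x1 x3) := by
  have hzero : ¬ (x0 ≠ x1 ∧ x1 ≠ x2 ∧ x2 ≠ x3 ∧ x3 ≠ x0) →
      z4 H p0 p1 p2 p3 N x0 x1 x2 x3 = 0 := by
    intro hn
    unfold z4
    rw [Finset.card_eq_zero, Finset.filter_eq_empty_iff]
    rintro c hc ⟨h0, h1, h2, h3⟩
    rw [mem_cols] at hc
    apply hn
    rw [← h0, ← h1, ← h2, ← h3]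
    exact ⟨hc _ _ h.e01, hc _ _ h.e12, hc _ _ h.e23, hc _ _ h.e30⟩
  by_cases hp : x0 ≠ x1 ∧ x1 ≠ x2 ∧ x2 ≠ x3 ∧ x3 ≠ x0
  · obtain ⟨h01, h12, h23, h30⟩ := hp
    rw [hz x0 x1 x2 x3 h01 h12 h23 h30]
    unfold ww de
    rw [if_neg h01, if_neg h12, if_neg (Ne.symm h30), if_neg (Ne.symm h23)]
    split_ifs <;> ring
  · rw [hzero hp]
    unfold ww de
    push Not at hp
    by_cases h01 : x0 = x1
    · rw [if_pos h01]; simp
    · by_cases h12 : x1 = x2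
      · rw [if_pos h12]; simp
      · by_cases h23 : x2 = x3
        · rw [if_pos h23.symm]; simp
        · rw [if_pos (hp h01 h12 h23).symm]; simp

private theorem sumN_main {H : SimpleGraph V} {p0 p1 p2 p3 : V} (h : D4 H p0 p1 p2 p3) {N : ℕ}
    {α β γ : ℝ} (hz : Zf H p0 p1 p2 p3 N α β γ) (f : Fin N → Fin N → Fin N → Fin N → ℝ) :
    ∑ c ∈ cols H N, f (c p0) (c p1) (c p2) (c p3) =
      ∑ x0, ∑ x2, ∑ x1, ∑ x3, f x0 x1 x2 x3 *
        (ww x0 x2 x1 * ww x0 x2 x3 * (α + β * de x0 x2 + γ * de x1 x3)) := by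
  rw [sumN_fib]
  refine Finset.sum_congr rfl fun x0 _ => ?_
  rw [Finset.sum_comm]
  refine Finset.sum_congr rfl fun x2 _ => Finset.sum_congr rfl fun x1 _ =>
    Finset.sum_congr rfl fun x3 _ => ?_
  rw [sumN_z4 h hz]

private theorem sumN_02 {H : SimpleGraph V} {p0 p1 p2 p3 : V} (h : D4 H p0 p1 p2 p3) {N : ℕ}
    {α β γ : ℝ} (hz : Zf H p0 p1 p2 p3 N α β γ) : eqv (N : ℝ) H p0 p2 =
      (N : ℝ) * ((N : ℝ) - 1) * (((N : ℝ) - 1) * (α + β) + γ) := by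
  classical
  rw [eqv_nat]
  have h1 := sumN_main h hz (fun x0 _ x2 _ => de x0 x2)
  have h2 : ∑ c ∈ cols H N, de (c p0) (c p2) =
      (((cols H N).filter (fun c => c p0 = c p2)).card : ℝ) := by
    unfold de
    rw [Finset.sum_boole]
  rw [← h2, h1]
  have h3 : ∀ x0 x2 : Fin N, ∑ x1, ∑ x3, de x0 x2 *
        (ww x0 x2 x1 * ww x0 x2 x3 * (α + β * de x0 x2 + γ * de x1 x3)) =
      de x0 x2 * ((α + β * de x0 x2) * ((N : ℝ) - 2 + de x0 x2) ^ 2 +
        γ * ((N : ℝ) - 2 + de x0 x2)) := by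
    intro x0 x2
    rw [← sum_pair, Finset.mul_sum]
    refine Finset.sum_congr rfl fun x1 _ => ?_
    rw [Finset.mul_sum]
  rw [Finset.sum_congr rfl fun x0 _ => Finset.sum_congr rfl fun x2 _ => h3 x0 x2]
  have h4 : ∀ x0 : Fin N, ∑ x2, de x0 x2 * ((α + β * de x0 x2) * ((N : ℝ) - 2 + de x0 x2) ^ 2 +
        γ * ((N : ℝ) - 2 + de x0 x2)) =
      ((α + β * 1) * ((N : ℝ) - 2 + 1) ^ 2 + γ * ((N : ℝ) - 2 + 1)) := by
    intro x0
    rw [sum_de x0 (fun x2 => (α + β * de x0 x2) * ((N : ℝ) - 2 + de x0 x2) ^ 2 +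
        γ * ((N : ℝ) - 2 + de x0 x2)), de_self]
  rw [Finset.sum_congr rfl fun x0 _ => h4 x0]
  simp
  ring

private theorem sumN_P {H : SimpleGraph V} {p0 p1 p2 p3 : V} (h : D4 H p0 p1 p2 p3) {N : ℕ}
    {α β γ : ℝ} (hz : Zf H p0 p1 p2 p3 N α β γ) : P (N : ℝ) H - eqv (N : ℝ) H p0 p2 =
      (N : ℝ) * ((N : ℝ) - 1) * ((N : ℝ) - 2) * (((N : ℝ) - 2) * α + γ) := by
  have hP : P (N : ℝ) H = (cnt H N : ℝ) := cp_eval H N
  have h1 := sumN_main h hz (fun _ _ _ _ => 1)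
  have h2 : ∑ c ∈ cols H N, (1 : ℝ) = (cnt H N : ℝ) := by
    rw [Finset.sum_const, nsmul_eq_mul, mul_one]
    rfl
  rw [h2] at h1
  have h3 : ∀ x0 x2 : Fin N, ∑ x1, ∑ x3, 1 *
        (ww x0 x2 x1 * ww x0 x2 x3 * (α + β * de x0 x2 + γ * de x1 x3)) =
      ((α + β * de x0 x2) * ((N : ℝ) - 2 + de x0 x2) ^ 2 + γ * ((N : ℝ) - 2 + de x0 x2)) := by
    intro x0 x2
    rw [← sum_pair]
    refine Finset.sum_congr rfl fun x1 _ => Finset.sum_congr rfl fun x3 _ => one_mul _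
  rw [Finset.sum_congr rfl fun x0 _ => Finset.sum_congr rfl fun x2 _ => h3 x0 x2] at h1
  have h5 : ∀ x0 x2 : Fin N, ((α + β * de x0 x2) * ((N : ℝ) - 2 + de x0 x2) ^ 2 +
        γ * ((N : ℝ) - 2 + de x0 x2)) =
      (α * ((N : ℝ) - 2) ^ 2 + γ * ((N : ℝ) - 2)) +
        de x0 x2 * ((α + β) * ((N : ℝ) - 1) ^ 2 + γ * ((N : ℝ) - 1) -
          (α * ((N : ℝ) - 2) ^ 2 + γ * ((N : ℝ) - 2))) := by
    intro x0 x2
    unfold de
    split_ifs <;> ring
  have h4 : ∀ x0 : Fin N, ∑ x2, ((α + β * de x0 x2) * ((N : ℝ) - 2 + de x0 x2) ^ 2 +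
        γ * ((N : ℝ) - 2 + de x0 x2)) =
      (N : ℝ) * (α * ((N : ℝ) - 2) ^ 2 + γ * ((N : ℝ) - 2)) +
        ((α + β) * ((N : ℝ) - 1) ^ 2 + γ * ((N : ℝ) - 1) -
          (α * ((N : ℝ) - 2) ^ 2 + γ * ((N : ℝ) - 2))) := by
    intro x0
    rw [Finset.sum_congr rfl fun x2 _ => h5 x0 x2, Finset.sum_add_distrib, sum_de x0 (fun _ =>
      ((α + β) * ((N : ℝ) - 1) ^ 2 + γ * ((N : ℝ) - 1) -
          (α * ((N : ℝ) - 2) ^ 2 + γ * ((N : ℝ) - 2)))), Finset.sum_const, Finset.card_univ,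
      Fintype.card_fin, nsmul_eq_mul]
  rw [Finset.sum_congr rfl fun x0 _ => h4 x0, Finset.sum_const, Finset.card_univ,
    Fintype.card_fin, nsmul_eq_mul] at h1
  rw [hP, h1, sumN_02 h hz]
  ring

private theorem sumN_13 {H : SimpleGraph V} {p0 p1 p2 p3 : V} (h : D4 H p0 p1 p2 p3) {N : ℕ}
    {α β γ : ℝ} (hz : Zf H p0 p1 p2 p3 N α β γ) : eqv (N : ℝ) H p1 p3 =
      (N : ℝ) * ((N : ℝ) - 1) * (((N : ℝ) - 1) * (α + γ) + β) := by
  classical
  rw [eqv_nat]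
  have h1 := sumN_main h hz (fun _ x1 _ x3 => de x1 x3)
  have h2 : ∑ c ∈ cols H N, de (c p1) (c p3) =
      (((cols H N).filter (fun c => c p1 = c p3)).card : ℝ) := by
    unfold de
    rw [Finset.sum_boole]
  rw [← h2, h1]
  rw [Finset.sum_congr rfl fun x0 _ => Finset.sum_congr rfl fun x2 _ => sum_pair' x0 x2 _ _]
  have h5 : ∀ x0 x2 : Fin N, (α + β * de x0 x2 + γ) * ((N : ℝ) - 2 + de x0 x2) =
      (α + γ) * ((N : ℝ) - 2) +
        de x0 x2 * ((α + β + γ) * ((N : ℝ) - 1) - (α + γ) * ((N : ℝ) - 2)) := by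
    intro x0 x2
    unfold de
    split_ifs <;> ring
  have h4 : ∀ x0 : Fin N, ∑ x2, (α + β * de x0 x2 + γ) * ((N : ℝ) - 2 + de x0 x2) =
      (N : ℝ) * ((α + γ) * ((N : ℝ) - 2)) +
        ((α + β + γ) * ((N : ℝ) - 1) - (α + γ) * ((N : ℝ) - 2)) := by
    intro x0
    rw [Finset.sum_congr rfl fun x2 _ => h5 x0 x2, Finset.sum_add_distrib, sum_de x0 (fun _ =>
      ((α + β + γ) * ((N : ℝ) - 1) - (α + γ) * ((N : ℝ) - 2)))]
    simp
  rw [Finset.sum_congr rfl fun x0 _ => h4 x0, Finset.sum_const, Finset.card_univ,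
    Fintype.card_fin, nsmul_eq_mul]
  ring

theorem U_nat {H : SimpleGraph V} {p0 p1 p2 p3 : V} (h : D4 H p0 p1 p2 p3) {N : ℕ}
    (hN : 4 ≤ N) {α β γ : ℝ} (hz : Zf H p0 p1 p2 p3 N α β γ) :
    U0 (N : ℝ) H p0 p1 p2 p3 = ((N : ℝ) - 1) * (α + β) + γ ∧
      U1 (N : ℝ) H p0 p1 p2 p3 = ((N : ℝ) - 2) * α + γ ∧
      U2 (N : ℝ) H p0 p1 p2 p3 = γ := by
  have hn : (4 : ℝ) ≤ (N : ℝ) := by exact_mod_cast hN
  have h0 : (N : ℝ) ≠ 0 := by linarith
  have h1 : (N : ℝ) - 1 ≠ 0 := by intro h; linarith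
  have h2 : (N : ℝ) - 2 ≠ 0 := by intro h; linarith
  have h3 : (N : ℝ) ^ 2 - 3 * (N : ℝ) + 1 ≠ 0 := by
    intro h
    nlinarith
  have e02 := sumN_02 h hz
  have eP := sumN_P h hz
  have e13 := sumN_13 h hz
  have eP' : P (N : ℝ) H = (N : ℝ) * ((N : ℝ) - 1) * (((N : ℝ) - 1) * (α + β) + γ) +
      (N : ℝ) * ((N : ℝ) - 1) * ((N : ℝ) - 2) * (((N : ℝ) - 2) * α + γ) := by
    rw [← e02, ← eP]
    ring
  refine ⟨?_, ?_, ?_⟩
  · unfold U0
    rw [e02]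
    field_simp
  · unfold U1
    rw [eP]
    field_simp
  · unfold U2
    rw [e02, eP', e13]
    rw [div_eq_iff (mul_ne_zero (mul_ne_zero (mul_ne_zero h0 h1) h2) h3)]
    ring

end Pool.Agent.ZOL
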