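import Pool.Agent.ZOL.Rel

/-!
# The pattern form of a 4-disc

The numbers `z4` and `z2` are invariant under permutations of the colours; with the planar relation
`z4_rel` this gives the colour pattern form `Zf` of a 4-disc.
-/

set_option autoImplicit false

noncomputable section

namespace Pool.Agent.ZOL

open Pool.Agent.Helper1.PG
open Pool.Agent.Helper36.BL (cp cnt cols cp_eval mem_cols IsMinor)
open Pool.Agent.U5 (P)
open Pool.Agent.SB (Disc ad eqv)

variable {V : Type} [Fintype V]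

private theorem perm_cols {H : SimpleGraph V} {N : ℕ} (σ : Equiv.Perm (Fin N)) {c : V → Fin N}
    (hc : c ∈ cols H N) : (fun v => σ (c v)) ∈ cols H N := by
  rw [mem_cols] at hc ⊢
  intro x y h1 h2
  exact hc x y h1 (σ.injective h2)

private theorem exists_perm {α : Type} (k : ℕ) (x y : Fin k → α) (hx : Function.Injective x)
    (hy : Function.Injective y) : ∃ σ : Equiv.Perm α, ∀ i, σ (x i) = y i := by
  have h1 : MulAction.IsMultiplyPretransitive (Equiv.Perm α) α k :=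
    Equiv.Perm.isMultiplyPretransitive α k
  obtain ⟨g, hg⟩ := MulAction.exists_smul_eq (Equiv.Perm α) (⟨x, hx⟩ : Fin k ↪ α) ⟨y, hy⟩
  exact ⟨g, fun i => DFunLike.congr_fun hg i⟩

theorem z4_perm (H : SimpleGraph V) (p0 p1 p2 p3 : V) (N : ℕ) (σ : Equiv.Perm (Fin N))
    (x0 x1 x2 x3 : Fin N) :
    z4 H p0 p1 p2 p3 N (σ x0) (σ x1) (σ x2) (σ x3) = z4 H p0 p1 p2 p3 N x0 x1 x2 x3 := by
  unfold z4
  apply Finset.card_nbij' (fun c v => σ.symm (c v)) (fun c v => σ (c v))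
  · intro c hc
    simp only [Finset.coe_filter, Set.mem_ofPred_eq] at hc ⊢
    obtain ⟨h, a0, a1, a2, a3⟩ := hc
    refine ⟨perm_cols σ.symm h, ?_, ?_, ?_, ?_⟩
    · rw [a0, Equiv.symm_apply_apply]
    · rw [a1, Equiv.symm_apply_apply]
    · rw [a2, Equiv.symm_apply_apply]
    · rw [a3, Equiv.symm_apply_apply]
  · intro c hc
    simp only [Finset.coe_filter, Set.mem_ofPred_eq] at hc ⊢
    obtain ⟨h, a0, a1, a2, a3⟩ := hc
    refine ⟨perm_cols σ h, ?_, ?_, ?_, ?_⟩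
    · rw [a0]
    · rw [a1]
    · rw [a2]
    · rw [a3]
  · intro c _
    funext v
    exact σ.apply_symm_apply (c v)
  · intro c _
    funext v
    exact σ.symm_apply_apply (c v)

theorem z2_perm (H : SimpleGraph V) (p0 p1 : V) (N : ℕ) (σ : Equiv.Perm (Fin N))
    (x0 x1 : Fin N) : z2 H p0 p1 N (σ x0) (σ x1) = z2 H p0 p1 N x0 x1 := by
  unfold z2
  apply Finset.card_nbij' (fun c v => σ.symm (c v)) (fun c v => σ (c v))
  · intro c hc
    simp only [Finset.coe_filter, Set.mem_ofPred_eq] at hc ⊢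
    obtain ⟨h, a0, a1⟩ := hc
    refine ⟨perm_cols σ.symm h, ?_, ?_⟩
    · rw [a0, Equiv.symm_apply_apply]
    · rw [a1, Equiv.symm_apply_apply]
  · intro c hc
    simp only [Finset.coe_filter, Set.mem_ofPred_eq] at hc ⊢
    obtain ⟨h, a0, a1⟩ := hc
    refine ⟨perm_cols σ h, ?_, ?_⟩
    · rw [a0]
    · rw [a1]
  · intro c _
    funext v
    exact σ.apply_symm_apply (c v)
  · intro c _
    funext v
    exact σ.symm_apply_apply (c v)

private theorem inj2 {α : Type} {a b : α} (h : a ≠ b) : Function.Injective ![a, b] := by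
  intro i j hij
  fin_cases i <;> fin_cases j <;> simp_all

private theorem inj3 {α : Type} {a b c : α} (h1 : a ≠ b) (h2 : a ≠ c) (h3 : b ≠ c) :
    Function.Injective ![a, b, c] := by
  intro i j hij
  fin_cases i <;> fin_cases j <;> simp_all

private theorem inj4 {α : Type} {a b c d : α} (h1 : a ≠ b) (h2 : a ≠ c) (h3 : a ≠ d)
    (h4 : b ≠ c) (h5 : b ≠ d) (h6 : c ≠ d) : Function.Injective ![a, b, c, d] := by
  intro i j hij
  fin_cases i <;> fin_cases j <;> simp_all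

theorem exists_zf {H : SimpleGraph V} {p0 p1 p2 p3 : V} (h : D4 H p0 p1 p2 p3) {N : ℕ}
    (hN : 4 ≤ N) : ∃ α β γ : ℝ, Zf H p0 p1 p2 p3 N α β γ := by
  set a : Fin N := ⟨0, by omega⟩ with ha
  set b : Fin N := ⟨1, by omega⟩ with hb
  set c : Fin N := ⟨2, by omega⟩ with hc
  set d : Fin N := ⟨3, by omega⟩ with hd
  have hab : a ≠ b := by rw [ha, hb]; simp
  have hac : a ≠ c := by rw [ha, hc]; simp
  have had : a ≠ d := by rw [ha, hd]; simp
  have hbc : b ≠ c := by rw [hb, hc]; simp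
  have hbd : b ≠ d := by rw [hb, hd]; simp
  have hcd : c ≠ d := by rw [hc, hd]; simp
  have hrel := z4_rel h.disc (N := N) (α := a) (β := b) (γ := c) (δ := d)
    (by simp [hab, hac, had, hbc, hbd, hcd])
  have hrel' : (z4 H p0 p1 p2 p3 N a b a b : ℝ) + z4 H p0 p1 p2 p3 N a b c d =
      z4 H p0 p1 p2 p3 N a b a d + z4 H p0 p1 p2 p3 N a b c b := by exact_mod_cast hrel
  refine ⟨z4 H p0 p1 p2 p3 N a b c d, z4 H p0 p1 p2 p3 N a b a d - z4 H p0 p1 p2 p3 N a b c d,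
    z4 H p0 p1 p2 p3 N a b c b - z4 H p0 p1 p2 p3 N a b c d, ?_⟩
  intro x0 x1 x2 x3 h01 h12 h23 h30
  by_cases h02 : x0 = x2
  · by_cases h13 : x1 = x3
    · subst h02
      subst h13
      obtain ⟨σ, hσ⟩ := exists_perm 2 ![a, b] ![x0, x1] (inj2 hab) (inj2 h01)
      have e0 : σ a = x0 := hσ 0
      have e1 : σ b = x1 := hσ 1
      rw [← e0, ← e1, z4_perm, if_pos rfl, if_pos rfl]
      linarith
    · subst h02
      obtain ⟨σ, hσ⟩ := exists_perm 3 ![a, b, d] ![x0, x1, x3] (inj3 hab had hbd)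
        (inj3 h01 (Ne.symm h30) h13)
      have e0 : σ a = x0 := hσ 0
      have e1 : σ b = x1 := hσ 1
      have e2 : σ d = x3 := hσ 2
      rw [if_pos rfl, if_neg h13, ← e0, ← e1, ← e2, z4_perm]
      ring
  · by_cases h13 : x1 = x3
    · subst h13
      obtain ⟨σ, hσ⟩ := exists_perm 3 ![a, b, c] ![x0, x1, x2] (inj3 hab hac hbc)
        (inj3 h01 h02 h12)
      have e0 : σ a = x0 := hσ 0
      have e1 : σ b = x1 := hσ 1
      have e2 : σ c = x2 := hσ 2
      rw [if_neg h02, if_pos rfl, ← e0, ← e1, ← e2, z4_perm]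
      ring
    · obtain ⟨σ, hσ⟩ := exists_perm 4 ![a, b, c, d] ![x0, x1, x2, x3]
        (inj4 hab hac had hbc hbd hcd) (inj4 h01 h02 (Ne.symm h30) h12 h13 h23)
      have e0 : σ a = x0 := hσ 0
      have e1 : σ b = x1 := hσ 1
      have e2 : σ c = x2 := hσ 2
      have e3 : σ d = x3 := hσ 3
      rw [if_neg h02, if_neg h13, ← e0, ← e1, ← e2, ← e3, z4_perm]
      ring

theorem exists_z2f (H : SimpleGraph V) (p0 p1 : V) (N : ℕ) :
    ∃ α β : ℝ, ∀ x0 x1 : Fin N, (z2 H p0 p1 N x0 x1 : ℝ) = if x0 = x1 then α else β := by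
  classical
  have h1 : ∃ α : ℝ, ∀ x : Fin N, (z2 H p0 p1 N x x : ℝ) = α := by
    by_cases hN : ∃ x : Fin N, True
    · obtain ⟨a, -⟩ := hN
      refine ⟨z2 H p0 p1 N a a, fun x => ?_⟩
      have e := z2_perm H p0 p1 N (Equiv.swap a x) a a
      rw [Equiv.swap_apply_left] at e
      rw [e]
    · exact ⟨0, fun x => absurd ⟨x, trivial⟩ hN⟩
  have h2 : ∃ β : ℝ, ∀ x y : Fin N, x ≠ y → (z2 H p0 p1 N x y : ℝ) = β := by
    by_cases hN : ∃ x y : Fin N, x ≠ y
    · obtain ⟨a, b, hab⟩ := hN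
      refine ⟨z2 H p0 p1 N a b, fun x y hxy => ?_⟩
      obtain ⟨σ, hσ⟩ := exists_perm 2 ![a, b] ![x, y] (inj2 hab) (inj2 hxy)
      have e0 : σ a = x := hσ 0
      have e1 : σ b = y := hσ 1
      rw [← e0, ← e1, z2_perm]
    · exact ⟨0, fun x y hxy => absurd ⟨x, y, hxy⟩ hN⟩
  obtain ⟨α, hα⟩ := h1
  obtain ⟨β, hβ⟩ := h2
  refine ⟨α, β, fun x0 x1 => ?_⟩
  by_cases h : x0 = x1
  · subst h
    rw [if_pos rfl]
    exact hα x0
  · rw [if_neg h]
    exact hβ x0 x1 h

end Pool.Agent.ZOL
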