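import Pool.Agent.ZOL.SgDefs
import Pool.Agent.ZOL.ZForm
import Pool.Agent.ZOL.SumN
import Pool.Agent.ZOL.PolyU

/-!
# Values of networks
-/

set_option autoImplicit false

noncomputable section

namespace Pool.Agent.ZOL

open Polynomial
open Pool.Agent.Helper1.PG
open Pool.Agent.Helper36.BL (cp cnt cols cp_eval mem_cols IsMinor poly_ext)
open Pool.Agent.U5 (P)
open Pool.Agent.SB (Disc ad eqv)

private theorem nv_cnt_top {V : Type} [Fintype V] (hV : Fintype.card V = 2) (N : ℕ) :
    cnt (⊤ : SimpleGraph V) N = N * (N - 1) := by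
  classical
  have h1 : cnt (⊤ : SimpleGraph V) N = Fintype.card (V ↪ Fin N) := by
    rw [← Fintype.card_congr (Equiv.subtypeInjectiveEquivEmbedding V (Fin N)),
      Fintype.card_subtype]
    unfold cnt
    congr 1
    ext c
    rw [mem_cols, Finset.mem_filter]
    constructor
    · intro h
      refine ⟨Finset.mem_univ _, fun u v huv => ?_⟩
      by_contra hne
      exact h u v hne huv
    · rintro ⟨-, h⟩ u v huv huv2
      exact huv (h huv2)
  rw [h1, Fintype.card_embedding_eq, Fintype.card_fin, hV]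
  show N.descFactorial 2 = _
  rw [Nat.descFactorial_succ, Nat.descFactorial_one, mul_comm]

private theorem nv_P_top {V : Type} [Fintype V] (hV : Fintype.card V = 2) (q : ℝ) :
    P q (⊤ : SimpleGraph V) = q * (q - 1) := by
  have h : cp (⊤ : SimpleGraph V) = X * (X - 1) := by
    apply poly_ext
    intro N
    rw [cp_eval, nv_cnt_top hV, eval_mul, eval_sub, eval_X, eval_one]
    rcases N with _ | N
    · simp
    · push_cast
      ring
  show (cp (⊤ : SimpleGraph V)).eval q = _
  rw [h, eval_mul, eval_sub, eval_X, eval_one]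

/-- division by a polynomial without zeros -/
private theorem nv_divP {F : ℝ → ℝ} (hF : RatF F) (D : ℝ[X])
    (hD : ∀ q : ℝ, 4 ≤ q → D.eval q ≠ 0) : RatF (fun q => F q / D.eval q) := by
  obtain ⟨A, B, h1⟩ := hF
  refine ⟨A, B * D, fun q hq => ?_⟩
  obtain ⟨h3, h4⟩ := h1 q hq
  rw [eval_mul]
  refine ⟨mul_ne_zero h3 (hD q hq), ?_⟩
  show F q / D.eval q = _
  rw [h4, div_div]

private theorem nv_NA {V : Type} [Fintype V] (H : SimpleGraph V) (x y : V) :
    RatF (fun q => NA q H x y) := by
  have h1 := nv_divP (ratF_eqv H x y) X (by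
    intro q hq
    rw [eval_X]
    intro h
    linarith)
  simp only [eval_X] at h1
  exact h1

private theorem nv_NB {V : Type} [Fintype V] (H : SimpleGraph V) (x y : V) :
    RatF (fun q => NB q H x y) := by
  have h1 := nv_divP ((ratF_P H).sub (ratF_eqv H x y)) (X * (X - 1)) (by
    intro q hq
    rw [eval_mul, eval_sub, eval_X, eval_one]
    have h2 : 0 < q * (q - 1) := mul_pos (by linarith) (by linarith)
    exact h2.ne')
  simp only [eval_mul, eval_sub, eval_X, eval_one] at h1
  exact h1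

private theorem nv_sub (m : ℝ) : RatF (fun q => q - m) := by
  have h1 := RatF.poly (X - C m)
  simp only [eval_sub, eval_X, eval_C] at h1
  exact h1

private theorem nv_one {N : ℕ} (a : Fin N) (A B : ℝ) :
    ∑ c, (if a = c then A else B) = (N : ℝ) * B + (A - B) := by
  have h1 : ∀ c : Fin N, (if a = c then A else B) = B + (if a = c then A - B else 0) := by
    intro c
    split_ifs <;> ring
  rw [Finset.sum_congr rfl fun c _ => h1 c, Finset.sum_add_distrib, Finset.sum_const,
    Finset.card_univ, Fintype.card_fin, nsmul_eq_mul, Finset.sum_ite_eq, if_pos (Finset.mem_univ a)]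

private theorem nv_two {N : ℕ} {a b : Fin N} (hab : a ≠ b) (A B A' B' : ℝ) :
    ∑ c, (if a = c then A else B) * (if c = b then A' else B') =
      A * B' + B * A' + ((N : ℝ) - 2) * (B * B') := by
  have h1 : ∀ c : Fin N, (if a = c then A else B) * (if c = b then A' else B') =
      B * B' + (if a = c then (A - B) * B' else 0) + (if b = c then B * (A' - B') else 0) := by
    intro c
    by_cases h2 : a = c
    · have h3 : c ≠ b := fun h => hab (h2.trans h)
      rw [if_pos h2, if_pos h2, if_neg h3, if_neg (Ne.symm h3)]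
      ring
    · by_cases h3 : c = b
      · rw [if_neg h2, if_neg h2, if_pos h3, if_pos h3.symm]
        ring
      · rw [if_neg h2, if_neg h2, if_neg h3, if_neg (Ne.symm h3)]
        ring
  rw [Finset.sum_congr rfl fun c _ => h1 c, Finset.sum_add_distrib, Finset.sum_add_distrib,
    Finset.sum_const, Finset.card_univ, Fintype.card_fin, nsmul_eq_mul, Finset.sum_ite_eq,
    Finset.sum_ite_eq, if_pos (Finset.mem_univ a), if_pos (Finset.mem_univ b)]
  ring

private theorem nv_same {N : ℕ} (a : Fin N) (A B A' B' : ℝ) :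
    ∑ c, (if a = c then A else B) * (if c = a then A' else B') =
      A * A' + ((N : ℝ) - 1) * (B * B') := by
  have h1 : ∀ c : Fin N, (if a = c then A else B) * (if c = a then A' else B') =
      (if a = c then A * A' else B * B') := by
    intro c
    by_cases h2 : a = c
    · rw [if_pos h2, if_pos h2, if_pos h2.symm]
    · rw [if_neg h2, if_neg h2, if_neg (Ne.symm h2)]
  rw [Finset.sum_congr rfl fun c _ => h1 c, nv_one]
  ring

private theorem nv_eqv {V : Type} [Fintype V] (H : SimpleGraph V) (x y : V) (N : ℕ) :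
    eqv (N : ℝ) H x y = ∑ a : Fin N, (z2 H x y N a a : ℝ) := by
  classical
  rw [eqv_nat]
  have h1 : ((cols H N).filter (fun c => c x = c y)).card = ∑ a : Fin N, z2 H x y N a a := by
    rw [Finset.card_eq_sum_card_fiberwise (f := fun c : V → Fin N => c x)
      (t := (Finset.univ : Finset (Fin N))) (fun c _ => Finset.mem_coe.2 (Finset.mem_univ _))]
    refine Finset.sum_congr rfl fun a _ => ?_
    unfold z2
    congr 1
    ext c
    rw [Finset.mem_filter, Finset.mem_filter, Finset.mem_filter]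
    constructor
    · rintro ⟨⟨h2, h3⟩, h4⟩
      exact ⟨h2, h4, h3 ▸ h4⟩
    · rintro ⟨h2, h3, h4⟩
      exact ⟨⟨h2, h3.trans h4.symm⟩, h3⟩
  have h2 : (((cols H N).filter (fun c => c x = c y)).card : ℝ) =
      ((∑ a : Fin N, z2 H x y N a a : ℕ) : ℝ) := by
    rw [← h1]
  rw [Nat.cast_sum] at h2
  rw [← h2]

private theorem nv_cnt {V : Type} [Fintype V] (H : SimpleGraph V) (x y : V) (N : ℕ) :
    P (N : ℝ) H = ∑ a : Fin N, ∑ b : Fin N, (z2 H x y N a b : ℝ) := by
  classical
  have hP : P (N : ℝ) H = (cnt H N : ℝ) := cp_eval H N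
  have h1 : cnt H N = ∑ a : Fin N, ∑ b : Fin N, z2 H x y N a b := by
    have h2 : cnt H N = (cols H N).card := rfl
    rw [h2, Finset.card_eq_sum_card_fiberwise (f := fun c : V → Fin N => (c x, c y))
      (t := (Finset.univ : Finset (Fin N × Fin N)))
      (fun c _ => Finset.mem_coe.2 (Finset.mem_univ _)), Fintype.sum_prod_type]
    refine Finset.sum_congr rfl fun a _ => Finset.sum_congr rfl fun b _ => ?_
    unfold z2
    congr 1
    ext c
    rw [Finset.mem_filter, Finset.mem_filter, Prod.mk.injEq]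
  rw [hP, h1]
  push_cast
  rfl

variable {V V' W : Type} [Fintype V] [Fintype V'] [Fintype W] {H : SimpleGraph V}
  {H' : SimpleGraph V'} {Y : SimpleGraph W} {x y : V} {x' y' : V'} {s t : W}

theorem net_nat (hxy : x ≠ y) {N : ℕ} (hN : 4 ≤ N) (a b : Fin N) :
    (z2 H x y N a b : ℝ) = if a = b then NA (N : ℝ) H x y else NB (N : ℝ) H x y := by
  obtain ⟨α, β, hz⟩ := exists_z2f H x y N
  have hn : (4 : ℝ) ≤ (N : ℝ) := by exact_mod_cast hN
  have h0 : (N : ℝ) ≠ 0 := by linarith
  have h1 : (N : ℝ) - 1 ≠ 0 := by intro h; linarith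
  have e1 : eqv (N : ℝ) H x y = (N : ℝ) * α := by
    rw [nv_eqv, Finset.sum_congr rfl fun a _ => (hz a a).trans (if_pos rfl), Finset.sum_const,
      Finset.card_univ, Fintype.card_fin, nsmul_eq_mul]
  have e2 : P (N : ℝ) H = (N : ℝ) * ((N : ℝ) * β + (α - β)) := by
    have h2 : ∀ a : Fin N, ∑ b, (z2 H x y N a b : ℝ) = (N : ℝ) * β + (α - β) := by
      intro a
      rw [Finset.sum_congr rfl fun b _ => hz a b, nv_one]
    rw [nv_cnt H x y, Finset.sum_congr rfl fun a _ => h2 a, Finset.sum_const,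
      Finset.card_univ, Fintype.card_fin, nsmul_eq_mul]
  have e3 : NA (N : ℝ) H x y = α := by
    unfold NA
    rw [e1]
    field_simp
  have e4 : NB (N : ℝ) H x y = β := by
    unfold NB
    rw [e1, e2, div_eq_iff (mul_ne_zero h0 h1)]
    ring
  rw [e3, e4]
  exact hz a b

theorem par2_val (hxy : x ≠ y) (hxy' : x' ≠ y') (hst : s ≠ t)
    (hz : ∀ (N : ℕ) (a b : Fin N), z2 Y s t N a b = z2 H x y N a b * z2 H' x' y' N a b)
    (q : ℝ) (hq : 4 ≤ q) : NA q Y s t = NA q H x y * NA q H' x' y' ∧
      NB q Y s t = NB q H x y * NB q H' x' y' := by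
  have hab : ∀ N : ℕ, 4 ≤ N → ∃ a b : Fin N, a ≠ b := by
    intro N hN
    refine ⟨⟨0, by omega⟩, ⟨1, by omega⟩, ?_⟩
    intro h
    have := congrArg Fin.val h
    simp at this
  constructor
  · refine RatF.ext (nv_NA Y s t) ((nv_NA H x y).mul (nv_NA H' x' y')) ?_ q hq
    intro N hN
    obtain ⟨a, b, -⟩ := hab N hN
    have h1 := net_nat (H := Y) hst hN a a
    have h2 := net_nat (H := H) hxy hN a a
    have h3 := net_nat (H := H') hxy' hN a a
    rw [if_pos rfl] at h1 h2 h3
    show NA (N : ℝ) Y s t = NA (N : ℝ) H x y * NA (N : ℝ) H' x' y'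
    rw [← h1, ← h2, ← h3, hz N a a, Nat.cast_mul]
  · refine RatF.ext (nv_NB Y s t) ((nv_NB H x y).mul (nv_NB H' x' y')) ?_ q hq
    intro N hN
    obtain ⟨a, b, hne⟩ := hab N hN
    have h1 := net_nat (H := Y) hst hN a b
    have h2 := net_nat (H := H) hxy hN a b
    have h3 := net_nat (H := H') hxy' hN a b
    rw [if_neg hne] at h1 h2 h3
    show NB (N : ℝ) Y s t = NB (N : ℝ) H x y * NB (N : ℝ) H' x' y'
    rw [← h1, ← h2, ← h3, hz N a b, Nat.cast_mul]

theorem ser2_val (hxy : x ≠ y) (hxy' : x' ≠ y') (hst : s ≠ t)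
    (hz : ∀ (N : ℕ) (a b : Fin N),
      z2 Y s t N a b = ∑ c, z2 H x y N a c * z2 H' x' y' N c b)
    (q : ℝ) (hq : 4 ≤ q) :
    NA q Y s t = NA q H x y * NA q H' x' y' + (q - 1) * (NB q H x y * NB q H' x' y') ∧
      NB q Y s t = NA q H x y * NB q H' x' y' + NB q H x y * NA q H' x' y' +
        (q - 2) * (NB q H x y * NB q H' x' y') := by
  have hab : ∀ N : ℕ, 4 ≤ N → ∃ a b : Fin N, a ≠ b := by
    intro N hN
    refine ⟨⟨0, by omega⟩, ⟨1, by omega⟩, ?_⟩
    intro h
    have := congrArg Fin.val h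
    simp at this
  constructor
  · refine RatF.ext (nv_NA Y s t) (((nv_NA H x y).mul (nv_NA H' x' y')).add
      ((nv_sub 1).mul ((nv_NB H x y).mul (nv_NB H' x' y')))) ?_ q hq
    intro N hN
    obtain ⟨a, b, -⟩ := hab N hN
    have h1 := net_nat (H := Y) hst hN a a
    rw [if_pos rfl, hz N a a] at h1
    push_cast at h1
    rw [Finset.sum_congr rfl fun c _ => by
      rw [net_nat (H := H) hxy hN a c, net_nat (H := H') hxy' hN c a], nv_same] at h1
    exact h1.symm
  · refine RatF.ext (nv_NB Y s t) ((((nv_NA H x y).mul (nv_NB H' x' y')).add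
      ((nv_NB H x y).mul (nv_NA H' x' y'))).add
      ((nv_sub 2).mul ((nv_NB H x y).mul (nv_NB H' x' y')))) ?_ q hq
    intro N hN
    obtain ⟨a, b, hne⟩ := hab N hN
    have h1 := net_nat (H := Y) hst hN a b
    rw [if_neg hne, hz N a b] at h1
    push_cast at h1
    rw [Finset.sum_congr rfl fun c _ => by
      rw [net_nat (H := H) hxy hN a c, net_nat (H := H') hxy' hN c b], nv_two hne] at h1
    exact h1.symm

theorem top_val (q : ℝ) (hq : 4 ≤ q) :
    NA q (⊤ : SimpleGraph (Fin 2)) 0 1 = 0 ∧ NB q (⊤ : SimpleGraph (Fin 2)) 0 1 = 1 := by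
  have h0 : eqv q (⊤ : SimpleGraph (Fin 2)) 0 1 = 0 :=
    Pool.Agent.SB.eqv_adj (by rw [SimpleGraph.top_adj]; decide)
  have h1 : P q (⊤ : SimpleGraph (Fin 2)) = q * (q - 1) := nv_P_top (Fintype.card_fin 2) q
  have h2 : q * (q - 1) ≠ 0 := by
    have : 0 < q * (q - 1) := mul_pos (by linarith) (by linarith)
    exact this.ne'
  constructor
  · unfold NA
    rw [h0, zero_div]
  · unfold NB
    rw [h0, h1, sub_zero, div_self h2]

end Pool.Agent.ZOL
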