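import Pool.Agent.ZOL.SgDefs
import Mathlib.Combinatorics.SimpleGraph.CycleGraph

/-!
# Girth, degeneracy and odd cycle homomorphisms of subdivided graphs

JOB ZOL-SgGir (helper44).

Plan.
* `Sg_hom`: `inl u ↦ 0`, `inr (e, k, j) ↦ j + 1` in `Fin (M + 1)` (`SimpleGraph.cycleGraph_adj'` or
  `cycleGraph_adj`; the last inner vertex has colour `M`, adjacent to `0`).
* `Sg_deg2`: if `S` contains a vertex `inr (e, k, j)`, its neighbours are among the two vertices
  (predecessor or `inl e.1.1`), (successor or `inl e.1.2`); otherwise all vertices of `S` are `inl` and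
  pairwise non-adjacent.  (For `M = 0` there are no edges.)
* `Sg_cycle`: `M ≥ 1` (else trivial).  A cycle `w` contains an edge, so a vertex `inr (e, k, j)` (no two
  vertices `inl` are adjacent).  In a cycle every vertex of the support has exactly two neighbours in
  `w.toSubgraph` (`SimpleGraph.Walk.IsCycle.ncard_neighborSet_toSubgraph_eq_two`); `inr (e, k, j)` has at
  most two neighbours in `Sg G K M`, so all its neighbours are in the support of `w`.  Hence with `j` also
  `j + 1` and `j - 1` (if they exist): all `inr (e, k, j)`, `j : Fin M`, are in the support.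
  `w.support.tail` has no repetitions, `w.length` elements, and contains all vertices of the support, so
  `M ≤ w.length`.
* `Sg_egirth`: `SimpleGraph.le_egirth`.
-/

set_option autoImplicit false

noncomputable section

namespace Pool.Agent.ZOL

variable {V : Type} [Fintype V]

/-- colours of the vertices of the subdivided graph -/
private def sgc {G : SimpleGraph V} {K M : ℕ} (x : V ⊕ (Ed G × Fin K × Fin M)) : Fin (M + 1) :=
  match x with
  | Sum.inl _ => ⟨0, Nat.succ_pos M⟩
  | Sum.inr (_, _, j) => ⟨j.val + 1, Nat.succ_lt_succ j.2⟩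

private theorem sgc_rel {G : SimpleGraph V} {K M : ℕ} (hM : 2 ≤ M)
    (x y : V ⊕ (Ed G × Fin K × Fin M)) (h : sgRel G K M x y) :
    (SimpleGraph.cycleGraph (M + 1)).Adj (sgc x) (sgc y) := by
  rw [SimpleGraph.cycleGraph_adj']
  rcases x with u | ⟨e, k, j⟩
  · rcases y with u' | ⟨e', k', j'⟩
    · exact absurd h (by simp [sgRel])
    · rcases h with ⟨_, h⟩ | ⟨_, h⟩
      · right
        rw [Fin.val_sub]
        change (M + 1 - 0 + (j'.val + 1)) % (M + 1) = 1
        rw [h, Nat.sub_zero, Nat.zero_add, Nat.add_mod_left]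
        exact Nat.mod_eq_of_lt (by omega)
      · left
        rw [Fin.val_sub]
        change (M + 1 - (j'.val + 1) + 0) % (M + 1) = 1
        rw [h, Nat.add_zero, Nat.add_sub_cancel_left]
        exact Nat.mod_eq_of_lt (by omega)
  · rcases y with u' | ⟨e', k', j'⟩
    · exact absurd h (by simp [sgRel])
    · obtain ⟨_, _, h⟩ := h
      right
      rw [Fin.val_sub]
      change (M + 1 - (j.val + 1) + (j'.val + 1)) % (M + 1) = 1
      have hj := j.2
      have h1 : M + 1 - (j.val + 1) + (j'.val + 1) = (M + 1) + 1 := by omega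
      rw [h1, Nat.add_mod_left]
      exact Nat.mod_eq_of_lt (by omega)

theorem Sg_hom (G : SimpleGraph V) (K : ℕ) {M : ℕ} (hM : 2 ≤ M) :
    Nonempty (Sg G K M →g SimpleGraph.cycleGraph (M + 1)) := by
  refine ⟨⟨sgc, ?_⟩⟩
  intro x y hxy
  obtain ⟨_, h | h⟩ := (SimpleGraph.fromRel_adj _ _ _).1 hxy
  · exact sgc_rel hM x y h
  · exact (sgc_rel hM y x h).symm

private def sgp {G : SimpleGraph V} {K M : ℕ} (e : Ed G) (k : Fin K) (j : Fin M) :
    V ⊕ (Ed G × Fin K × Fin M) :=
  if h : j.val = 0 then Sum.inl e.1.1 else Sum.inr (e, k, ⟨j.val - 1, by have := j.2; omega⟩)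

private def sgs {G : SimpleGraph V} {K M : ℕ} (e : Ed G) (k : Fin K) (j : Fin M) :
    V ⊕ (Ed G × Fin K × Fin M) :=
  if h : j.val + 1 = M then Sum.inl e.1.2
  else Sum.inr (e, k, ⟨j.val + 1, by have := j.2; omega⟩)

private theorem sg_nb {G : SimpleGraph V} {K M : ℕ} {e : Ed G} {k : Fin K} {j : Fin M}
    {y : V ⊕ (Ed G × Fin K × Fin M)} (h : (Sg G K M).Adj (Sum.inr (e, k, j)) y) :
    y = sgp e k j ∨ y = sgs e k j := by
  obtain ⟨_, h | h⟩ := (SimpleGraph.fromRel_adj _ _ _).1 h
  · rcases y with u' | ⟨e', k', j'⟩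
    · exact absurd h (by simp [sgRel])
    · obtain ⟨h1, h2, h3⟩ := h
      subst h1 h2
      right
      unfold sgs
      rw [dif_neg (by have := j'.2; omega)]
      congr 3
      exact Fin.ext h3.symm
  · rcases y with u' | ⟨e', k', j'⟩
    · rcases h with ⟨h1, h2⟩ | ⟨h1, h2⟩
      · left
        unfold sgp
        rw [dif_pos h2, h1]
      · right
        unfold sgs
        rw [dif_pos h2, h1]
    · obtain ⟨h1, h2, h3⟩ := h
      subst h1 h2
      left
      unfold sgp
      rw [dif_neg (by omega)]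
      congr 3
      refine Fin.ext ?_
      show j'.val = j.val - 1
      omega

private theorem sg_inl {G : SimpleGraph V} {K M : ℕ} {u u' : V} :
    ¬ (Sg G K M).Adj (Sum.inl u) (Sum.inl u') := by
  intro h
  obtain ⟨_, h | h⟩ := (SimpleGraph.fromRel_adj _ _ _).1 h
  · exact absurd h (by simp [sgRel])
  · exact absurd h (by simp [sgRel])

open scoped Classical in
theorem Sg_deg2 (G : SimpleGraph V) (K M : ℕ) (S : Finset (V ⊕ (Ed G × Fin K × Fin M)))
    (hS : S.Nonempty) : ∃ v ∈ S, (S.filter (fun w => (Sg G K M).Adj v w)).card ≤ 2 := by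
  by_cases hx : ∃ e k j, (Sum.inr (e, k, j) : V ⊕ (Ed G × Fin K × Fin M)) ∈ S
  · obtain ⟨e, k, j, h⟩ := hx
    refine ⟨_, h, ?_⟩
    refine (Finset.card_le_card (t := {sgp e k j, sgs e k j}) fun y hy => ?_).trans
      Finset.card_le_two
    rw [Finset.mem_insert, Finset.mem_singleton]
    exact sg_nb (Finset.mem_filter.1 hy).2
  · obtain ⟨v, hv⟩ := hS
    refine ⟨v, hv, ?_⟩
    have h0 : S.filter (fun w => (Sg G K M).Adj v w) = ∅ := by
      refine Finset.filter_eq_empty_iff.2 fun y hy hadj => ?_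
      rcases v with u | ⟨e, k, j⟩
      · rcases y with u' | ⟨e', k', j'⟩
        · exact sg_inl hadj
        · exact hx ⟨e', k', j', hy⟩
      · exact hx ⟨e, k, j, hv⟩
    rw [h0, Finset.card_empty]
    exact Nat.zero_le _

private theorem sg_closed {G : SimpleGraph V} {K M : ℕ} {v : V ⊕ (Ed G × Fin K × Fin M)}
    (w : (Sg G K M).Walk v v) (hw : w.IsCycle) (e : Ed G) (k : Fin K) (j : Fin M)
    (hj : Sum.inr (e, k, j) ∈ w.support) : sgp e k j ∈ w.support ∧ sgs e k j ∈ w.support := by
  have h1 := hw.ncard_neighborSet_toSubgraph_eq_two hj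
  have h2 : w.toSubgraph.neighborSet (Sum.inr (e, k, j)) ⊆ {sgp e k j, sgs e k j} := by
    intro y hy
    have h3 : w.toSubgraph.Adj (Sum.inr (e, k, j)) y := hy
    exact sg_nb h3.adj_sub
  have h4 : w.toSubgraph.neighborSet (Sum.inr (e, k, j)) = {sgp e k j, sgs e k j} := by
    refine Set.eq_of_subset_of_ncard_le h2 ?_ (Set.toFinite _)
    rw [h1]
    refine (Set.ncard_insert_le _ _).trans ?_
    rw [Set.ncard_singleton]
  constructor
  · have h5 : sgp e k j ∈ w.toSubgraph.neighborSet (Sum.inr (e, k, j)) := by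
      rw [h4]
      exact Set.mem_insert _ _
    have h6 : w.toSubgraph.Adj (Sum.inr (e, k, j)) (sgp e k j) := h5
    exact (w.mem_verts_toSubgraph).1 h6.snd_mem
  · have h5 : sgs e k j ∈ w.toSubgraph.neighborSet (Sum.inr (e, k, j)) := by
      rw [h4]
      exact Set.mem_insert_of_mem _ rfl
    have h6 : w.toSubgraph.Adj (Sum.inr (e, k, j)) (sgs e k j) := h5
    exact (w.mem_verts_toSubgraph).1 h6.snd_mem

theorem Sg_cycle (G : SimpleGraph V) (K M : ℕ) (v : V ⊕ (Ed G × Fin K × Fin M))
    (w : (Sg G K M).Walk v v) (hw : w.IsCycle) : M ≤ w.length := by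
  classical
  -- an inner vertex
  obtain ⟨e, k, j, hj⟩ : ∃ e k j, (Sum.inr (e, k, j) : V ⊕ (Ed G × Fin K × Fin M)) ∈
      w.support := by
    have h1 : (Sg G K M).Adj v w.snd := w.adj_snd hw.not_nil
    rcases v with u | ⟨e, k, j⟩
    · have h2 : w.snd ∈ w.support := w.getVert_mem_support 1
      generalize w.snd = y at h1 h2
      rcases y with u' | ⟨e', k', j'⟩
      · exact absurd h1 sg_inl
      · exact ⟨e', k', j', h2⟩
    · exact ⟨e, k, j, w.start_mem_support⟩
  have hup : ∀ i : Fin M, Sum.inr (e, k, i) ∈ w.support → ∀ h : i.val + 1 < M,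
      Sum.inr (e, k, (⟨i.val + 1, h⟩ : Fin M)) ∈ w.support := by
    intro i hi h
    have h1 := (sg_closed w hw e k i hi).2
    unfold sgs at h1
    rw [dif_neg (by omega)] at h1
    exact h1
  have hdn : ∀ i : Fin M, Sum.inr (e, k, i) ∈ w.support → i.val ≠ 0 →
      Sum.inr (e, k, (⟨i.val - 1, by have := i.2; omega⟩ : Fin M)) ∈ w.support := by
    intro i hi h
    have h1 := (sg_closed w hw e k i hi).1
    unfold sgp at h1
    rw [dif_neg h] at h1
    exact h1
  have hzero : ∀ m : ℕ, ∀ i : Fin M, i.val = m → Sum.inr (e, k, i) ∈ w.support →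
      Sum.inr (e, k, (⟨0, by have := i.2; omega⟩ : Fin M)) ∈ w.support := by
    intro m
    induction m with
    | zero =>
      intro i hi h
      have h1 : i = ⟨0, by have := i.2; omega⟩ := Fin.ext hi
      rw [← h1]
      exact h
    | succ m ih =>
      intro i hi h
      exact ih ⟨i.val - 1, by have := i.2; omega⟩ (by show i.val - 1 = m; omega)
        (hdn i h (by omega))
  have h0 := hzero j.val j rfl hj
  have hall : ∀ m : ℕ, ∀ h : m < M, Sum.inr (e, k, (⟨m, h⟩ : Fin M)) ∈ w.support := by
    intro m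
    induction m with
    | zero => intro h; exact h0
    | succ m ih => intro h; exact hup ⟨m, by omega⟩ (ih (by omega)) h
  have htail : ∀ y ∈ w.support, y ∈ w.support.tail := by
    intro y hy
    rcases (w.mem_support_iff).1 hy with h | h
    · rw [h]
      exact w.end_mem_tail_support hw.not_nil
    · exact h
  have hcard : (Finset.univ.image (fun i : Fin M =>
      (Sum.inr (e, k, i) : V ⊕ (Ed G × Fin K × Fin M)))).card = M := by
    rw [Finset.card_image_of_injective, Finset.card_univ, Fintype.card_fin]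
    intro a b hab
    have h1 : (e, k, a) = (e, k, b) := Sum.inr_injective hab
    exact (Prod.ext_iff.1 (Prod.ext_iff.1 h1).2).2
  have hsub : Finset.univ.image (fun i : Fin M =>
      (Sum.inr (e, k, i) : V ⊕ (Ed G × Fin K × Fin M))) ⊆ w.support.tail.toFinset := by
    intro y hy
    obtain ⟨i, _, rfl⟩ := Finset.mem_image.1 hy
    exact List.mem_toFinset.2 (htail _ (hall i.val i.2))
  have h1 := Finset.card_le_card hsub
  rw [hcard] at h1
  have h2 := h1.trans (List.toFinset_card_le _)
  rw [List.length_tail, SimpleGraph.Walk.length_support] at h2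
  exact h2

theorem Sg_egirth (G : SimpleGraph V) (K M : ℕ) : (M : ℕ∞) ≤ (Sg G K M).egirth := by
  rw [SimpleGraph.le_egirth]
  intro v w hw
  exact_mod_cast Sg_cycle G K M v w hw

end Pool.Agent.ZOL
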