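import Pool.Agent.ZOL.SgCnt

/-!
# Subdivided graphs approximate the graph

JOB ZOL-SgLim.  Prove all theorems of this file (remove the `sorry`s, keep the statements).

Plan.
* `sd_diff`: `d_M - s_M = (-1)^M` (induction); `sd_sum`: `s_M + (q - 1) d_M = (q - 1)^(M + 1)`;
  `sd_pos`: for `q > 2`: `s_M ≥ 0`, `d_M > 0`, and `s_M > 0` if `M ≥ 1`.
* `eqPoly`: for a set `A` of edges the number of `σ : V → Fin N` with `σ e.1.1 = σ e.1.2` for all `e ∈ A` is
  given by a polynomial `R A` (induction on `card A`, or: it is the number of maps from a quotient of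
  `V`, `N ^ c`; e.g. `c` = number of classes of the equivalence relation generated by `A`).
* For all `N`: `∏ e (if = then s^K else d^K) = ∑ A, (s^K - d^K)^|A| (d^K)^(|E| - |A|) [σ = on A]`
  (`Finset.prod_add`, the factor is `d^K + (s^K - d^K) [=]`), so as polynomials in `q`
  `P q (Sg G K M) = ∑ A, (s^K - d^K)^|A| (d^K)^(|E|-|A|) (R A).eval q` (`poly_ext`: both sides are
  polynomials in `q` since `sd q M` is), and similarly `P q G = ∑ A, (-1)^|A| (R A).eval q`
  (`∏ e (1 - [=])` is the indicator of proper colourings; every edge of `G` is one `e : Ed G` because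
  `lab` is injective).
* Divide by `d ^ (K |E|)`: `∑ A, ((s/d)^K - 1)^|A| (R A).eval q`, and `0 ≤ s/d < 1` for `M` even, so
  `(s/d)^K → 0`.
* `Sg_neg`, `Sg_pos'`: from the limit, `d > 0`.
-/

set_option autoImplicit false

noncomputable section

namespace Pool.Agent.ZOL

open Polynomial
open Pool.Agent.Helper36.BL (cp cnt cols cp_eval mem_cols IsMinor lab)
open Pool.Agent.U5 (P)

theorem sd_diff (q : ℝ) (M : ℕ) : (sd q M).2 - (sd q M).1 = (-1) ^ M := by
  induction M with
  | zero => rw [sd_zero]; simp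
  | succ M ih =>
    rw [sd_succ, pow_succ, ← ih]
    simp only
    ring

theorem sd_sum (q : ℝ) (M : ℕ) : (sd q M).1 + (q - 1) * (sd q M).2 = (q - 1) ^ (M + 1) := by
  induction M with
  | zero => rw [sd_zero]; simp
  | succ M ih =>
    rw [sd_succ, pow_succ, ← ih]
    simp only
    ring

theorem sd_pos {q : ℝ} (hq : 2 < q) (M : ℕ) : 0 ≤ (sd q M).1 ∧ 0 < (sd q M).2 := by
  induction M with
  | zero => rw [sd_zero]; exact ⟨le_refl _, one_pos⟩
  | succ M ih =>
    rw [sd_succ]
    obtain ⟨h1, h2⟩ := ih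
    refine ⟨mul_nonneg (by linarith) h2.le, ?_⟩
    have h3 : 0 < (q - 2) * (sd q M).2 := mul_pos (by linarith) h2
    simp only
    linarith

/-- polynomial version of `sd` -/
private def sdP : ℕ → ℝ[X] × ℝ[X]
  | 0 => (0, 1)
  | M + 1 => ((X - 1) * (sdP M).2, (sdP M).1 + (X - C 2) * (sdP M).2)

private theorem sdP_eval (q : ℝ) (M : ℕ) :
    ((sdP M).1).eval q = (sd q M).1 ∧ ((sdP M).2).eval q = (sd q M).2 := by
  induction M with
  | zero => exact ⟨eval_zero, eval_one⟩
  | succ M ih =>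
    obtain ⟨h1, h2⟩ := ih
    rw [sd_succ]
    constructor
    · show ((X - 1) * (sdP M).2).eval q = _
      rw [eval_mul, eval_sub, eval_X, eval_one, h2]
    · show ((sdP M).1 + (X - C 2) * (sdP M).2).eval q = _
      rw [eval_add, eval_mul, eval_sub, eval_X, eval_C, h1, h2]

/-- the relation given by a set of edges -/
private def rA {V : Type} [Fintype V] (G : SimpleGraph V) (A : Finset (Ed G)) (u v : V) : Prop :=
  ∃ e ∈ A, u = e.1.1 ∧ v = e.1.2

/-- number of classes -/
private def cA {V : Type} [Fintype V] (G : SimpleGraph V) (A : Finset (Ed G)) : ℕ :=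
  Nat.card (Quot (rA G A))

open scoped Classical in
private theorem card_eq {V : Type} [Fintype V] (G : SimpleGraph V) (A : Finset (Ed G)) (N : ℕ) :
    ((Finset.univ : Finset (V → Fin N)).filter
      (fun σ => ∀ e ∈ A, σ e.1.1 = σ e.1.2)).card = N ^ cA G A := by
  have e : {σ : V → Fin N // σ ∈ (Finset.univ : Finset (V → Fin N)).filter
      (fun σ => ∀ e ∈ A, σ e.1.1 = σ e.1.2)} ≃ (Quot (rA G A) → Fin N) :=
    { toFun := fun σ => Quot.lift σ.1 (by
        rintro u v ⟨e, he, rfl, rfl⟩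
        exact (Finset.mem_filter.1 σ.2).2 e he)
      invFun := fun g => ⟨fun v => g (Quot.mk _ v), by
        rw [Finset.mem_filter]
        exact ⟨Finset.mem_univ _, fun e he => congrArg g (Quot.sound ⟨e, he, rfl, rfl⟩)⟩⟩
      left_inv := fun σ => rfl
      right_inv := fun g => by
        funext x
        induction x using Quot.ind
        rfl }
  have h1 := Nat.card_congr e
  have : Finite (Quot (rA G A)) := inferInstance
  rw [Nat.card_fun, Nat.card_eq_fintype_card, Fintype.card_coe] at h1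
  rw [h1, Nat.card_eq_fintype_card, Fintype.card_fin]
  rfl

open scoped Classical in
private theorem sum_prod {V : Type} [Fintype V] (G : SimpleGraph V) (N : ℕ) (a b : ℝ) :
    ∑ σ : V → Fin N, ∏ e : Ed G, (if σ e.1.1 = σ e.1.2 then a else b) =
      ∑ A : Finset (Ed G), (a - b) ^ A.card * b ^ (Fintype.card (Ed G) - A.card) *
        (N : ℝ) ^ cA G A := by
  have h1 : ∀ σ : V → Fin N, ∏ e : Ed G, (if σ e.1.1 = σ e.1.2 then a else b) =
      ∑ A : Finset (Ed G), (a - b) ^ A.card * b ^ (Fintype.card (Ed G) - A.card) *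
        (if ∀ e ∈ A, σ e.1.1 = σ e.1.2 then (1 : ℝ) else 0) := by
    intro σ
    have h2 : ∀ e : Ed G, (if σ e.1.1 = σ e.1.2 then a else b) =
        (if σ e.1.1 = σ e.1.2 then (a - b) else 0) + b := by
      intro e
      by_cases h : σ e.1.1 = σ e.1.2
      · rw [if_pos h, if_pos h]; ring
      · rw [if_neg h, if_neg h]; ring
    rw [Finset.prod_congr rfl fun e _ => h2 e, Finset.prod_add, Finset.powerset_univ]
    refine Finset.sum_congr rfl fun A _ => ?_
    rw [Finset.prod_ite_zero, Finset.prod_const, Finset.prod_const, Finset.card_univ_sdiff]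
    by_cases h : ∀ e ∈ A, σ e.1.1 = σ e.1.2
    · rw [if_pos h, if_pos h]; ring
    · rw [if_neg h, if_neg h]; ring
  rw [Finset.sum_congr rfl fun σ _ => h1 σ, Finset.sum_comm]
  refine Finset.sum_congr rfl fun A _ => ?_
  rw [← Finset.mul_sum]
  congr 1
  rw [← Nat.cast_pow, ← card_eq G A N, Finset.card_filter]
  push_cast
  rfl

open scoped Classical in
private theorem cnt_G {V : Type} [Fintype V] (G : SimpleGraph V) (N : ℕ) :
    (cnt G N : ℝ) = ∑ σ : V → Fin N, ∏ e : Ed G, (if σ e.1.1 = σ e.1.2 then (0 : ℝ) else 1) := by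
  unfold cnt cols
  rw [Finset.card_filter]
  push_cast
  refine Finset.sum_congr rfl fun σ _ => ?_
  have h1 : ∀ e : Ed G, (if σ e.1.1 = σ e.1.2 then (0 : ℝ) else 1) =
      (if σ e.1.1 ≠ σ e.1.2 then (1 : ℝ) else 0) := by
    intro e
    by_cases h : σ e.1.1 = σ e.1.2
    · rw [if_pos h, if_neg (not_not.2 h)]
    · rw [if_neg h, if_pos h]
  rw [Finset.prod_congr rfl fun e _ => h1 e, Finset.prod_ite_zero, Finset.prod_const_one]
  have h2 : (∀ x y, G.Adj x y → σ x ≠ σ y) ↔
      ∀ e ∈ (Finset.univ : Finset (Ed G)), σ e.1.1 ≠ σ e.1.2 := by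
    constructor
    · intro h e _
      exact h _ _ e.2.1
    · intro h x y hxy
      rcases lt_trichotomy (lab V x) (lab V y) with h2 | h2 | h2
      · exact h ⟨(x, y), hxy, h2⟩ (Finset.mem_univ _)
      · exact absurd (Helper36.BL.lab_inj h2) hxy.ne
      · exact Ne.symm (h ⟨(y, x), hxy.symm, h2⟩ (Finset.mem_univ _))
  by_cases h3 : ∀ x y, G.Adj x y → σ x ≠ σ y
  · rw [if_pos h3, if_pos (h2.1 h3)]
  · rw [if_neg h3, if_neg (fun h => h3 (h2.2 h))]

private theorem poly_ext' {A B : ℝ[X]} (h : ∀ N : ℕ, A.eval (N : ℝ) = B.eval (N : ℝ)) :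
    A = B := by
  have h1 : A - B = 0 := by
    apply Polynomial.eq_zero_of_infinite_isRoot
    refine Set.infinite_of_injective_forall_mem (f := fun n : ℕ => (n : ℝ)) ?_ ?_
    · intro m n hmn
      exact Nat.cast_injective hmn
    · intro n
      show IsRoot (A - B) (n : ℝ)
      rw [IsRoot, eval_sub, h n, sub_self]
  exact sub_eq_zero.1 h1

private theorem P_G {V : Type} [Fintype V] (G : SimpleGraph V) (q : ℝ) :
    P q G = ∑ A : Finset (Ed G), (-1) ^ A.card * q ^ cA G A := by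
  classical
  have h1 : cp G = ∑ A : Finset (Ed G), C ((-1 : ℝ) ^ A.card) * X ^ cA G A := by
    refine poly_ext' fun N => ?_
    rw [cp_eval, cnt_G, sum_prod, eval_finsetSum]
    refine Finset.sum_congr rfl fun A _ => ?_
    rw [eval_mul, eval_C, eval_pow, eval_X, one_pow, zero_sub, mul_one]
  unfold U5.P
  rw [h1, eval_finsetSum]
  refine Finset.sum_congr rfl fun A _ => ?_
  rw [eval_mul, eval_C, eval_pow, eval_X]

private theorem P_Sg {V : Type} [Fintype V] (G : SimpleGraph V) (K : ℕ) {M : ℕ} (hM : 1 ≤ M)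
    (q : ℝ) :
    P q (Sg G K M) = ∑ A : Finset (Ed G), ((sd q M).1 ^ K - (sd q M).2 ^ K) ^ A.card *
      ((sd q M).2 ^ K) ^ (Fintype.card (Ed G) - A.card) * q ^ cA G A := by
  classical
  have h1 : cp (Sg G K M) = ∑ A : Finset (Ed G), ((sdP M).1 ^ K - (sdP M).2 ^ K) ^ A.card *
      ((sdP M).2 ^ K) ^ (Fintype.card (Ed G) - A.card) * X ^ cA G A := by
    refine poly_ext' fun N => ?_
    rw [cp_eval, Sg_cnt G K M hM N, eval_finsetSum]
    have h2 : ∀ σ : V → Fin N, ∏ e : Ed G,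
        (if σ e.1.1 = σ e.1.2 then (sd (N : ℝ) M).1 else (sd (N : ℝ) M).2) ^ K =
        ∏ e : Ed G, (if σ e.1.1 = σ e.1.2 then (sd (N : ℝ) M).1 ^ K else
          (sd (N : ℝ) M).2 ^ K) := by
      intro σ
      refine Finset.prod_congr rfl fun e _ => ?_
      by_cases h : σ e.1.1 = σ e.1.2
      · rw [if_pos h, if_pos h]
      · rw [if_neg h, if_neg h]
    rw [Finset.sum_congr rfl fun σ _ => h2 σ, sum_prod]
    refine Finset.sum_congr rfl fun A _ => ?_
    rw [eval_mul, eval_mul, eval_pow, eval_pow, eval_sub, eval_pow, eval_pow, eval_pow, eval_X,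
      (sdP_eval _ M).1, (sdP_eval _ M).2]
  unfold U5.P
  rw [h1, eval_finsetSum]
  refine Finset.sum_congr rfl fun A _ => ?_
  rw [eval_mul, eval_mul, eval_pow, eval_pow, eval_sub, eval_pow, eval_pow, eval_pow, eval_X,
    (sdP_eval _ M).1, (sdP_eval _ M).2]

theorem Sg_tendsto {V : Type} [Fintype V] (G : SimpleGraph V) {M : ℕ} (hM : 1 ≤ M)
    (hev : Even M) {q : ℝ} (hq : 2 < q) :
    Filter.Tendsto (fun K : ℕ => P q (Sg G K M) / (sd q M).2 ^ (K * Fintype.card (Ed G)))
      Filter.atTop (nhds (P q G)) := by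
  classical
  obtain ⟨h1, h2⟩ := sd_pos hq M
  have h3 : (sd q M).1 < (sd q M).2 := by
    have h4 := sd_diff q M
    rw [hev.neg_one_pow] at h4
    linarith
  have hx0 : 0 ≤ (sd q M).1 / (sd q M).2 := div_nonneg h1 h2.le
  have hx1 : (sd q M).1 / (sd q M).2 < 1 := (div_lt_one h2).2 h3
  have h5 : ∀ K : ℕ, P q (Sg G K M) / (sd q M).2 ^ (K * Fintype.card (Ed G)) =
      ∑ A : Finset (Ed G), (((sd q M).1 / (sd q M).2) ^ K - 1) ^ A.card * q ^ cA G A := by
    intro K
    rw [P_Sg G K hM q, Finset.sum_div]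
    refine Finset.sum_congr rfl fun A _ => ?_
    have hA : A.card ≤ Fintype.card (Ed G) := Finset.card_le_univ A
    obtain ⟨r, hr⟩ := Nat.exists_eq_add_of_le hA
    have hd : (sd q M).2 ^ K ≠ 0 := (pow_pos h2 K).ne'
    rw [hr, Nat.add_sub_cancel_left, pow_mul, pow_add, div_pow, div_sub_one hd, div_pow]
    rw [div_mul_eq_mul_div, div_eq_div_iff (mul_ne_zero (pow_ne_zero _ hd) (pow_ne_zero _ hd))
      (pow_ne_zero _ hd)]
    ring
  rw [P_G G q]
  simp only [h5]
  refine tendsto_finsetSum _ fun A _ => ?_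
  refine Filter.Tendsto.mul_const _ ?_
  have h6 : Filter.Tendsto (fun K : ℕ => ((sd q M).1 / (sd q M).2) ^ K - 1) Filter.atTop
      (nhds (0 - 1)) :=
    (tendsto_pow_atTop_nhds_zero_of_lt_one hx0 hx1).sub tendsto_const_nhds
  rw [zero_sub] at h6
  exact h6.pow _

theorem Sg_neg {V : Type} [Fintype V] (G : SimpleGraph V) {M : ℕ} (hM : 1 ≤ M)
    (hev : Even M) {q : ℝ} (hq : 2 < q) (h : P q G < 0) :
    ∃ K0 : ℕ, ∀ K, K0 ≤ K → P q (Sg G K M) < 0 := by
  have h1 := (Sg_tendsto G hM hev hq).eventually (gt_mem_nhds h)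
  obtain ⟨K0, h2⟩ := Filter.eventually_atTop.1 h1
  refine ⟨K0, fun K hK => ?_⟩
  have h3 := h2 K hK
  have h4 : 0 < (sd q M).2 ^ (K * Fintype.card (Ed G)) := pow_pos (sd_pos hq M).2 _
  by_contra h5
  exact absurd (div_nonneg (not_lt.1 h5) h4.le) (not_le.2 h3)

theorem Sg_pos' {V : Type} [Fintype V] (G : SimpleGraph V) {M : ℕ} (hM : 1 ≤ M)
    (hev : Even M) {q : ℝ} (hq : 2 < q) (h : 0 < P q G) :
    ∃ K0 : ℕ, ∀ K, K0 ≤ K → 0 < P q (Sg G K M) := by
  have h1 := (Sg_tendsto G hM hev hq).eventually (lt_mem_nhds h)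
  obtain ⟨K0, h2⟩ := Filter.eventually_atTop.1 h1
  refine ⟨K0, fun K hK => ?_⟩
  have h3 := h2 K hK
  have h4 : 0 < (sd q M).2 ^ (K * Fintype.card (Ed G)) := pow_pos (sd_pos hq M).2 _
  by_contra h5
  exact absurd (div_nonpos_of_nonpos_of_nonneg (not_lt.1 h5) h4.le) (not_le.2 h3)

end Pool.Agent.ZOL
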