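import Pool.Agent.ZOL.SgPl
import Pool.Agent.ZOL.SgGir
import Pool.Agent.ZOL.SgLim
import Pool.Agent.ZOL.NetV
import Pool.Agent.ZOL.Net
import Pool.Agent.ZOL.Ana2

/-!
# Density of the roots near a negative value
-/

set_option autoImplicit false

noncomputable section

namespace Pool.Agent.ZOL

open Pool.Agent.Helper1.PG
open Pool.Agent.Helper36.BL (cp cnt cols cp_eval mem_cols IsMinor)
open Pool.Agent.U5 (P)
open Pool.Agent.SB (Disc ad eqv)

variable {V : Type} [Fintype V] {H : SimpleGraph V} {x y : V}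

theorem P_net {q : ℝ} (hq : 4 ≤ q) (H : SimpleGraph V) (x y : V) :
    P q H = q * (NA q H x y + (q - 1) * NB q H x y) := by
  have h0 : q ≠ 0 := by intro h; linarith
  have h1 : q - 1 ≠ 0 := by intro h; linarith
  unfold NA NB
  field_simp
  ring

theorem net_pow (h : N2 H x y) (k : ℕ) :
    ∃ (W : Type) (_ : Fintype W) (Y : SimpleGraph W) (s t : W), N2 Y s t ∧
      ∀ q : ℝ, 4 ≤ q → NA q Y s t = NA q H x y ^ (k + 1) ∧ NB q Y s t = NB q H x y ^ (k + 1) := by
  induction k with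
  | zero => exact ⟨V, inferInstance, H, x, y, h, fun q _ => by simp⟩
  | succ k ih =>
    obtain ⟨W, _, Y, s, t, hY, hv⟩ := ih
    obtain ⟨W', _, Y', s', t', hY', hz⟩ := exists_par2 hY h
    refine ⟨W', inferInstance, Y', s', t', hY', fun q hq => ?_⟩
    obtain ⟨a, b⟩ := par2_val hY.ne h.ne hY'.ne hz q hq
    obtain ⟨c, d⟩ := hv q hq
    rw [a, b, c, d]
    exact ⟨(pow_succ _ _).symm, (pow_succ _ _).symm⟩

theorem net_path (hpl : Pl (⊤ : SimpleGraph (Fin 2))) (M : ℕ) :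
    ∃ (W : Type) (_ : Fintype W) (Y : SimpleGraph W) (s t : W), N2 Y s t ∧
      ∀ q : ℝ, 4 ≤ q → NA q Y s t = (sd q M).1 ∧ NB q Y s t = (sd q M).2 := by
  have h2 : N2 (⊤ : SimpleGraph (Fin 2)) 0 1 := ⟨disc_adj hpl (by simp), by decide⟩
  induction M with
  | zero =>
    refine ⟨Fin 2, inferInstance, ⊤, 0, 1, h2, fun q hq => ?_⟩
    exact top_val q hq
  | succ M ih =>
    obtain ⟨W, _, Y, s, t, hY, hv⟩ := ih
    obtain ⟨W', _, Y', s', t', hY', hz⟩ := exists_ser2 hY h2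
    refine ⟨W', inferInstance, Y', s', t', hY', fun q hq => ?_⟩
    obtain ⟨a, b⟩ := ser2_val hY.ne h2.ne hY'.ne hz q hq
    obtain ⟨c, d⟩ := hv q hq
    obtain ⟨e, f⟩ := top_val q hq
    rw [a, b, c, d, e, f, sd_succ]
    refine ⟨by ring, by ring⟩

theorem net_comb (hpl : Pl (⊤ : SimpleGraph (Fin 2))) (h : N2 H x y) {k : ℕ} (hk : 1 ≤ k)
    (l M : ℕ) :
    ∃ (W : Type) (_ : Fintype W) (Y : SimpleGraph W) (s t : W), N2 Y s t ∧
      ∀ q : ℝ, 4 ≤ q → NA q Y s t = NA q H x y ^ k * (sd q M).1 ^ l ∧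
        NB q Y s t = NB q H x y ^ k * (sd q M).2 ^ l := by
  obtain ⟨k, rfl⟩ : ∃ j, k = j + 1 := ⟨k - 1, by omega⟩
  obtain ⟨W, _, Y, s, t, hY, hv⟩ := net_pow h k
  rcases l with _ | l
  · refine ⟨W, inferInstance, Y, s, t, hY, fun q hq => ?_⟩
    obtain ⟨a, b⟩ := hv q hq
    rw [a, b, pow_zero, pow_zero, mul_one, mul_one]
    exact ⟨rfl, rfl⟩
  · obtain ⟨W1, _, Y1, s1, t1, hY1, hv1⟩ := net_path hpl M
    obtain ⟨W2, _, Y2, s2, t2, hY2, hv2⟩ := net_pow hY1 l
    obtain ⟨W', _, Y', s', t', hY', hz⟩ := exists_par2 hY hY2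
    refine ⟨W', inferInstance, Y', s', t', hY', fun q hq => ?_⟩
    obtain ⟨a, b⟩ := par2_val hY.ne hY2.ne hY'.ne hz q hq
    obtain ⟨c, d⟩ := hv q hq
    obtain ⟨e, f⟩ := hv2 q hq
    obtain ⟨g, i⟩ := hv1 q hq
    rw [a, b, c, d, e, f, g, i]
    exact ⟨rfl, rfl⟩

/-- a negative plane graph contains a network that changes the sign -/
theorem exists_net {q : ℝ} (hq : 4 ≤ q) (G : SimpleGraph V) (hG : Pl G) (hneg : P q G < 0) :
    ∃ (Y : SimpleGraph V) (x y : V), x ≠ y ∧ Pl (ad Y x y) ∧ N2 Y x y ∧ NB q Y x y < 0 ∧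
      -NB q Y x y < NA q Y x y := by
  classical
  have hfin : Finite (SimpleGraph V) := inferInstance
  obtain ⟨Y, ⟨hYG, hYn⟩, hmin⟩ := (wellFounded_lt (α := SimpleGraph V)).has_min
    {Y | Y ≤ G ∧ P q Y < 0} ⟨G, le_refl _, hneg⟩
  have hYp : Pl Y := hG.mono hYG
  obtain ⟨x, y, hxy⟩ : ∃ x y, Y.Adj x y := by
    by_contra hno
    push Not at hno
    have : Y = ⊥ := by
      ext u v
      simp [hno u v]
    rw [this, U5.P_bot] at hYn
    have : 0 < q ^ Fintype.card V := pow_pos (by linarith) _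
    linarith
  have hadj : ∀ u v, (Y.deleteEdges {s(x, y)}).Adj u v ↔ Y.Adj u v ∧ s(u, v) ≠ s(x, y) := by
    intro u v
    rw [SimpleGraph.deleteEdges_adj, Set.mem_singleton_iff]
  have had : ad (Y.deleteEdges {s(x, y)}) x y = Y := by
    ext u v
    rw [SB.ad_adj, hadj]
    constructor
    · rintro (h | ⟨_, ⟨rfl, rfl⟩ | ⟨rfl, rfl⟩⟩)
      · exact h.1
      · exact hxy
      · exact hxy.symm
    · intro h
      by_cases he : s(u, v) = s(x, y)
      · refine Or.inr ⟨h.ne, ?_⟩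
        rw [Sym2.eq_iff] at he
        exact he
      · exact Or.inl ⟨h, he⟩
  have hlt : Y.deleteEdges {s(x, y)} < Y := by
    refine lt_of_le_of_ne (SimpleGraph.deleteEdges_le _) ?_
    intro e
    have h1 : (Y.deleteEdges {s(x, y)}).Adj x y := by rw [e]; exact hxy
    rw [hadj] at h1
    exact h1.2 rfl
  have h0 : 0 ≤ P q (Y.deleteEdges {s(x, y)}) := by
    by_contra hc
    push Not at hc
    exact hmin _ ⟨hlt.le.trans hYG, hc⟩ hlt
  have hev : eqv q (Y.deleteEdges {s(x, y)}) x y =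
      P q (Y.deleteEdges {s(x, y)}) - P q Y := by
    unfold SB.eqv
    rw [if_neg hxy.ne, had]
  refine ⟨Y.deleteEdges {s(x, y)}, x, y, hxy.ne, by rw [had]; exact hYp,
    ⟨(disc_adj hYp hxy).mono hlt.le, hxy.ne⟩, ?_, ?_⟩
  · unfold NB
    rw [hev]
    have : P q (Y.deleteEdges {s(x, y)}) - (P q (Y.deleteEdges {s(x, y)}) - P q Y) = P q Y := by
      ring
    rw [this]
    exact div_neg_of_neg_of_pos hYn (mul_pos (by linarith) (by linarith))
  · have h1 := P_net hq (Y.deleteEdges {s(x, y)}) x y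
    have h2 : NB q (Y.deleteEdges {s(x, y)}) x y < 0 := by
      unfold NB
      rw [hev]
      have : P q (Y.deleteEdges {s(x, y)}) - (P q (Y.deleteEdges {s(x, y)}) - P q Y) =
        P q Y := by ring
      rw [this]
      exact div_neg_of_neg_of_pos hYn (mul_pos (by linarith) (by linarith))
    rw [h1] at h0
    have h3 : 0 ≤ NA q (Y.deleteEdges {s(x, y)}) x y +
        (q - 1) * NB q (Y.deleteEdges {s(x, y)}) x y :=
      nonneg_of_mul_nonneg_right h0 (by linarith)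
    nlinarith

/-- sparse graphs of large girth that map to a long odd cycle -/
structure Spa (g : ℕ) {V : Type} (G : SimpleGraph V) : Prop where
  girth : (g : ℕ∞) ≤ G.egirth
  hom : ∃ k : ℕ, 1 ≤ k ∧ g ≤ 2 * k + 1 ∧ Nonempty (G →g SimpleGraph.cycleGraph (2 * k + 1))
  deg2 : ∀ S : Set V, S.Finite → S.Nonempty → ∃ v ∈ S, {w ∈ S | G.Adj v w}.ncard ≤ 2

theorem Spa_Sg (G : SimpleGraph V) (K : ℕ) {g m : ℕ} (hm : 1 ≤ m) (hg : g ≤ 2 * m) :
    Spa g (Sg G K (2 * m)) where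
  girth := le_trans (by exact_mod_cast hg) (Sg_egirth G K (2 * m))
  hom := ⟨m, hm, by omega, Sg_hom G K (by omega)⟩
  deg2 := by
    classical
    intro S hf hS
    obtain ⟨v, hv, hc⟩ := Sg_deg2 G K (2 * m) hf.toFinset (by
      rw [Set.Finite.toFinset_nonempty]; exact hS)
    refine ⟨v, hf.mem_toFinset.1 hv, ?_⟩
    have e : {w ∈ S | (Sg G K (2 * m)).Adj v w} =
        ((hf.toFinset.filter (fun w => (Sg G K (2 * m)).Adj v w) : Finset _) : Set _) := by
      ext w
      simp only [Set.mem_setOf_eq, Finset.coe_filter, Set.Finite.mem_toFinset]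
    rw [e, Set.ncard_coe_finset]
    exact hc

theorem continuous_P (G : SimpleGraph V) : Continuous (fun q : ℝ => P q G) :=
  Polynomial.continuous (cp G)

theorem continuousAt_NA {q : ℝ} (hq : 4 ≤ q) (hxy : x ≠ y) (H : SimpleGraph V) :
    ContinuousAt (fun q : ℝ => NA q H x y) q := by
  unfold NA SB.eqv
  simp only [if_neg hxy]
  exact (((continuous_P H).sub (continuous_P _)).continuousAt).div continuousAt_id (by linarith)

theorem continuousAt_NB {q : ℝ} (hq : 4 ≤ q) (hxy : x ≠ y) (H : SimpleGraph V) :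
    ContinuousAt (fun q : ℝ => NB q H x y) q := by
  unfold NB SB.eqv
  simp only [if_neg hxy]
  refine (((continuous_P H).sub ((continuous_P H).sub (continuous_P _))).continuousAt).div ?_ ?_
  · exact continuousAt_id.mul (continuousAt_id.sub continuousAt_const)
  · exact mul_ne_zero (by linarith) (by linarith)

theorem P_ad {q : ℝ} (hq : 4 ≤ q) (hxy : x ≠ y) (H : SimpleGraph V) :
    P q (ad H x y) = q * (q - 1) * NB q H x y := by
  have h0 : q ≠ 0 := by intro h; linarith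
  have h1 : q - 1 ≠ 0 := by intro h; linarith
  unfold NB SB.eqv
  rw [if_neg hxy]
  field_simp
  ring

/-- **Density.**  Near a real number `q > 4` at which some plane graph is negative, the real
roots of sparse plane graphs are dense. -/
theorem dense_roots {q : ℝ} (h4 : 4 < q) (G : SimpleGraph V) (hG : Pl G) (hneg : P q G < 0) :
    ∃ s t : ℝ, s < q ∧ q < t ∧ ∀ g : ℕ,
      (∀ x : ℝ, s < x → x < t → ∃ (W : Type) (_ : Fintype W) (Y : SimpleGraph W),
        Pl Y ∧ Spa g Y ∧ P x Y < 0) ∧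
      (∀ x y : ℝ, s < x → x < y → y < t →
        ∃ (W : Type) (_ : Fintype W) (Y : SimpleGraph W) (z : ℝ),
          Pl Y ∧ Spa g Y ∧ x < z ∧ z < y ∧ P z Y = 0) := by
  obtain ⟨N, u, v, huv, hNp, hN, hB, hA⟩ := exists_net h4.le G hG hneg
  have hpl2 : Pl (⊤ : SimpleGraph (Fin 2)) := by
    refine Pl.minor hNp (IsMinor.of_inj (fun i : Fin 2 => if i = 0 then u else v) ?_ ?_)
    · intro i j hij
      fin_cases i <;> fin_cases j <;> simp_all
    · intro i j hij
      have huv' := huv.symm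
      fin_cases i <;> fin_cases j <;> simp_all [SB.ad_adj]
  have c1 := continuousAt_NA h4.le huv N
  have c2 := continuousAt_NB h4.le huv N
  have c3 : ContinuousAt (fun x : ℝ => NA x N u v + NB x N u v) q := c1.add c2
  have hAB : 0 < NA q N u v + NB q N u v := by linarith
  have ev : ∀ᶠ x in nhds q, 4 < x ∧ NB x N u v < 0 ∧ 0 < NA x N u v + NB x N u v :=
    (lt_mem_nhds h4).and ((c2.eventually (gt_mem_nhds hB)).and
      (c3.eventually (lt_mem_nhds hAB)))
  obtain ⟨s, t, ⟨hs, ht⟩, hst⟩ := mem_nhds_iff_exists_Ioo_subset.1 ev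
  have hin : ∀ x, s < x → x < t → 4 < x ∧ NB x N u v < 0 ∧ 0 < NA x N u v + NB x N u v :=
    fun x h1 h2 => hst ⟨h1, h2⟩
  refine ⟨s, t, hs, ht, fun g => ⟨?_, ?_⟩⟩
  · intro x h1 h2
    obtain ⟨hx4, hxB, -⟩ := hin x h1 h2
    have hneg' : P x (ad N u v) < 0 := by
      rw [P_ad hx4.le huv]
      exact mul_neg_of_pos_of_neg (mul_pos (by linarith) (by linarith)) hxB
    obtain ⟨K0, hK⟩ := Sg_neg (ad N u v) (M := 2 * (g + 1)) (by omega) (even_two_mul _)
      (by linarith) hneg'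
    exact ⟨_, _, Sg (ad N u v) (K0 + 1) (2 * (g + 1)), Sg_pl hNp K0 _,
      Spa_Sg _ _ (by omega) (by omega), hK _ (by omega)⟩
  · intro x y h1 h2 h3
    obtain ⟨hx4, hxB, hxA⟩ := hin x h1 (h2.trans h3)
    obtain ⟨hy4, hyB, hyA⟩ := hin y (h1.trans h2) h3
    obtain ⟨k, l, M, hk, -, -, hX, hY⟩ := ana2 hx4.le h2 hxB
      (show -NB x N u v < NA x N u v by linarith) hyB
      (show -NB y N u v < NA y N u v by linarith)
    obtain ⟨W, _, Z, a, b, hZ, hv⟩ := net_comb hpl2 hN hk.pos l M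
    have hXn : P x Z < 0 := by
      obtain ⟨e1, e2⟩ := hv x hx4.le
      rw [P_net hx4.le Z a b, e1, e2]
      exact mul_neg_of_pos_of_neg (by linarith) hX
    have hYp : 0 < P y Z := by
      obtain ⟨e1, e2⟩ := hv y hy4.le
      rw [P_net hy4.le Z a b, e1, e2]
      exact mul_pos (by linarith) hY
    obtain ⟨K0, hK0⟩ := Sg_neg Z (M := 2 * (g + 1)) (by omega) (even_two_mul _)
      (by linarith) hXn
    obtain ⟨K1, hK1⟩ := Sg_pos' Z (M := 2 * (g + 1)) (by omega) (even_two_mul _)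
      (by linarith) hYp
    have hn := hK0 (max K0 K1 + 1) (by omega)
    have hp := hK1 (max K0 K1 + 1) (by omega)
    have hc := (continuous_P (Sg Z (max K0 K1 + 1) (2 * (g + 1)))).continuousOn
      (s := Set.Icc x y)
    obtain ⟨z, ⟨hz1, hz2⟩, hz⟩ := intermediate_value_Icc h2.le hc ⟨hn.le, hp.le⟩
    simp only at hz
    refine ⟨_, _, Sg Z (max K0 K1 + 1) (2 * (g + 1)), z, Sg_pl (disc_pl hZ.disc) _ _,
      Spa_Sg _ _ (by omega) (by omega), lt_of_le_of_ne hz1 ?_, lt_of_le_of_ne hz2 ?_, hz⟩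
    · rintro rfl
      linarith
    · rintro rfl
      linarith

end Pool.Agent.ZOL
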