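import Pool.Agent.ZOL.Defs
import Pool.Agent.SB.CHole
import Pool.Agent.SB.CTri
import Pool.Agent.SB.CLnk

/-!
# A vertex of degree five of a plane triangulation

JOB ZOL-Five.  Prove the theorem of this file (remove the `sorry`, keep the statement).

Plan.  Window with `k = 5`, `n = 6`: ring slots `0 … 4`, inner slot `5`, edges
`E = [(0,5), (1,5), (2,5), (3,5), (4,5)]`, triangles `T = [(0,1,5), (1,2,5), (2,3,5), (3,4,5), (0,4,5)]`;
`TblOK 5 6 E T` as `tbl55` in `SB/CTbl.lean` (`decide`/`interval_cases`).  `f : ℕ → V`, `f j = g j` for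
`j < 5`, `f 5 = v`: `Wdw 5 6 E G f` from `Link` (`inj`: `g` injective, `v ∉ range g` because of
`hl.adj`; `nh`; `ring` from `hl.cyc`).  `SB.hole` gives the disc `Disc (G.comap val) [rr 0, …, rr 4]` on
`{x // ¬ WK 5 6 f x}`; `WK 5 6 f x ↔ x = v`.  Put `H = G.comap val`, `r i = rr i.val`.
`Pl H`: minor of `G`.  The isomorphism `G ≃g hub H r Set.univ`: `v ↦ none`, `x ↦ some x`
(`Link.adj` for the edges at `v`), and `P` is invariant under isomorphisms (`U5/PlIso.lean`: `P_iso` or
similar; otherwise count colourings and `poly_ext`).  `¬ H.Adj (r (i-1)) (r (i+1))`: `hl.cyc`,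
`decide` in `ZMod 5`.  `R5.ring`: `hl.cyc`.
-/

set_option autoImplicit false

noncomputable section

namespace Pool.Agent.ZOL

open Pool.Agent.Helper1.PG
open Pool.Agent.Helper36.BL (cp cnt cols cp_eval mem_cols IsMinor)
open Pool.Agent.U5 (P)
open Pool.Agent.SB (Disc ad eqv)

private def Efive : List (ℕ × ℕ) := [(0, 5), (1, 5), (2, 5), (3, 5), (4, 5)]

private def Tfive : List (ℕ × ℕ × ℕ) := [(0, 1, 5), (1, 2, 5), (2, 3, 5), (3, 4, 5), (0, 4, 5)]

private theorem tblfive : SB.TblOK 5 6 Efive Tfive where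
  k3 := by decide
  kn := by decide
  e := by decide
  eN := by decide
  t := by decide
  tN := by decide
  tE := by decide
  two := by decide
  one := by decide
  count := by decide
  conn := by
    intro i h1 h2
    interval_cases i
    decide

private def ffive {V : Type} (v : V) (g : ZMod 5 → V) (j : ℕ) : V :=
  if j < 5 then g (j : ZMod 5) else v

private theorem ffive_lt {V : Type} (v : V) (g : ZMod 5 → V) {j : ℕ} (h : j < 5) :
    ffive v g j = g (j : ZMod 5) := if_pos h

private theorem ffive_ge {V : Type} (v : V) (g : ZMod 5 → V) {j : ℕ} (h : 5 ≤ j) :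
    ffive v g j = v := if_neg (not_lt.2 h)

private theorem five_cast {i j : ℕ} (hi : i < 5) (hj : j < 5)
    (h : (i : ZMod 5) = (j : ZMod 5)) : i = j := by
  interval_cases i <;> interval_cases j <;> first | rfl | (exfalso; revert h; decide)

private theorem five_surj (i : ZMod 5) : ∃ j : ℕ, j < 5 ∧ (j : ZMod 5) = i := by
  revert i
  decide

private theorem five_mod {i : ℕ} (hi : i < 5) :
    (((i + 1) % 5 : ℕ) : ZMod 5) = (i : ZMod 5) + 1 := by
  interval_cases i <;> decide

private theorem five_far (i : ZMod 5) : ¬ (i + 1 = i - 1 + 1 ∨ i - 1 = i + 1 + 1) := by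
  revert i
  decide

private theorem link_ne {V : Type} {G : SimpleGraph V} {v : V} {g : ZMod 5 → V}
    (hl : SB.Link G v g) (i : ZMod 5) : g i ≠ v := by
  intro h
  have h1 := (hl.adj (g i)).2 ⟨i, rfl⟩
  rw [h] at h1
  exact h1.ne rfl

private theorem wdw_five {V : Type} {G : SimpleGraph V} {v : V} {g : ZMod 5 → V}
    (hl : SB.Link G v g) : SB.Wdw 5 6 Efive G (ffive v g) := by
  refine ⟨?_, ?_, ?_⟩
  · intro i j hi hj h
    rcases Nat.lt_or_ge i 5 with h1 | h1
    · rcases Nat.lt_or_ge j 5 with h2 | h2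
      · rw [ffive_lt v g h1, ffive_lt v g h2] at h
        exact five_cast h1 h2 (hl.inj h)
      · rw [ffive_lt v g h1, ffive_ge v g h2] at h
        exact absurd h (link_ne hl _)
    · rcases Nat.lt_or_ge j 5 with h2 | h2
      · rw [ffive_ge v g h1, ffive_lt v g h2] at h
        exact absurd h.symm (link_ne hl _)
      · omega
  · intro i h1 h2 x
    have hi : i = 5 := by omega
    subst hi
    rw [ffive_ge v g le_rfl, hl.adj x]
    constructor
    · rintro ⟨k, rfl⟩
      obtain ⟨j, hj, rfl⟩ := five_surj k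
      refine ⟨j, by omega, Or.inr ?_, (ffive_lt v g hj).symm⟩
      interval_cases j <;> decide
    · rintro ⟨j, hj, hE, rfl⟩
      have hj5 : j < 5 := by
        by_contra hc
        have : j = 5 := by omega
        subst this
        revert hE
        decide
      exact ⟨(j : ZMod 5), ffive_lt v g hj5⟩
  · intro i hi
    have h1 : (i + 1) % 5 < 5 := Nat.mod_lt _ (by norm_num)
    rw [ffive_lt v g hi, ffive_lt v g h1, hl.cyc]
    exact Or.inl (five_mod hi)

private theorem wk_five {V : Type} {v : V} {g : ZMod 5 → V} (x : V) :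
    SB.WK 5 6 (ffive v g) x ↔ x = v := by
  constructor
  · rintro ⟨i, h1, h2, h3⟩
    rw [h3, ffive_ge v g h1]
  · rintro rfl
    exact ⟨5, le_rfl, by norm_num, (ffive_ge _ g le_rfl).symm⟩

private theorem P_of_equiv {V W : Type} [Fintype V] [Fintype W] {G : SimpleGraph V}
    {H : SimpleGraph W} (e : W ≃ V) (h : ∀ x y, H.Adj x y ↔ G.Adj (e x) (e y)) (q : ℝ) :
    P q G = P q H := by
  have h1 : cp G = cp H := by
    apply Pool.Agent.Helper36.BL.poly_ext
    intro N
    rw [cp_eval, cp_eval]
    have h2 : cnt G N = cnt H N := by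
      unfold cnt
      refine Finset.card_equiv (Equiv.arrowCongr e.symm (Equiv.refl (Fin N))) ?_
      intro c
      rw [mem_cols, mem_cols]
      constructor
      · intro hc x y hxy
        exact hc _ _ ((h x y).1 hxy)
      · intro hc x y hxy
        have h3 := hc (e.symm x) (e.symm y) ((h _ _).2 (by
          rw [e.apply_symm_apply, e.apply_symm_apply]
          exact hxy))
        intro h4
        apply h3
        show c (e (e.symm x)) = c (e (e.symm y))
        rw [e.apply_symm_apply, e.apply_symm_apply]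
        exact h4
    rw [h2]
  unfold Pool.Agent.U5.P
  rw [h1]

theorem exists_R5 {V : Type} [Fintype V] {G : SimpleGraph V} (hP : Pl G) (hcf : SB.CF G)
    (h4 : 4 ≤ Fintype.card V) {v : V} {g : ZMod 5 → V} (hl : SB.Link G v g) :
    ∃ (W : Type) (_ : Fintype W) (H : SimpleGraph W) (r : ZMod 5 → W), R5 H r ∧ Pl H ∧
      Fintype.card W + 1 = Fintype.card V ∧ (∀ q, P q G = P q (hub H r Set.univ)) ∧
      ∀ i, ¬ H.Adj (r (i - 1)) (r (i + 1)) := by
  classical
  set f := ffive v g with hf
  have hwk : ∀ x, SB.WK 5 6 f x ↔ x = v := fun x => wk_five x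
  let W := {x : V // ¬ SB.WK 5 6 f x}
  let _i : Fintype W := Fintype.ofFinite _
  let H : SimpleGraph W := G.comap (Subtype.val : W → V)
  let r : ZMod 5 → W := fun i => ⟨g i, fun h => link_ne hl i ((hwk _).1 h)⟩
  have hdisc := SB.hole tblfive (wdw_five hl) hP hcf h4 (fun i => r (i : ZMod 5))
    (fun i hi => (ffive_lt v g hi).symm)
  have hW : ∀ x : W, x.1 ≠ v := fun x h => x.2 ((hwk _).2 h)
  let e : Option W ≃ V := Equiv.ofBijective (fun o => o.elim v Subtype.val) (by
    constructor
    · rintro (_ | x) (_ | y) h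
      · rfl
      · exact absurd h.symm (hW y)
      · exact absurd h (hW x)
      · exact congrArg some (Subtype.ext h)
    · intro x
      by_cases hx : x = v
      · exact ⟨none, hx.symm⟩
      · exact ⟨some ⟨x, fun h => hx ((hwk _).1 h)⟩, rfl⟩)
  have hcard : Fintype.card W + 1 = Fintype.card V := by
    rw [← Fintype.card_congr e, Fintype.card_option]
  refine ⟨W, inferInstance, H, r, ⟨?_, ?_, ?_⟩, ?_, hcard, ?_, ?_⟩
  · exact hdisc
  · intro i
    exact (hl.cyc _ _).2 (Or.inl rfl)
  · intro i j hij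
    exact hl.inj (congrArg Subtype.val hij)
  · exact hP.minor (IsMinor.of_inj Subtype.val Subtype.val_injective (fun _ _ h => h))
  · intro q
    refine P_of_equiv e ?_ q
    rintro (_ | x) (_ | y)
    · constructor
      · rintro (⟨u, w, h1, -, -⟩ | ⟨-, i, -, h1⟩ | ⟨-, i, -, h1⟩)
        · exact absurd h1 (by simp)
        · exact absurd h1 (by simp)
        · exact absurd h1 (by simp)
      · intro h
        exact absurd rfl h.ne
    · constructor
      · rintro (⟨u, w, h1, -, -⟩ | ⟨-, i, -, h1⟩ | ⟨h1, -⟩)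
        · exact absurd h1 (by simp)
        · rw [Option.some_injective _ h1]
          exact (hl.adj _).2 ⟨i, rfl⟩
        · exact absurd h1 (by simp)
      · intro h
        obtain ⟨i, hi⟩ := (hl.adj y.1).1 h
        exact Or.inr (Or.inl ⟨rfl, i, Set.mem_univ _, congrArg some (Subtype.ext hi)⟩)
    · constructor
      · rintro (⟨u, w, -, h1, -⟩ | ⟨h1, -⟩ | ⟨-, i, -, h1⟩)
        · exact absurd h1 (by simp)
        · exact absurd h1 (by simp)
        · rw [Option.some_injective _ h1]
          exact ((hl.adj _).2 ⟨i, rfl⟩).symm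
      · intro h
        obtain ⟨i, hi⟩ := (hl.adj x.1).1 h.symm
        exact Or.inr (Or.inr ⟨rfl, i, Set.mem_univ _, congrArg some (Subtype.ext hi)⟩)
    · constructor
      · rintro (⟨u, w, h1, h2, h3⟩ | ⟨h1, -⟩ | ⟨h1, -⟩)
        · rw [Option.some_injective _ h1, Option.some_injective _ h2]
          exact h3
        · exact absurd h1 (by simp)
        · exact absurd h1 (by simp)
      · intro h
        exact Or.inl ⟨x, y, rfl, rfl, h⟩
  · intro i h
    exact five_far i ((hl.cyc _ _).1 h)

end Pool.Agent.ZOL
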