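import Pool.Agent.ZOL.GDefs
import Pool.Agent.SB.CTri

/-!
# Degrees in a minimal counterexample, general parameters

JOB ZOL-GDeg.  Prove all theorems of this file (remove the `sorry`s, keep the statements).

Plan.  `g_not_three`, `g_not_four`: copy `SB/CDeg.lean` with `q`, `t`: `rec_f q G w (lab V)`;
degree 3: `P q G = (q - 3) * P q (del G w) ≥ t * gc (n - 1) = gc n`; degree 4:
`P q G ≥ (q - 4) * gc (n - 1) + 2 * gc (n - 2) = ((q - 4) t + 2) gc (n - 2)` and
`t ^ 2 ≤ (q - 4) t + 2` for `0 < t ≤ q - 3`, `q ≤ 5` (`t ^ 2 - (q - 4) t ≤ (q - 3) ^ 2 - (q - 4) (q - 3) = q - 3 ≤ 2`).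
`g_exists_five`: `SB.exists_tri h.four h.emax h.cf` gives `dg`, `g`, `Tri G dg g`; `Tri.euler`:
`∑ v, (6 - dg v) = 12`, so `dg v ≤ 5` for some `v`; `3 ≤ dg v` (`Tri.three`), not `3`, not `4` (transport
`g v` along `dg v = 3`), so `dg v = 5`.
-/

set_option autoImplicit false

noncomputable section

namespace Pool.Agent.ZOL

open Pool.Agent.Helper1.PG
open Pool.Agent.Helper36.BL (cp cnt cols cp_eval mem_cols IsMinor)
open Pool.Agent.U5 (P)
open Pool.Agent.SB (EMax CF Link Tri)

open Pool.Agent.Helper36.BL (deg mm lab lab_inj isMinor_del isMinor_mm card_del card_mm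
  mem_prs)

private theorem deg_link {V : Type} [Fintype V] {G : SimpleGraph V} {d : ℕ} [NeZero d] {w : V}
    {g : ZMod d → V} (hl : Link G w g) : deg G w = d := by
  classical
  have h1 : deg G w = (Finset.univ.image g).card := by
    unfold deg
    congr 1
    ext x
    rw [Finset.mem_filter, Finset.mem_image]
    constructor
    · rintro ⟨-, h⟩
      obtain ⟨i, hi⟩ := (hl.adj x).1 h
      exact ⟨i, Finset.mem_univ _, hi.symm⟩
    · rintro ⟨i, -, hi⟩
      exact ⟨Finset.mem_univ _, (hl.adj x).2 ⟨i, hi.symm⟩⟩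
  rw [h1, Finset.card_image_of_injective _ hl.inj, Finset.card_univ, ZMod.card]

theorem g_not_three {q t : ℝ} (hp : GPar q t) {V : Type} [Fintype V] {G : SimpleGraph V}
    (h : GMin q t G) {w : V} {g : ZMod 3 → V} (hl : Link G w g) : False := by
  classical
  have h1 := Pool.Agent.U5.rec_f q G w (lab V) lab_inj
  have h2 : Helper36.BL.prs G w (lab V) = ∅ := by
    apply Finset.eq_empty_of_forall_notMem
    intro p hp
    rw [mem_prs] at hp
    obtain ⟨⟨ha, hb, hlt⟩, hna⟩ := hp
    obtain ⟨i, hi⟩ := (hl.adj _).1 ha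
    obtain ⟨j, hj⟩ := (hl.adj _).1 hb
    apply hna
    rw [hi, hj, hl.cyc]
    have hij : i ≠ j := by
      rintro rfl
      rw [hi, hj] at hlt
      exact lt_irrefl _ hlt
    have key : ∀ i j : ZMod 3, i ≠ j → (j = i + 1 ∨ i = j + 1) := by decide
    exact key i j hij
  rw [h2, Finset.sum_empty, deg_link hl, add_zero] at h1
  have h4 := h.four
  have h5 := h.hmin {x : V // x ≠ w} (Helper36.BL.del G w) (h.emax.1.minor (isMinor_del G w))
    (by have := card_del w; omega) (by have := card_del w; omega)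
  have h6 : gc q t (Fintype.card V) = t * gc q t (Fintype.card {x : V // x ≠ w}) := by
    rw [← gc_succ, card_del w]
  have h7 := h.lt
  rw [h6, h1] at h7
  have hg := gc_pos hp (Fintype.card {x : V // x ≠ w})
  have h8 : t * gc q t (Fintype.card {x : V // x ≠ w}) ≤
      (q - 3) * P q (Helper36.BL.del G w) :=
    mul_le_mul hp.tq h5 hg.le (hp.t0.le.trans hp.tq)
  push_cast at h7
  linarith

theorem g_not_four {q t : ℝ} (hp : GPar q t) (hq : q ≤ 5) {V : Type} [Fintype V]
    {G : SimpleGraph V} (h : GMin q t G) {w : V} {g : ZMod 4 → V} (hl : Link G w g) :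
    False := by
  classical
  have hwg : ∀ i, g i ≠ w := fun i => ((hl.adj (g i)).2 ⟨i, rfl⟩).ne'
  have h1 := Pool.Agent.U5.rec_f q G w (lab V) lab_inj
  -- at least five vertices
  have hn5 : 5 ≤ Fintype.card V := by
    have hc := card_del w
    have h2 : Fintype.card (ZMod 4) ≤ Fintype.card {x : V // x ≠ w} :=
      Fintype.card_le_of_injective (fun i => (⟨g i, hwg i⟩ : {x : V // x ≠ w}))
        (fun i j hij => hl.inj (congrArg Subtype.val hij))
    rw [ZMod.card] at h2
    omega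
  have hpair : ∀ i j : ZMod 4, i ≠ j → ¬ (j = i + 1 ∨ i = j + 1) →
      ∃ p ∈ Helper36.BL.prs G w (lab V), ((p.1 : V) = g i ∨ (p.1 : V) = g j) := by
    intro i j hij hc
    have hna : ¬ G.Adj (g i) (g j) := fun ha => hc ((hl.cyc i j).1 ha)
    have hai := (hl.adj (g i)).2 ⟨i, rfl⟩
    have haj := (hl.adj (g j)).2 ⟨j, rfl⟩
    rcases lt_trichotomy (lab V (g i)) (lab V (g j)) with hlt | heq | hlt
    · exact ⟨(⟨g i, hwg i⟩, ⟨g j, hwg j⟩), (mem_prs _ _ _ _).2 ⟨⟨hai, haj, hlt⟩, hna⟩,
        Or.inl rfl⟩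
    · exact absurd (hl.inj (lab_inj heq)) hij
    · exact ⟨(⟨g j, hwg j⟩, ⟨g i, hwg i⟩),
        (mem_prs _ _ _ _).2 ⟨⟨haj, hai, hlt⟩, fun ha => hna ha.symm⟩, Or.inr rfl⟩
  obtain ⟨p1, hp1, hq1⟩ := hpair 0 2 (by decide) (by decide)
  obtain ⟨p2, hp2, hq2⟩ := hpair 1 3 (by decide) (by decide)
  have hp12 : p1 ≠ p2 := by
    rintro rfl
    rcases hq1 with hq1 | hq1 <;> rcases hq2 with hq2 | hq2
    · exact absurd (hl.inj (hq1.symm.trans hq2)) (by decide)
    · exact absurd (hl.inj (hq1.symm.trans hq2)) (by decide)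
    · exact absurd (hl.inj (hq1.symm.trans hq2)) (by decide)
    · exact absurd (hl.inj (hq1.symm.trans hq2)) (by decide)
  obtain ⟨n, hn⟩ : ∃ n, Fintype.card V = n + 2 := ⟨Fintype.card V - 2, by omega⟩
  have hterm : ∀ p ∈ Helper36.BL.prs G w (lab V), gc q t n ≤ P q (mm G w (lab V) p) := by
    intro p hp
    have hc := card_mm w p.2
    have h2 := h.hmin _ (mm G w (lab V) p) (h.emax.1.minor (isMinor_mm G w (lab V) p hp))
      (by omega) (by omega)
    have h3 : Fintype.card {x : {x : V // x ≠ w} // x ≠ p.2} = n := by omega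
    rwa [h3] at h2
  have hsum : 2 * gc q t n ≤ ∑ p ∈ Helper36.BL.prs G w (lab V), P q (mm G w (lab V) p) := by
    have h2 : ({p1, p2} : Finset _) ⊆ Helper36.BL.prs G w (lab V) := by
      intro p hp
      rw [Finset.mem_insert, Finset.mem_singleton] at hp
      rcases hp with rfl | rfl
      · exact hp1
      · exact hp2
    have h3 := Finset.sum_le_sum_of_subset_of_nonneg
      (f := fun p => P q (mm G w (lab V) p)) h2
      (fun p hp' _ => le_trans (gc_pos hp n).le (hterm p hp'))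
    rw [Finset.sum_pair hp12] at h3
    have h4 := hterm p1 hp1
    have h5 := hterm p2 hp2
    linarith
  have h5 := h.hmin {x : V // x ≠ w} (Helper36.BL.del G w) (h.emax.1.minor (isMinor_del G w))
    (by have := card_del w; omega) (by have := card_del w; omega)
  have h6 : Fintype.card {x : V // x ≠ w} = n + 1 := by
    have := card_del w
    omega
  rw [h6, gc_succ] at h5
  have h7 := h.lt
  rw [hn, gc_add, h1, deg_link hl] at h7
  push_cast at h7
  have hcc := gc_pos hp n
  have hq4 := hp.q4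
  have ht0 := hp.t0
  have htq := hp.tq
  have h8 : (q - 4) * (t * gc q t n) ≤ (q - 4) * P q (Helper36.BL.del G w) :=
    mul_le_mul_of_nonneg_left h5 (by linarith)
  have h9 : t ^ 2 ≤ (q - 4) * t + 2 := by
    have h10 : t * (t - (q - 4)) ≤ t * 1 := mul_le_mul_of_nonneg_left (by linarith) ht0.le
    nlinarith
  have h10 : t ^ 2 * gc q t n ≤ ((q - 4) * t + 2) * gc q t n :=
    mul_le_mul_of_nonneg_right h9 hcc.le
  have h11 : ((q - 4) * t + 2) * gc q t n = (q - 4) * (t * gc q t n) + 2 * gc q t n := by ring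
  linarith

private theorem transport {V : Type} {G : SimpleGraph V} {v : V} {d d' : ℕ} (h : d = d')
    {g : ZMod d → V} (hl : Link G v g) : ∃ g' : ZMod d' → V, Link G v g' := by
  subst h
  exact ⟨g, hl⟩

theorem g_exists_five {V : Type} [Fintype V] {G : SimpleGraph V} (h4 : 4 ≤ Fintype.card V)
    (hmax : EMax G) (hcf : CF G) (h3 : ∀ (w : V) (g : ZMod 3 → V), ¬ Link G w g)
    (h4' : ∀ (w : V) (g : ZMod 4 → V), ¬ Link G w g) :
    ∃ (v : V) (g : ZMod 5 → V), Link G v g := by
  obtain ⟨dg, g, ht⟩ := Pool.Agent.SB.exists_tri h4 hmax hcf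
  have h1 : ∃ v, dg v ≤ 5 := by
    by_contra hc
    push Not at hc
    have h2 : ∑ v, (6 - (dg v : ℤ)) ≤ 0 := by
      refine Finset.sum_nonpos fun v _ => ?_
      have := hc v
      omega
    rw [ht.euler] at h2
    norm_num at h2
  obtain ⟨v, hv⟩ := h1
  have hv3 := ht.three v
  have hl := ht.link v
  rcases (by omega : dg v = 3 ∨ dg v = 4 ∨ dg v = 5) with h | h | h
  · obtain ⟨g', hg'⟩ := transport h hl
    exact absurd hg' (h3 v g')
  · obtain ⟨g', hg'⟩ := transport h hl
    exact absurd hg' (h4' v g')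
  · obtain ⟨g', hg'⟩ := transport h hl
    exact ⟨v, g', hg'⟩

end Pool.Agent.ZOL
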