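import Pool.Agent.ZOL.GDefs

/-!
# Lower bounds for all numbers of vertices and their products, general parameters
-/

set_option autoImplicit false

noncomputable section

namespace Pool.Agent.ZOL

open Polynomial
open Pool.Agent.Helper1.PG
open Pool.Agent.Helper36.BL (cp cnt cols cp_eval mem_cols IsMinor poly_ext)
open Pool.Agent.U5 (P)

private theorem zlb_cnt_top {V : Type} [Fintype V] (hV : Fintype.card V = 2) (N : ℕ) :
    cnt (⊤ : SimpleGraph V) N = N * (N - 1) := by
  classical
  have h1 : cnt (⊤ : SimpleGraph V) N = Fintype.card (V ↪ Fin N) := by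
    rw [← Fintype.card_congr (Equiv.subtypeInjectiveEquivEmbedding V (Fin N)),
      Fintype.card_subtype]
    unfold cnt
    congr 1
    ext c
    rw [mem_cols, Finset.mem_filter]
    constructor
    · intro h
      refine ⟨Finset.mem_univ _, fun u v huv => ?_⟩
      by_contra hne
      exact h u v hne huv
    · rintro ⟨-, h⟩ u v huv huv2
      exact huv (h huv2)
  rw [h1, Fintype.card_embedding_eq, Fintype.card_fin, hV]
  show N.descFactorial 2 = _
  rw [Nat.descFactorial_succ, Nat.descFactorial_one, mul_comm]

private theorem zlb_P_top {V : Type} [Fintype V] (hV : Fintype.card V = 2) (q : ℝ) :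
    P q (⊤ : SimpleGraph V) = q * (q - 1) := by
  have h : cp (⊤ : SimpleGraph V) = X * (X - 1) := by
    apply poly_ext
    intro N
    rw [cp_eval, zlb_cnt_top hV, eval_mul, eval_sub, eval_X, eval_one]
    rcases N with _ | N
    · simp
    · push_cast
      ring
  show (cp (⊤ : SimpleGraph V)).eval q = _
  rw [h, eval_mul, eval_sub, eval_X, eval_one]

private theorem zlb_P_one {W : Type} [Fintype W] (Y : SimpleGraph W) (hc : Fintype.card W = 1)
    (q : ℝ) : P q Y = q := by
  have hsub : Subsingleton W := Fintype.card_le_one_iff_subsingleton.1 hc.le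
  have hX : cp Y = X := by
    apply poly_ext
    intro n
    rw [cp_eval, eval_X]
    congr 1
    have h1 : cols Y n = Finset.univ := by
      ext c
      rw [mem_cols]
      constructor
      · intro _
        exact Finset.mem_univ _
      · intro _ u v huv
        exact absurd (Subsingleton.elim u v) huv.ne
    unfold cnt
    rw [h1, Finset.card_univ, Fintype.card_fun, Fintype.card_fin, hc, pow_one]
  show (cp Y).eval q = q
  rw [hX, eval_X]

theorem glb_pos {q t : ℝ} (h : GPar q t) (n : ℕ) : 0 < glb q t n := by
  have h4 := h.q4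
  unfold glb
  split_ifs
  · exact one_pos
  · linarith
  · apply mul_pos <;> linarith
  · exact gc_pos h n

theorem glb_le {q t : ℝ} (h : GPar q t) {n : ℕ} (hn : GH q t n) {W : Type} [Fintype W]
    (Y : SimpleGraph W) (hY : Pl Y) (hc : Fintype.card W < n) :
    glb q t (Fintype.card W) ≤ P q Y := by
  classical
  have h4q := h.q4
  have h4 : Fintype.card W = 0 ∨ Fintype.card W = 1 ∨ Fintype.card W = 2 ∨
      3 ≤ Fintype.card W := by omega
  rcases h4 with h4 | h4 | h4 | h4
  · have hE : IsEmpty W := Fintype.card_eq_zero_iff.1 h4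
    rw [h4]
    show glb q t 0 ≤ (cp Y).eval q
    rw [Pool.Agent.Helper36.BL.cp_of_isEmpty Y hE, eval_one]
    unfold glb
    rw [if_pos rfl]
  · rw [zlb_P_one Y h4, h4]
    unfold glb
    rw [if_neg one_ne_zero, if_pos rfl]
  · have hlb : glb q t (Fintype.card W) = q * (q - 1) := by
      rw [h4]
      unfold glb
      rw [if_neg (by norm_num), if_neg (by norm_num), if_pos rfl]
    rw [hlb]
    by_cases hb : Y = ⊥
    · subst hb
      rw [Pool.Agent.U5.P_bot, h4]
      nlinarith
    · have htop : Y = ⊤ := by
        obtain ⟨x, y, hxy, hu⟩ := Finset.card_eq_two.1 (show (Finset.univ : Finset W).card = 2 from h4)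
        have hall : ∀ z : W, z = x ∨ z = y := by
          intro z
          have hz : z ∈ (Finset.univ : Finset W) := Finset.mem_univ z
          rw [hu] at hz
          simpa using hz
        have hne : ∃ a b, Y.Adj a b := by
          by_contra hcon
          push Not at hcon
          apply hb
          ext a b
          constructor
          · intro hab
            exact absurd hab (hcon a b)
          · intro hab
            exact absurd hab (by simp)
        obtain ⟨a, b, hab⟩ := hne
        have hxyA : Y.Adj x y := by
          rcases hall a with ha | ha <;> rcases hall b with hb' | hb'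
          · rw [ha, hb'] at hab
            exact absurd hab (Y.irrefl)
          · rw [ha, hb'] at hab
            exact hab
          · rw [ha, hb'] at hab
            exact hab.symm
          · rw [ha, hb'] at hab
            exact absurd hab (Y.irrefl)
        ext u v
        rw [SimpleGraph.top_adj]
        constructor
        · exact fun huv => huv.ne
        · intro huv
          rcases hall u with ha | ha <;> rcases hall v with hb' | hb'
          · exact absurd (ha.trans hb'.symm) huv
          · rw [ha, hb']
            exact hxyA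
          · rw [ha, hb']
            exact hxyA.symm
          · exact absurd (ha.trans hb'.symm) huv
      subst htop
      rw [zlb_P_top h4]
  · have hlb : glb q t (Fintype.card W) = gc q t (Fintype.card W) := by
      unfold glb
      rw [if_neg (by omega), if_neg (by omega), if_neg (by omega)]
    rw [hlb]
    exact hn W Y hY h4 hc

private theorem zgc_three {q t : ℝ} (h : GPar q t) : gc q t 3 = q * (q - 1) * (q - 2) := by
  have ht := h.t0
  unfold gc
  field_simp

private theorem zgc_ge {q t : ℝ} {a : ℕ} (h : 3 ≤ a) : gc q t a = t ^ (a - 3) * gc q t 3 := by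
  have h1 := gc_add q t 3 (a - 3)
  rwa [show 3 + (a - 3) = a by omega] at h1

private theorem zgc_mix {q t : ℝ} {a b s : ℕ} (h : s ≤ a) :
    gc q t (a + b - s) = t ^ (a - s) * gc q t b := by
  have h1 := gc_add q t b (a - s)
  rwa [show b + (a - s) = a + b - s by omega] at h1

private theorem zglb_ge {q t : ℝ} {a : ℕ} (h : 3 ≤ a) : glb q t a = gc q t a := by
  unfold glb
  rw [if_neg (by omega), if_neg (by omega), if_neg (by omega)]

private theorem zglb_one {q t : ℝ} : glb q t 1 = q := by
  unfold glb
  rw [if_neg one_ne_zero, if_pos rfl]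

private theorem zglb_two {q t : ℝ} : glb q t 2 = q * (q - 1) := by
  unfold glb
  rw [if_neg (by norm_num), if_neg (by norm_num), if_pos rfl]

private theorem zfall_zero (q : ℝ) : SB.fall q 0 = 1 := by
  unfold SB.fall
  rw [if_pos rfl]

private theorem zfall_one (q : ℝ) : SB.fall q 1 = q := by
  unfold SB.fall
  rw [if_neg one_ne_zero, if_pos rfl]

private theorem zfall_two (q : ℝ) : SB.fall q 2 = q * (q - 1) := by
  unfold SB.fall
  rw [if_neg (by norm_num), if_neg (by norm_num), if_pos rfl]

private theorem zfall_three (q : ℝ) : SB.fall q 3 = q * (q - 1) * (q - 2) := by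
  unfold SB.fall
  rw [if_neg (by norm_num), if_neg (by norm_num), if_neg (by norm_num)]

private theorem zmul_aux {q t : ℝ} (h : GPar q t) {a b s : ℕ} (hs : s ≤ 3) (ha : s < a)
    (hab : s + 3 ≤ a + b) (hle : a ≤ b) :
    SB.fall q s * gc q t (a + b - s) ≤ glb q t a * glb q t b := by
  have h4 := h.q4
  have h0 := h.t0
  have htq := h.tq
  have hb := gc_pos h b
  have hq0 : 0 < q := by linarith
  have hq1 : 0 < q - 1 := by linarith
  have hq2 : 0 < q - 2 := by linarith
  have hqq : 0 < q * (q - 1) := mul_pos hq0 hq1
  have hqqq : 0 < q * (q - 1) * (q - 2) := mul_pos hqq hq2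
  have e2 : t * gc q t 2 = q * (q - 1) * (q - 2) := by
    rw [← zgc_three h]
    exact (gc_succ q t 2).symm
  rw [zgc_mix ha.le]
  have ha' : a = 1 ∨ a = 2 ∨ 3 ≤ a := by omega
  rcases ha' with ha' | ha' | ha'
  · have ht0 : s = 0 := by omega
    subst ht0
    subst ha'
    rw [zfall_zero, zglb_one, one_mul, Nat.sub_zero, pow_one]
    have hb' : b = 2 ∨ 3 ≤ b := by omega
    rcases hb' with hb' | hb'
    · subst hb'
      rw [zglb_two, e2]
      nlinarith
    · rw [zglb_ge hb']
      apply mul_le_mul_of_nonneg_right _ hb.le
      linarith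
  · have ht1 : s = 0 ∨ s = 1 := by omega
    subst ha'
    have hb' : b = 2 ∨ 3 ≤ b := by omega
    rw [zglb_two]
    rcases hb' with hb' | hb'
    · subst hb'
      rw [zglb_two]
      rcases ht1 with ht1 | ht1
      · subst ht1
        rw [zfall_zero, one_mul, Nat.sub_zero]
        have h6 : t ^ 2 * gc q t 2 = t * (q * (q - 1) * (q - 2)) := by
          rw [← e2]
          ring
        rw [h6]
        have h7 : t * (q - 2) ≤ q * (q - 1) := by nlinarith
        nlinarith [mul_le_mul_of_nonneg_left h7 hqq.le]
      · subst ht1
        rw [zfall_one, show 2 - 1 = 1 from rfl, pow_one, e2]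
        have h7 : q * (q - 2) ≤ q * (q - 1) := by nlinarith
        nlinarith [mul_le_mul_of_nonneg_left h7 hqq.le]
    · rw [zglb_ge hb']
      rcases ht1 with ht1 | ht1
      · subst ht1
        rw [zfall_zero, one_mul, Nat.sub_zero]
        apply mul_le_mul_of_nonneg_right _ hb.le
        nlinarith
      · subst ht1
        rw [zfall_one, show 2 - 1 = 1 from rfl, pow_one, ← mul_assoc]
        apply mul_le_mul_of_nonneg_right _ hb.le
        nlinarith
  · have hb' : 3 ≤ b := by omega
    rw [zglb_ge ha', zglb_ge hb', ← mul_assoc]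
    apply mul_le_mul_of_nonneg_right _ hb.le
    rw [zgc_ge ha', zgc_three h]
    have hp : 0 < t ^ (a - 3) := pow_pos h0 _
    have k1 : t ≤ q - 2 := by linarith
    have k2 : t ^ 2 ≤ (q - 1) * (q - 2) := by nlinarith
    have ht4 : s = 0 ∨ s = 1 ∨ s = 2 ∨ s = 3 := by omega
    rcases ht4 with ht4 | ht4 | ht4 | ht4
    · subst ht4
      rw [zfall_zero, one_mul, Nat.sub_zero]
      have h6 : t ^ a = t ^ (a - 3) * t ^ 3 := by
        rw [← pow_add]
        congr 1
        omega
      rw [h6]
      apply mul_le_mul_of_nonneg_left _ hp.le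
      have h7 : t ^ 3 = t * t ^ 2 := by ring
      rw [h7]
      have h8 : t * t ^ 2 ≤ q * ((q - 1) * (q - 2)) := by
        apply mul_le_mul _ k2 (by positivity) hq0.le
        linarith
      linarith
    · subst ht4
      rw [zfall_one]
      have h6 : t ^ (a - 1) = t ^ (a - 3) * t ^ 2 := by
        rw [← pow_add]
        congr 1
        omega
      rw [h6]
      have h7 : q * (t ^ (a - 3) * t ^ 2) = t ^ (a - 3) * (q * t ^ 2) := by
        ring
      rw [h7]
      apply mul_le_mul_of_nonneg_left _ hp.le
      have := mul_le_mul_of_nonneg_left k2 hq0.le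
      linarith
    · subst ht4
      rw [zfall_two]
      have h6 : t ^ (a - 2) = t ^ (a - 3) * t := by
        rw [← pow_succ]
        congr 1
        omega
      rw [h6]
      have h7 : q * (q - 1) * (t ^ (a - 3) * t) = t ^ (a - 3) * (q * (q - 1) * t) := by
        ring
      rw [h7]
      apply mul_le_mul_of_nonneg_left _ hp.le
      exact mul_le_mul_of_nonneg_left k1 hqq.le
    · subst ht4
      rw [zfall_three]
      apply le_of_eq
      ring

theorem glb_mul {q t : ℝ} (h : GPar q t) {a b s : ℕ} (hs : s ≤ 3) (ha : s < a) (hb : s < b)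
    (hab : s + 3 ≤ a + b) : SB.fall q s * gc q t (a + b - s) ≤ glb q t a * glb q t b := by
  rcases le_total a b with hh | hh
  · exact zmul_aux h hs ha hab hh
  · rw [add_comm a b, mul_comm (glb q t a)]
    exact zmul_aux h hs hb (by omega) hh

end Pool.Agent.ZOL
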