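import Pool.Agent.ZOL.GLb

/-!
# The induction: only minimal counterexamples have to be excluded
-/

set_option autoImplicit false

noncomputable section

namespace Pool.Agent.ZOL

open Polynomial
open Pool.Agent.Helper1.PG
open Pool.Agent.Helper36.BL (cp cnt cols cp_eval mem_cols IsMinor poly_ext)
open Pool.Agent.U5 (P)
open Pool.Agent.SB (EMax CF)

private theorem fall_pos {q : ℝ} (hq : 4 ≤ q) {t : ℕ} : 0 < SB.fall q t := by
  unfold SB.fall
  split_ifs
  · norm_num
  · linarith
  · apply mul_pos <;> linarith
  · apply mul_pos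
    · apply mul_pos <;> linarith
    · linarith

theorem g_cf_of_min {q t : ℝ} (h : GPar q t) {V : Type} [Fintype V] {G : SimpleGraph V}
    (h4 : 4 ≤ Fintype.card V) (hP : Pl G) (hm : GH q t (Fintype.card V))
    (hlt : P q G < gc q t (Fintype.card V)) : CF G := by
  classical
  intro T hT hTc p r hp hr
  by_contra hc
  obtain ⟨K, mK⟩ : ∃ K : Finset V, ∀ x, x ∈ K ↔
      Relation.ReflTransGen (fun s t => G.Adj s t ∧ s ∉ T ∧ t ∉ T) p x :=
    ⟨Finset.univ.filter (fun x =>
      Relation.ReflTransGen (fun s t => G.Adj s t ∧ s ∉ T ∧ t ∉ T) p x), by simp⟩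
  have hpK : p ∈ K := (mK p).2 Relation.ReflTransGen.refl
  have hrK : r ∉ K := fun h => hc ((mK r).1 h)
  have hK0 : ∀ x ∈ K, x ∉ T := by
    intro x hx
    rcases Relation.ReflTransGen.cases_tail ((mK x).1 hx) with h | ⟨y, _, h⟩
    · rw [h]; exact hp
    · exact h.2.2
  have hTK : Disjoint K T := Finset.disjoint_left.2 hK0
  have hKT : ∀ s ∈ K, ∀ x, G.Adj s x → x ∈ K ∨ x ∈ T := by
    intro s hs x hx
    by_cases h : x ∈ T
    · exact Or.inr h
    · exact Or.inl ((mK x).2 (((mK s).1 hs).tail ⟨hx, hK0 s hs, h⟩))
  have hq4 : (4 : ℝ) ≤ q := h.q4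
  have hq : (q : ℝ) ≠ 0 := by linarith
  have key := SB.P_clique_cut q hq G K T hT hTc hTK hKT
  have ca : Fintype.card {x // x ∈ K ∪ T} = K.card + T.card := by
    rw [Fintype.card_coe, Finset.card_union_of_disjoint hTK]
  have cb : Fintype.card {x // x ∉ K} + K.card = Fintype.card V := by
    have h := Fintype.card_subtype_compl (fun x => x ∈ K)
    have h1 : Fintype.card {x // x ∈ K} = K.card := Fintype.card_coe K
    have h2 : K.card ≤ Fintype.card V := Finset.card_le_univ K
    rw [h, h1]
    omega
  have hKpos : 0 < K.card := Finset.card_pos.2 ⟨p, hpK⟩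
  have hsum : K.card + T.card + 1 ≤ Fintype.card V := by
    have h1 : (insert r (K ∪ T)).card ≤ Fintype.card V := Finset.card_le_univ _
    rw [Finset.card_insert_of_notMem (by
      rw [Finset.mem_union, not_or]; exact ⟨hrK, hr⟩),
      Finset.card_union_of_disjoint hTK] at h1
    exact h1
  have l1 := glb_le h hm (G.comap (Subtype.val : {x // x ∈ K ∪ T} → V))
    (hP.minor (IsMinor.of_inj Subtype.val Subtype.val_injective fun _ _ h => h)) (by
      rw [ca]; omega)
  have l2 := glb_le h hm (G.comap (Subtype.val : {x // x ∉ K} → V))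
    (hP.minor (IsMinor.of_inj Subtype.val Subtype.val_injective fun _ _ h => h)) (by omega)
  have l3 := glb_mul h (a := Fintype.card {x // x ∈ K ∪ T}) (b := Fintype.card {x // x ∉ K})
    (s := T.card) hT (by omega) (by omega) (by omega)
  have e : Fintype.card {x // x ∈ K ∪ T} + Fintype.card {x // x ∉ K} - T.card =
      Fintype.card V := by omega
  rw [e] at l3
  have l4 : glb q t (Fintype.card {x // x ∈ K ∪ T}) * glb q t (Fintype.card {x // x ∉ K}) ≤
      P q (G.comap (Subtype.val : {x // x ∈ K ∪ T} → V)) *
      P q (G.comap (Subtype.val : {x // x ∉ K} → V)) :=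
    mul_le_mul l1 l2 (glb_pos h _).le ((glb_pos h _).le.trans l1)
  have l5 : SB.fall q T.card * gc q t (Fintype.card V) ≤ P q G * SB.fall q T.card := by
    refine (l3.trans l4).trans (le_of_eq ?_)
    rw [key]
  have hf : 0 < SB.fall q T.card := fall_pos hq4
  nlinarith [mul_lt_mul_of_pos_right hlt hf]

private theorem cnt_top' {V : Type} [Fintype V] (N : ℕ) :
    cnt (⊤ : SimpleGraph V) N = N.descFactorial (Fintype.card V) := by
  classical
  have h1 : cnt (⊤ : SimpleGraph V) N = Fintype.card (V ↪ Fin N) := by
    rw [← Fintype.card_congr (Equiv.subtypeInjectiveEquivEmbedding V (Fin N)),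
      Fintype.card_subtype]
    unfold cnt
    congr 1
    ext c
    rw [mem_cols, Finset.mem_filter]
    constructor
    · intro h
      refine ⟨Finset.mem_univ _, fun u v huv => ?_⟩
      by_contra hne
      exact h u v hne huv
    · rintro ⟨-, h⟩ u v huv huv2
      exact huv (h huv2)
  rw [h1, Fintype.card_embedding_eq, Fintype.card_fin]

private theorem P_top' {V : Type} [Fintype V] (q : ℝ) :
    P q (⊤ : SimpleGraph V) = (descPochhammer ℝ (Fintype.card V)).eval q := by
  have h : cp (⊤ : SimpleGraph V) = descPochhammer ℝ (Fintype.card V) := by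
    apply poly_ext
    intro N
    rw [cp_eval, cnt_top', descPochhammer_eval_eq_descFactorial]
  show (cp (⊤ : SimpleGraph V)).eval q = _
  rw [h]

open scoped Classical in
/-- all graphs with at most three vertices -/
private theorem g_small {q : ℝ} (hq : 4 ≤ q) : ∀ (n m : ℕ) (W : Type) [Fintype W]
    (Y : SimpleGraph W), Fintype.card W = n →
    (Finset.univ.filter (fun p : W × W => ¬ Y.Adj p.1 p.2)).card = m → n ≤ 3 →
    (descPochhammer ℝ n).eval q ≤ P q Y := by
  classical
  intro n
  induction n using Nat.strong_induction_on with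
  | _ n ihn =>
    intro m
    induction m using Nat.strong_induction_on with
    | _ m ihm =>
      intro W _ Y hn hm h3
      by_cases htop : Y = ⊤
      · rw [htop, P_top', hn]
      · have hex : ∃ p r, p ≠ r ∧ ¬ Y.Adj p r := by
          by_contra hc
          push Not at hc
          apply htop
          ext u v
          rw [SimpleGraph.top_adj]
          exact ⟨fun h => h.ne, fun h => hc u v h⟩
        obtain ⟨p, r, hpr, hna⟩ := hex
        rw [SB.P_eq_add _ _ hpr, SB.eqv_mg _ _ hpr hna]
        have h1 : (descPochhammer ℝ n).eval q ≤ P q (SB.ad Y p r) := by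
          refine ihm _ ?_ W (SB.ad Y p r) hn rfl h3
          rw [← hm]
          apply Finset.card_lt_card
          refine Finset.ssubset_iff_of_subset ?_ |>.2 ⟨(p, r), ?_, ?_⟩
          · intro z hz
            rw [Finset.mem_filter] at hz ⊢
            exact ⟨hz.1, fun h => hz.2 (Or.inl h)⟩
          · rw [Finset.mem_filter]
            exact ⟨Finset.mem_univ _, hna⟩
          · rw [Finset.mem_filter]
            intro h
            exact h.2 (Or.inr ⟨hpr, Or.inl ⟨rfl, rfl⟩⟩)
        have hc := card_ne r
        have h2 : (descPochhammer ℝ (n - 1)).eval q ≤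
            P q (mgG Y p r hpr) :=
          ihn (n - 1) (by omega) _ _ (mgG Y p r hpr) (by omega) rfl (by omega)
        have h4 : 0 ≤ (descPochhammer ℝ (n - 1)).eval q := by
          have h5 : n - 1 = 0 ∨ n - 1 = 1 ∨ n - 1 = 2 := by omega
          rcases h5 with h5 | h5 | h5
          · rw [h5]; simp
          · rw [h5]; simp [descPochhammer_succ_right]; linarith
          · rw [h5]; simp [descPochhammer_succ_right]; nlinarith
        linarith

private theorem gc_three' {q t : ℝ} (h : GPar q t) : gc q t 3 = (descPochhammer ℝ 3).eval q := by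
  have ht := h.t0
  have h1 : (descPochhammer ℝ 3).eval q = q * (q - 1) * (q - 2) := by
    simp only [descPochhammer_succ_right, descPochhammer_zero, eval_mul, eval_sub, eval_X,
      eval_natCast, eval_one]
    push_cast
    ring
  rw [h1]
  unfold gc
  field_simp

open scoped Classical in
private theorem gen_aux {q t : ℝ} (h : GPar q t)
    (step : ∀ (V : Type) [Fintype V] (G : SimpleGraph V), GMin q t G → False) :
    ∀ (n m : ℕ) (W : Type) [Fintype W] (Y : SimpleGraph W),
    Fintype.card W = n →
    (Finset.univ.filter (fun p : W × W => ¬ Y.Adj p.1 p.2)).card = m → 3 ≤ n → Pl Y →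
    gc q t n ≤ P q Y := by
  classical
  intro n
  induction n using Nat.strong_induction_on with
  | _ n ihn =>
    have hmin : GH q t n := fun W _ Y hY h3 hlt => ihn _ hlt _ W Y rfl rfl h3 hY
    intro m
    induction m using Nat.strong_induction_on with
    | _ m ihm =>
      intro W _ Y hn hm h3 hY
      by_cases h4 : n = 3
      · rw [h4, gc_three' h]
        exact g_small h.q4 3 m W Y (hn.trans h4) hm le_rfl
      by_cases hmax : ∀ p r, p ≠ r → Pl (SB.ad Y p r) → Y.Adj p r
      · by_contra hcon
        push Not at hcon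
        subst hn
        exact step W Y ⟨by omega, ⟨hY, hmax⟩, g_cf_of_min h (by omega) hY hmin hcon, hmin, hcon⟩
      · push Not at hmax
        obtain ⟨p, r, hpr, hPl, hna⟩ := hmax
        rw [SB.P_eq_add _ _ hpr, SB.eqv_mg _ _ hpr hna]
        have h1 : gc q t n ≤ P q (SB.ad Y p r) := by
          refine ihm _ ?_ W (SB.ad Y p r) hn rfl h3 hPl
          rw [← hm]
          apply Finset.card_lt_card
          refine Finset.ssubset_iff_of_subset ?_ |>.2 ⟨(p, r), ?_, ?_⟩
          · intro z hz
            rw [Finset.mem_filter] at hz ⊢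
            exact ⟨hz.1, fun h => hz.2 (Or.inl h)⟩
          · rw [Finset.mem_filter]
            exact ⟨Finset.mem_univ _, hna⟩
          · rw [Finset.mem_filter]
            intro h
            exact h.2 (Or.inr ⟨hpr, Or.inl ⟨rfl, rfl⟩⟩)
        have hc := card_ne r
        have h2 : gc q t (n - 1) ≤ P q (mgG Y p r hpr) :=
          ihn (n - 1) (by omega) _ _ (mgG Y p r hpr) (by omega) rfl (by omega)
            (hPl.minor (SB.mg_minor Y hpr))
        linarith [gc_pos h (n - 1)]

theorem gen_bound {q t : ℝ} (h : GPar q t)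
    (step : ∀ (V : Type) [Fintype V] (G : SimpleGraph V), GMin q t G → False)
    (W : Type) [Fintype W] (Y : SimpleGraph W) (hY : Pl Y) (h3 : 3 ≤ Fintype.card W) :
    gc q t (Fintype.card W) ≤ P q Y := by
  classical
  exact gen_aux h step _ _ W Y rfl rfl h3 hY

end Pool.Agent.ZOL
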