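import Pool.Agent.ZOL.Zol
import Pool.Agent.ZOL.Five
import Pool.Agent.ZOL.GMain
import Pool.Agent.ZOL.GDeg
import Pool.Agent.ZOL.GLb

/-!
# Exponential lower bound from positivity
-/

set_option autoImplicit false

noncomputable section

namespace Pool.Agent.ZOL

open Pool.Agent.Helper1.PG
open Pool.Agent.Helper36.BL (cp cnt cols cp_eval mem_cols IsMinor)
open Pool.Agent.U5 (P)
open Pool.Agent.SB (Disc ad eqv eqv_symm)

/-- if every vertex of degree five costs a constant factor, the general bound holds -/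
theorem exp_of_five {q c : ℝ} (h4 : 4 < q) (h5 : q < 5) (hc0 : 0 < c)
    (hc : ∀ (V : Type) [Fintype V] (H : SimpleGraph V) (r : ZMod 5 → V), R5 H r → Pl H →
      c * P q H ≤ P q (hub H r Set.univ)) :
    ∀ (W : Type) [Fintype W] (Y : SimpleGraph W), Pl Y → 3 ≤ Fintype.card W →
      gc q (min c (q - 3)) (Fintype.card W) ≤ P q Y := by
  have hp : GPar q (min c (q - 3)) := ⟨h4.le, lt_min hc0 (by linarith), min_le_right _ _⟩
  intro W _ Y hY h3
  refine gen_bound hp ?_ W Y hY h3
  intro V _ G hG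
  obtain ⟨v, g, hl⟩ := g_exists_five hG.four hG.emax hG.cf (fun w g hl => g_not_three hp hG hl)
    (fun w g hl => g_not_four hp h5.le hG hl)
  obtain ⟨W', _, H, r, hr, hH, hcard, hPG, _⟩ := exists_R5 hG.emax.1 hG.cf hG.four hl
  have h1 := hc W' H r hr hH
  have h2 := hG.hmin W' H hH (by have := hG.four; omega) (by omega)
  have h3 : gc q (min c (q - 3)) (Fintype.card V) =
      min c (q - 3) * gc q (min c (q - 3)) (Fintype.card W') := by
    rw [← hcard, gc_succ]
  have h4' := hG.lt
  rw [h3, hPG q] at h4'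
  have h6 : min c (q - 3) * gc q (min c (q - 3)) (Fintype.card W') ≤
      c * gc q (min c (q - 3)) (Fintype.card W') :=
    mul_le_mul_of_nonneg_right (min_le_left _ _) (gc_pos hp _).le
  have h7 := mul_le_mul_of_nonneg_left h2 hc0.le
  linarith

/-- from the bound for at least three vertices to an exponential bound for all graphs -/
theorem exp_of_gc {q t : ℝ} (hp : GPar q t)
    (hmain : ∀ (W : Type) [Fintype W] (Y : SimpleGraph W), Pl Y → 3 ≤ Fintype.card W →
      gc q t (Fintype.card W) ≤ P q Y) :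
    ∀ (W : Type) [Fintype W] (Y : SimpleGraph W), Pl Y →
      (min t 1) ^ Fintype.card W ≤ P q Y := by
  have h4 := hp.q4
  have hδ : 0 < min t 1 := lt_min hp.t0 one_pos
  intro W _ Y hY
  have hle := glb_le hp (n := Fintype.card W + 1) (fun W' _ Y' hY' h3 _ => hmain W' Y' hY' h3) Y hY
    (by omega)
  refine le_trans ?_ hle
  have h1 : (min t 1) ^ Fintype.card W ≤ 1 := pow_le_one₀ hδ.le (min_le_right _ _)
  unfold glb
  split_ifs with e0 e1 e2
  · exact h1
  · exact h1.trans (by linarith)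
  · exact h1.trans (by nlinarith)
  · have h3 : 3 ≤ Fintype.card W := by omega
    obtain ⟨m, hm⟩ := Nat.exists_eq_add_of_le h3
    have e3 : gc q t (Fintype.card W) = q * (q - 1) * (q - 2) * t ^ m := by
      have ht3 : t ^ 3 ≠ 0 := (pow_pos hp.t0 3).ne'
      unfold gc
      rw [hm, pow_add, div_eq_iff ht3]
      ring
    rw [e3]
    have h4' : (min t 1) ^ Fintype.card W ≤ (min t 1) ^ m :=
      pow_le_pow_of_le_one hδ.le (min_le_right _ _) (by omega)
    have h5' : (min t 1) ^ m ≤ t ^ m := pow_le_pow_left₀ hδ.le (min_le_left _ _) m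
    have h6 : 0 < t ^ m := pow_pos hp.t0 m
    have h7 : 1 ≤ q * (q - 1) * (q - 2) := by
      have a1 : 1 ≤ q * (q - 1) := by nlinarith
      nlinarith
    nlinarith

/-- **Zero-one law.**  If all plane graphs have nonnegative values at `q ∈ (4, 5)`, the values
are exponentially large. -/
theorem exp_bound {q : ℝ} (h4 : 4 < q) (h5 : q < 5) (hP : AllNN q) : ∃ δ : ℝ, 0 < δ ∧
    ∀ (W : Type) [Fintype W] (Y : SimpleGraph W), Pl Y → δ ^ Fintype.card W ≤ P q Y := by
  obtain ⟨c, hc0, hc⟩ := zol h4 h5 hP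
  have hp : GPar q (min c (q - 3)) := ⟨h4.le, lt_min hc0 (by linarith), min_le_right _ _⟩
  exact ⟨min (min c (q - 3)) 1, lt_min hp.t0 one_pos,
    exp_of_gc hp (exp_of_five h4 h5 hc0 hc)⟩

end Pool.Agent.ZOL
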