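import Pool.Agent.ZOL.GDefs
import Pool.Agent.SB.GCon

/-!
# Vertices of degree four and five at `q ≥ 5`

In a minimal counterexample for `t = q - 3`, `q ≥ 5`, there is no vertex of degree four or five:
recursion at the vertex `w`, and `P q (G - w)` is expanded at the pairs `g 0, g 2` (and `g 0, g 3`),
which become adjacent by the contraction of `w` into `g 0`.
-/

set_option autoImplicit false

noncomputable section

namespace Pool.Agent.ZOL

open Pool.Agent.Helper1.PG
open Pool.Agent.Helper36.BL (cp cnt cols cp_eval mem_cols IsMinor)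
open Pool.Agent.U5 (P)
open Pool.Agent.SB (EMax CF Link Tri ad eqv)

open Pool.Agent.Helper36.BL (deg del prs mm lab lab_inj isMinor_del isMinor_mm card_del card_mm
  mem_prs star_connected)

private theorem gh_deg {V : Type} [Fintype V] {G : SimpleGraph V} {d : ℕ} [NeZero d] {w : V}
    {g : ZMod d → V} (hl : Link G w g) : deg G w = d := by
  classical
  have h1 : deg G w = (Finset.univ.image g).card := by
    unfold deg
    congr 1
    ext x
    rw [Finset.mem_filter, Finset.mem_image]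
    constructor
    · rintro ⟨-, h⟩
      obtain ⟨i, hi⟩ := (hl.adj x).1 h
      exact ⟨i, Finset.mem_univ _, hi.symm⟩
    · rintro ⟨i, -, hi⟩
      exact ⟨Finset.mem_univ _, (hl.adj x).2 ⟨i, hi.symm⟩⟩
  rw [h1, Finset.card_image_of_injective _ hl.inj, Finset.card_univ, ZMod.card]

private theorem gh_ne {V : Type} {G : SimpleGraph V} {d : ℕ} {w : V} {g : ZMod d → V}
    (hl : Link G w g) (i : ZMod d) : g i ≠ w :=
  ((hl.adj (g i)).2 ⟨i, rfl⟩).ne'

/-- the vertices different from `w` are at least `d` many -/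
private theorem gh_card {V : Type} [Fintype V] {G : SimpleGraph V} {d : ℕ} [NeZero d] {w : V}
    {g : ZMod d → V} (hl : Link G w g) : d + 1 ≤ Fintype.card V := by
  classical
  have hc := card_del w
  have h2 : Fintype.card (ZMod d) ≤ Fintype.card {x : V // x ≠ w} :=
    Fintype.card_le_of_injective (fun i => (⟨g i, gh_ne hl i⟩ : {x : V // x ≠ w}))
      (fun i j hij => hl.inj (congrArg Subtype.val hij))
  rw [ZMod.card] at h2
  omega

open scoped Classical in
private def gh_pr {V : Type} [Fintype V] {G : SimpleGraph V} {d : ℕ} {w : V} {g : ZMod d → V}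
    (hl : Link G w g) (i j : ZMod d) : {x : V // x ≠ w} × {x : V // x ≠ w} :=
  if lab V (g i) < lab V (g j) then (⟨g i, gh_ne hl i⟩, ⟨g j, gh_ne hl j⟩)
  else (⟨g j, gh_ne hl j⟩, ⟨g i, gh_ne hl i⟩)

private theorem gh_pr_mem {V : Type} [Fintype V] {G : SimpleGraph V} {d : ℕ} {w : V}
    {g : ZMod d → V} (hl : Link G w g) {i j : ZMod d} (hij : i ≠ j)
    (hc : ¬ (j = i + 1 ∨ i = j + 1)) : gh_pr hl i j ∈ prs G w (lab V) := by
  have hna : ¬ G.Adj (g i) (g j) := fun ha => hc ((hl.cyc i j).1 ha)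
  have hai := (hl.adj (g i)).2 ⟨i, rfl⟩
  have haj := (hl.adj (g j)).2 ⟨j, rfl⟩
  unfold gh_pr
  rcases lt_trichotomy (lab V (g i)) (lab V (g j)) with hlt | heq | hlt
  · rw [if_pos hlt]
    exact (mem_prs _ _ _ _).2 ⟨⟨hai, haj, hlt⟩, hna⟩
  · exact absurd (hl.inj (lab_inj heq)) hij
  · rw [if_neg hlt.le.not_gt]
    exact (mem_prs _ _ _ _).2 ⟨⟨haj, hai, hlt⟩, fun ha => hna ha.symm⟩

private theorem gh_pr_inj {V : Type} [Fintype V] {G : SimpleGraph V} {d : ℕ} {w : V}
    {g : ZMod d → V} (hl : Link G w g) {i j k l : ZMod d} (h : gh_pr hl i j = gh_pr hl k l) :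
    (i = k ∧ j = l) ∨ (i = l ∧ j = k) := by
  unfold gh_pr at h
  split_ifs at h
  · have h1 := congrArg Subtype.val (Prod.ext_iff.1 h).1
    have h2 := congrArg Subtype.val (Prod.ext_iff.1 h).2
    exact Or.inl ⟨hl.inj h1, hl.inj h2⟩
  · have h1 := congrArg Subtype.val (Prod.ext_iff.1 h).1
    have h2 := congrArg Subtype.val (Prod.ext_iff.1 h).2
    exact Or.inr ⟨hl.inj h1, hl.inj h2⟩
  · have h1 := congrArg Subtype.val (Prod.ext_iff.1 h).1
    have h2 := congrArg Subtype.val (Prod.ext_iff.1 h).2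
    exact Or.inr ⟨hl.inj h2, hl.inj h1⟩
  · have h1 := congrArg Subtype.val (Prod.ext_iff.1 h).1
    have h2 := congrArg Subtype.val (Prod.ext_iff.1 h).2
    exact Or.inl ⟨hl.inj h2, hl.inj h1⟩

private theorem gh_prs_card {V : Type} [Fintype V] {G : SimpleGraph V} {d : ℕ} {w : V}
    {g : ZMod d → V} (hl : Link G w g) {m : ℕ} (a b : Fin m → ZMod d) (h1 : ∀ k, a k ≠ b k)
    (h2 : ∀ k, ¬ (b k = a k + 1 ∨ a k = b k + 1))
    (h3 : ∀ k l, (a k = a l ∧ b k = b l) ∨ (a k = b l ∧ b k = a l) → k = l) :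
    m ≤ (prs G w (lab V)).card := by
  classical
  have h := Finset.card_le_card_of_injOn (s := (Finset.univ : Finset (Fin m)))
    (t := prs G w (lab V)) (fun k => gh_pr hl (a k) (b k))
    (fun k _ => gh_pr_mem hl (h1 k) (h2 k))
    (fun k _ l _ hkl => h3 k l (gh_pr_inj hl hkl))
  rwa [Finset.card_univ, Fintype.card_fin] at h

private theorem gh_star {V : Type} (G : SimpleGraph V) {w : V} (a b c : {x : V // x ≠ w})
    (ha : G.Adj w a) (hb : G.Adj w b) (hc : G.Adj w c) :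
    IsMinor (ad (ad (del G w) a b) a c) G := by
  refine ⟨fun x => {z | z = (x : V) ∨ (x = a ∧ z = w)}, ?_, ?_, ?_⟩
  · intro x
    apply star_connected G {z | z = (x : V) ∨ (x = a ∧ z = w)} x (Or.inl rfl)
    rintro y (hy | ⟨hx, hy⟩) hne
    · exact absurd hy hne
    · rw [hy, hx]
      exact ha.symm
  · intro x y hxy
    rw [Set.disjoint_left]
    rintro z (hz | ⟨hx, hz⟩) (hz' | ⟨hy, hz'⟩)
    · exact hxy (Subtype.ext (hz.symm.trans hz'))
    · exact x.2 (hz.symm.trans hz')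
    · exact y.2 (hz'.symm.trans hz)
    · exact hxy (hx.trans hy.symm)
  · intro x y h
    rcases h with (h | ⟨-, ⟨h1, h2⟩ | ⟨h1, h2⟩⟩) | ⟨-, ⟨h1, h2⟩ | ⟨h1, h2⟩⟩
    · exact ⟨x, Or.inl rfl, y, Or.inl rfl, h⟩
    · exact ⟨w, Or.inr ⟨h1, rfl⟩, y, Or.inl rfl, by rw [h2]; exact hb⟩
    · exact ⟨x, Or.inl rfl, w, Or.inr ⟨h2, rfl⟩, by rw [h1]; exact hb.symm⟩
    · exact ⟨w, Or.inr ⟨h1, rfl⟩, y, Or.inl rfl, by rw [h2]; exact hc⟩
    · exact ⟨x, Or.inl rfl, w, Or.inr ⟨h2, rfl⟩, by rw [h1]; exact hc.symm⟩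

/-- minors with `n + 1` and `n` vertices -/
private theorem gh_up {q : ℝ} {V : Type} [Fintype V] {G : SimpleGraph V}
    (h : GMin q (q - 3) G) {W : Type} [Fintype W] {Y : SimpleGraph W} (hY : IsMinor Y G) {n : ℕ}
    (hn : Fintype.card W = n) (h3 : 3 ≤ n) (hlt : n < Fintype.card V) :
    gc q (q - 3) n ≤ P q Y := by
  have h1 := h.hmin W Y (h.emax.1.minor hY) (by omega) (by omega)
  rwa [hn] at h1

/-- the value for colourings with the same colour at two non-adjacent vertices -/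
private theorem gh_eqv {q : ℝ} {V : Type} [Fintype V] {G : SimpleGraph V}
    (h : GMin q (q - 3) G) {w : V} {Y : SimpleGraph {x : V // x ≠ w}} {a b : {x : V // x ≠ w}}
    [Fintype {x : V // x ≠ w}] (hY : IsMinor (ad Y a b) G) (hab : a ≠ b) (hna : ¬ Y.Adj a b)
    {n : ℕ} (hn : Fintype.card V = n + 2) (h3 : 3 ≤ n) : gc q (q - 3) n ≤ eqv q Y a b := by
  classical
  rw [Pool.Agent.SB.eqv_mg q Y hab hna]
  refine gh_up h ((Pool.Agent.SB.mg_minor Y hab).trans hY) ?_ h3 (by omega)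
  have hc := card_mm w b
  omega

open scoped Classical in
private theorem gh_sum {q : ℝ} (hq : 5 ≤ q) {V : Type} [Fintype V] {G : SimpleGraph V}
    (h : GMin q (q - 3) G) {w : V} {n m : ℕ} (hn : Fintype.card V = n + 2) (h3 : 3 ≤ n)
    (hm : m ≤ (prs G w (lab V)).card) :
    (m : ℝ) * gc q (q - 3) n ≤ ∑ p ∈ prs G w (lab V), P q (mm G w (lab V) p) := by
  have hpar : GPar q (q - 3) := ⟨by linarith, by linarith, le_rfl⟩
  have hpos := gc_pos hpar n
  have hterm : ∀ p ∈ prs G w (lab V), gc q (q - 3) n ≤ P q (mm G w (lab V) p) := by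
    intro p hp
    have hc := card_mm w p.2
    exact gh_up h (isMinor_mm G w (lab V) p hp) (by omega) h3 (by omega)
  have h1 := Finset.card_nsmul_le_sum _ _ _ hterm
  rw [nsmul_eq_mul] at h1
  refine le_trans ?_ h1
  exact mul_le_mul_of_nonneg_right (by exact_mod_cast hm) hpos.le

theorem g_not_four' {q : ℝ} (hq : 5 ≤ q) {V : Type} [Fintype V] {G : SimpleGraph V}
    (h : GMin q (q - 3) G) {w : V} {g : ZMod 4 → V} (hl : Link G w g) : False := by
  classical
  have hpar : GPar q (q - 3) := ⟨by linarith, by linarith, le_rfl⟩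
  have hn5 := gh_card hl
  obtain ⟨n, hn⟩ : ∃ n, Fintype.card V = n + 2 := ⟨Fintype.card V - 2, by omega⟩
  have h3 : 3 ≤ n := by omega
  have hpos := gc_pos hpar n
  have hrec := Pool.Agent.U5.rec_f q G w (lab V) lab_inj
  have hprs : 2 ≤ (prs G w (lab V)).card :=
    gh_prs_card hl (m := 2) ![0, 1] ![2, 3] (by decide) (by decide) (by decide)
  have hsum := gh_sum hq h hn h3 hprs
  set a : {x : V // x ≠ w} := ⟨g 0, gh_ne hl 0⟩ with ha
  set b : {x : V // x ≠ w} := ⟨g 2, gh_ne hl 2⟩ with hb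
  have haw : G.Adj w a := (hl.adj _).2 ⟨0, rfl⟩
  have hbw : G.Adj w b := (hl.adj _).2 ⟨2, rfl⟩
  have hab : a ≠ b := fun e => absurd (hl.inj (congrArg Subtype.val e)) (by decide)
  have hna : ¬ (del G w).Adj a b := fun e => absurd ((hl.cyc 0 2).1 e) (by decide)
  have hmin : IsMinor (ad (del G w) a b) G :=
    (IsMinor.of_le (Pool.Agent.SB.le_ad _ a b)).trans (gh_star G a b b haw hbw hbw)
  have hcard : Fintype.card {x : V // x ≠ w} = n + 1 := by
    have := card_del w
    omega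
  have h4 : gc q (q - 3) (n + 1) ≤ P q (ad (del G w) a b) :=
    gh_up h hmin hcard (by omega) (by omega)
  have h5 : gc q (q - 3) n ≤ eqv q (del G w) a b := gh_eqv h hmin hab hna hn h3
  have h6 := Pool.Agent.SB.P_eq_add q (del G w) hab
  have h7 := h.lt
  rw [gc_succ] at h4
  rw [hn, gc_add, hrec, gh_deg hl] at h7
  push_cast at h7 hsum
  have h8 : ((q - 3) + 1) * gc q (q - 3) n ≤ P q (del G w) := by linarith
  have h9 : (q - 4) * (((q - 3) + 1) * gc q (q - 3) n) ≤ (q - 4) * P q (del G w) :=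
    mul_le_mul_of_nonneg_left h8 (by linarith)
  nlinarith

theorem g_not_five' {q : ℝ} (hq : 5 ≤ q) {V : Type} [Fintype V] {G : SimpleGraph V}
    (h : GMin q (q - 3) G) {w : V} {g : ZMod 5 → V} (hl : Link G w g) : False := by
  classical
  have hpar : GPar q (q - 3) := ⟨by linarith, by linarith, le_rfl⟩
  have hn5 := gh_card hl
  obtain ⟨n, hn⟩ : ∃ n, Fintype.card V = n + 2 := ⟨Fintype.card V - 2, by omega⟩
  have h3 : 3 ≤ n := by omega
  have hpos := gc_pos hpar n
  have hrec := Pool.Agent.U5.rec_f q G w (lab V) lab_inj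
  have hprs : 5 ≤ (prs G w (lab V)).card :=
    gh_prs_card hl (m := 5) ![0, 1, 2, 3, 4] ![2, 3, 4, 0, 1] (by decide) (by decide) (by decide)
  have hsum := gh_sum hq h hn h3 hprs
  set a : {x : V // x ≠ w} := ⟨g 0, gh_ne hl 0⟩ with ha
  set b : {x : V // x ≠ w} := ⟨g 2, gh_ne hl 2⟩ with hb
  set c : {x : V // x ≠ w} := ⟨g 3, gh_ne hl 3⟩ with hc
  have haw : G.Adj w a := (hl.adj _).2 ⟨0, rfl⟩
  have hbw : G.Adj w b := (hl.adj _).2 ⟨2, rfl⟩
  have hcw : G.Adj w c := (hl.adj _).2 ⟨3, rfl⟩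
  have hab : a ≠ b := fun e => absurd (hl.inj (congrArg Subtype.val e)) (by decide)
  have hac : a ≠ c := fun e => absurd (hl.inj (congrArg Subtype.val e)) (by decide)
  have hbc : b ≠ c := fun e => absurd (hl.inj (congrArg Subtype.val e)) (by decide)
  have hna : ¬ (del G w).Adj a b := fun e => absurd ((hl.cyc 0 2).1 e) (by decide)
  have hna' : ¬ (del G w).Adj a c := fun e => absurd ((hl.cyc 0 3).1 e) (by decide)
  have hna2 : ¬ (ad (del G w) a b).Adj a c := by
    rintro (e | ⟨-, ⟨-, e⟩ | ⟨e, -⟩⟩)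
    · exact hna' e
    · exact hbc e.symm
    · exact hab e
  have hmin2 : IsMinor (ad (ad (del G w) a b) a c) G := gh_star G a b c haw hbw hcw
  have hmin : IsMinor (ad (del G w) a b) G :=
    (IsMinor.of_le (Pool.Agent.SB.le_ad _ a c)).trans hmin2
  have hcard : Fintype.card {x : V // x ≠ w} = n + 1 := by
    have := card_del w
    omega
  have h4 : gc q (q - 3) (n + 1) ≤ P q (ad (ad (del G w) a b) a c) :=
    gh_up h hmin2 hcard (by omega) (by omega)
  have h5 : gc q (q - 3) n ≤ eqv q (del G w) a b := gh_eqv h hmin hab hna hn h3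
  have h5' : gc q (q - 3) n ≤ eqv q (ad (del G w) a b) a c := gh_eqv h hmin2 hac hna2 hn h3
  have h6 := Pool.Agent.SB.P_eq_add q (del G w) hab
  have h6' := Pool.Agent.SB.P_eq_add q (ad (del G w) a b) hac
  have h7 := h.lt
  rw [gc_succ] at h4
  rw [hn, gc_add, hrec, gh_deg hl] at h7
  push_cast at h7 hsum
  have h8 : ((q - 3) + 2) * gc q (q - 3) n ≤ P q (del G w) := by linarith
  have h9 : (q - 5) * (((q - 3) + 2) * gc q (q - 3) n) ≤ (q - 5) * P q (del G w) :=
    mul_le_mul_of_nonneg_left h8 (by linarith)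
  nlinarith

end Pool.Agent.ZOL
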