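import Mathlib

/-!
# The real inequality for two copies

Take `i` with `c i` minimal; the hypothesis for `i` is a quadratic form which is negative on the box.
-/

set_option autoImplicit false

namespace Pool.Agent.ZOL

private theorem ratr_core {e p m n r : ℝ} (he0 : 0 < e) (he : e ≤ 1 / 100) (hp : 0 < p)
    (hm1 : 84 / 100 * p ≤ m) (hm2 : m ≤ p) (hn0 : 0 ≤ n) (hn : n ≤ 64 / 1000 * p)
    (hr0 : -(1 / 100) * p ≤ r) (hr : r ≤ 3 / 20 * p) :
    (11 - 7 * e + e ^ 2) * ((3 - e) ^ 2 * (m * n) + (4 - e) * (r * (r + m - n))) +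
      ((4 - e) * (3 - e) * n + m - (4 - e) * (r + m)) *
        ((4 - e) * (3 - e) * m + n - (4 - e) * (r + m)) < 0 := by
  have hm0 : 0 < m := by linarith
  have e2 : 0 ≤ e ^ 2 := by positivity
  have e3 : 0 ≤ e ^ 3 := by positivity
  have e4 : 0 ≤ e ^ 4 := by positivity
  have f2 : e ^ 2 ≤ e / 100 := by nlinarith
  have f3 : e ^ 3 ≤ e ^ 2 / 100 := by nlinarith
  have f4 : e ^ 4 ≤ e ^ 3 / 100 := by nlinarith
  -- the coefficients
  obtain ⟨A1, hA1⟩ : ∃ x, x = (11 - 7 * e + e ^ 2) * (3 - e) ^ 2 +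
    (4 - e) ^ 2 * (3 - e) * (2 - e) - (3 - e) := ⟨_, rfl⟩
  obtain ⟨A2, hA2⟩ : ∃ x, x = (4 - e) * (3 - e) := ⟨_, rfl⟩
  obtain ⟨A3, hA3⟩ : ∃ x, x = (11 - 7 * e + e ^ 2) * (4 - e) + (4 - e) ^ 2 * (3 - e) +
    (4 - e) := ⟨_, rfl⟩
  obtain ⟨A4, hA4⟩ : ∃ x, x = (4 - e) * (3 - e) * (2 - e) := ⟨_, rfl⟩
  obtain ⟨A5, hA5⟩ : ∃ x, x = (11 - 7 * e + e ^ 2) * (4 - e) + (4 - e) * (3 - e) -
    (4 - e) ^ 2 * (2 - e) := ⟨_, rfl⟩
  obtain ⟨A6, hA6⟩ : ∃ x, x = (11 - 7 * e + e ^ 2) * (4 - e) + (4 - e) ^ 2 := ⟨_, rfl⟩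
  have key : (11 - 7 * e + e ^ 2) * ((3 - e) ^ 2 * (m * n) + (4 - e) * (r * (r + m - n))) +
      ((4 - e) * (3 - e) * n + m - (4 - e) * (r + m)) *
        ((4 - e) * (3 - e) * m + n - (4 - e) * (r + m)) =
      A1 * (m * n) + A2 * (n * n) - A3 * (n * r) - A4 * (m * m) + A5 * (m * r) +
        A6 * (r * r) := by
    rw [hA1, hA2, hA3, hA4, hA5, hA6]
    ring
  have b1 : A1 ≤ 192 := by rw [hA1]; nlinarith
  have b2 : A2 ≤ 12 := by rw [hA2]; nlinarith
  have b3 : A3 ≤ 96 := by rw [hA3]; nlinarith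
  have b3' : 0 ≤ A3 := by rw [hA3]; nlinarith
  have b4 : 237 / 10 ≤ A4 := by rw [hA4]; nlinarith
  have b5 : A5 ≤ 24 := by rw [hA5]; nlinarith
  have b5' : 0 ≤ A5 := by rw [hA5]; nlinarith
  have b6 : A6 ≤ 60 := by rw [hA6]; nlinarith
  have b6' : 0 ≤ A6 := by rw [hA6]; nlinarith
  -- the terms
  have t1 : A1 * (m * n) ≤ 192 * (m * (64 / 1000 * p)) := by
    have h1 : A1 * (m * n) ≤ 192 * (m * n) := mul_le_mul_of_nonneg_right b1 (by positivity)
    have h2 : m * n ≤ m * (64 / 1000 * p) := mul_le_mul_of_nonneg_left hn hm0.le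
    linarith
  have t2 : A2 * (n * n) ≤ 12 * ((64 / 1000 * p) * (64 / 1000 * p)) := by
    have h1 : A2 * (n * n) ≤ 12 * (n * n) := mul_le_mul_of_nonneg_right b2 (by positivity)
    have h2 : n * n ≤ (64 / 1000 * p) * (64 / 1000 * p) := mul_le_mul hn hn hn0 (by positivity)
    linarith
  have t3 : -(A3 * (n * r)) ≤ 96 * ((64 / 1000 * p) * (1 / 100 * p)) := by
    have h1 : -r ≤ 1 / 100 * p := by linarith
    have h2 : n * (-r) ≤ n * (1 / 100 * p) := mul_le_mul_of_nonneg_left h1 hn0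
    have h3 : n * (1 / 100 * p) ≤ (64 / 1000 * p) * (1 / 100 * p) :=
      mul_le_mul_of_nonneg_right hn (by positivity)
    have h4 : A3 * (n * (-r)) ≤ A3 * ((64 / 1000 * p) * (1 / 100 * p)) :=
      mul_le_mul_of_nonneg_left (h2.trans h3) b3'
    have h5 : A3 * ((64 / 1000 * p) * (1 / 100 * p)) ≤
        96 * ((64 / 1000 * p) * (1 / 100 * p)) := mul_le_mul_of_nonneg_right b3 (by positivity)
    linarith
  have t4 : -(A4 * (m * m)) ≤ -(237 / 10 * (m * m)) := by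
    have h1 : 237 / 10 * (m * m) ≤ A4 * (m * m) := mul_le_mul_of_nonneg_right b4 (by positivity)
    linarith
  have t5 : A5 * (m * r) ≤ 24 * (m * (3 / 20 * p)) := by
    have h1 : m * r ≤ m * (3 / 20 * p) := mul_le_mul_of_nonneg_left hr hm0.le
    have h2 : A5 * (m * r) ≤ A5 * (m * (3 / 20 * p)) := mul_le_mul_of_nonneg_left h1 b5'
    have h3 : A5 * (m * (3 / 20 * p)) ≤ 24 * (m * (3 / 20 * p)) :=
      mul_le_mul_of_nonneg_right b5 (by positivity)
    linarith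
  have t6 : A6 * (r * r) ≤ 60 * ((3 / 20 * p) * (3 / 20 * p)) := by
    have h1 : r * r ≤ (3 / 20 * p) * (3 / 20 * p) := by
      have h2 : |r| ≤ 3 / 20 * p := abs_le.2 ⟨by linarith, hr⟩
      have h3 : |r| * |r| ≤ (3 / 20 * p) * (3 / 20 * p) :=
        mul_le_mul h2 h2 (abs_nonneg _) (by positivity)
      rwa [abs_mul_abs_self] at h3
    have h2 : A6 * (r * r) ≤ A6 * ((3 / 20 * p) * (3 / 20 * p)) :=
      mul_le_mul_of_nonneg_left h1 b6'
    have h3 : A6 * ((3 / 20 * p) * (3 / 20 * p)) ≤ 60 * ((3 / 20 * p) * (3 / 20 * p)) :=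
      mul_le_mul_of_nonneg_right b6 (by positivity)
    linarith
  have t7 : (84 / 100 * p) * m ≤ m * m := mul_le_mul_of_nonneg_right hm1 hm0.le
  have t8 : (84 / 100 * p) * p ≤ m * p := mul_le_mul_of_nonneg_right hm1 hp.le
  have t9 : 0 < p * p := by positivity
  rw [key]
  nlinarith

theorem rat_real {q p : ℝ} (hq : 499 / 100 ≤ q) (hq5 : q < 5) (hp : 0 ≤ p) (c : ZMod 5 → ℝ)
    (hc : ∀ i, 0 ≤ c i)
    (hF : ∀ i, 0 ≤ (q - 2) ^ 2 * ((p - c (i + 1) - c (i - 1)) * ((q - 3) * c i)) +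
      (q - 1) * ((∑ j, c j - (5 - q) * p) *
        (∑ j, c j - (5 - q) * p + (p - c (i + 1) - c (i - 1)) - (q - 3) * c i)) +
      ((q - 1) * (q - 2) * ((q - 3) * c i) + (p - c (i + 1) - c (i - 1)) -
        (q - 1) * (∑ j, c j - (5 - q) * p + (p - c (i + 1) - c (i - 1)))) *
      ((q - 1) * (q - 2) * (p - c (i + 1) - c (i - 1)) + (q - 3) * c i -
        (q - 1) * (∑ j, c j - (5 - q) * p + (p - c (i + 1) - c (i - 1)))) /
        (q ^ 2 - 3 * q + 1)) :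
    3 / 20 * p ≤ ∑ j, c j - (5 - q) * p := by
  by_contra hcon
  have hR := not_le.1 hcon
  have hS0 : 0 ≤ ∑ j, c j := Finset.sum_nonneg fun j _ => hc j
  have hp0 : 0 < p := by
    rcases hp.lt_or_eq with h | h
    · exact h
    · rw [← h, mul_zero, mul_zero, sub_zero] at hR
      linarith
  obtain ⟨i, hi⟩ := Finite.exists_min c
  have h5 : 5 * c i ≤ ∑ j, c j := by
    have h := Finset.card_nsmul_le_sum Finset.univ c (c i) (fun j _ => hi j)
    rw [Finset.card_univ, ZMod.card, nsmul_eq_mul] at h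
    exact_mod_cast h
  have hne : ∀ i : ZMod 5, i + 1 ≠ i - 1 := by decide
  have h2 : c (i + 1) + c (i - 1) ≤ ∑ j, c j := by
    rw [← Finset.sum_pair (hne i)]
    exact Finset.sum_le_sum_of_subset_of_nonneg (Finset.subset_univ _) fun j _ _ => hc j
  set S := ∑ j, c j with hS
  obtain ⟨e, he⟩ : ∃ e, e = 5 - q := ⟨_, rfl⟩
  have hq' : q = 5 - e := by linarith
  have he0 : 0 < e := by linarith
  have he1 : e ≤ 1 / 100 := by linarith
  have hep : e * p ≤ 1 / 100 * p := mul_le_mul_of_nonneg_right he1 hp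
  have hep0 : 0 < e * p := mul_pos he0 hp0
  subst hq'
  have e1 : 5 - (5 - e) = e := by ring
  rw [e1] at hR
  have hci := hc i
  have hc1 := hc (i + 1)
  have hc2 := hc (i - 1)
  have hx : c i ≤ 32 / 1000 * p := by linarith
  have hn : (2 - e) * c i ≤ 64 / 1000 * p := by
    have h6 : (2 - e) * c i ≤ 2 * c i := mul_le_mul_of_nonneg_right (by linarith) hci
    linarith
  have hn0 : 0 ≤ (2 - e) * c i := mul_nonneg (by linarith) hci
  have hF' := hF i
  rw [e1] at hF'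
  have e2 : 5 - e - 2 = 3 - e := by ring
  have e3 : 5 - e - 3 = 2 - e := by ring
  have e4 : 5 - e - 1 = 4 - e := by ring
  have e5 : (5 - e) ^ 2 - 3 * (5 - e) + 1 = 11 - 7 * e + e ^ 2 := by ring
  rw [e2, e3, e4, e5] at hF'
  have hd : 0 < 11 - 7 * e + e ^ 2 := by nlinarith
  have hcore := ratr_core (m := p - c (i + 1) - c (i - 1)) (n := (2 - e) * c i)
    (r := S - e * p) he0 he1 hp0 (by linarith) (by linarith) hn0 hn (by linarith) hR.le
  have h7 := mul_nonneg hd.le hF'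
  rw [mul_add, mul_div_cancel₀ _ hd.ne'] at h7
  linarith

end Pool.Agent.ZOL
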