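import Pool.Agent.ZOL.Zol
import Pool.Agent.ZOL.Five
import Pool.Agent.ZOL.GMain
import Pool.Agent.ZOL.GDeg
import Pool.Agent.ZOL.GLb
import Pool.Agent.ZOL.GHigh
import Pool.Agent.ZOL.RatR

/-!
# The strong bound near five
-/

set_option autoImplicit false

noncomputable section

namespace Pool.Agent.ZOL

open Pool.Agent.Helper1.PG
open Pool.Agent.Helper36.BL (cp cnt cols cp_eval mem_cols IsMinor)
open Pool.Agent.U5 (P)
open Pool.Agent.SB (Disc ad eqv eqv_symm)

/-- the pair inequality in terms of the ring data -/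
theorem pair_ring {q : ℝ} (h4 : 4 < q) (hP : AllNN q) {V : Type} [Fintype V] {H : SimpleGraph V}
    {r : ZMod 5 → V} (h : R5 H r) (i : ZMod 5) :
    0 ≤ (q - 2) ^ 2 * ((P q H - c5 q H r (i + 1) - c5 q H r (i - 1)) * ((q - 3) * c5 q H r i)) +
      (q - 1) * (P q (hub H r Set.univ) * (P q (hub H r Set.univ) +
        (P q H - c5 q H r (i + 1) - c5 q H r (i - 1)) - (q - 3) * c5 q H r i)) +
      ((q - 1) * (q - 2) * ((q - 3) * c5 q H r i) +
        (P q H - c5 q H r (i + 1) - c5 q H r (i - 1)) -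
        (q - 1) * (P q (hub H r Set.univ) + (P q H - c5 q H r (i + 1) - c5 q H r (i - 1)))) *
      ((q - 1) * (q - 2) * (P q H - c5 q H r (i + 1) - c5 q H r (i - 1)) +
        (q - 3) * c5 q H r i -
        (q - 1) * (P q (hub H r Set.univ) + (P q H - c5 q H r (i + 1) - c5 q H r (i - 1)))) /
        (q ^ 2 - 3 * q + 1) := by
  have h0 : 0 < q := by linarith
  have h1 : 0 < q - 1 := by linarith
  have h2 : 0 < q - 2 := by linarith
  have h3 : 0 < q ^ 2 - 3 * q + 1 := by nlinarith
  have key := pair_nonneg h4.le hP (hub_D4 h i) 0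
  have hm := hub_m h.ring h.inj q i
  have hn := hub_n h.ring h.inj q i
  have hw := hub_w h.ring h.inj q i
  have hs : eqv q (hub H r {j | j ≠ i}) (some (r i)) none =
      eqv q (hub H r {j | j ≠ i}) none (some (r i)) := eqv_symm _ _ _ _
  unfold U0 U1 U2 at key
  rw [hs, hn, hm, hw, hm, zero_add, pow_one, pow_one, pow_one] at key
  obtain ⟨d, hd⟩ : ∃ d : ℝ, d = q ^ 2 - 3 * q + 1 := ⟨_, rfl⟩
  rw [← hd] at h3 key ⊢
  generalize P q H - c5 q H r (i + 1) - c5 q H r (i - 1) = m at key ⊢
  generalize (q - 3) * c5 q H r i = n at key ⊢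
  generalize P q (hub H r Set.univ) = G at key ⊢
  have h5 : 0 < q ^ 2 * (q - 1) ^ 2 * (q - 2) ^ 2 := by positivity
  have h6 := mul_nonneg h5.le key
  refine le_of_le_of_eq h6 ?_
  field_simp
  ring

/-- the strong step near five -/
theorem sharp_step {q : ℝ} (hq : 499 / 100 ≤ q) (hq5 : q < 5) (hP : AllNN q) (V : Type)
    [Fintype V] (G : SimpleGraph V) (hG : GMin q (q - 3) G) : False := by
  have h4 : 4 < q := by linarith
  have hp : GPar q (q - 3) := ⟨h4.le, by linarith, le_refl _⟩
  obtain ⟨v, g, hl⟩ := g_exists_five hG.four hG.emax hG.cf (fun w g hl => g_not_three hp hG hl)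
    (fun w g hl => g_not_four hp hq5.le hG hl)
  obtain ⟨W, _, H, r, hr, hH, hcard, hPG, hna⟩ := exists_R5 hG.emax.1 hG.cf hG.four hl
  have hfull := hub_full hr.ring q
  have hrat := rat_real hq hq5 (hP W H hH) (c5 q H r) (c5_nonneg hP hr) (fun i => by
    have := pair_ring h4 hP hr i
    rw [hfull] at this
    exact this)
  rw [← hfull] at hrat
  -- lower bounds for the merged graphs
  have h5W : 5 ≤ Fintype.card W := by
    have h1 : Fintype.card (ZMod 5) ≤ Fintype.card W := Fintype.card_le_of_injective r hr.inj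
    rwa [ZMod.card] at h1
  have hci : ∀ i, gc q (q - 3) (Fintype.card W - 1) ≤ c5 q H r i := by
    intro i
    classical
    unfold c5
    rw [SB.eqv_mg q H (hr.ne2 i) (hna i)]
    have hpl := disc_pl (disc_mg (l1 := []) (l3 := []) (hr.disc2 i) (hr.ne2 i))
    have hcard' : Fintype.card {v : W // v ≠ r (i + 1)} = Fintype.card W - 1 := by
      rw [Fintype.card_subtype_compl, Fintype.card_subtype_eq]
    have := hG.hmin _ _ hpl (by rw [hcard']; omega) (by rw [hcard']; omega)
    rwa [hcard'] at this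
  have hsum : 5 * gc q (q - 3) (Fintype.card W - 1) ≤ ∑ i, c5 q H r i := by
    have h1 : ∑ _i : ZMod 5, gc q (q - 3) (Fintype.card W - 1) ≤ ∑ i, c5 q H r i :=
      Finset.sum_le_sum (fun i _ => hci i)
    rw [Finset.sum_const, Finset.card_univ, ZMod.card, nsmul_eq_mul] at h1
    push_cast at h1
    exact h1
  have hlt := hG.lt
  have e1 : gc q (q - 3) (Fintype.card V) =
      (q - 3) ^ 2 * gc q (q - 3) (Fintype.card W - 1) := by
    have e2 : Fintype.card V = (Fintype.card W - 1) + 2 := by omega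
    rw [e2, gc_add]
  rw [e1, hPG q] at hlt
  have hgc := gc_pos hp (Fintype.card W - 1)
  generalize gc q (q - 3) (Fintype.card W - 1) = T at hlt hsum hgc
  generalize P q (hub H r Set.univ) = G0 at hlt hfull hrat
  generalize P q H = p at hfull hrat
  generalize ∑ i, c5 q H r i = S at hfull hsum
  have e3 : p ≤ 20 / 3 * G0 := by linarith
  have e4 : S ≤ G0 * (1 + (5 - q) * (20 / 3)) := by nlinarith
  have e5 : 5 * T < (q - 3) ^ 2 * T * (1 + (5 - q) * (20 / 3)) := by
    have : 0 < 1 + (5 - q) * (20 / 3) := by linarith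
    nlinarith
  have e6 : (q - 3) ^ 2 * (1 + (5 - q) * (20 / 3)) ≤ 5 := by
    have a1 : (q - 3) ^ 2 ≤ 4 := by nlinarith
    have a2 : 1 + (5 - q) * (20 / 3) ≤ 16 / 15 := by linarith
    nlinarith
  nlinarith

/-- the strong bound near five, from positivity -/
theorem sharp_low {q : ℝ} (hq : 499 / 100 ≤ q) (hq5 : q < 5) (hP : AllNN q) :
    ∀ (W : Type) [Fintype W] (Y : SimpleGraph W), Pl Y → 3 ≤ Fintype.card W →
      gc q (q - 3) (Fintype.card W) ≤ P q Y := by
  intro W _ Y hY h3
  exact gen_bound ⟨by linarith, by linarith, le_refl _⟩ (fun V _ G => sharp_step hq hq5 hP V G)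
    W Y hY h3

/-- the strong bound for all `q ≥ 5` -/
theorem sharp_high {q : ℝ} (hq : 5 ≤ q) :
    ∀ (W : Type) [Fintype W] (Y : SimpleGraph W), Pl Y → 3 ≤ Fintype.card W →
      gc q (q - 3) (Fintype.card W) ≤ P q Y := by
  intro W _ Y hY h3
  have hp : GPar q (q - 3) := ⟨by linarith, by linarith, le_refl _⟩
  refine gen_bound hp (fun V _ G hG => ?_) W Y hY h3
  obtain ⟨v, g, hl⟩ := g_exists_five hG.four hG.emax hG.cf (fun w g hl => g_not_three hp hG hl)
    (fun w g hl => g_not_four' hq hG hl)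
  exact g_not_five' hq hG hl

end Pool.Agent.ZOL
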