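import Mathlib

/-!
# The analytic part of the zero-one law

JOB ZOL-Ana.  Prove the theorem of this file.

Plan.  Divide by `x` (homogeneity): `x = 1`, `a = (q-1) y / x ≥ 0`, `B = - d z / x`, `d = q^2 - 3 q + 1 > 0`,
`D = d (q-2) > 1`.  Then `(q-1) x' = 1 + a - B ≥ 0`, so `η ≤ B ≤ 1 + a`,
`(q-1) y' = 1 + ((q-3) a + B)/(q-2)`, `(q-1) z' = 1 - B/D - a/(q-2)`, and the hypothesis for `k` says
(times `(q-1)^(k+1)`): `F k a B := (1 + a - B)^(k+1) + a (1 + ((q-3) a + B)/(q-2))^(k+1)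
- B (1 - B/D - a/(q-2))^(k+1) ≥ 0`.
Let `θ = η (1 - 1/D)` (if `η > 1` the claim is easy: `B ≥ η > 1` and `B ≤ 1 + a` give `a ≥ η - 1`; so let
`η ≤ 1`).  For `η ≤ B ≤ 1`: `1 - B ≤ (1 - θ)(1 - B/D)`.  Choose `k` with `(1 - θ)^(k+1) < η/2`.  Then
`F k 0 B ≤ (η/2 - B) (1 - B/D)^(k+1) ≤ -(η/2) (1 - 1/D)^(k+1) < 0` on `[η, 1]`.  `F k` is continuous in `(a, B)`:
by compactness of `[η, 1]` (`generalized_tube_lemma`, or a contradiction sequence `a_n → 0`,
`η ≤ B_n ≤ 1 + a_n`, `IsCompact.tendsto_subseq`) there is `ε > 0` with `F k a B < 0` for `0 ≤ a ≤ ε`,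
`η ≤ B ≤ 1 + a`.  So `a > ε`, i.e. `y ≥ (ε/(q-1)) x`.
-/

set_option autoImplicit false

namespace Pool.Agent.ZOL

private theorem ana_core {q t a B : ℝ} (h4 : 4 < q) (h5 : q < 5) (ht : 0 < t) (ht1 : t ≤ 1)
    {k : ℕ} (hk : (1 - t / 2) ^ (k + 1) < t / 2) (ha : 0 ≤ a) (ha1 : a < t / 4 / 6 ^ (k + 1))
    (hB : t ≤ B) (hB1 : B ≤ 1 + a) {u v w : ℝ} (hu : u = 1 + a - B)
    (hv : v = 1 + ((q - 3) * a + B) / (q - 2))
    (hw : w = 1 - B / ((q ^ 2 - 3 * q + 1) * (q - 2)) - a / (q - 2)) :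
    u ^ (k + 1) + a * v ^ (k + 1) - B * w ^ (k + 1) < 0 := by
  have h6 : (1 : ℝ) ≤ 6 ^ (k + 1) := one_le_pow₀ (by norm_num)
  have hat : a < t / 4 := by
    refine lt_of_lt_of_le ha1 ?_
    exact div_le_self (by positivity) h6
  have hq2 : 2 ≤ q - 2 := by linarith
  have hD : 10 ≤ (q ^ 2 - 3 * q + 1) * (q - 2) := by
    have h7 : 5 ≤ q ^ 2 - 3 * q + 1 := by nlinarith
    have h8 : (5 : ℝ) * 2 ≤ (q ^ 2 - 3 * q + 1) * (q - 2) :=
      mul_le_mul h7 hq2 (by norm_num) (by linarith)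
    linarith
  have hB0 : 0 < B := by linarith
  have hB2 : B ≤ 5 / 4 := by linarith
  have e1 : B / ((q ^ 2 - 3 * q + 1) * (q - 2)) ≤ B / 10 := by
    apply div_le_div_of_nonneg_left hB0.le (by norm_num) hD
  have e1' : 0 ≤ B / ((q ^ 2 - 3 * q + 1) * (q - 2)) := by
    apply div_nonneg hB0.le
    linarith
  have e2 : a / (q - 2) ≤ a / 2 := by
    apply div_le_div_of_nonneg_left ha (by norm_num) hq2
  have e2' : 0 ≤ a / (q - 2) := div_nonneg ha (by linarith)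
  have hw1 : w ≤ 1 := by linarith
  have hw2 : 1 / 2 ≤ w := by linarith
  have hu0 : 0 ≤ u := by linarith
  have huw : u ≤ (1 - t / 2) * w := by
    have h1 : u ≤ w - t / 2 := by linarith
    nlinarith
  have hv0 : 0 ≤ v := by
    rw [hv]
    have : 0 ≤ ((q - 3) * a + B) / (q - 2) := by
      apply div_nonneg _ (by linarith)
      have : 0 ≤ (q - 3) * a := mul_nonneg (by linarith) ha
      linarith
    linarith
  have hv3 : v ≤ 3 := by
    rw [hv]
    have : ((q - 3) * a + B) / (q - 2) ≤ 2 := by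
      rw [div_le_iff₀ (by linarith)]
      nlinarith
    linarith
  have f1 : u ^ (k + 1) ≤ t / 2 * w ^ (k + 1) := by
    calc u ^ (k + 1) ≤ ((1 - t / 2) * w) ^ (k + 1) := pow_le_pow_left₀ hu0 huw _
      _ = (1 - t / 2) ^ (k + 1) * w ^ (k + 1) := by rw [mul_pow]
      _ ≤ t / 2 * w ^ (k + 1) := mul_le_mul_of_nonneg_right hk.le (by positivity)
  have f2 : a * v ^ (k + 1) ≤ a * 3 ^ (k + 1) :=
    mul_le_mul_of_nonneg_left (pow_le_pow_left₀ hv0 hv3 _) ha
  have f3 : (1 / 2 : ℝ) ^ (k + 1) ≤ w ^ (k + 1) := pow_le_pow_left₀ (by norm_num) hw2 _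
  have f4 : a * 3 ^ (k + 1) < t / 4 * (1 / 2) ^ (k + 1) := by
    rw [lt_div_iff₀ (by positivity)] at ha1
    have h1 : (6 : ℝ) ^ (k + 1) = 3 ^ (k + 1) * 2 ^ (k + 1) := by
      rw [← mul_pow]; norm_num
    rw [h1] at ha1
    have h2 : (1 / 2 : ℝ) ^ (k + 1) = 1 / 2 ^ (k + 1) := by rw [one_div_pow]
    rw [h2, mul_one_div, lt_div_iff₀ (by positivity)]
    linarith
  have f5 : t / 2 * w ^ (k + 1) ≤ B * w ^ (k + 1) - t / 2 * w ^ (k + 1) := by
    have : t * w ^ (k + 1) ≤ B * w ^ (k + 1) := mul_le_mul_of_nonneg_right hB (by positivity)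
    linarith
  have f6 : t / 4 * (1 / 2) ^ (k + 1) ≤ t / 4 * w ^ (k + 1) :=
    mul_le_mul_of_nonneg_left f3 (by positivity)
  have f7 : 0 < t / 4 * w ^ (k + 1) := by positivity
  linarith

theorem ana {q η : ℝ} (h4 : 4 < q) (h5 : q < 5) (hη : 0 < η) : ∃ a0 : ℝ, 0 < a0 ∧
    ∀ x y z x' y' z' : ℝ, 0 < x → 0 ≤ y →
      (q - 1) * x' = x + (q - 1) * y + (q ^ 2 - 3 * q + 1) * z →
      (q - 1) * y' = x + ((q - 1) * (q - 3) * y - (q ^ 2 - 3 * q + 1) * z) / (q - 2) →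
      (q - 1) * z' = x + (z - (q - 1) * y) / (q - 2) →
      0 ≤ x' → η * x ≤ -((q ^ 2 - 3 * q + 1) * z) →
      (∀ k : ℕ, 0 ≤ x * x' ^ (k + 1) + (q - 1) * (y * y' ^ (k + 1)) +
        (q ^ 2 - 3 * q + 1) * (z * z' ^ (k + 1))) →
      a0 * x ≤ y := by
  set t := min η 1 with htd
  have ht : 0 < t := lt_min hη one_pos
  have ht1 : t ≤ 1 := min_le_right _ _
  have htη : t ≤ η := min_le_left _ _
  obtain ⟨k0, hk0⟩ := exists_pow_lt_of_lt_one (show (0 : ℝ) < t / 2 by positivity)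
    (show (1 : ℝ) - t / 2 < 1 by linarith)
  have hk : (1 - t / 2) ^ (k0 + 1) < t / 2 := by
    refine lt_of_le_of_lt ?_ hk0
    exact pow_le_pow_of_le_one (by linarith) (by linarith) (Nat.le_succ k0)
  refine ⟨t / 4 / 6 ^ (k0 + 1) / 4, by positivity, ?_⟩
  intro x y z x' y' z' hx hy h1 h2 h3 hx' hz hall
  by_contra hcon
  rw [not_le] at hcon
  have hq1 : 0 < q - 1 := by linarith
  have hq2 : 0 < q - 2 := by linarith
  have hd : 0 < q ^ 2 - 3 * q + 1 := by nlinarith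
  set d := q ^ 2 - 3 * q + 1 with hdd
  set a := (q - 1) * y / x with had
  set B := -(d * z) / x with hBd
  have ha : 0 ≤ a := by positivity
  have hax : a * x = (q - 1) * y := by rw [had]; field_simp
  have hBx : B * x = -(d * z) := by rw [hBd]; field_simp
  have hzB : z = -(B * x) / d := by
    rw [hBx]; field_simp
  have hyA : y = a * x / (q - 1) := by
    rw [hax]; field_simp
  have hBt : t ≤ B := by
    rw [hBd, le_div_iff₀ hx]
    have : t * x ≤ η * x := mul_le_mul_of_nonneg_right htη hx.le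
    linarith
  have ha1 : a < t / 4 / 6 ^ (k0 + 1) := by
    rw [had, div_lt_iff₀ hx]
    have h7 : (q - 1) * y ≤ 4 * y := mul_le_mul_of_nonneg_right (by linarith) hy
    linarith
  set c := x / (q - 1) with hc
  have hc0 : 0 < c := by positivity
  have e1 : x' = c * (1 + a - B) := by
    have h7 : (q - 1) * x' = (q - 1) * (c * (1 + a - B)) := by
      rw [h1, hc]
      have h8 : (q - 1) * (x / (q - 1) * (1 + a - B)) = x + a * x - B * x := by
        field_simp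
      rw [h8, hax, hBx]
      ring
    exact mul_left_cancel₀ hq1.ne' h7
  have e2 : y' = c * (1 + ((q - 3) * a + B) / (q - 2)) := by
    have h7 : (q - 1) * y' = (q - 1) * (c * (1 + ((q - 3) * a + B) / (q - 2))) := by
      rw [h2, hc]
      have h8 : (q - 1) * (x / (q - 1) * (1 + ((q - 3) * a + B) / (q - 2))) =
          x + ((q - 3) * (a * x) + B * x) / (q - 2) := by
        field_simp
      rw [h8, hax, hBx]
      ring
    exact mul_left_cancel₀ hq1.ne' h7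
  have e3 : z' = c * (1 - B / (d * (q - 2)) - a / (q - 2)) := by
    have h7 : (q - 1) * z' = (q - 1) * (c * (1 - B / (d * (q - 2)) - a / (q - 2))) := by
      rw [h3, hc]
      have h8 : (q - 1) * (x / (q - 1) * (1 - B / (d * (q - 2)) - a / (q - 2))) =
          x - (B * x) / (d * (q - 2)) - (a * x) / (q - 2) := by
        field_simp
      rw [h8, hax, hBx]
      field_simp
      ring
    exact mul_left_cancel₀ hq1.ne' h7
  have hB1 : B ≤ 1 + a := by
    rw [e1] at hx'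
    have := nonneg_of_mul_nonneg_right hx' hc0
    linarith
  have hcore := ana_core h4 h5 ht ht1 hk ha ha1 hBt hB1 rfl rfl rfl
  have hk1 := hall k0
  rw [e1, e2, e3, mul_pow, mul_pow, mul_pow] at hk1
  have h9 : x * (c ^ (k0 + 1) * (1 + a - B) ^ (k0 + 1)) +
      (q - 1) * (y * (c ^ (k0 + 1) * (1 + ((q - 3) * a + B) / (q - 2)) ^ (k0 + 1))) +
      d * (z * (c ^ (k0 + 1) * (1 - B / (d * (q - 2)) - a / (q - 2)) ^ (k0 + 1))) =
      (x * c ^ (k0 + 1)) * ((1 + a - B) ^ (k0 + 1) +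
        a * (1 + ((q - 3) * a + B) / (q - 2)) ^ (k0 + 1) -
          B * (1 - B / (d * (q - 2)) - a / (q - 2)) ^ (k0 + 1)) := by
    have g1 : (q - 1) * (y * (c ^ (k0 + 1) * (1 + ((q - 3) * a + B) / (q - 2)) ^ (k0 + 1))) =
        (a * x) * (c ^ (k0 + 1) * (1 + ((q - 3) * a + B) / (q - 2)) ^ (k0 + 1)) := by
      rw [hax]; ring
    have g2 : d * (z * (c ^ (k0 + 1) * (1 - B / (d * (q - 2)) - a / (q - 2)) ^ (k0 + 1))) =
        -(B * x) * (c ^ (k0 + 1) * (1 - B / (d * (q - 2)) - a / (q - 2)) ^ (k0 + 1)) := by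
      rw [hBx]; ring
    rw [g1, g2]
    ring
  rw [h9] at hk1
  have h10 : 0 < x * c ^ (k0 + 1) := by positivity
  have h11 := nonneg_of_mul_nonneg_right hk1 h10
  linarith

end Pool.Agent.ZOL
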