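import Pool.Agent.SB.CDef
import Pool.Agent.SB.ADisc
import Pool.Agent.SB.AFill
import Pool.Agent.SB.APend
import Pool.Agent.SB.GCon
import Pool.Agent.U5.PlIso

/-!
# The zero-one law for the Birkhoff-Lewis conjecture: definitions

`P q G` is the value of the chromatic polynomial of `G` at the real number `q`, `eqv q G x y` the value
at `q` of the polynomial that counts the colourings of `G` in which `x` and `y` have the same colour.
-/

set_option autoImplicit false

noncomputable section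

namespace Pool.Agent.ZOL

open Pool.Agent.Helper1.PG
open Pool.Agent.Helper36.BL (cp cnt cols cp_eval mem_cols IsMinor)
open Pool.Agent.U5 (P)
open Pool.Agent.SB (Disc ad eqv)

/-- the number of proper `N`-colourings with given colours at two vertices -/
def z2 {V : Type} [Fintype V] (H : SimpleGraph V) (p0 p1 : V) (N : ℕ) (x0 x1 : Fin N) : ℕ :=
  ((cols H N).filter (fun c => c p0 = x0 ∧ c p1 = x1)).card

/-- the number of proper `N`-colourings with given colours at four vertices -/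
def z4 {V : Type} [Fintype V] (H : SimpleGraph V) (p0 p1 p2 p3 : V) (N : ℕ)
    (x0 x1 x2 x3 : Fin N) : ℕ :=
  ((cols H N).filter (fun c => c p0 = x0 ∧ c p1 = x1 ∧ c p2 = x2 ∧ c p3 = x3)).card

/-- a graph in a disc whose boundary contains the 4-cycle `p0 p1 p2 p3` -/
structure D4 {V : Type} [Fintype V] (H : SimpleGraph V) (p0 p1 p2 p3 : V) : Prop where
  disc : Disc H [p0, p1, p2, p3]
  e01 : H.Adj p0 p1
  e12 : H.Adj p1 p2
  e23 : H.Adj p2 p3
  e30 : H.Adj p3 p0
  n02 : p0 ≠ p2
  n13 : p1 ≠ p3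

/-- first channel: `p0`, `p2` have the same colour -/
def U0 (q : ℝ) {V : Type} [Fintype V] (H : SimpleGraph V) (p0 _p1 p2 _p3 : V) : ℝ :=
  eqv q H p0 p2 / (q * (q - 1))

/-- second channel: `p0`, `p2` have different colours -/
def U1 (q : ℝ) {V : Type} [Fintype V] (H : SimpleGraph V) (p0 _p1 p2 _p3 : V) : ℝ :=
  (P q H - eqv q H p0 p2) / (q * (q - 1) * (q - 2))

/-- third channel -/
def U2 (q : ℝ) {V : Type} [Fintype V] (H : SimpleGraph V) (p0 p1 p2 p3 : V) : ℝ :=
  ((q - 1) * (q - 2) * eqv q H p1 p3 + eqv q H p0 p2 - (q - 1) * P q H) /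
    (q * (q - 1) * (q - 2) * (q ^ 2 - 3 * q + 1))

/-- the colour pattern form of a 4-disc for `N` colours -/
def Zf {V : Type} [Fintype V] (H : SimpleGraph V) (p0 p1 p2 p3 : V) (N : ℕ) (α β γ : ℝ) : Prop :=
  ∀ x0 x1 x2 x3 : Fin N, x0 ≠ x1 → x1 ≠ x2 → x2 ≠ x3 → x3 ≠ x0 →
    (z4 H p0 p1 p2 p3 N x0 x1 x2 x3 : ℝ) =
      α + (if x0 = x2 then β else 0) + (if x1 = x3 then γ else 0)

/-- the graph `H` with a new vertex `none` joined to the vertices `r i`, `i ∈ S` -/
def hub {V : Type} (H : SimpleGraph V) (r : ZMod 5 → V) (S : Set (ZMod 5)) :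
    SimpleGraph (Option V) where
  Adj x y := (∃ u v, x = some u ∧ y = some v ∧ H.Adj u v) ∨
    (x = none ∧ ∃ i ∈ S, y = some (r i)) ∨ (y = none ∧ ∃ i ∈ S, x = some (r i))
  symm := ⟨by
    rintro x y (⟨u, v, h1, h2, h3⟩ | h | h)
    · exact Or.inl ⟨v, u, h2, h1, h3.symm⟩
    · exact Or.inr (Or.inr h)
    · exact Or.inr (Or.inl h)⟩
  loopless := ⟨by
    rintro x (⟨u, v, h1, h2, h3⟩ | ⟨h1, i, _, h2⟩ | ⟨h1, i, _, h2⟩)
    · rw [h1] at h2
      exact h3.ne (Option.some_injective _ h2)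
    · rw [h1] at h2
      simp at h2
    · rw [h1] at h2
      simp at h2⟩

/-- a graph in a disc whose boundary contains the 5-cycle `r` -/
structure R5 {V : Type} [Fintype V] (H : SimpleGraph V) (r : ZMod 5 → V) : Prop where
  disc : Disc H [r 0, r 1, r 2, r 3, r 4]
  ring : ∀ i, H.Adj (r i) (r (i + 1))
  inj : Function.Injective r

/-- the number of proper colourings with the same colour at the neighbours of `r i` on the 5-cycle -/
def c5 (q : ℝ) {V : Type} [Fintype V] (H : SimpleGraph V) (r : ZMod 5 → V) (i : ZMod 5) : ℝ :=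
  eqv q H (r (i - 1)) (r (i + 1))

end Pool.Agent.ZOL
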