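import Pool.Agent.ZOL.SgDefs

/-!
# Parallel edges in a plane multigraph

JOB ZOL-EdMul.  Prove the theorem of this file (remove the `sorry`, keep the statement).

Plan.  Every edge `e` is replaced by the parallel edges `(e, 0), …, (e, K)`; between `(e, j)` and
`(e, j + 1)` there is the new face `inr (e, j)` with two sides.  Check the fields of `IsPl`:
* `conn`: links of `a` are links of `mulA a K` (copy `0`).
* `dconn`: the faces `inl (b e).1, inr (e, 0), …, inr (e, K - 1), inl (b e).2` form a path; so the faces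
  `inl f` are connected as in `b`, and every `inr (e, j)` is connected with `inl (b e).1`.
* `orth v (inl f)`: `∑ i, st (mulB b K) (inl f) (e, i) = st b f e` for each `e` (only `i = 0` contributes
  to the first, only `i = K` to the second side), `Fintype.sum_prod_type`; `orth v (inr (e, j))`: only the
  edges `(e, j)` and `(e, j + 1)` contribute, the same value twice, `z2_add_self`.
* `euler`: `card V + (card F + card E * K) = card E * (K + 1) + 2`.
* `fc`: for `inl f` an incident edge is `(e, 0)` with `(b e).1 = f` or `(e, K)` with `(b e).2 = f`; map the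
  walk of `fc` of `a b` (each of its edges `d` is incident with `f`; use its copy `0` or `K`);
  for `inr (e, j)` all incident edges have the same ends.
-/

set_option autoImplicit false

noncomputable section

namespace Pool.Agent.ZOL

open Pool.Agent.Helper1.PG

variable {V F E : Type}

/-- ends of the parallel edges -/
def mulA (a : E → V × V) (K : ℕ) (p : E × Fin (K + 1)) : V × V := a p.1

/-- sides of the parallel edges -/
def mulB (b : E → F × F) (K : ℕ) (p : E × Fin (K + 1)) :
    (F ⊕ (E × Fin K)) × (F ⊕ (E × Fin K)) :=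
  (if h : p.2 = 0 then Sum.inl (b p.1).1 else Sum.inr (p.1, p.2.pred h),
    if h : p.2 = Fin.last K then Sum.inl (b p.1).2 else Sum.inr (p.1, p.2.castPred h))

private theorem mulB_fst_inl {b : E → F × F} {K : ℕ} {e : E} {i : Fin (K + 1)} {f : F} :
    (mulB b K (e, i)).1 = Sum.inl f ↔ i = 0 ∧ (b e).1 = f := by
  unfold mulB
  by_cases h : i = 0
  · subst h; simp
  · simp [h]

private theorem mulB_snd_inl {b : E → F × F} {K : ℕ} {e : E} {i : Fin (K + 1)} {f : F} :
    (mulB b K (e, i)).2 = Sum.inl f ↔ i = Fin.last K ∧ (b e).2 = f := by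
  unfold mulB
  by_cases h : i = Fin.last K
  · subst h; simp
  · simp [h]

private theorem mulB_fst_inr {b : E → F × F} {K : ℕ} {e e0 : E} {i : Fin (K + 1)} {j : Fin K} :
    (mulB b K (e, i)).1 = Sum.inr (e0, j) ↔ e = e0 ∧ i = j.succ := by
  unfold mulB
  by_cases h : i = 0
  · subst h
    simp only [dite_true]
    constructor
    · intro h; cases h
    · rintro ⟨_, h⟩
      exact absurd h.symm (Fin.succ_ne_zero j)
  · simp only [h, dite_false, Sum.inr.injEq, Prod.mk.injEq]
    constructor
    · rintro ⟨h1, h2⟩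
      refine ⟨h1, ?_⟩
      rw [← h2, Fin.succ_pred]
    · rintro ⟨h1, h2⟩
      refine ⟨h1, ?_⟩
      subst h2
      exact Fin.pred_succ j

private theorem mulB_snd_inr {b : E → F × F} {K : ℕ} {e e0 : E} {i : Fin (K + 1)} {j : Fin K} :
    (mulB b K (e, i)).2 = Sum.inr (e0, j) ↔ e = e0 ∧ i = j.castSucc := by
  unfold mulB
  by_cases h : i = Fin.last K
  · subst h
    simp only [dite_true]
    constructor
    · intro h; cases h
    · rintro ⟨_, h⟩
      exact absurd h.symm (Fin.castSucc_ne_last j)
  · simp only [h, dite_false, Sum.inr.injEq, Prod.mk.injEq]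
    constructor
    · rintro ⟨h1, h2⟩
      refine ⟨h1, ?_⟩
      rw [← h2, Fin.castSucc_castPred]
    · rintro ⟨h1, h2⟩
      refine ⟨h1, ?_⟩
      subst h2
      exact Fin.castPred_castSucc

private def nd (b : E → F × F) (K : ℕ) (e : E) (m : ℕ) : F ⊕ (E × Fin K) :=
  if m = 0 then Sum.inl (b e).1 else
    if h : m - 1 < K then Sum.inr (e, ⟨m - 1, h⟩) else Sum.inl (b e).2

private theorem nd_fst (b : E → F × F) (K : ℕ) (e : E) (i : Fin (K + 1)) :
    (mulB b K (e, i)).1 = nd b K e i.val := by
  unfold nd
  by_cases h : i = 0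
  · subst h
    rw [if_pos (by simp)]
    exact mulB_fst_inl.2 ⟨rfl, rfl⟩
  · have h0 : i.val ≠ 0 := fun h1 => h (Fin.ext h1)
    have h1 : i.val - 1 < K := by have := i.isLt; omega
    rw [if_neg h0, dif_pos h1]
    refine mulB_fst_inr.2 ⟨rfl, ?_⟩
    apply Fin.ext
    simp only [Fin.val_succ]
    omega

private theorem nd_snd (b : E → F × F) (K : ℕ) (e : E) (i : Fin (K + 1)) :
    (mulB b K (e, i)).2 = nd b K e (i.val + 1) := by
  unfold nd
  rw [if_neg (by omega)]
  by_cases h : i = Fin.last K
  · subst h
    rw [dif_neg (by simp)]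
    exact mulB_snd_inl.2 ⟨rfl, rfl⟩
  · have h0 : i.val ≠ K := fun h1 => h (Fin.ext h1)
    have h1 : i.val + 1 - 1 < K := by have := i.isLt; omega
    rw [dif_pos h1]
    refine mulB_snd_inr.2 ⟨rfl, ?_⟩
    apply Fin.ext
    simp

private theorem nd_path (b : E → F × F) (K : ℕ) (e : E) :
    ∀ m : ℕ, m ≤ K + 1 → Relation.ReflTransGen (Lk (mulB b K)) (Sum.inl (b e).1) (nd b K e m) := by
  intro m
  induction m with
  | zero =>
    intro _
    have : nd b K e 0 = Sum.inl (b e).1 := by unfold nd; rw [if_pos rfl]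
    rw [this]
  | succ m ih =>
    intro hm
    refine (ih (by omega)).tail ⟨(e, ⟨m, by omega⟩), Or.inl ⟨?_, ?_⟩⟩
    · exact nd_fst b K e ⟨m, by omega⟩
    · exact nd_snd b K e ⟨m, by omega⟩

private theorem sum_fst_inl (b : E → F × F) (K : ℕ) (e : E) (f : F) :
    ∑ i : Fin (K + 1), ind ((mulB b K (e, i)).1 = Sum.inl f) = ind ((b e).1 = f) := by
  rw [Finset.sum_eq_single 0]
  · apply ind_congr
    rw [mulB_fst_inl]
    simp
  · intro i _ hi
    apply ind_false
    rw [mulB_fst_inl]
    exact fun h => hi h.1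
  · intro h; exact absurd (Finset.mem_univ _) h

private theorem sum_snd_inl (b : E → F × F) (K : ℕ) (e : E) (f : F) :
    ∑ i : Fin (K + 1), ind ((mulB b K (e, i)).2 = Sum.inl f) = ind ((b e).2 = f) := by
  rw [Finset.sum_eq_single (Fin.last K)]
  · apply ind_congr
    rw [mulB_snd_inl]
    simp
  · intro i _ hi
    apply ind_false
    rw [mulB_snd_inl]
    exact fun h => hi h.1
  · intro h; exact absurd (Finset.mem_univ _) h

theorem isPl_mul [Fintype V] [Fintype F] [Fintype E] {a : E → V × V} {b : E → F × F}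
    (h : IsPl a b) (K : ℕ) : IsPl (mulA a K) (mulB b K) := by
  classical
  refine ⟨⟨?_, ?_, ?_, ?_⟩, ?_⟩
  · intro u v
    refine (h.conn u v).lift' (fun x => x) ?_
    rintro x y ⟨e, he⟩
    exact Relation.ReflTransGen.single ⟨(e, 0), he⟩
  · have hs : ∀ x y, Lk (mulB b K) x y → Lk (mulB b K) y x := fun x y hxy => hxy.symm
    have h1 : ∀ f g, Relation.ReflTransGen (Lk (mulB b K)) (Sum.inl f) (Sum.inl g) := by
      intro f g
      refine (h.dconn f g).lift' (fun f => (Sum.inl f : F ⊕ (E × Fin K))) ?_
      rintro x y ⟨e, he⟩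
      have h2 : Relation.ReflTransGen (Lk (mulB b K)) (Sum.inl (b e).1) (Sum.inl (b e).2) := by
        have h3 := nd_path b K e (K + 1) le_rfl
        have h4 : nd b K e (K + 1) = Sum.inl (b e).2 := by
          unfold nd
          rw [if_neg (by omega), dif_neg (by simp)]
        rwa [h4] at h3
      rcases he with ⟨h5, h6⟩ | ⟨h5, h6⟩
      · rw [h5, h6] at h2; exact h2
      · rw [h5, h6] at h2; exact rtg_symm hs h2
    have h2 : ∀ x : F ⊕ (E × Fin K), ∃ f, Relation.ReflTransGen (Lk (mulB b K)) (Sum.inl f) x := by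
      rintro (f | ⟨e, j⟩)
      · exact ⟨f, Relation.ReflTransGen.refl⟩
      · refine ⟨(b e).1, ?_⟩
        have h3 := nd_path b K e (j.val + 1) (by have := j.isLt; omega)
        have h4 : nd b K e (j.val + 1) = Sum.inr (e, j) := by
          unfold nd
          have h5 : j.val + 1 - 1 < K := by have := j.isLt; omega
          rw [if_neg (by omega), dif_pos h5]
          rfl
        rwa [h4] at h3
    intro x y
    obtain ⟨f, hf⟩ := h2 x
    obtain ⟨g, hg⟩ := h2 y
    exact ((rtg_symm hs hf).trans (h1 f g)).trans hg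
  · intro v f
    rw [Fintype.sum_prod_type]
    rcases f with f | ⟨e0, j⟩
    · rw [← h.orth v f]
      apply Finset.sum_congr rfl
      intro e _
      have h1 : ∀ i : Fin (K + 1), st (mulA a K) v (e, i) * st (mulB b K) (Sum.inl f) (e, i) =
          st a v e * ind ((mulB b K (e, i)).1 = Sum.inl f) +
            st a v e * ind ((mulB b K (e, i)).2 = Sum.inl f) := by
        intro i
        have h2 : st (mulA a K) v (e, i) = st a v e := rfl
        rw [h2]
        unfold st
        ring
      rw [Finset.sum_congr rfl (fun i _ => h1 i), Finset.sum_add_distrib, ← Finset.mul_sum,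
        ← Finset.mul_sum, sum_fst_inl, sum_snd_inl]
      unfold st
      ring
    · have h1 : ∀ e : E, ∀ i : Fin (K + 1),
          st (mulA a K) v (e, i) * st (mulB b K) (Sum.inr (e0, j)) (e, i) =
          st a v e * ind (e = e0 ∧ i = j.succ) + st a v e * ind (e = e0 ∧ i = j.castSucc) := by
        intro e i
        have h2 : st (mulA a K) v (e, i) = st a v e := rfl
        have h3 : st (mulB b K) (Sum.inr (e0, j)) (e, i) =
            ind (e = e0 ∧ i = j.succ) + ind (e = e0 ∧ i = j.castSucc) := by
          unfold st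
          rw [ind_congr mulB_fst_inr, ind_congr mulB_snd_inr]
        rw [h2, h3]
        ring
      have h4 : ∀ e : E, ∀ k : Fin (K + 1), ∑ i : Fin (K + 1), ind (e = e0 ∧ i = k) =
          ind (e = e0) := by
        intro e k
        rw [Finset.sum_eq_single k]
        · apply ind_congr
          simp
        · intro i _ hi
          exact ind_false (fun h => hi h.2)
        · intro h; exact absurd (Finset.mem_univ _) h
      have h5 : ∀ e : E, ∑ i : Fin (K + 1),
          st (mulA a K) v (e, i) * st (mulB b K) (Sum.inr (e0, j)) (e, i) = 0 := by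
        intro e
        rw [Finset.sum_congr rfl (fun i _ => h1 e i), Finset.sum_add_distrib, ← Finset.mul_sum,
          ← Finset.mul_sum, h4, h4]
        exact z2_add_self _
      exact Finset.sum_eq_zero (fun e _ => h5 e)
  · have h1 := h.euler
    rw [Fintype.card_sum, Fintype.card_prod, Fintype.card_prod, Fintype.card_fin,
      Fintype.card_fin]
    rw [Nat.mul_add, mul_one]
    omega
  · rintro (f | ⟨e0, j⟩) ⟨e, i⟩ ⟨e', i'⟩ he he'
    · have h1 : ∀ e i, Inc (mulB b K) (Sum.inl f) (e, i) → Inc b f e := by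
        rintro e i (h2 | h2)
        · exact Or.inl (mulB_fst_inl.1 h2).2
        · exact Or.inr (mulB_snd_inl.1 h2).2
      refine (h.fc f e e' (h1 _ _ he) (h1 _ _ he')).lift' (fun x => x) ?_
      rintro x y ⟨d, hd, hxy⟩
      rcases hd with hd | hd
      · exact Relation.ReflTransGen.single
          ⟨(d, 0), Or.inl (mulB_fst_inl.2 ⟨rfl, hd⟩), hxy⟩
      · exact Relation.ReflTransGen.single
          ⟨(d, Fin.last K), Or.inr (mulB_snd_inl.2 ⟨rfl, hd⟩), hxy⟩
    · have h1 : ∀ e i, Inc (mulB b K) (Sum.inr (e0, j)) (e, i) → e = e0 := by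
        rintro e i (h2 | h2)
        · exact (mulB_fst_inr.1 h2).1
        · exact (mulB_snd_inr.1 h2).1
      have h2 := h1 _ _ he
      have h3 := h1 _ _ he'
      subst h2
      subst h3
      exact Relation.ReflTransGen.refl

end Pool.Agent.ZOL
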