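import Pool.Agent.SB.CDef
import Pool.Agent.SB.CGlue

/-!
# Exponential lower bounds for plane graphs: definitions of the induction
-/

set_option autoImplicit false

noncomputable section

namespace Pool.Agent.ZOL

open Pool.Agent.Helper1.PG
open Pool.Agent.Helper36.BL (cp cnt cols cp_eval mem_cols IsMinor)
open Pool.Agent.U5 (P)
open Pool.Agent.SB (EMax CF)

/-- the bound `q (q - 1) (q - 2) t ^ (n - 3)` -/
def gc (q t : ℝ) (n : ℕ) : ℝ := q * (q - 1) * (q - 2) * t ^ n / t ^ 3

/-- admissible parameters -/
structure GPar (q t : ℝ) : Prop where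
  q4 : 4 ≤ q
  t0 : 0 < t
  tq : t ≤ q - 3

/-- the bound holds for all plane graphs with fewer than `n` vertices -/
def GH (q t : ℝ) (n : ℕ) : Prop := ∀ (W : Type) [Fintype W] (Y : SimpleGraph W), Pl Y →
  3 ≤ Fintype.card W → Fintype.card W < n → gc q t (Fintype.card W) ≤ P q Y

/-- minimal counterexample -/
structure GMin (q t : ℝ) {V : Type} [Fintype V] (G : SimpleGraph V) : Prop where
  four : 4 ≤ Fintype.card V
  emax : EMax G
  cf : CF G
  hmin : GH q t (Fintype.card V)
  lt : P q G < gc q t (Fintype.card V)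

/-- lower bound for graphs with `n` vertices, all `n` -/
def glb (q t : ℝ) (n : ℕ) : ℝ := if n = 0 then 1 else if n = 1 then q else
  if n = 2 then q * (q - 1) else gc q t n

theorem gc_pos {q t : ℝ} (h : GPar q t) (n : ℕ) : 0 < gc q t n := by
  have h1 := h.q4
  have h2 := h.t0
  unfold gc
  have : 0 < q * (q - 1) * (q - 2) := by
    apply mul_pos
    · apply mul_pos <;> linarith
    · linarith
  positivity

theorem gc_succ (q t : ℝ) (n : ℕ) : gc q t (n + 1) = t * gc q t n := by
  unfold gc
  rw [pow_succ]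
  ring

theorem gc_add (q t : ℝ) (n j : ℕ) : gc q t (n + j) = t ^ j * gc q t n := by
  unfold gc
  rw [pow_add]
  ring

end Pool.Agent.ZOL
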