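import Pool.Agent.ZOL.Clo

/-!
# The discs of a vertex of degree five

The 5-cycle of an `R5` can be rotated; the new vertex joined to four of the five corners is a corner
of a 4-disc; the new vertex joined to all five corners gives a plane graph.
-/

set_option autoImplicit false

noncomputable section

namespace Pool.Agent.ZOL

open Pool.Agent.Helper1.PG
open Pool.Agent.Helper36.BL (cp cnt cols cp_eval mem_cols IsMinor)
open Pool.Agent.U5 (P)
open Pool.Agent.SB (Disc ad eqv)

variable {V : Type} [Fintype V] {H : SimpleGraph V} {r : ZMod 5 → V}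

/-- one step of the rotation -/
private theorem R5.shift_one (h : R5 H r) : R5 H (fun j => r (j + 1)) where
  disc := disc_rot (l1 := [r 0]) (l2 := [r 1, r 2, r 3, r 4]) h.disc
  ring := fun j => h.ring (j + 1)
  inj := fun _ _ hjk => add_right_cancel (h.inj hjk)

private theorem R5.shift_nat (h : R5 H r) (n : ℕ) : R5 H (fun j => r (j + (n : ZMod 5))) := by
  induction n with
  | zero =>
    have h1 : (fun j : ZMod 5 => r (j + ((0 : ℕ) : ZMod 5))) = r := by
      funext j
      rw [Nat.cast_zero, add_zero]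
    rw [h1]
    exact h
  | succ n ih =>
    have h1 : (fun j : ZMod 5 => r (j + ((n + 1 : ℕ) : ZMod 5))) =
        fun j => (fun k => r (k + (n : ZMod 5))) (j + 1) := by
      funext j
      show r (j + ((n + 1 : ℕ) : ZMod 5)) = r (j + 1 + (n : ZMod 5))
      rw [Nat.cast_add, Nat.cast_one, add_comm (n : ZMod 5) 1, ← add_assoc]
    rw [h1]
    exact ih.shift_one

theorem R5.shift (h : R5 H r) (i : ZMod 5) : R5 H (fun j => r (j + i)) := by
  have h1 := h.shift_nat i.val
  rwa [ZMod.natCast_zmod_val] at h1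

private theorem ne_zero5 : ∀ j : ZMod 5, j ≠ 0 → j = 1 ∨ j = 2 ∨ j = 3 ∨ j = 4 := by
  decide

private theorem ne5 : ∀ i : ZMod 5, i - 1 ≠ i ∧ i + 1 ≠ i ∧ i - 1 ≠ i + 1 ∧ 4 + i = i - 1 := by
  decide

/-- the graph with the four edges at the new vertex -/
private def g4 (H : SimpleGraph V) (r : ZMod 5 → V) : SimpleGraph (Option V) :=
  ad (ad (ad (ad (H.map some) (some (r 2)) none) (some (r 1)) none) none (some (r 3))) none
    (some (r 4))

omit [Fintype V] in
private theorem g4_spoke {j : ZMod 5} (hj : j ≠ 0) : (g4 H r).Adj none (some (r j)) := by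
  have h0 : (none : Option V) ≠ some (r j) := fun h => Option.some_ne_none _ h.symm
  have h1 := ne_zero5 j hj
  unfold g4
  rw [SB.ad_adj, SB.ad_adj, SB.ad_adj, SB.ad_adj]
  rcases h1 with h1 | h1 | h1 | h1
  · subst h1
    exact Or.inl (Or.inl (Or.inr ⟨h0, Or.inr ⟨rfl, rfl⟩⟩))
  · subst h1
    exact Or.inl (Or.inl (Or.inl (Or.inr ⟨h0, Or.inr ⟨rfl, rfl⟩⟩)))
  · subst h1
    exact Or.inl (Or.inr ⟨h0, Or.inl ⟨rfl, rfl⟩⟩)
  · subst h1
    exact Or.inr ⟨h0, Or.inl ⟨rfl, rfl⟩⟩

omit [Fintype V] in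
private theorem g4_some {u v : V} (h : H.Adj u v) : (g4 H r).Adj (some u) (some v) := by
  unfold g4
  rw [SB.ad_adj, SB.ad_adj, SB.ad_adj, SB.ad_adj]
  exact Or.inl (Or.inl (Or.inl (Or.inl ⟨fun h' => h.ne (Option.some_injective _ h'), u, v, h, rfl,
    rfl⟩)))

omit [Fintype V] in
private theorem hub_le {K : SimpleGraph (Option V)} {S : Set (ZMod 5)}
    (h1 : ∀ u v, H.Adj u v → K.Adj (some u) (some v)) (h2 : ∀ j ∈ S, K.Adj none (some (r j))) :
    hub H r S ≤ K := by
  rintro x y (⟨u, v, rfl, rfl, h3⟩ | ⟨rfl, i, hi, rfl⟩ | ⟨rfl, i, hi, rfl⟩)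
  · exact h1 u v h3
  · exact h2 i hi
  · exact (h2 i hi).symm

private theorem g4_disc (h : R5 H r) :
    Disc (g4 H r) [some (r 0), some (r 1), none, some (r 4)] := by
  have h1 : Disc (H.map some) ([some (r 0), some (r 1)] ++
      some (r 2) :: none :: some (r 2) :: [some (r 3), some (r 4)]) :=
    Disc.pend (l1 := [r 0, r 1]) (v := r 2) (l2 := [r 3, r 4]) h.disc
  have h2 := disc_chordO (l1 := [some (r 0), some (r 1)]) (p := some (r 2)) (l2 := [])
    (r := none) (l3 := [some (r 2), some (r 3), some (r 4)]) h1 (Option.some_ne_none _)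
  have h3 := disc_chordO (l1 := [some (r 0)]) (p := some (r 1)) (l2 := [some (r 2)])
    (r := none) (l3 := [some (r 2), some (r 3), some (r 4)]) h2 (Option.some_ne_none _)
  have h4 := disc_chordO (l1 := [some (r 0), some (r 1)]) (p := none) (l2 := [some (r 2)])
    (r := some (r 3)) (l3 := [some (r 4)]) h3 (Option.some_ne_none _).symm
  exact disc_chordO (l1 := [some (r 0), some (r 1)]) (p := none) (l2 := [some (r 3)])
    (r := some (r 4)) (l3 := []) h4 (Option.some_ne_none _).symm

theorem hub_D4 (h : R5 H r) (i : ZMod 5) :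
    D4 (hub H r {j | j ≠ i}) none (some (r (i - 1))) (some (r i)) (some (r (i + 1))) := by
  have hne := ne5 i
  refine ⟨?_, ?_, ?_, ?_, ?_, ?_, ?_⟩
  · have h1 := disc_rot (l1 := [_, _]) (l2 := [_, _]) (g4_disc (h.shift i))
    have h2 : Disc (g4 H fun j => r (j + i))
        [none, some (r (i - 1)), some (r i), some (r (i + 1))] := by
      have e0 : (0 : ZMod 5) + i = i := zero_add i
      have e1 : (1 : ZMod 5) + i = i + 1 := add_comm _ _
      rw [e0, e1, hne.2.2.2] at h1
      exact h1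
    refine h2.mono (hub_le (fun u v huv => g4_some huv) fun j hj => ?_)
    have h3 : j - i ≠ 0 := sub_ne_zero.2 hj
    have h4 := g4_spoke (H := H) (r := fun j => r (j + i)) h3
    simpa using h4
  · exact Or.inr (Or.inl ⟨rfl, i - 1, hne.1, rfl⟩)
  · refine Or.inl ⟨_, _, rfl, rfl, ?_⟩
    have h1 := h.ring (i - 1)
    rwa [sub_add_cancel] at h1
  · exact Or.inl ⟨_, _, rfl, rfl, h.ring i⟩
  · exact Or.inr (Or.inr ⟨rfl, i + 1, hne.2.1, rfl⟩)
  · exact (Option.some_ne_none _).symm
  · intro h1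
    exact hne.2.2.1 (h.inj (Option.some_injective _ h1))

theorem hub_pl (h : R5 H r) : Pl (hub H r Set.univ) := by
  have h1 := disc_chordO (l1 := []) (p := some (r 0)) (l2 := [some (r 1)]) (r := none)
    (l3 := [some (r 4)]) (g4_disc h) (Option.some_ne_none _)
  refine (disc_pl h1).mono (hub_le (fun u v huv => Or.inl (g4_some huv)) fun j _ => ?_)
  by_cases hj : j = 0
  · subst hj
    exact Or.inr ⟨(Option.some_ne_none _).symm, Or.inr ⟨rfl, rfl⟩⟩
  · exact Or.inl (g4_spoke hj)

end Pool.Agent.ZOL
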