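import Pool.Agent.ZOL.Defs

/-!
# Values of the discs of a vertex of degree five

JOB ZOL-HubV.  Prove all theorems of this file (keep the statements).

Plan.  All are polynomial identities in `q` (`SB.eqv_sum`, `cp_eval`, `PF.unique` or `poly_ext`): check them
at the natural numbers `N`.  A proper colouring of `hub H r S` is a proper colouring `c` of `H` and a colour
of `none` different from `c (r i)`, `i ∈ S`.
* `hub_full`: the number of colours for `none` is `N - (number of different colours of c on r)`, and this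
  number is `5 - ∑ i, [c (r (i-1)) = c (r (i+1))]`: among the five pairs `{i-1, i+1}` at most two are
  monochromatic, two such pairs are disjoint (pairs at `i`, `j` sharing a vertex would make adjacent
  vertices equal), so the colour classes on `r` have sizes `1` and `2`.  (As integers: `N - 5 + ∑ i […]`;
  no truncated subtraction: count the colours avoided.)  One may also argue by
  `card (univ.image (c ∘ r)) = 5 - …` by cases, `decide`-like on the pattern of equalities.
* `hub_w`: `SB.P_eq_add` for `hub H r {j | j ≠ i}` and the pair `none`, `some (r i)`; the graph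
  `ad (hub …) none (some (r i))` is `hub H r Set.univ`.
* `hub_m`: colourings of `hub H r {j | j ≠ i}` with `none` coloured as `r i`: colourings of `H` with
  `c (r i) ≠ c (r (i+2))`, `c (r i) ≠ c (r (i-2))` (the neighbours `r (i±1)` are different anyway);
  inclusion-exclusion, `c (r i) = c (r (i+2))` and `c (r i) = c (r (i-2))` cannot both hold because
  `r (i+2)`, `r (i+3) = r (i-2)` are adjacent.  `c5 (i+1)` is the pair `r i, r (i+2)`, `c5 (i-1)` the pair
  `r (i-2), r i`.
* `hub_n`: colourings with `c (r (i-1)) = c (r (i+1))`: the neighbours of `none` have exactly the three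
  different colours of `r (i+1)`, `r (i+2)`, `r (i+3)`.
-/

set_option autoImplicit false
set_option linter.unusedSimpArgs false
set_option linter.unusedVariables false

noncomputable section

namespace Pool.Agent.ZOL

open Pool.Agent.Helper1.PG
open Pool.Agent.Helper36.BL (cp cnt cols cp_eval mem_cols IsMinor)
open Pool.Agent.U5 (P)
open Pool.Agent.SB (Disc ad eqv)

variable {V : Type} [Fintype V] {H : SimpleGraph V} {r : ZMod 5 → V}

open Polynomial
open Pool.Agent.Helper36.BL (poly_ext)

private theorem card_filter_irrel {α : Type} (F1 F2 : Fintype α) (p q : α → Prop)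
    (i : DecidablePred p) (j : DecidablePred q) (h : ∀ x, p x ↔ q x) :
    (@Finset.filter α p i (@Finset.univ α F1)).card =
      (@Finset.filter α q j (@Finset.univ α F2)).card := by
  obtain rfl : p = q := funext fun x => propext (h x)
  have e : i = j := funext fun x => Subsingleton.elim _ _
  have e' : F1 = F2 := Subsingleton.elim _ _
  rw [e, e']

open scoped Classical in
/-- colourings of the hub graph with a property -/
private theorem card_hub (S : Set (ZMod 5)) (N : ℕ) (Q : (V → Fin N) → Fin N → Prop) :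
    (Finset.univ.filter (fun c : Option V → Fin N =>
      (∀ u v, (hub H r S).Adj u v → c u ≠ c v) ∧ Q (fun v => c (some v)) (c none))).card =
    ∑ c ∈ cols H N, (Finset.univ.filter (fun x : Fin N => (∀ i ∈ S, x ≠ c (r i)) ∧ Q c x)).card := by
  rw [Finset.card_eq_sum_card_fiberwise (f := fun c v => c (some v)) (t := cols H N)]
  · refine Finset.sum_congr rfl fun b hb => ?_
    refine Finset.card_bij (fun c _ => c none) ?_ ?_ ?_
    · intro c hc
      obtain ⟨hc1, hc2⟩ := Finset.mem_filter.1 hc
      obtain ⟨-, hc3, hc4⟩ := Finset.mem_filter.1 hc1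
      refine Finset.mem_filter.2 ⟨Finset.mem_univ _, fun i hi => ?_, ?_⟩
      · have h1 := hc3 none (some (r i)) (Or.inr (Or.inl ⟨rfl, i, hi, rfl⟩))
        rw [← hc2]
        exact h1
      · rw [← hc2]
        exact hc4
    · intro c hc c' hc' h
      have h1 := (Finset.mem_filter.1 hc).2
      have h2 := (Finset.mem_filter.1 hc').2
      funext v
      cases v with
      | none => exact h
      | some v => exact (congrFun h1 v).trans (congrFun h2 v).symm
    · intro x hx
      obtain ⟨-, hx1, hx2⟩ := Finset.mem_filter.1 hx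
      refine ⟨fun v => v.elim x b, Finset.mem_filter.2 ⟨Finset.mem_filter.2
        ⟨Finset.mem_univ _, ?_, hx2⟩, rfl⟩, rfl⟩
      rintro u v (⟨u', v', rfl, rfl, h⟩ | ⟨rfl, i, hi, rfl⟩ | ⟨rfl, i, hi, rfl⟩)
      · exact (mem_cols H N b).1 hb u' v' h
      · exact hx1 i hi
      · exact (hx1 i hi).symm
  · intro c hc
    obtain ⟨-, hc3, hc4⟩ := Finset.mem_filter.1 hc
    refine Finset.mem_coe.2 ((mem_cols H N _).2 fun u v h => ?_)
    exact hc3 (some u) (some v) (Or.inl ⟨u, v, rfl, rfl, h⟩)

open scoped Classical in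
private theorem cnt_hub (S : Set (ZMod 5)) (N : ℕ) :
    cnt (hub H r S) N =
    ∑ c ∈ cols H N, (Finset.univ.filter (fun x : Fin N => (∀ i ∈ S, x ≠ c (r i)))).card := by
  have h := card_hub (H := H) (r := r) S N (fun _ _ => True)
  simp only [and_true] at h
  rw [← h]
  unfold cnt
  congr 1
  ext c
  rw [mem_cols, Finset.mem_filter]
  exact ⟨fun h => ⟨Finset.mem_univ _, h⟩, fun h => h.2⟩

open scoped Classical in
/-- the filter description of the number of colourings with `c p = c p'` as a sum over `cols` -/
private theorem card_eqc (N : ℕ) (p p' : V) :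
    (Finset.univ.filter (fun c : V → Fin N => (∀ u v, H.Adj u v → c u ≠ c v) ∧ c p = c p')).card =
    ∑ c ∈ cols H N, if c p = c p' then 1 else 0 := by
  rw [← Finset.card_filter]
  congr 1
  ext c
  rw [Finset.mem_filter, Finset.mem_filter, mem_cols]
  exact ⟨fun h => h.2, fun h => ⟨Finset.mem_univ _, h⟩⟩

open scoped Classical in
private theorem five_card {N : ℕ} (a0 a1 a2 a3 a4 : Fin N) (h01 : a0 ≠ a1) (h12 : a1 ≠ a2)
    (h23 : a2 ≠ a3) (h34 : a3 ≠ a4) (h40 : a4 ≠ a0) :
    (((Finset.univ.filter (fun x : Fin N => x ≠ a0 ∧ x ≠ a1 ∧ x ≠ a2 ∧ x ≠ a3 ∧ x ≠ a4)).card : ℕ)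
      : ℝ) = N - 5 + ((if a4 = a1 then 1 else 0) + (if a0 = a2 then 1 else 0) +
        (if a1 = a3 then 1 else 0) + (if a2 = a4 then 1 else 0) + (if a3 = a0 then 1 else 0)) := by
  have h1 : (Finset.univ.filter (fun x : Fin N => x ≠ a0 ∧ x ≠ a1 ∧ x ≠ a2 ∧ x ≠ a3 ∧ x ≠ a4)) =
      ({a0, a1, a2, a3, a4} : Finset (Fin N))ᶜ := by
    ext x
    simp
  rw [h1]
  have h2 := Finset.card_compl_add_card ({a0, a1, a2, a3, a4} : Finset (Fin N))
  rw [Fintype.card_fin] at h2
  have h3 : ((({a0, a1, a2, a3, a4} : Finset (Fin N)).card : ℕ) : ℝ) = 5 -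
      ((if a4 = a1 then 1 else 0) + (if a0 = a2 then 1 else 0) +
        (if a1 = a3 then 1 else 0) + (if a2 = a4 then 1 else 0) + (if a3 = a0 then 1 else 0)) := by
    simp only [Finset.card_insert_eq_ite, Finset.mem_insert, Finset.mem_singleton,
      Finset.card_singleton]
    have k10 := h01.symm
    have k21 := h12.symm
    have k32 := h23.symm
    have k43 := h34.symm
    have k04 := h40.symm
    by_cases e41 : a4 = a1
    · subst e41
      by_cases e02 : a0 = a2
      · subst e02
        simp [h01, h12, h23, h34, h40, k10, k21, k32, k43, k04]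
        norm_num
      · by_cases e30 : a3 = a0
        · subst e30
          simp [h01, h12, h23, h34, h40, k10, k21, k32, k43, k04]
          norm_num
        · have f20 := Ne.symm e02
          have f03 := Ne.symm e30
          simp [h01, h12, h23, h34, h40, k10, k21, k32, k43, k04, e02, e30, f20, f03]
          norm_num
    · have f14 := Ne.symm e41
      by_cases e02 : a0 = a2
      · subst e02
        by_cases e13 : a1 = a3
        · subst e13
          simp [h01, h12, h23, h34, h40, k10, k21, k32, k43, k04]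
          norm_num
        · have f31 := Ne.symm e13
          simp [h01, h12, h23, h34, h40, k10, k21, k32, k43, k04, e41, f14, e13, f31]
          norm_num
      · have f20 := Ne.symm e02
        by_cases e13 : a1 = a3
        · subst e13
          by_cases e24 : a2 = a4
          · subst e24
            simp [h01, h12, h23, h34, h40, k10, k21, k32, k43, k04]
            norm_num
          · have f42 := Ne.symm e24
            simp [h01, h12, h23, h34, h40, k10, k21, k32, k43, k04, e41, f14, e02, f20, e24, f42]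
            norm_num
        · have f31 := Ne.symm e13
          by_cases e24 : a2 = a4
          · subst e24
            by_cases e30 : a3 = a0
            · subst e30
              simp [h01, h12, h23, h34, h40, k10, k21, k32, k43, k04]
              norm_num
            · have f03 := Ne.symm e30
              simp [h01, h12, h23, h34, h40, k10, k21, k32, k43, k04, e02, f20, e13, f31, e30, f03]
              norm_num
          · have f42 := Ne.symm e24
            by_cases e30 : a3 = a0
            · subst e30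
              simp [h01, h12, h23, h34, h40, k10, k21, k32, k43, k04, e41, f14, e02, f20, e13, f31,
                e24, f42]
              norm_num
            · have f03 := Ne.symm e30
              simp [h01, h12, h23, h34, h40, k10, k21, k32, k43, k04, e41, f14, e02, f20, e13, f31,
                e24, f42, e30, f03]
  have h4 : ((({a0, a1, a2, a3, a4} : Finset (Fin N))ᶜ.card : ℕ) : ℝ) +
      ((({a0, a1, a2, a3, a4} : Finset (Fin N)).card : ℕ) : ℝ) = N := by exact_mod_cast h2
  linarith

open scoped Classical in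
private theorem eqv_poly {W : Type} [Fintype W] (G : SimpleGraph W) (p p' : W) :
    ∃ Q : ℝ[X], (∀ N : ℕ, Q.eval (N : ℝ) = ((Finset.univ.filter (fun c : W → Fin N =>
      (∀ u v, G.Adj u v → c u ≠ c v) ∧ c p = c p')).card : ℝ)) ∧
      ∀ q : ℝ, Q.eval q = eqv q G p p' :=
  SB.eqv_sum G p p'

private theorem jcases : ∀ i j : ZMod 5, j ≠ i → j = i + 1 ∨ j = i + 2 ∨ j = i + 3 ∨ j = i + 4 := by
  decide

open scoped Classical in
theorem hub_full (h : ∀ i, H.Adj (r i) (r (i + 1))) (q : ℝ) :
    P q (hub H r Set.univ) = ∑ i, c5 q H r i - (5 - q) * P q H := by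
  choose Q hQ hQe using fun i : ZMod 5 => eqv_poly H (r (i - 1)) (r (i + 1))
  have h1 : cp (hub H r Set.univ) = ∑ i, Q i - (C 5 - X) * cp H := by
    apply poly_ext
    intro N
    rw [cp_eval, eval_sub, eval_mul, eval_sub, eval_C, eval_X, cp_eval, eval_finsetSum, cnt_hub]
    have h2 : ∀ i, (Q i).eval (N : ℝ) =
        ∑ c ∈ cols H N, if c (r (i - 1)) = c (r (i + 1)) then (1 : ℝ) else 0 := by
      intro i
      rw [hQ i N, card_eqc]
      push_cast
      rfl
    rw [Finset.sum_congr rfl fun i _ => h2 i, Finset.sum_comm, cnt, Finset.cast_card,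
      Finset.mul_sum, ← Finset.sum_sub_distrib, Nat.cast_sum]
    refine Finset.sum_congr rfl fun c hc => ?_
    have hc' := (mem_cols H N c).1 hc
    have e4 : (4 : ZMod 5) + 1 = 0 := by decide
    have h40 := h 4
    rw [e4] at h40
    have h3 := five_card (c (r 0)) (c (r 1)) (c (r 2)) (c (r 3)) (c (r 4))
      (hc' _ _ (h 0)) (hc' _ _ (h 1)) (hc' _ _ (h 2)) (hc' _ _ (h 3)) (hc' _ _ h40)
    have h4 : ∑ i : ZMod 5, (if c (r (i - 1)) = c (r (i + 1)) then (1 : ℝ) else 0) =
        ((if c (r 4) = c (r 1) then 1 else 0) + (if c (r 0) = c (r 2) then 1 else 0) +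
        (if c (r 1) = c (r 3) then 1 else 0) + (if c (r 2) = c (r 4) then 1 else 0) +
        (if c (r 3) = c (r 0) then 1 else 0)) :=
      Fin.sum_univ_five (fun i : ZMod 5 => if c (r (i - 1)) = c (r (i + 1)) then (1 : ℝ) else 0)
    rw [h4]
    refine Eq.trans (congrArg (fun k : ℕ => (k : ℝ)) (congrArg Finset.card ?_)) (h3.trans ?_)
    · ext x
      simp only [Finset.mem_filter]
      refine and_congr_right fun _ => ⟨fun h => ⟨h 0 trivial, h 1 trivial, h 2 trivial,
        h 3 trivial, h 4 trivial⟩, ?_⟩
      rintro ⟨k0, k1, k2, k3, k4⟩ i -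
      have : ∀ i : ZMod 5, i = 0 ∨ i = 1 ∨ i = 2 ∨ i = 3 ∨ i = 4 := by decide
      rcases this i with rfl | rfl | rfl | rfl | rfl
      · exact k0
      · exact k1
      · exact k2
      · exact k3
      · exact k4
    · ring
  unfold P c5
  rw [h1, eval_sub, eval_mul, eval_sub, eval_C, eval_X, eval_finsetSum,
    Finset.sum_congr rfl fun i _ => hQe i q]

theorem hub_w (h : ∀ i, H.Adj (r i) (r (i + 1))) (hr : Function.Injective r) (q : ℝ)
    (i : ZMod 5) :
    P q (hub H r {j | j ≠ i}) = P q (hub H r Set.univ) +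
      eqv q (hub H r {j | j ≠ i}) none (some (r i)) := by
  have h1 := SB.P_eq_add q (hub H r {j | j ≠ i}) (p := none) (r := some (r i)) (by simp)
  have h2 : ad (hub H r {j | j ≠ i}) none (some (r i)) = hub H r Set.univ := by
    ext u v
    rw [SB.ad_adj]
    constructor
    · rintro ((h3 | ⟨h3, j, _, h4⟩ | ⟨h3, j, _, h4⟩) | ⟨_, ⟨h3, h4⟩ | ⟨h3, h4⟩⟩)
      · exact Or.inl h3
      · exact Or.inr (Or.inl ⟨h3, j, trivial, h4⟩)
      · exact Or.inr (Or.inr ⟨h3, j, trivial, h4⟩)
      · exact Or.inr (Or.inl ⟨h3, i, trivial, h4⟩)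
      · exact Or.inr (Or.inr ⟨h4, i, trivial, h3⟩)
    · rintro (h3 | ⟨h3, j, _, h4⟩ | ⟨h3, j, _, h4⟩)
      · exact Or.inl (Or.inl h3)
      · by_cases hj : j = i
        · subst hj
          exact Or.inr ⟨by rw [h3, h4]; simp, Or.inl ⟨h3, h4⟩⟩
        · exact Or.inl (Or.inr (Or.inl ⟨h3, j, hj, h4⟩))
      · by_cases hj : j = i
        · subst hj
          exact Or.inr ⟨by rw [h3, h4]; simp, Or.inr ⟨h4, h3⟩⟩
        · exact Or.inl (Or.inr (Or.inr ⟨h3, j, hj, h4⟩))
  rw [h2] at h1
  exact h1

open scoped Classical in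
theorem hub_m (h : ∀ i, H.Adj (r i) (r (i + 1))) (hr : Function.Injective r) (q : ℝ)
    (i : ZMod 5) :
    eqv q (hub H r {j | j ≠ i}) none (some (r i)) =
      P q H - c5 q H r (i + 1) - c5 q H r (i - 1) := by
  obtain ⟨Q, hQ, hQe⟩ := eqv_poly (hub H r {j | j ≠ i}) none (some (r i))
  obtain ⟨Q1, hQ1, hQe1⟩ := eqv_poly H (r (i + 1 - 1)) (r (i + 1 + 1))
  obtain ⟨Q2, hQ2, hQe2⟩ := eqv_poly H (r (i - 1 - 1)) (r (i - 1 + 1))
  have h1 : Q = cp H - Q1 - Q2 := by
    apply poly_ext
    intro N
    have h2 : Q.eval (N : ℝ) = ((∑ c ∈ cols H N, (Finset.univ.filter (fun x : Fin N =>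
        (∀ j ∈ {j | j ≠ i}, x ≠ c (r j)) ∧ x = c (r i))).card : ℕ) : ℝ) := by
      rw [hQ N]
      refine congrArg (fun k : ℕ => (k : ℝ)) ?_
      refine Eq.trans ?_
        ((card_hub (H := H) (r := r) {j | j ≠ i} N (fun c x => x = c (r i))).trans ?_)
      · refine card_filter_irrel _ _ _ _ _ _ (fun _ => ?_)
        exact Iff.rfl
      · refine Finset.sum_congr rfl fun c _ => ?_
        exact card_filter_irrel _ _ _ _ _ _ (fun _ => Iff.rfl)
    rw [h2, eval_sub, eval_sub, cp_eval, hQ1 N, hQ2 N, card_eqc, card_eqc, cnt,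
      Finset.cast_card]
    push_cast
    rw [← Finset.sum_sub_distrib, ← Finset.sum_sub_distrib]
    refine Finset.sum_congr rfl fun c hc => ?_
    have hc' := (mem_cols H N c).1 hc
    have e1 : i + 1 - 1 = i := by ring
    have e2 : i + 1 + 1 = i + 2 := by ring
    have e3 : i - 1 + 1 = i := by ring
    have e4 : i - 1 - 1 = i + 3 := by
      have : ∀ i : ZMod 5, i - 1 - 1 = i + 3 := by decide
      exact this i
    have e5 : i + 4 + 1 = i := by
      have : ∀ i : ZMod 5, i + 4 + 1 = i := by decide
      exact this i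
    have e6 : i + 2 + 1 = i + 3 := by ring
    rw [e1, e2, e3, e4]
    have k1 := hc' _ _ (h i)
    have k4 := hc' _ _ (h (i + 4))
    have k23 := hc' _ _ (h (i + 2))
    rw [e5] at k4
    rw [e6] at k23
    have h3 : (Finset.univ.filter (fun x : Fin N => (∀ j ∈ {j | j ≠ i}, x ≠ c (r j)) ∧
        x = c (r i))) = if c (r i) ≠ c (r (i + 2)) ∧ c (r i) ≠ c (r (i + 3)) then {c (r i)} else ∅ := by
      ext x
      rw [Finset.mem_filter]
      split_ifs with h4
      · rw [Finset.mem_singleton]
        refine ⟨fun h5 => h5.2.2, ?_⟩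
        rintro rfl
        refine ⟨Finset.mem_univ _, fun j hj => ?_, rfl⟩
        rcases jcases i j hj with rfl | rfl | rfl | rfl
        · exact k1
        · exact h4.1
        · exact h4.2
        · exact k4.symm
      · constructor
        · rintro ⟨-, h5, rfl⟩
          refine absurd ⟨h5 (i + 2) ?_, h5 (i + 3) ?_⟩ h4
          · have : ∀ i : ZMod 5, i + 2 ≠ i := by decide
            exact this i
          · have : ∀ i : ZMod 5, i + 3 ≠ i := by decide
            exact this i
        · intro h5
          exact absurd h5 (Finset.notMem_empty x)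
    rw [h3]
    by_cases f2 : c (r i) = c (r (i + 2))
    · have f3 : c (r (i + 3)) ≠ c (r i) := by rw [f2]; exact k23.symm
      rw [if_neg (fun h => h.1 f2), if_pos f2, if_neg f3]
      simp
    · by_cases f3 : c (r (i + 3)) = c (r i)
      · rw [if_neg (fun h => h.2 f3.symm), if_neg f2, if_pos f3]
        simp
      · rw [if_pos ⟨f2, Ne.symm f3⟩, if_neg f2, if_neg f3]
        simp
  unfold P c5
  rw [← hQe, ← hQe1, ← hQe2, h1, eval_sub, eval_sub]

open scoped Classical in
theorem hub_n (h : ∀ i, H.Adj (r i) (r (i + 1))) (hr : Function.Injective r) (q : ℝ)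
    (i : ZMod 5) :
    eqv q (hub H r {j | j ≠ i}) (some (r (i - 1))) (some (r (i + 1))) =
      (q - 3) * c5 q H r i := by
  obtain ⟨Q, hQ, hQe⟩ := eqv_poly (hub H r {j | j ≠ i}) (some (r (i - 1))) (some (r (i + 1)))
  obtain ⟨Q1, hQ1, hQe1⟩ := eqv_poly H (r (i - 1)) (r (i + 1))
  have h1 : Q = (X - C 3) * Q1 := by
    apply poly_ext
    intro N
    have h2 : Q.eval (N : ℝ) = ((∑ c ∈ cols H N, (Finset.univ.filter (fun x : Fin N =>
        (∀ j ∈ {j | j ≠ i}, x ≠ c (r j)) ∧ c (r (i - 1)) = c (r (i + 1)))).card : ℕ) : ℝ) := by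
      rw [hQ N]
      refine congrArg (fun k : ℕ => (k : ℝ)) ?_
      refine Eq.trans ?_ ((card_hub (H := H) (r := r) {j | j ≠ i} N
        (fun c _ => c (r (i - 1)) = c (r (i + 1)))).trans ?_)
      · refine card_filter_irrel _ _ _ _ _ _ (fun _ => ?_)
        exact Iff.rfl
      · refine Finset.sum_congr rfl fun c _ => ?_
        exact card_filter_irrel _ _ _ _ _ _ (fun _ => Iff.rfl)
    rw [h2, eval_mul, eval_sub, eval_X, eval_C, hQ1 N, card_eqc]
    push_cast
    rw [Finset.mul_sum]
    refine Finset.sum_congr rfl fun c hc => ?_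
    have hc' := (mem_cols H N c).1 hc
    by_cases f : c (r (i - 1)) = c (r (i + 1))
    · rw [if_pos f, mul_one]
      have e0 : i - 1 = i + 4 := by
        have : ∀ i : ZMod 5, i - 1 = i + 4 := by decide
        exact this i
      rw [e0] at f
      have e1 : i + 1 + 1 = i + 2 := by ring
      have e2 : i + 2 + 1 = i + 3 := by ring
      have e3 : i + 3 + 1 = i + 4 := by ring
      have k12 := hc' _ _ (h (i + 1))
      have k23 := hc' _ _ (h (i + 2))
      have k34 := hc' _ _ (h (i + 3))
      rw [e1] at k12
      rw [e2] at k23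
      rw [e3, f] at k34
      have h3 : (Finset.univ.filter (fun x : Fin N => (∀ j ∈ {j | j ≠ i}, x ≠ c (r j)) ∧
          c (r (i - 1)) = c (r (i + 1)))) =
          ({c (r (i + 1)), c (r (i + 2)), c (r (i + 3))} : Finset (Fin N))ᶜ := by
        ext x
        rw [Finset.mem_filter, Finset.mem_compl, Finset.mem_insert, Finset.mem_insert,
          Finset.mem_singleton, not_or, not_or]
        constructor
        · rintro ⟨-, h5, -⟩
          refine ⟨h5 _ ?_, h5 _ ?_, h5 _ ?_⟩
          · have : ∀ i : ZMod 5, i + 1 ≠ i := by decide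
            exact this i
          · have : ∀ i : ZMod 5, i + 2 ≠ i := by decide
            exact this i
          · have : ∀ i : ZMod 5, i + 3 ≠ i := by decide
            exact this i
        · rintro ⟨g1, g2, g3⟩
          refine ⟨Finset.mem_univ _, fun j hj => ?_, by rw [e0]; exact f⟩
          rcases jcases i j hj with rfl | rfl | rfl | rfl
          · exact g1
          · exact g2
          · exact g3
          · rw [f]; exact g1
      rw [h3]
      have h4 := Finset.card_compl_add_card
        ({c (r (i + 1)), c (r (i + 2)), c (r (i + 3))} : Finset (Fin N))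
      rw [Fintype.card_fin, Finset.card_insert_of_notMem, Finset.card_pair k23] at h4
      · have h5 : ((({c (r (i + 1)), c (r (i + 2)), c (r (i + 3))} : Finset (Fin N))ᶜ.card : ℕ) : ℝ)
            + 3 = N := by
          have : ((({c (r (i + 1)), c (r (i + 2)), c (r (i + 3))} : Finset (Fin N))ᶜ.card : ℕ) : ℝ)
            + ((2 + 1 : ℕ) : ℝ) = N := by exact_mod_cast h4
          push_cast at this
          linarith
        linarith
      · rw [Finset.mem_insert, Finset.mem_singleton, not_or]
        exact ⟨k12, k34.symm⟩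
    · rw [if_neg f, mul_zero]
      simp [f]
  unfold c5
  rw [← hQe, ← hQe1, h1, eval_mul, eval_sub, eval_X, eval_C]

end Pool.Agent.ZOL
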