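import Pool.Agent.ZOL.Clo
import Pool.Agent.ZOL.Uni
import Pool.Agent.ZOL.MgSum

/-!
# Gluing two 4-discs along the whole ring

JOB ZOL-Par.  Prove the theorem of this file (remove the `sorry`, keep the statement).

Plan.  `p0 = r0`, `p1 = r3`, `p2 = r2`, `p3 = r1`.  Way 1: `disc_union`, `disc_rot` (rotate the second
ring): `Disc (H ⊕g H') [p0, p1, p2, p3, r1, r2, r3, r0]`; then `SB.disc_rep` (`SB/AFill.lean`) for the
filling which merges the corners `(3,4)`, `(2,5)`, `(1,6)`, `(0,7)`: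
`Fill.merge 0 7 (Fill.merge 1 6 (Fill.merge 2 5 (Fill.merge 3 4 leaf leaf) leaf) leaf) leaf` with the
indices relative to the inner lists (`inn`: all of them keep the corners `i … j`, so inside `inn 0 7`
the indices are unchanged, inside `inn 1 6` they are shifted by one, …).  It gives `Y` planar with
`cnt Y N = ∑ c ∈ cols (H ⊕g H') N, Fill.val …` for all `N`, or all these sums are `0`; in the second
case take for `Y` … : exclude it, e.g. the sum is positive for large `N` (`c` with different colours on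
the interiors of `H`, `H'` and equal colours on the rings: take an injective colouring of the quotient;
the rings are 4-cycles with different vertices or with `p0 ≠ p2`, `p1 ≠ p3`; no loop arises because
`p_i`, `p_j` are adjacent only if different and `r` likewise; note that `p0`, `p2` may be adjacent in
`H`, this is no problem).  Way 2: four merges by hand as in `Stk.lean`.
The value of the filling is `1` if `c p3 = c' r1`, `c p2 = c' r2`, `c p1 = c' r3`, `c p0 = c' r0`, else `0`.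
`sum_cols_sum`, `sum_z4` give the sum over `x0 x1 x2 x3`.
-/

set_option autoImplicit false

noncomputable section

namespace Pool.Agent.ZOL

open Pool.Agent.Helper1.PG
open Pool.Agent.Helper36.BL (cp cnt cols cp_eval mem_cols IsMinor)
open Pool.Agent.U5 (P)
open Pool.Agent.SB (Disc ad eqv)

private def fil : Fill :=
  Fill.merge 0 7 (Fill.merge 1 6 (Fill.merge 1 4 (Fill.merge 1 2 Fill.leaf Fill.leaf) Fill.leaf)
    Fill.leaf) Fill.leaf

private theorem val_fil {C : Type} [DecidableEq C] (a0 a1 a2 a3 b1 b2 b3 b0 : C) :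
    fil.val [a0, a1, a2, a3, b1, b2, b3, b0] =
      if b0 = a0 ∧ b1 = a3 ∧ b2 = a2 ∧ b3 = a1 then 1 else 0 := by
  unfold fil
  simp only [Fill.val, inn, List.drop, List.take, List.length, mul_one]
  by_cases h0 : a0 = b0
  · by_cases h1 : a1 = b3
    · by_cases h2 : a2 = b2
      · by_cases h3 : a3 = b1
        · simp [h0, h1, h2, h3]
        · simp [h0, h1, h2, h3, Ne.symm h3]
      · simp [h0, h1, h2, Ne.symm h2]
    · simp [h0, h1, Ne.symm h1]
  · simp [h0, Ne.symm h0]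

theorem exists_par {V V' : Type} [Fintype V] [Fintype V'] {H : SimpleGraph V}
    {H' : SimpleGraph V'} {p0 p1 p2 p3 : V} {r0 r1 r2 r3 : V'} (h : D4 H p0 p1 p2 p3)
    (h' : D4 H' r0 r1 r2 r3) :
    ∃ (W : Type) (_ : Fintype W) (Y : SimpleGraph W), Pl Y ∧
      ∀ N : ℕ, cnt Y N = ∑ x0, ∑ x1, ∑ x2, ∑ x3,
        z4 H p0 p1 p2 p3 N x0 x1 x2 x3 * z4 H' r0 r1 r2 r3 N x0 x3 x2 x1 := by
  classical
  have hd' : Disc H' [r1, r2, r3, r0] := disc_rot (l1 := [r0]) (l2 := [r1, r2, r3]) h'.disc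
  have hd : Disc (H ⊕g H') [Sum.inl p0, Sum.inl p1, Sum.inl p2, Sum.inl p3,
      Sum.inr r1, Sum.inr r2, Sum.inr r3, Sum.inr r0] := disc_union h.disc hd'
  have hsum : ∀ N : ℕ, ∑ c ∈ cols (H ⊕g H') N, fil.val ([Sum.inl p0, Sum.inl p1, Sum.inl p2,
      Sum.inl p3, Sum.inr r1, Sum.inr r2, Sum.inr r3, Sum.inr r0].map c) =
      ∑ x0, ∑ x1, ∑ x2, ∑ x3,
        z4 H p0 p1 p2 p3 N x0 x1 x2 x3 * z4 H' r0 r1 r2 r3 N x0 x3 x2 x1 := by
    intro N
    have h1 := sum_cols_sum H H' N (fun c c' => if c' r0 = c p0 ∧ c' r1 = c p3 ∧ c' r2 = c p2 ∧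
      c' r3 = c p1 then (1 : ℝ) else 0)
    have h2 : ∀ c : V → Fin N, ∑ c' ∈ cols H' N, (if c' r0 = c p0 ∧ c' r1 = c p3 ∧
        c' r2 = c p2 ∧ c' r3 = c p1 then (1 : ℝ) else 0) =
        (z4 H' r0 r1 r2 r3 N (c p0) (c p3) (c p2) (c p1) : ℝ) := by
      intro c
      unfold z4
      rw [Finset.card_filter]
      push_cast
      rfl
    rw [Finset.sum_congr rfl fun c _ => h2 c] at h1
    have h3 := sum_z4 H p0 p1 p2 p3 N
      (fun x0 x1 x2 x3 => (z4 H' r0 r1 r2 r3 N x0 x3 x2 x1 : ℝ))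
    rw [h3] at h1
    have h4 : ∀ c : V ⊕ V' → Fin N, (fil.val ([Sum.inl p0, Sum.inl p1, Sum.inl p2,
        Sum.inl p3, Sum.inr r1, Sum.inr r2, Sum.inr r3, Sum.inr r0].map c) : ℝ) =
        if (c ∘ Sum.inr) r0 = (c ∘ Sum.inl) p0 ∧ (c ∘ Sum.inr) r1 = (c ∘ Sum.inl) p3 ∧
          (c ∘ Sum.inr) r2 = (c ∘ Sum.inl) p2 ∧ (c ∘ Sum.inr) r3 = (c ∘ Sum.inl) p1
          then (1 : ℝ) else 0 := by
      intro c
      have h5 := val_fil (c (Sum.inl p0)) (c (Sum.inl p1)) (c (Sum.inl p2)) (c (Sum.inl p3))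
        (c (Sum.inr r1)) (c (Sum.inr r2)) (c (Sum.inr r3)) (c (Sum.inr r0))
      have h6 : [Sum.inl p0, Sum.inl p1, Sum.inl p2,
        Sum.inl p3, Sum.inr r1, Sum.inr r2, Sum.inr r3, Sum.inr r0].map c =
        [c (Sum.inl p0), c (Sum.inl p1), c (Sum.inl p2), c (Sum.inl p3),
        c (Sum.inr r1), c (Sum.inr r2), c (Sum.inr r3), c (Sum.inr r0)] := rfl
      rw [h6, h5]
      push_cast
      rfl
    have h7 : ((∑ c ∈ cols (H ⊕g H') N, fil.val ([Sum.inl p0, Sum.inl p1, Sum.inl p2,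
      Sum.inl p3, Sum.inr r1, Sum.inr r2, Sum.inr r3, Sum.inr r0].map c) : ℕ) : ℝ) =
      ((∑ x0, ∑ x1, ∑ x2, ∑ x3,
        z4 H p0 p1 p2 p3 N x0 x1 x2 x3 * z4 H' r0 r1 r2 r3 N x0 x3 x2 x1 : ℕ) : ℝ) := by
      rw [Nat.cast_sum, Finset.sum_congr rfl fun c _ => h4 c]
      push_cast
      exact h1
    exact_mod_cast h7
  have hpos : ∃ N : ℕ, (∑ x0, ∑ x1, ∑ x2, ∑ x3,
      z4 H p0 p1 p2 p3 N x0 x1 x2 x3 * z4 H' r0 r1 r2 r3 N x0 x3 x2 x1) ≠ 0 := by
    refine ⟨Fintype.card (V ⊕ V'), ?_⟩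
    let e := Fintype.equivFin (V ⊕ V')
    let g : V' → V ⊕ V' := fun v => if v = r0 then Sum.inl p0 else if v = r1 then Sum.inl p3
      else if v = r2 then Sum.inl p2 else if v = r3 then Sum.inl p1 else Sum.inr v
    have n01 := h.e01.ne
    have n12 := h.e12.ne
    have n23 := h.e23.ne
    have n30 := h.e30.ne
    have m01 := h'.e01.ne
    have m12 := h'.e12.ne
    have m23 := h'.e23.ne
    have m30 := h'.e30.ne
    have n02 := h.n02
    have n13 := h.n13
    have m02 := h'.n02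
    have m13 := h'.n13
    have hg : Function.Injective g := by
      intro u v huv
      simp only [g] at huv
      split_ifs at huv <;> simp_all
    have hg0 : g r0 = Sum.inl p0 := if_pos rfl
    have hg1 : g r1 = Sum.inl p3 := by
      simp only [g]
      rw [if_neg m01.symm, if_pos trivial]
    have hg2 : g r2 = Sum.inl p2 := by
      simp only [g]
      rw [if_neg m02.symm, if_neg m12.symm, if_pos trivial]
    have hg3 : g r3 = Sum.inl p1 := by
      simp only [g]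
      rw [if_neg m30, if_neg m13.symm, if_neg m23.symm, if_pos trivial]
    have hz1 : 0 < z4 H p0 p1 p2 p3 (Fintype.card (V ⊕ V')) (e (Sum.inl p0)) (e (Sum.inl p1))
        (e (Sum.inl p2)) (e (Sum.inl p3)) := by
      unfold z4
      rw [Finset.card_pos]
      refine ⟨fun v => e (Sum.inl v), ?_⟩
      rw [Finset.mem_filter, mem_cols]
      refine ⟨?_, rfl, rfl, rfl, rfl⟩
      intro u v huv heq
      exact huv.ne (Sum.inl_injective (e.injective heq))
    have hz2 : 0 < z4 H' r0 r1 r2 r3 (Fintype.card (V ⊕ V')) (e (Sum.inl p0)) (e (Sum.inl p3))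
        (e (Sum.inl p2)) (e (Sum.inl p1)) := by
      unfold z4
      rw [Finset.card_pos]
      refine ⟨fun v => e (g v), ?_⟩
      rw [Finset.mem_filter, mem_cols]
      refine ⟨?_, congrArg e hg0, congrArg e hg1, congrArg e hg2, congrArg e hg3⟩
      intro u v huv heq
      exact huv.ne (hg (e.injective heq))
    have hlt : 0 < ∑ x0, ∑ x1, ∑ x2, ∑ x3,
        z4 H p0 p1 p2 p3 (Fintype.card (V ⊕ V')) x0 x1 x2 x3 *
          z4 H' r0 r1 r2 r3 (Fintype.card (V ⊕ V')) x0 x3 x2 x1 := by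
      refine Finset.sum_pos' (fun _ _ => Nat.zero_le _) ⟨e (Sum.inl p0), Finset.mem_univ _, ?_⟩
      refine Finset.sum_pos' (fun _ _ => Nat.zero_le _) ⟨e (Sum.inl p1), Finset.mem_univ _, ?_⟩
      refine Finset.sum_pos' (fun _ _ => Nat.zero_le _) ⟨e (Sum.inl p2), Finset.mem_univ _, ?_⟩
      refine Finset.sum_pos' (fun _ _ => Nat.zero_le _) ⟨e (Sum.inl p3), Finset.mem_univ _, ?_⟩
      exact Nat.mul_pos hz1 hz2
    exact hlt.ne'
  rcases SB.disc_rep hd fil with h0 | ⟨W, i, Y, hY, hc, -, -⟩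
  · exfalso
    obtain ⟨N, hN⟩ := hpos
    exact hN ((hsum N).symm.trans (h0 N))
  · exact ⟨W, i, Y, hY, fun N => (hc N).symm.trans (hsum N)⟩

end Pool.Agent.ZOL
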