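import Pool.Agent.ZOL.ZForm
import Pool.Agent.ZOL.SumN
import Pool.Agent.ZOL.PolyU

/-!
# Values of stacked and glued discs

JOB ZOL-StkV.  Prove all theorems of this file (remove the `sorry`s, keep the statements).

Plan.  Both sides are rational functions without poles in `[4, ∞)` (`PolyU.lean`), so by `RatF.ext` it is
enough to take `q = N ≥ 4`.  `exists_zf` for `H`, `H'`, `Y`: constants `α β γ`, `α' β' γ'`, `α'' β'' γ''`;
`U_nat` gives the `U`'s.  Put `n = N`.
* `stk_val`: the formula for `z4 Y` at four patterns gives (with `z4 H … = 0` unless the pattern is proper,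
  edges of `D4`):
  `x0 = x2`, `x1 ≠ x3`: `α'' + β'' = ∑_{a ≠ x0} (α + β + [x1 = a] γ) (α' + β' + [a = x3] γ')
     = (n - 1) (α + β) (α' + β') + γ (α' + β') + γ' (α + β)`;
  `x0 = x2`, `x1 = x3`: the same `+ γ γ'`, so `γ'' = γ γ'`;
  all different: `α'' = ∑_{a ∉ {x0, x2}} (α + [x1 = a] γ) (α' + [a = x3] γ') = (n - 2) α α' + γ α' + γ' α`.
  Then `(n-1)(α''+β'') + γ'' = ((n-1)(α+β)+γ) ((n-1)(α'+β')+γ')`, etc. by `ring`.
* `par_val`: `cnt Y N = n (n-1) ((n-1) … )`: the sum over proper patterns of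
  `(α + [02] β + [13] γ) (α' + [02] β' + [13] γ')`:
  `x0 = x2` part: `n (n-1) [ (A + γ)(A' + γ') + (n-2) A A' ]` with `A = α + β`, `A' = α' + β'`;
  `x0 ≠ x2` part: `n (n-1) (n-2) [ (α + γ)(α' + γ') + (n-3) α α' ]`.
  The claim is then `ring` after `U_nat`.
-/

set_option autoImplicit false

noncomputable section

namespace Pool.Agent.ZOL

open Pool.Agent.Helper1.PG
open Pool.Agent.Helper36.BL (cp cnt cols cp_eval mem_cols IsMinor)
open Pool.Agent.U5 (P)
open Pool.Agent.SB (Disc ad eqv)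

variable {V V' W : Type} [Fintype V] [Fintype V'] [Fintype W]

/-- the real valued indicator of equality -/
private def ind {N : ℕ} (a b : Fin N) : ℝ := if a = b then 1 else 0

private lemma z4_form {V : Type} [Fintype V] {H : SimpleGraph V} {p0 p1 p2 p3 : V}
    (h : D4 H p0 p1 p2 p3) {N : ℕ} {α β γ : ℝ} (hz : Zf H p0 p1 p2 p3 N α β γ)
    (x0 x1 x2 x3 : Fin N) :
    (z4 H p0 p1 p2 p3 N x0 x1 x2 x3 : ℝ) =
      (1 - ind x0 x1) * (1 - ind x1 x2) * (1 - ind x2 x3) * (1 - ind x3 x0) *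
        (α + ind x0 x2 * β + ind x1 x3 * γ) := by
  have key : ∀ (a b : V), H.Adj a b → ∀ c ∈ cols H N, c a ≠ c b := by
    intro a b hab c hc
    exact (mem_cols H N c).1 hc a b hab
  have zero : (x0 = x1 ∨ x1 = x2 ∨ x2 = x3 ∨ x3 = x0) → z4 H p0 p1 p2 p3 N x0 x1 x2 x3 = 0 := by
    intro hx
    unfold z4
    rw [Finset.card_eq_zero, Finset.filter_eq_empty_iff]
    rintro c hc ⟨h0, h1, h2, h3⟩
    rcases hx with hx | hx | hx | hx
    · exact key _ _ h.e01 c hc (by rw [h0, h1, hx])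
    · exact key _ _ h.e12 c hc (by rw [h1, h2, hx])
    · exact key _ _ h.e23 c hc (by rw [h2, h3, hx])
    · exact key _ _ h.e30 c hc (by rw [h3, h0, hx])
  by_cases h01 : x0 = x1
  · rw [zero (Or.inl h01)]
    simp [ind, h01]
  by_cases h12 : x1 = x2
  · rw [zero (Or.inr (Or.inl h12))]
    simp [ind, h12]
  by_cases h23 : x2 = x3
  · rw [zero (Or.inr (Or.inr (Or.inl h23)))]
    simp [ind, h23]
  by_cases h30 : x3 = x0
  · rw [zero (Or.inr (Or.inr (Or.inr h30)))]
    simp [ind, h30]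
  rw [hz x0 x1 x2 x3 h01 h12 h23 h30]
  simp [ind, h01, h12, h23, h30]

private lemma sum_ind {N : ℕ} (x : Fin N) : ∑ a, ind a x = 1 := by
  simp [ind]

private lemma sum_one {N : ℕ} : ∑ _a : Fin N, (1 : ℝ) = (N : ℝ) := by
  simp

/-- the sum over one colour, ends of the diagonal equal -/
private lemma sum_eq {N : ℕ} {x0 x1 x3 : Fin N} (h1 : x1 ≠ x0) (h3 : x3 ≠ x0)
    (A G A' G' : ℝ) :
    ∑ a, (1 - ind a x0) * (A + ind a x1 * G) * (A' + ind a x3 * G') =
      ((N : ℝ) - 1) * (A * A') + A * G' + A' * G + ind x1 x3 * (G * G') := by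
  have : ∀ a, (1 - ind a x0) * (A + ind a x1 * G) * (A' + ind a x3 * G') =
      A * A' * 1 - A * A' * ind a x0 + A * G' * ind a x3 + A' * G * ind a x1 +
        ind x1 x3 * (G * G') * ind a x1 := by
    intro a
    by_cases ha : a = x0
    · subst ha
      simp [ind, Ne.symm h1, Ne.symm h3]
    by_cases hb : a = x1
    · subst hb
      by_cases hc : a = x3
      · subst hc
        simp [ind, ha]
        ring
      · simp [ind, ha, hc]
        ring
    · by_cases hc : a = x3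
      · subst hc
        simp [ind, ha, hb]
        ring
      · simp [ind, ha, hb, hc]
  rw [Finset.sum_congr rfl (fun a _ => this a)]
  simp only [Finset.sum_add_distrib, Finset.sum_sub_distrib, ← Finset.mul_sum, sum_ind, sum_one]
  ring

/-- the sum over one colour, ends of the diagonal different -/
private lemma sum_ne {N : ℕ} {x0 x1 x2 x3 : Fin N} (h02 : x0 ≠ x2) (h1 : x1 ≠ x0) (h3 : x3 ≠ x0)
    (h12 : x1 ≠ x2) (h32 : x3 ≠ x2) (A G A' G' : ℝ) :
    ∑ a, (1 - ind a x0) * (1 - ind a x2) * (A + ind a x1 * G) * (A' + ind a x3 * G') =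
      ((N : ℝ) - 2) * (A * A') + A * G' + A' * G + ind x1 x3 * (G * G') := by
  have : ∀ a, (1 - ind a x0) * (1 - ind a x2) * (A + ind a x1 * G) * (A' + ind a x3 * G') =
      A * A' * 1 - A * A' * ind a x0 - A * A' * ind a x2 + A * G' * ind a x3 + A' * G * ind a x1 +
        ind x1 x3 * (G * G') * ind a x1 := by
    intro a
    by_cases ha : a = x0
    · subst ha
      simp [ind, Ne.symm h1, Ne.symm h3, h02]
    by_cases hd : a = x2
    · subst hd
      simp [ind, Ne.symm h12, Ne.symm h32, ha]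
    by_cases hb : a = x1
    · subst hb
      by_cases hc : a = x3
      · subst hc
        simp [ind, ha, hd]
        ring
      · simp [ind, ha, hc, hd]
        ring
    · by_cases hc : a = x3
      · subst hc
        simp [ind, ha, hb, hd]
        ring
      · simp [ind, ha, hb, hc, hd]
  rw [Finset.sum_congr rfl (fun a _ => this a)]
  simp only [Finset.sum_add_distrib, Finset.sum_sub_distrib, ← Finset.mul_sum, sum_ind, sum_one]
  ring

private lemma ind_comm {N : ℕ} (a b : Fin N) : ind a b = ind b a := by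
  unfold ind
  by_cases h : a = b
  · simp [h]
  · rw [if_neg h, if_neg (fun h' => h h'.symm)]

private lemma ind_self {N : ℕ} (a : Fin N) : ind a a = 1 := by simp [ind]

private lemma ind_ne {N : ℕ} {a b : Fin N} (h : a ≠ b) : ind a b = 0 := by simp [ind, h]

private lemma ind_sq {N : ℕ} (a b : Fin N) : (1 - ind a b) * (1 - ind a b) = 1 - ind a b := by
  by_cases h : a = b
  · simp [ind, h]
  · simp [ind, h]

theorem stk_val {H : SimpleGraph V} {H' : SimpleGraph V'} {Y : SimpleGraph W}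
    {p0 p1 p2 p3 : V} {r0 r1 r2 r3 : V'} {s0 s1 s2 s3 : W} (h : D4 H p0 p1 p2 p3)
    (h' : D4 H' r0 r1 r2 r3) (hY : D4 Y s0 s1 s2 s3)
    (hz : ∀ (N : ℕ) (x0 x1 x2 x3 : Fin N), z4 Y s0 s1 s2 s3 N x0 x1 x2 x3 =
      ∑ a, z4 H p0 p1 p2 p3 N x0 x1 x2 a * z4 H' r0 r1 r2 r3 N x0 a x2 x3) (q : ℝ)
    (hq : 4 ≤ q) :
    U0 q Y s0 s1 s2 s3 = U0 q H p0 p1 p2 p3 * U0 q H' r0 r1 r2 r3 ∧
      U1 q Y s0 s1 s2 s3 = U1 q H p0 p1 p2 p3 * U1 q H' r0 r1 r2 r3 ∧
      U2 q Y s0 s1 s2 s3 = U2 q H p0 p1 p2 p3 * U2 q H' r0 r1 r2 r3 := by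
  have n1 : ∀ N : ℕ, 4 ≤ N →
      U0 (N : ℝ) Y s0 s1 s2 s3 = U0 (N : ℝ) H p0 p1 p2 p3 * U0 (N : ℝ) H' r0 r1 r2 r3 ∧
      U1 (N : ℝ) Y s0 s1 s2 s3 = U1 (N : ℝ) H p0 p1 p2 p3 * U1 (N : ℝ) H' r0 r1 r2 r3 ∧
      U2 (N : ℝ) Y s0 s1 s2 s3 = U2 (N : ℝ) H p0 p1 p2 p3 * U2 (N : ℝ) H' r0 r1 r2 r3 := by
    intro N hN
    obtain ⟨α, β, γ, h1⟩ := exists_zf h hN
    obtain ⟨α', β', γ', h2⟩ := exists_zf h' hN
    obtain ⟨α'', β'', γ'', h3⟩ := exists_zf hY hN
    obtain ⟨a0, a1, a2⟩ := U_nat h hN h1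
    obtain ⟨b0, b1, b2⟩ := U_nat h' hN h2
    obtain ⟨c0, c1, c2⟩ := U_nat hY hN h3
    let u : Fin N := ⟨0, by omega⟩
    let v : Fin N := ⟨1, by omega⟩
    let w : Fin N := ⟨2, by omega⟩
    let t : Fin N := ⟨3, by omega⟩
    have huv : u ≠ v := by simp [u, v]
    have huw : u ≠ w := by simp [u, w]
    have hut : u ≠ t := by simp [u, t]
    have hvw : v ≠ w := by simp [v, w]
    have hvt : v ≠ t := by simp [v, t]
    have hwt : w ≠ t := by simp [w, t]
    have hzr : ∀ x0 x1 x2 x3 : Fin N, (z4 Y s0 s1 s2 s3 N x0 x1 x2 x3 : ℝ) =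
        ∑ a, (z4 H p0 p1 p2 p3 N x0 x1 x2 a : ℝ) * (z4 H' r0 r1 r2 r3 N x0 a x2 x3 : ℝ) := by
      intro x0 x1 x2 x3
      rw [hz N x0 x1 x2 x3]
      push_cast
      rfl
    -- x0 = x2 = u
    have E1 : ∀ x1 x3 : Fin N, x1 ≠ u → x3 ≠ u →
        (z4 Y s0 s1 s2 s3 N u x1 u x3 : ℝ) = ((N : ℝ) - 1) * ((α + β) * (α' + β')) +
          (α + β) * γ' + (α' + β') * γ + ind x1 x3 * (γ * γ') := by
      intro x1 x3 hx1 hx3
      rw [hzr, ← sum_eq hx1 hx3 (α + β) γ (α' + β') γ']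
      refine Finset.sum_congr rfl (fun a _ => ?_)
      rw [z4_form h h1, z4_form h' h2, ind_self, ind_ne hx1, ind_ne (Ne.symm hx1), ind_ne hx3,
        ind_ne (Ne.symm hx3), ind_comm u a, ind_comm x1 a]
      have := ind_sq a u
      linear_combination ((α + β + ind a x1 * γ) * (α' + β' + ind a x3 * γ') *
        ((1 - ind a u) * (1 - ind a u) + (1 - ind a u) + 1)) * this
    have E2 : ∀ x1 x3 : Fin N, x1 ≠ u → x3 ≠ u → x1 ≠ w → x3 ≠ w →
        (z4 Y s0 s1 s2 s3 N u x1 w x3 : ℝ) = ((N : ℝ) - 2) * (α * α') +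
          α * γ' + α' * γ + ind x1 x3 * (γ * γ') := by
      intro x1 x3 hx1 hx3 hy1 hy3
      rw [hzr, ← sum_ne huw hx1 hx3 hy1 hy3 α γ α' γ']
      refine Finset.sum_congr rfl (fun a _ => ?_)
      rw [z4_form h h1, z4_form h' h2, ind_ne huw, ind_ne hy1, ind_ne (Ne.symm hx1), ind_ne hx3,
        ind_ne (Ne.symm hy3), ind_comm u a, ind_comm x1 a, ind_comm w a]
      have e1 := ind_sq a u
      have e2 := ind_sq a w
      linear_combination ((α + ind a x1 * γ) * (α' + ind a x3 * γ') *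
        ((1 - ind a w) * (1 - ind a w))) * e1 + ((α + ind a x1 * γ) * (α' + ind a x3 * γ') *
        (1 - ind a u)) * e2
    have F1 := h3 u v u w huv (Ne.symm huv) huw (Ne.symm huw)
    rw [E1 v w (Ne.symm huv) (Ne.symm huw), if_pos rfl, if_neg hvw, ind_ne hvw] at F1
    have F2 := h3 u v u v huv (Ne.symm huv) huv (Ne.symm huv)
    rw [E1 v v (Ne.symm huv) (Ne.symm huv), if_pos rfl, if_pos rfl, ind_self] at F2
    have F3 := h3 u v w t huv hvw hwt (Ne.symm hut)
    rw [E2 v t (Ne.symm huv) (Ne.symm hut) hvw (Ne.symm hwt), if_neg huw, if_neg hvt,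
      ind_ne hvt] at F3
    have G3 : γ'' = γ * γ' := by linear_combination F1 - F2
    have GA : α'' = ((N : ℝ) - 2) * (α * α') + α * γ' + α' * γ := by linear_combination -F3
    have GB : α'' + β'' = ((N : ℝ) - 1) * ((α + β) * (α' + β')) + (α + β) * γ' +
        (α' + β') * γ := by linear_combination -F1
    refine ⟨?_, ?_, ?_⟩
    · rw [a0, b0, c0, G3, GB]
      ring
    · rw [a1, b1, c1, G3, GA]
      ring
    · rw [a2, b2, c2, G3]
  exact ⟨RatF.ext (ratF_U0 Y s0 s1 s2 s3) ((ratF_U0 H p0 p1 p2 p3).mul (ratF_U0 H' r0 r1 r2 r3))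
      (fun N hN => (n1 N hN).1) q hq,
    RatF.ext (ratF_U1 Y s0 s1 s2 s3) ((ratF_U1 H p0 p1 p2 p3).mul (ratF_U1 H' r0 r1 r2 r3))
      (fun N hN => (n1 N hN).2.1) q hq,
    RatF.ext (ratF_U2 Y s0 s1 s2 s3) ((ratF_U2 H p0 p1 p2 p3).mul (ratF_U2 H' r0 r1 r2 r3))
      (fun N hN => (n1 N hN).2.2) q hq⟩

theorem par_val {H : SimpleGraph V} {H' : SimpleGraph V'} {Y : SimpleGraph W}
    {p0 p1 p2 p3 : V} {r0 r1 r2 r3 : V'} (h : D4 H p0 p1 p2 p3)
    (h' : D4 H' r0 r1 r2 r3)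
    (hY : ∀ N : ℕ, cnt Y N = ∑ x0, ∑ x1, ∑ x2, ∑ x3,
        z4 H p0 p1 p2 p3 N x0 x1 x2 x3 * z4 H' r0 r1 r2 r3 N x0 x3 x2 x1) (q : ℝ)
    (hq : 4 ≤ q) :
    P q Y = q * (U0 q H p0 p1 p2 p3 * U0 q H' r0 r1 r2 r3 +
      (q - 1) * (U1 q H p0 p1 p2 p3 * U1 q H' r0 r1 r2 r3) +
      (q ^ 2 - 3 * q + 1) * (U2 q H p0 p1 p2 p3 * U2 q H' r0 r1 r2 r3)) := by
  have n1 : ∀ N : ℕ, 4 ≤ N → P (N : ℝ) Y = (N : ℝ) *
      (U0 (N : ℝ) H p0 p1 p2 p3 * U0 (N : ℝ) H' r0 r1 r2 r3 +
      ((N : ℝ) - 1) * (U1 (N : ℝ) H p0 p1 p2 p3 * U1 (N : ℝ) H' r0 r1 r2 r3) +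
      ((N : ℝ) ^ 2 - 3 * (N : ℝ) + 1) *
        (U2 (N : ℝ) H p0 p1 p2 p3 * U2 (N : ℝ) H' r0 r1 r2 r3)) := by
    intro N hN
    obtain ⟨α, β, γ, h1⟩ := exists_zf h hN
    obtain ⟨α', β', γ', h2⟩ := exists_zf h' hN
    obtain ⟨a0, a1, a2⟩ := U_nat h hN h1
    obtain ⟨b0, b1, b2⟩ := U_nat h' hN h2
    have hP : P (N : ℝ) Y = (cnt Y N : ℝ) := by
      unfold P
      exact cp_eval Y N
    rw [hP, hY N]
    push_cast
    -- inner sums
    have I1 : ∀ x0 x2 : Fin N, ∑ x1, ∑ x3, (z4 H p0 p1 p2 p3 N x0 x1 x2 x3 : ℝ) *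
        (z4 H' r0 r1 r2 r3 N x0 x3 x2 x1 : ℝ) =
        ind x0 x2 * (((N : ℝ) - 1) ^ 2 * ((α + β) * (α' + β')) + ((N : ℝ) - 1) *
          ((α + β) * γ' + (α' + β') * γ + γ * γ')) +
        (1 - ind x0 x2) * (((N : ℝ) - 2) ^ 2 * (α * α') + ((N : ℝ) - 2) *
          (α * γ' + α' * γ + γ * γ')) := by
      intro x0 x2
      by_cases h02 : x0 = x2
      · subst h02
        rw [ind_self]
        have J : ∀ x1, ∑ x3, (z4 H p0 p1 p2 p3 N x0 x1 x0 x3 : ℝ) *
            (z4 H' r0 r1 r2 r3 N x0 x3 x0 x1 : ℝ) = (1 - ind x1 x0) *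
              (((N : ℝ) - 1) * ((α + β) * (α' + β')) + (α + β) * γ' + (α' + β') * γ +
                γ * γ') := by
          intro x1
          by_cases h10 : x1 = x0
          · subst h10
            rw [ind_self]
            simp only [sub_self, zero_mul]
            refine Finset.sum_eq_zero (fun a _ => ?_)
            rw [z4_form h h1, ind_self]
            ring
          · have := sum_eq h10 h10 (α + β) γ (α' + β') γ'
            rw [ind_self, one_mul] at this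
            rw [ind_ne h10, sub_zero, one_mul, ← this]
            refine Finset.sum_congr rfl (fun a _ => ?_)
            rw [z4_form h h1, z4_form h' h2, ind_self, ind_ne h10, ind_ne (Ne.symm h10),
              ind_comm x0 a, ind_comm x1 a]
            have := ind_sq a x0
            linear_combination ((α + β + ind a x1 * γ) * (α' + β' + ind a x1 * γ') *
              ((1 - ind a x0) * (1 - ind a x0) + (1 - ind a x0) + 1)) * this
        rw [Finset.sum_congr rfl (fun a _ => J a), ← Finset.sum_mul]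
        simp only [Finset.sum_sub_distrib, sum_ind, sum_one]
        ring
      · rw [ind_ne h02]
        have J : ∀ x1, ∑ x3, (z4 H p0 p1 p2 p3 N x0 x1 x2 x3 : ℝ) *
            (z4 H' r0 r1 r2 r3 N x0 x3 x2 x1 : ℝ) = (1 - ind x1 x0 - ind x1 x2) *
              (((N : ℝ) - 2) * (α * α') + α * γ' + α' * γ + γ * γ') := by
          intro x1
          by_cases h10 : x1 = x0
          · subst h10
            rw [ind_self, ind_ne h02]
            simp only [sub_self, zero_mul]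
            refine Finset.sum_eq_zero (fun a _ => ?_)
            rw [z4_form h h1, ind_self]
            ring
          by_cases h12 : x1 = x2
          · subst h12
            rw [ind_self, ind_ne h10]
            simp only [sub_zero, sub_self, zero_mul]
            refine Finset.sum_eq_zero (fun a _ => ?_)
            rw [z4_form h h1, ind_self]
            ring
          · have := sum_ne h02 h10 h10 h12 h12 α γ α' γ'
            rw [ind_self, one_mul] at this
            rw [ind_ne h10, ind_ne h12, sub_zero, sub_zero, one_mul, ← this]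
            refine Finset.sum_congr rfl (fun a _ => ?_)
            rw [z4_form h h1, z4_form h' h2, ind_ne h02, ind_ne h12, ind_ne (Ne.symm h12),
              ind_ne h10, ind_ne (Ne.symm h10), ind_comm x0 a, ind_comm x1 a, ind_comm x2 a]
            have e1 := ind_sq a x0
            have e2 := ind_sq a x2
            linear_combination ((α + ind a x1 * γ) * (α' + ind a x1 * γ') *
              ((1 - ind a x2) * (1 - ind a x2))) * e1 +
              ((α + ind a x1 * γ) * (α' + ind a x1 * γ') * (1 - ind a x0)) * e2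
        rw [Finset.sum_congr rfl (fun a _ => J a), ← Finset.sum_mul]
        simp only [Finset.sum_sub_distrib, sum_ind, sum_one]
        ring
    have S : ∑ x0, ∑ x1, ∑ x2, ∑ x3, (z4 H p0 p1 p2 p3 N x0 x1 x2 x3 : ℝ) *
        (z4 H' r0 r1 r2 r3 N x0 x3 x2 x1 : ℝ) = ∑ x0, ∑ x2, ∑ x1, ∑ x3,
        (z4 H p0 p1 p2 p3 N x0 x1 x2 x3 : ℝ) * (z4 H' r0 r1 r2 r3 N x0 x3 x2 x1 : ℝ) :=
      Finset.sum_congr rfl (fun x0 _ => Finset.sum_comm)
    rw [S, Finset.sum_congr rfl (fun x0 _ => Finset.sum_congr rfl (fun x2 _ => I1 x0 x2))]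
    have K : ∀ x0 : Fin N, ∀ A B : ℝ, ∑ x2, (ind x0 x2 * A + (1 - ind x0 x2) * B) =
        A + ((N : ℝ) - 1) * B := by
      intro x0 A B
      simp only [Finset.sum_add_distrib, ← Finset.sum_mul, Finset.sum_sub_distrib, sum_one]
      have : ∑ x2, ind x0 x2 = 1 := by
        rw [← sum_ind x0]
        exact Finset.sum_congr rfl (fun a _ => ind_comm x0 a)
      rw [this]
      ring
    rw [Finset.sum_congr rfl (fun x0 _ => K x0 _ _)]
    rw [Finset.sum_const, Finset.card_univ, Fintype.card_fin, nsmul_eq_mul, a0, a1, a2, b0, b1, b2]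
    ring
  have hq1 : RatF (fun q : ℝ => q) := by
    simpa using RatF.poly Polynomial.X
  have hq2 : RatF (fun q : ℝ => q - 1) := by
    have e : (fun q : ℝ => q - 1) =
        fun q => (Polynomial.X - 1 : Polynomial ℝ).eval q := by
      funext q
      simp
    rw [e]
    exact RatF.poly _
  have hq3 : RatF (fun q : ℝ => q ^ 2 - 3 * q + 1) := by
    have e : (fun q : ℝ => q ^ 2 - 3 * q + 1) =
        fun q => (Polynomial.X ^ 2 - 3 * Polynomial.X + 1 : Polynomial ℝ).eval q := by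
      funext q
      simp
    rw [e]
    exact RatF.poly _
  exact RatF.ext (ratF_P Y) (hq1.mul ((((ratF_U0 H p0 p1 p2 p3).mul (ratF_U0 H' r0 r1 r2 r3)).add
    (hq2.mul ((ratF_U1 H p0 p1 p2 p3).mul (ratF_U1 H' r0 r1 r2 r3)))).add
    (hq3.mul ((ratF_U2 H p0 p1 p2 p3).mul (ratF_U2 H' r0 r1 r2 r3))))) n1 q hq

end Pool.Agent.ZOL
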