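import Pool.Agent.ZOL.Stk
import Pool.Agent.ZOL.StkV
import Pool.Agent.ZOL.Par

/-!
# Powers of a 4-disc glued to its rotation
-/

set_option autoImplicit false

noncomputable section

namespace Pool.Agent.ZOL

open Pool.Agent.Helper1.PG
open Pool.Agent.Helper36.BL (cp cnt cols cp_eval mem_cols IsMinor)
open Pool.Agent.U5 (P)
open Pool.Agent.SB (Disc ad eqv eqv_symm)

variable {V : Type} [Fintype V] {H : SimpleGraph V} {p0 p1 p2 p3 : V}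

theorem D4.rot (h : D4 H p0 p1 p2 p3) : D4 H p1 p2 p3 p0 where
  disc := disc_rot (l1 := [p0]) (l2 := [p1, p2, p3]) h.disc
  e01 := h.e12
  e12 := h.e23
  e23 := h.e30
  e30 := h.e01
  n02 := h.n13
  n13 := h.n02.symm

/-- the channels of a power are powers -/
theorem exists_pow (h : D4 H p0 p1 p2 p3) (k : ℕ) :
    ∃ (W : Type) (_ : Fintype W) (Y : SimpleGraph W) (s0 s1 s2 s3 : W), D4 Y s0 s1 s2 s3 ∧
      ∀ q : ℝ, 4 ≤ q → U0 q Y s0 s1 s2 s3 = U0 q H p0 p1 p2 p3 ^ (k + 1) ∧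
        U1 q Y s0 s1 s2 s3 = U1 q H p0 p1 p2 p3 ^ (k + 1) ∧
        U2 q Y s0 s1 s2 s3 = U2 q H p0 p1 p2 p3 ^ (k + 1) := by
  induction k with
  | zero =>
    refine ⟨V, inferInstance, H, p0, p1, p2, p3, h, fun q _ => ?_⟩
    simp
  | succ k ih =>
    obtain ⟨W, hW, Y, s0, s1, s2, s3, hY, hv⟩ := ih
    obtain ⟨W', hW', Y', t0, t1, t2, t3, hY', hz⟩ := exists_stk hY h
    refine ⟨W', hW', Y', t0, t1, t2, t3, hY', fun q hq => ?_⟩
    obtain ⟨a0, a1, a2⟩ := stk_val hY h hY' hz q hq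
    obtain ⟨b0, b1, b2⟩ := hv q hq
    rw [a0, a1, a2, b0, b1, b2]
    exact ⟨(pow_succ _ _).symm, (pow_succ _ _).symm, (pow_succ _ _).symm⟩

/-- positivity of plane graphs gives positivity of the pairing with powers of the rotation -/
theorem pair_nonneg {q : ℝ} (hq : 4 ≤ q)
    (hP : ∀ (W : Type) [Fintype W] (Y : SimpleGraph W), Pl Y → 0 ≤ P q Y)
    (h : D4 H p0 p1 p2 p3) (k : ℕ) :
    0 ≤ U0 q H p0 p1 p2 p3 * U0 q H p1 p2 p3 p0 ^ (k + 1) +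
      (q - 1) * (U1 q H p0 p1 p2 p3 * U1 q H p1 p2 p3 p0 ^ (k + 1)) +
      (q ^ 2 - 3 * q + 1) * (U2 q H p0 p1 p2 p3 * U2 q H p1 p2 p3 p0 ^ (k + 1)) := by
  obtain ⟨W, hW, Y, s0, s1, s2, s3, hY, hv⟩ := exists_pow h.rot k
  obtain ⟨W', hW', Z, hZ, hz⟩ := exists_par h hY
  have h1 := par_val h hY hz q hq
  have h2 := hP W' Z hZ
  obtain ⟨b0, b1, b2⟩ := hv q hq
  rw [b0, b1, b2] at h1
  rw [h1] at h2
  exact nonneg_of_mul_nonneg_right h2 (by linarith)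

/-- the rotation in terms of the channels -/
theorem rot_val {q : ℝ} (hq : 4 ≤ q) (H : SimpleGraph V) (p0 p1 p2 p3 : V) :
    (q - 1) * U0 q H p1 p2 p3 p0 = U0 q H p0 p1 p2 p3 + (q - 1) * U1 q H p0 p1 p2 p3 +
      (q ^ 2 - 3 * q + 1) * U2 q H p0 p1 p2 p3 ∧
    (q - 1) * U1 q H p1 p2 p3 p0 = U0 q H p0 p1 p2 p3 +
      ((q - 1) * (q - 3) * U1 q H p0 p1 p2 p3 -
        (q ^ 2 - 3 * q + 1) * U2 q H p0 p1 p2 p3) / (q - 2) ∧
    (q - 1) * U2 q H p1 p2 p3 p0 = U0 q H p0 p1 p2 p3 +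
      (U2 q H p0 p1 p2 p3 - (q - 1) * U1 q H p0 p1 p2 p3) / (q - 2) := by
  have e : eqv q H p2 p0 = eqv q H p0 p2 := eqv_symm q H p2 p0
  have h0 : q ≠ 0 := by intro h; linarith
  have h1 : q - 1 ≠ 0 := by intro h; linarith
  have h2 : q - 2 ≠ 0 := by intro h; linarith
  have h3 : q ^ 2 - 3 * q + 1 ≠ 0 := by intro h; nlinarith
  unfold U0 U1 U2
  rw [e]
  obtain ⟨d, hd⟩ : ∃ d : ℝ, d = q ^ 2 - 3 * q + 1 := ⟨_, rfl⟩
  rw [← hd] at h3 ⊢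
  refine ⟨?_, ?_, ?_⟩
  · field_simp
    ring
  · field_simp
    ring
  · field_simp
    rw [hd]
    ring

end Pool.Agent.ZOL
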