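import Pool.Agent.ZOL.Defs
import Pool.Agent.SB.GNC

/-!
# The planar relation for four corners

Deletion and contraction of an edge: all four terms are additive. For a graph without edges the
colourings are all maps, and the non-crossing property `noncross4` of the corners is used.
-/

set_option autoImplicit false

noncomputable section

namespace Pool.Agent.ZOL

open Pool.Agent.Helper1.PG
open Pool.Agent.Helper36.BL (cp cnt cols cp_eval mem_cols IsMinor)
open Pool.Agent.U5 (P)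
open Pool.Agent.SB (Disc ad eqv)

open scoped Classical in
private theorem rel_sum {V : Type} [Fintype V] (H : SimpleGraph V) (p0 p1 p2 p3 : V) (N : ℕ)
    (x0 x1 x2 x3 : Fin N) : z4 H p0 p1 p2 p3 N x0 x1 x2 x3 =
      ∑ c : V → Fin N, if Prp H c then
        (if c p0 = x0 ∧ c p1 = x1 ∧ c p2 = x2 ∧ c p3 = x3 then 1 else 0) else 0 := by
  rw [← Finset.sum_filter, ← Finset.card_filter, Finset.filter_filter]
  unfold z4
  congr 1
  ext c
  rw [Finset.mem_filter, mem_cols, Finset.mem_filter]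
  exact ⟨fun h => ⟨Finset.mem_univ _, h⟩, fun h => h.2⟩

/-- `H` without the edge `p r` -/
private def dl {V : Type} (H : SimpleGraph V) (p r : V) : SimpleGraph V where
  Adj u v := H.Adj u v ∧ ¬ ((u = p ∧ v = r) ∨ (u = r ∧ v = p))
  symm := ⟨by
    rintro u v ⟨h1, h2⟩
    refine ⟨h1.symm, ?_⟩
    rintro (⟨h3, h4⟩ | ⟨h3, h4⟩)
    · exact h2 (Or.inr ⟨h4, h3⟩)
    · exact h2 (Or.inl ⟨h4, h3⟩)⟩
  loopless := ⟨fun u h => h.1.ne rfl⟩

private theorem prp_dl {V C : Type} {H : SimpleGraph V} {p r : V} (h : H.Adj p r) (c : V → C) :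
    Prp H c ↔ Prp (dl H p r) c ∧ c p ≠ c r := by
  constructor
  · intro h1
    exact ⟨fun u v huv => h1 u v huv.1, h1 p r h⟩
  · rintro ⟨h1, h2⟩ u v huv
    by_cases h3 : (u = p ∧ v = r) ∨ (u = r ∧ v = p)
    · rcases h3 with ⟨rfl, rfl⟩ | ⟨rfl, rfl⟩
      · exact h2
      · exact h2.symm
    · exact h1 u v ⟨huv, h3⟩

open scoped Classical in
private theorem rel_dc {V : Type} [Fintype V] {H : SimpleGraph V} {p r : V} (h : H.Adj p r)
    (hne : p ≠ r) (p0 p1 p2 p3 : V) (N : ℕ) (x0 x1 x2 x3 : Fin N) :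
    z4 (dl H p r) p0 p1 p2 p3 N x0 x1 x2 x3 = z4 H p0 p1 p2 p3 N x0 x1 x2 x3 +
      z4 (mgG (dl H p r) p r hne) (merge p r hne p0) (merge p r hne p1) (merge p r hne p2)
        (merge p r hne p3) N x0 x1 x2 x3 := by
  have hna : ¬ (dl H p r).Adj p r := fun h1 => h1.2 (Or.inl ⟨rfl, rfl⟩)
  have h1 := sum_mgG (dl H p r) hne hna N
    (fun c => if c p0 = x0 ∧ c p1 = x1 ∧ c p2 = x2 ∧ c p3 = x3 then 1 else 0)
  rw [rel_sum, rel_sum, rel_sum]
  refine Eq.trans ?_ (congrArg₂ (· + ·) rfl (h1.trans (sum_inst _ _ _ _ fun _ => rfl)))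
  rw [← Finset.sum_add_distrib]
  refine Finset.sum_congr rfl fun c _ => ?_
  have h2 := prp_dl h c
  by_cases h3 : Prp (dl H p r) c
  · by_cases h4 : c p = c r
    · have h5 : ¬ Prp H c := fun h6 => (h2.1 h6).2 h4
      have h6 : Prp (dl H p r) c ∧ c p = c r := ⟨h3, h4⟩
      simp only [if_pos h3, if_neg h5, if_pos h6, zero_add]
    · have h5 : Prp H c := h2.2 ⟨h3, h4⟩
      have h6 : ¬ (Prp (dl H p r) c ∧ c p = c r) := fun h6 => h4 h6.2
      simp only [if_pos h3, if_pos h5, if_neg h6, add_zero]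
  · have h5 : ¬ Prp H c := fun h6 => h3 (h2.1 h6).1
    have h6 : ¬ (Prp (dl H p r) c ∧ c p = c r) := fun h6 => h3 h6.1
    simp only [if_neg h3, if_neg h5, if_neg h6, add_zero]

private theorem rel_zero {V : Type} [Fintype V] {H : SimpleGraph V} {p0 p1 p2 p3 : V} {N : ℕ}
    {x0 x1 x2 x3 : Fin N}
    (h : ∀ c : V → Fin N, ¬ (c p0 = x0 ∧ c p1 = x1 ∧ c p2 = x2 ∧ c p3 = x3)) :
    z4 H p0 p1 p2 p3 N x0 x1 x2 x3 = 0 := by
  unfold z4
  rw [Finset.card_eq_zero, Finset.filter_eq_empty_iff]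
  exact fun c _ => h c

private theorem rel_upd3 {V : Type} [Fintype V] {H : SimpleGraph V} (hH : ∀ u v, ¬ H.Adj u v)
    {p0 p1 p2 p3 : V} {N : ℕ} (x0 x1 x2 x3 x3' : Fin N) (h0 : p0 ≠ p3) (h1 : p1 ≠ p3)
    (h2 : p2 ≠ p3) :
    z4 H p0 p1 p2 p3 N x0 x1 x2 x3 = z4 H p0 p1 p2 p3 N x0 x1 x2 x3' := by
  classical
  unfold z4
  refine Finset.card_nbij' (fun c => Function.update c p3 x3') (fun c => Function.update c p3 x3)
    ?_ ?_ ?_ ?_
  · intro c hc
    have hc := Finset.mem_filter.1 (Finset.mem_coe.1 hc)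
    refine Finset.mem_coe.2 (Finset.mem_filter.2 ⟨(mem_cols _ _ _).2 fun x y hxy =>
      absurd hxy (hH x y), ?_⟩)
    simp only [Function.update_of_ne h0, Function.update_of_ne h1, Function.update_of_ne h2,
      Function.update_self]
    exact ⟨hc.2.1, hc.2.2.1, hc.2.2.2.1, trivial⟩
  · intro c hc
    have hc := Finset.mem_filter.1 (Finset.mem_coe.1 hc)
    refine Finset.mem_coe.2 (Finset.mem_filter.2 ⟨(mem_cols _ _ _).2 fun x y hxy =>
      absurd hxy (hH x y), ?_⟩)
    simp only [Function.update_of_ne h0, Function.update_of_ne h1, Function.update_of_ne h2,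
      Function.update_self]
    exact ⟨hc.2.1, hc.2.2.1, hc.2.2.2.1, trivial⟩
  · intro c hc
    have hc := Finset.mem_filter.1 (Finset.mem_coe.1 hc)
    show Function.update (Function.update c p3 x3') p3 x3 = c
    rw [Function.update_idem, ← hc.2.2.2.2, Function.update_eq_self]
  · intro c hc
    have hc := Finset.mem_filter.1 (Finset.mem_coe.1 hc)
    show Function.update (Function.update c p3 x3) p3 x3' = c
    rw [Function.update_idem, ← hc.2.2.2.2, Function.update_eq_self]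

private theorem rel_rot {V : Type} [Fintype V] {H : SimpleGraph V} {p0 p1 p2 p3 : V} {N : ℕ}
    (x0 x1 x2 x3 : Fin N) :
    z4 H p0 p1 p2 p3 N x0 x1 x2 x3 = z4 H p0 p1 p3 p2 N x0 x1 x3 x2 := by
  unfold z4
  congr 1
  ext c
  rw [Finset.mem_filter, Finset.mem_filter]
  tauto

private theorem rel_main (n : ℕ) : ∀ (V : Type) [Fintype V], Fintype.card V = n →
    ∀ (m : ℕ) (H : SimpleGraph V) (p0 p1 p2 p3 : V),
    {p : V × V | H.Adj p.1 p.2}.ncard = m → Disc H [p0, p1, p2, p3] →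
    ∀ {N : ℕ} {α β γ δ : Fin N}, [α, β, γ, δ].Nodup →
    z4 H p0 p1 p2 p3 N α β α β + z4 H p0 p1 p2 p3 N α β γ δ =
      z4 H p0 p1 p2 p3 N α β α δ + z4 H p0 p1 p2 p3 N α β γ β := by
  classical
  induction n using Nat.strong_induction_on with
  | _ n ihn =>
  intro V _ hV m
  induction m using Nat.strong_induction_on with
  | _ m ihm =>
  intro H p0 p1 p2 p3 hm hd N α β γ δ hn
  have hd' := hd
  obtain ⟨F, E, _, _, a, b, f, x, w, hpl, htr, hmk, hlk⟩ := hd'
  by_cases hE : ∃ u v, H.Adj u v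
  · obtain ⟨u, v, huv⟩ := hE
    obtain ⟨e0, he0⟩ := hlk u v huv
    have h0 : (a e0).1 ≠ (a e0).2 := by
      rcases he0 with ⟨h1, h2⟩ | ⟨h1, h2⟩
      · rw [h1, h2]
        exact huv.ne
      · rw [h1, h2]
        exact huv.ne'
    have hadj : H.Adj (a e0).1 (a e0).2 := by
      rcases he0 with ⟨h1, h2⟩ | ⟨h1, h2⟩
      · rw [h1, h2]
        exact huv
      · rw [h1, h2]
        exact huv.symm
    have hle : dl H (a e0).1 (a e0).2 ≤ H := fun x y hxy => hxy.1
    have hd0 : Disc (dl H (a e0).1 (a e0).2) [p0, p1, p2, p3] := hd.mono hle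
    have hd1 : Disc (mgG (dl H (a e0).1 (a e0).2) (a e0).1 (a e0).2 h0)
        [merge _ _ h0 p0, merge _ _ h0 p1, merge _ _ h0 p2, merge _ _ h0 p3] := by
      refine ⟨F, {e : E // e ≠ e0}, inferInstance, inferInstance, contr a e0 h0, del b e0, f,
        merge _ _ h0 x, contrTok e0 (merge _ _ h0) w, hpl.contract h0, htr.contract h0, ?_, ?_⟩
      · rw [marks_contrTok, hmk]
        rfl
      · intro y z hyz
        exact lk_mgG (fun y z h => hlk y z (hle h)) h0 y z hyz
    have hlt : {p : V × V | (dl H (a e0).1 (a e0).2).Adj p.1 p.2}.ncard < m := by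
      rw [← hm]
      refine Set.ncard_lt_ncard ⟨fun p hp => hp.1, fun hs => ?_⟩ (Set.toFinite _)
      have h1 : (a e0) ∈ {p : V × V | (dl H (a e0).1 (a e0).2).Adj p.1 p.2} := hs hadj
      exact h1.2 (Or.inl ⟨rfl, rfl⟩)
    have i1 := ihm _ hlt (dl H (a e0).1 (a e0).2) p0 p1 p2 p3 rfl hd0 hn
    have hcard : Fintype.card {v : V // v ≠ (a e0).2} < n := by
      rw [← hV]
      exact Fintype.card_subtype_lt (x := (a e0).2) (fun h => h rfl)
    have i2 := ihn _ hcard {v : V // v ≠ (a e0).2} rfl _ _ _ _ _ _ rfl hd1 hn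
    have d1 := rel_dc hadj h0 p0 p1 p2 p3 N α β α β
    have d2 := rel_dc hadj h0 p0 p1 p2 p3 N α β γ δ
    have d3 := rel_dc hadj h0 p0 p1 p2 p3 N α β α δ
    have d4 := rel_dc hadj h0 p0 p1 p2 p3 N α β γ β
    omega
  · push Not at hE
    simp only [List.nodup_cons, List.mem_cons, List.not_mem_nil, or_false, not_or,
      List.nodup_nil, and_true, not_false_eq_true] at hn
    obtain ⟨⟨hab, hac, had⟩, ⟨hbc, hbd⟩, hcd⟩ := hn
    by_cases h01 : p0 = p1
    · subst h01
      rw [rel_zero fun c h => hab (h.1.symm.trans h.2.1),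
        rel_zero fun c h => hab (h.1.symm.trans h.2.1),
        rel_zero fun c h => hab (h.1.symm.trans h.2.1),
        rel_zero fun c h => hab (h.1.symm.trans h.2.1)]
    by_cases h12 : p1 = p2
    · subst h12
      rw [rel_zero fun c h => hab (h.2.2.1.symm.trans h.2.1),
        rel_zero fun c h => hbc (h.2.1.symm.trans h.2.2.1),
        rel_zero fun c h => hab (h.2.2.1.symm.trans h.2.1),
        rel_zero fun c h => hbc (h.2.1.symm.trans h.2.2.1)]
    by_cases h23 : p2 = p3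
    · subst h23
      rw [rel_zero fun c h => hab (h.2.2.1.symm.trans h.2.2.2),
        rel_zero fun c h => hcd (h.2.2.1.symm.trans h.2.2.2),
        rel_zero fun c h => had (h.2.2.1.symm.trans h.2.2.2),
        rel_zero fun c h => hbc (h.2.2.2.symm.trans h.2.2.1)]
    by_cases h30 : p3 = p0
    · subst h30
      rw [rel_zero fun c h => hab (h.1.symm.trans h.2.2.2),
        rel_zero fun c h => had (h.1.symm.trans h.2.2.2),
        rel_zero fun c h => had (h.1.symm.trans h.2.2.2),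
        rel_zero fun c h => hab (h.1.symm.trans h.2.2.2)]
    by_cases h13 : p1 = p3
    · have h02 : p0 ≠ p2 := fun h => h01 (SB.noncross4 hpl htr hmk h h13)
      have e1 : z4 H p0 p1 p2 p3 N α β α δ = 0 :=
        rel_zero fun c h => hbd (by rw [← h.2.1, ← h.2.2.2, h13])
      have e2 : z4 H p0 p1 p2 p3 N α β γ δ = 0 :=
        rel_zero fun c h => hbd (by rw [← h.2.1, ← h.2.2.2, h13])
      have e3 : z4 H p0 p1 p2 p3 N α β α β = z4 H p0 p1 p2 p3 N α β γ β := by
        rw [rel_rot α β α β, rel_rot α β γ β]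
        exact rel_upd3 hE α β β α γ h02 h12 (Ne.symm h23)
      omega
    · have e1 : z4 H p0 p1 p2 p3 N α β α β = z4 H p0 p1 p2 p3 N α β α δ :=
        rel_upd3 hE α β α β δ (Ne.symm h30) h13 h23
      have e2 : z4 H p0 p1 p2 p3 N α β γ β = z4 H p0 p1 p2 p3 N α β γ δ :=
        rel_upd3 hE α β γ β δ (Ne.symm h30) h13 h23
      omega

theorem z4_rel {V : Type} [Fintype V] {H : SimpleGraph V} {p0 p1 p2 p3 : V}
    (h : Disc H [p0, p1, p2, p3]) {N : ℕ} {α β γ δ : Fin N} (hn : [α, β, γ, δ].Nodup) :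
    z4 H p0 p1 p2 p3 N α β α β + z4 H p0 p1 p2 p3 N α β γ δ =
      z4 H p0 p1 p2 p3 N α β α δ + z4 H p0 p1 p2 p3 N α β γ β :=
  rel_main _ V rfl _ H p0 p1 p2 p3 rfl h hn

end Pool.Agent.ZOL
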