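import Pool.Agent.ZOL.SgDefs

/-!
# Colourings of subdivided graphs

JOB ZOL-SgCnt.  Prove all theorems of this file (remove the `sorry`s, keep the statements).

Plan.
* `pathCount`: the number of `f : Fin M → Fin N` with `x ≠ f 0`, `f j ≠ f (j+1)`, `f (M-1) ≠ y` (for `M = 0`:
  `x ≠ y`) is `(sd N M).1` if `x = y`, `(sd N M).2` otherwise: induction on `M`: split off the last value
  `z ≠ y` (`Fin.snocEquiv`-type, `Fin (M + 1) → Fin N` ≃ `(Fin M → Fin N) × Fin N`):
  `#(M+1; x, y) = ∑_{z ≠ y} #(M; x, z)`, which is `(N - 1) d_M` for `x = y` and `s_M + (N - 2) d_M` for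
  `x ≠ y`.  (`PathOK` is stated with the extended sequence `ext`.)
* `Sg_cnt`: a colouring of `V ⊕ (Ed G × Fin K × Fin M)` is a pair `(σ, τ)`, `τ : Ed G × Fin K → Fin M → Fin N`
  (curry); it is proper iff for all `e, k` the map `τ (e, k)` is a proper colouring of the path between
  `σ e.1.1` and `σ e.1.2` (`M ≥ 1`; there are no edges between vertices of `V`).  So
  `cnt = ∑ σ, ∏ (e, k), #…` (`Finset.prod_univ_sum`/`Fintype.card_pi`-type), `∏ k = (·) ^ K`.
-/

set_option autoImplicit false

noncomputable section

namespace Pool.Agent.ZOL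

open Pool.Agent.Helper36.BL (cp cnt cols cp_eval mem_cols IsMinor lab)

/-- `f` is a proper colouring of the inner vertices of a path with end colours `x`, `y` -/
def PathOK {N : ℕ} (M : ℕ) (x y : Fin N) (f : Fin M → Fin N) : Prop :=
  (∀ j : Fin M, j.val = 0 → x ≠ f j) ∧ (∀ j j' : Fin M, j.val + 1 = j'.val → f j ≠ f j') ∧
    (∀ j : Fin M, j.val + 1 = M → f j ≠ y) ∧ (M = 0 → x ≠ y)

private theorem pathOK_cons {N : ℕ} (M : ℕ) (x y z : Fin N) (g : Fin M → Fin N) :
    PathOK (M + 1) x y (Fin.cons z g : Fin (M + 1) → Fin N) ↔ x ≠ z ∧ PathOK M z y g := by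
  constructor
  · rintro ⟨h1, h2, h3, -⟩
    refine ⟨?_, ?_, ?_, ?_, ?_⟩
    · have := h1 0 rfl
      simpa using this
    · intro j hj
      have := h2 0 j.succ (by simp [hj])
      simpa using this
    · intro j j' hj
      have := h2 j.succ j'.succ (by simp [hj])
      simpa using this
    · intro j hj
      have := h3 j.succ (by simp [hj])
      simpa using this
    · intro hM
      have := h3 0 (by simp [hM])
      simpa using this
  · rintro ⟨h0, h1, h2, h3, h4⟩
    refine ⟨?_, ?_, ?_, ?_⟩
    · intro j hj
      have : j = 0 := Fin.ext hj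
      rw [this]
      simpa using h0
    · intro j j' hj
      have hj' : j' ≠ 0 := by
        intro h
        rw [h] at hj
        simp at hj
      obtain ⟨i', rfl⟩ := Fin.exists_succ_eq.2 hj'
      rcases Fin.eq_zero_or_eq_succ j with h | ⟨i, h⟩
      · subst h
        have := h1 i' (by simpa using hj.symm)
        simpa using this
      · subst h
        have := h2 i i' (by simpa using hj)
        simpa using this
    · intro j hj
      rcases Fin.eq_zero_or_eq_succ j with h | ⟨i, h⟩
      · subst h
        have := h4 (by simpa using hj.symm)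
        simpa using this
      · subst h
        have := h3 i (by simpa using hj)
        simpa using this
    · intro h
      omega

open scoped Classical in
theorem pathCount (N M : ℕ) (x y : Fin N) :
    (((Finset.univ : Finset (Fin M → Fin N)).filter (PathOK M x y)).card : ℝ) =
      if x = y then (sd (N : ℝ) M).1 else (sd (N : ℝ) M).2 := by
  induction M generalizing x with
  | zero =>
    by_cases hxy : x = y
    · rw [if_pos hxy, sd_zero]
      have : (Finset.univ : Finset (Fin 0 → Fin N)).filter (PathOK 0 x y) = ∅ := by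
        rw [Finset.filter_eq_empty_iff]
        intro f _ h
        exact h.2.2.2 rfl hxy
      rw [this]
      simp
    · rw [if_neg hxy, sd_zero]
      have : (Finset.univ : Finset (Fin 0 → Fin N)).filter (PathOK 0 x y) = Finset.univ := by
        rw [Finset.filter_eq_self]
        intro f _
        exact ⟨fun j => j.elim0, fun j => j.elim0, fun j => j.elim0, fun _ => hxy⟩
      rw [this]
      simp
  | succ M ih =>
    have h1 : (((Finset.univ : Finset (Fin (M + 1) → Fin N)).filter (PathOK (M + 1) x y)).card : ℝ) =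
        ∑ z : Fin N, if x = z then 0 else if z = y then (sd (N : ℝ) M).1 else (sd (N : ℝ) M).2 := by
      rw [Finset.card_filter, Nat.cast_sum]
      rw [← Equiv.sum_comp (Fin.consEquiv (fun _ : Fin (M + 1) => Fin N)), Fintype.sum_prod_type]
      apply Finset.sum_congr rfl
      intro z _
      by_cases hz : x = z
      · rw [if_pos hz]
        apply Finset.sum_eq_zero
        intro g _
        rw [if_neg]
        · simp
        · intro h
          exact ((pathOK_cons M x y z g).1 h).1 hz
      · rw [if_neg hz, ← ih z, Finset.card_filter, Nat.cast_sum]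
        apply Finset.sum_congr rfl
        intro g _
        have : PathOK (M + 1) x y (Fin.consEquiv (fun _ : Fin (M + 1) => Fin N) (z, g)) ↔
            PathOK M z y g := by
          refine (pathOK_cons M x y z g).trans ?_
          exact ⟨fun h => h.2, fun h => ⟨hz, h⟩⟩
        simp only [this]
    rw [h1, sd_succ]
    have hc : ∑ _z : Fin N, (sd (N : ℝ) M).2 = N * (sd (N : ℝ) M).2 := by
      rw [Finset.sum_const, Finset.card_univ, Fintype.card_fin, nsmul_eq_mul]
    by_cases hxy : x = y
    · rw [if_pos hxy]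
      have h2 : ∀ z : Fin N, (if x = z then (0 : ℝ) else if z = y then (sd (N : ℝ) M).1 else
          (sd (N : ℝ) M).2) = (sd (N : ℝ) M).2 - if x = z then (sd (N : ℝ) M).2 else 0 := by
        intro z
        by_cases h : x = z
        · rw [if_pos h, if_pos h, sub_self]
        · rw [if_neg h, if_neg h, if_neg (fun h' => h (hxy.trans h'.symm)), sub_zero]
      rw [Finset.sum_congr rfl (fun z _ => h2 z), Finset.sum_sub_distrib, hc, Finset.sum_ite_eq]
      simp only [Finset.mem_univ, if_true]
      ring
    · rw [if_neg hxy]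
      have h2 : ∀ z : Fin N, (if x = z then (0 : ℝ) else if z = y then (sd (N : ℝ) M).1 else
          (sd (N : ℝ) M).2) = (sd (N : ℝ) M).2 - (if x = z then (sd (N : ℝ) M).2 else 0) +
            (if y = z then (sd (N : ℝ) M).1 - (sd (N : ℝ) M).2 else 0) := by
        intro z
        by_cases h : x = z
        · rw [if_pos h, if_pos h, if_neg (fun h' => hxy (h.trans h'.symm)), sub_self, add_zero]
        · rw [if_neg h, if_neg h, sub_zero]
          by_cases h' : y = z
          · rw [if_pos h'.symm, if_pos h']
            ring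
          · rw [if_neg (fun h'' => h' h''.symm), if_neg h', add_zero]
      rw [Finset.sum_congr rfl (fun z _ => h2 z), Finset.sum_add_distrib, Finset.sum_sub_distrib, hc,
        Finset.sum_ite_eq, Finset.sum_ite_eq]
      simp only [Finset.mem_univ, if_true]
      ring

/-- colourings of the subdivided graph -/
private def eqS {V : Type} [Fintype V] (G : SimpleGraph V) (K M N : ℕ) :
    ((V → Fin N) × (Ed G → Fin K → Fin M → Fin N)) ≃ (V ⊕ (Ed G × Fin K × Fin M) → Fin N) where
  toFun p := Sum.elim p.1 (fun t => p.2 t.1 t.2.1 t.2.2)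
  invFun c := (fun v => c (Sum.inl v), fun e k j => c (Sum.inr (e, k, j)))
  left_inv p := rfl
  right_inv c := by
    funext t
    rcases t with v | t <;> rfl

private theorem proper_iff {V : Type} [Fintype V] (G : SimpleGraph V) (K M : ℕ) (hM : 1 ≤ M)
    (N : ℕ) (σ : V → Fin N) (τ : Ed G → Fin K → Fin M → Fin N) :
    (∀ x y, (Sg G K M).Adj x y → eqS G K M N (σ, τ) x ≠ eqS G K M N (σ, τ) y) ↔
      ∀ e k, PathOK M (σ e.1.1) (σ e.1.2) (τ e k) := by
  constructor
  · intro h e k
    have hadj : ∀ x y, x ≠ y → sgRel G K M x y → eqS G K M N (σ, τ) x ≠ eqS G K M N (σ, τ) y := by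
      intro x y hne hr
      exact h x y ((SimpleGraph.fromRel_adj _ _ _).2 ⟨hne, Or.inl hr⟩)
    refine ⟨?_, ?_, ?_, ?_⟩
    · intro j hj
      exact hadj (Sum.inl e.1.1) (Sum.inr (e, k, j)) (by simp) (Or.inl ⟨rfl, hj⟩)
    · intro j j' hj
      refine hadj (Sum.inr (e, k, j)) (Sum.inr (e, k, j')) ?_ ⟨rfl, rfl, hj⟩
      intro hh
      have h1 := Sum.inr.inj hh
      have h2 : j = j' := congrArg (fun t : Ed G × Fin K × Fin M => t.2.2) h1
      rw [h2] at hj
      omega
    · intro j hj
      exact (hadj (Sum.inl e.1.2) (Sum.inr (e, k, j)) (by simp) (Or.inr ⟨rfl, hj⟩)).symm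
    · intro h0
      omega
  · intro h
    have key : ∀ x y, sgRel G K M x y → eqS G K M N (σ, τ) x ≠ eqS G K M N (σ, τ) y := by
      intro x y hr
      rcases x with u | ⟨e, k, j⟩
      · rcases y with v | ⟨e, k, j⟩
        · exact hr.elim
        · rcases hr with ⟨h1, h2⟩ | ⟨h1, h2⟩
          · rw [h1]
            exact (h e k).1 j h2
          · rw [h1]
            exact ((h e k).2.2.1 j h2).symm
      · rcases y with v | ⟨e', k', j'⟩
        · exact hr.elim
        · obtain ⟨h1, h2, h3⟩ := hr
          subst h1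
          subst h2
          exact (h e k).2.1 j j' h3
    intro x y hxy
    rcases ((SimpleGraph.fromRel_adj _ _ _).1 hxy).2 with hr | hr
    · exact key x y hr
    · exact (key y x hr).symm

open scoped Classical in
theorem Sg_cnt {V : Type} [Fintype V] (G : SimpleGraph V) (K M : ℕ) (hM : 1 ≤ M) (N : ℕ) :
    (cnt (Sg G K M) N : ℝ) = ∑ σ : V → Fin N, ∏ e : Ed G,
      (if σ e.1.1 = σ e.1.2 then (sd (N : ℝ) M).1 else (sd (N : ℝ) M).2) ^ K := by
  have h0 : cnt (Sg G K M) N = ((Finset.univ : Finset (V ⊕ (Ed G × Fin K × Fin M) → Fin N)).filter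
      (fun c => ∀ x y, (Sg G K M).Adj x y → c x ≠ c y)).card := by
    unfold cnt
    refine congrArg Finset.card ?_
    ext c
    rw [mem_cols]
    exact ⟨fun h => Finset.mem_filter.2 ⟨Finset.mem_univ c, h⟩,
      fun h => (Finset.mem_filter.1 h).2⟩
  rw [h0, Finset.card_filter, ← Equiv.sum_comp (eqS G K M N), Fintype.sum_prod_type, Nat.cast_sum]
  apply Finset.sum_congr rfl
  intro σ _
  have h1 : ∀ τ : Ed G → Fin K → Fin M → Fin N,
      (if (∀ x y, (Sg G K M).Adj x y → eqS G K M N (σ, τ) x ≠ eqS G K M N (σ, τ) y) then 1 else 0) =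
      (if (∀ e k, PathOK M (σ e.1.1) (σ e.1.2) (τ e k)) then 1 else 0) := by
    intro τ
    rw [if_congr (proper_iff G K M hM N σ τ) rfl rfl]
  rw [Finset.sum_congr rfl (fun τ _ => h1 τ), ← Finset.card_filter]
  have h2 : (Finset.univ : Finset (Ed G → Fin K → Fin M → Fin N)).filter
      (fun τ => ∀ e k, PathOK M (σ e.1.1) (σ e.1.2) (τ e k)) =
      Fintype.piFinset (fun e : Ed G => Fintype.piFinset (fun _ : Fin K =>
        (Finset.univ : Finset (Fin M → Fin N)).filter (PathOK M (σ e.1.1) (σ e.1.2)))) := by
    ext τ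
    simp only [Finset.mem_filter, Finset.mem_univ, true_and, Fintype.mem_piFinset]
  rw [h2, Fintype.card_piFinset, Nat.cast_prod]
  apply Finset.prod_congr rfl
  intro e _
  rw [Fintype.card_piFinset, Finset.prod_const, Finset.card_univ, Fintype.card_fin, Nat.cast_pow,
    pathCount]

end Pool.Agent.ZOL
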