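import Pool.Agent.ZOL.Defs
import Mathlib.Combinatorics.SimpleGraph.Girth

/-!
# Subdivided graphs: definitions
-/

set_option autoImplicit false

noncomputable section

namespace Pool.Agent.ZOL

open Pool.Agent.Helper1.PG
open Pool.Agent.Helper36.BL (cp cnt cols cp_eval mem_cols IsMinor lab)
open Pool.Agent.U5 (P)
open Pool.Agent.SB (Disc ad eqv)

/-- the edges of `G` as ordered pairs -/
def Ed {V : Type} [Fintype V] (G : SimpleGraph V) : Type :=
  {p : V × V // G.Adj p.1 p.2 ∧ lab V p.1 < lab V p.2}

open scoped Classical in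
instance {V : Type} [Fintype V] (G : SimpleGraph V) : Fintype (Ed G) :=
  inferInstanceAs (Fintype {p : V × V // G.Adj p.1 p.2 ∧ lab V p.1 < lab V p.2})

/-- oriented adjacency of the subdivided graph -/
def sgRel {V : Type} [Fintype V] (G : SimpleGraph V) (K M : ℕ) :
    V ⊕ (Ed G × Fin K × Fin M) → V ⊕ (Ed G × Fin K × Fin M) → Prop
  | Sum.inl u, Sum.inr (e, _, j) => (u = e.1.1 ∧ j.val = 0) ∨ (u = e.1.2 ∧ j.val + 1 = M)
  | Sum.inr (e, k, j), Sum.inr (e', k', j') => e = e' ∧ k = k' ∧ j.val + 1 = j'.val
  | _, _ => False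

/-- every edge of `G` is replaced by `K` paths with `M` inner vertices (`M ≥ 1`) -/
def Sg {V : Type} [Fintype V] (G : SimpleGraph V) (K M : ℕ) :
    SimpleGraph (V ⊕ (Ed G × Fin K × Fin M)) := SimpleGraph.fromRel (sgRel G K M)

/-- numbers of colourings of the `M` inner vertices of a path, whose ends have the same colour
(first component) or different colours (second component) -/
def sd (q : ℝ) : ℕ → ℝ × ℝ
  | 0 => (0, 1)
  | M + 1 => ((q - 1) * (sd q M).2, (sd q M).1 + (q - 2) * (sd q M).2)

theorem sd_zero (q : ℝ) : sd q 0 = (0, 1) := rfl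

theorem sd_succ (q : ℝ) (M : ℕ) :
    sd q (M + 1) = ((q - 1) * (sd q M).2, (sd q M).1 + (q - 2) * (sd q M).2) := rfl

/-- a two-terminal plane network -/
structure N2 {V : Type} [Fintype V] (H : SimpleGraph V) (x y : V) : Prop where
  disc : Disc H [x, y]
  ne : x ≠ y

/-- value of a network for equal colours of the terminals -/
def NA (q : ℝ) {V : Type} [Fintype V] (H : SimpleGraph V) (x y : V) : ℝ := eqv q H x y / q

/-- value of a network for different colours of the terminals -/
def NB (q : ℝ) {V : Type} [Fintype V] (H : SimpleGraph V) (x y : V) : ℝ :=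
  (P q H - eqv q H x y) / (q * (q - 1))

end Pool.Agent.ZOL
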