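import Pool.Agent.ZOL.EdMul

/-!
# Subdivided plane graphs are plane

Parallel edges are inserted in a spanning plane multigraph and then, in the dual, every edge is
replaced by parallel edges, which subdivides the edges; the subdivided graph `Sg` is contained in
the result.
-/

set_option autoImplicit false

noncomputable section

namespace Pool.Agent.ZOL

open Pool.Agent.Helper1.PG
open Pool.Agent.Helper36.BL (cp cnt cols cp_eval mem_cols IsMinor lab)

section

variable {V E : Type}

private theorem lk_first (a : E → V × V) {M : ℕ} (p : E) (j : Fin M) (hj : j.val = 0) :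
    Lk (mulB a M) (Sum.inl (a p).1) (Sum.inr (p, j)) := by
  have hM : 0 < M := by have := j.2; omega
  refine ⟨(p, 0), Or.inl ⟨?_, ?_⟩⟩
  · unfold mulB
    simp
  · unfold mulB
    have h1 : ¬ ((0 : Fin (M + 1)) = Fin.last M) := by
      intro h
      have := congrArg Fin.val h
      simp at this
      omega
    simp only [h1, dif_neg, not_false_eq_true]
    congr 2
    apply Fin.ext
    simp [hj]

private theorem lk_last (a : E → V × V) {M : ℕ} (p : E) (j : Fin M) (hj : j.val + 1 = M) :
    Lk (mulB a M) (Sum.inl (a p).2) (Sum.inr (p, j)) := by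
  refine ⟨(p, Fin.last M), Or.inr ⟨?_, ?_⟩⟩
  · unfold mulB
    have h1 : ¬ (Fin.last M = (0 : Fin (M + 1))) := by
      intro h
      have := congrArg Fin.val h
      simp at this
      omega
    simp only [h1, dif_neg, not_false_eq_true]
    congr 2
    apply Fin.ext
    simp
    omega
  · unfold mulB
    simp

private theorem lk_mid (a : E → V × V) {M : ℕ} (p : E) (j j' : Fin M) (hj : j.val + 1 = j'.val) :
    Lk (mulB a M) (Sum.inr (p, j)) (Sum.inr (p, j')) := by
  refine ⟨(p, j'.castSucc), Or.inl ⟨?_, ?_⟩⟩
  · unfold mulB
    have h1 : ¬ (j'.castSucc = (0 : Fin (M + 1))) := by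
      intro h
      have := congrArg Fin.val h
      simp at this
      omega
    simp only [h1, dif_neg, not_false_eq_true]
    congr 2
    apply Fin.ext
    simp
    omega
  · unfold mulB
    have h1 : ¬ (j'.castSucc = Fin.last M) := by
      intro h
      have := congrArg Fin.val h
      simp at this
      omega
    simp only [h1, dif_neg, not_false_eq_true]
    congr 2

end

theorem Sg_pl {V : Type} [Fintype V] {G : SimpleGraph V} (h : Pl G) (K M : ℕ) :
    Pl (Sg G (K + 1) M) := by
  classical
  rcases isEmpty_or_nonempty V with hV | hV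
  · refine h.minor (IsMinor.of_inj (fun x => ?_) ?_ ?_)
    · rcases x with u | ⟨e, -, -⟩
      · exact hV.elim u
      · exact hV.elim e.1.1
    · intro x
      rcases x with u | ⟨e, -, -⟩
      · exact hV.elim u
      · exact hV.elim e.1.1
    · intro x
      rcases x with u | ⟨e, -, -⟩
      · exact hV.elim u
      · exact hV.elim e.1.1
  · obtain ⟨F, E, i1, i2, a, b, hp, hl⟩ := h.exists_spanning
    have hpl : IsPl (mulB (mulA a K) M) (mulA (mulB b K) M) :=
      (isPl_mul (isPl_mul hp K).symm M).symm
    have hφ : ∀ e : Ed G, ∃ d : E, (a d).1 = e.1.1 ∧ (a d).2 = e.1.2 ∨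
        (a d).1 = e.1.2 ∧ (a d).2 = e.1.1 := fun e => hl _ _ e.2.1
    choose φ hφ using hφ
    have hinj : Function.Injective φ := by
      intro e e' hee
      have h1 := hφ e
      have h2 := hφ e'
      rw [hee] at h1
      have l1 := e.2.2
      have l2 := e'.2.2
      rcases h1 with ⟨a1, a2⟩ | ⟨a1, a2⟩ <;> rcases h2 with ⟨b1, b2⟩ | ⟨b1, b2⟩
      · exact Subtype.ext (Prod.ext (a1.symm.trans b1) (a2.symm.trans b2))
      · exfalso
        rw [← a1, ← a2] at l1
        rw [← b1, ← b2] at l2
        omega
      · exfalso
        rw [← a1, ← a2] at l1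
        rw [← b1, ← b2] at l2
        omega
      · exact Subtype.ext (Prod.ext (a2.symm.trans b2) (a1.symm.trans b1))
    set st : Ed G → Prop := fun e => (a (φ e)).1 = e.1.1 ∧ (a (φ e)).2 = e.1.2 with hst
    have hrev : ∀ e, ¬ st e → (a (φ e)).1 = e.1.2 ∧ (a (φ e)).2 = e.1.1 := fun e he =>
      (hφ e).resolve_left he
    set f : V ⊕ (Ed G × Fin (K + 1) × Fin M) → V ⊕ ((E × Fin (K + 1)) × Fin M) := fun x =>
      Sum.elim (fun u => Sum.inl u)
        (fun t => Sum.inr ((φ t.1, t.2.1), if st t.1 then t.2.2 else Fin.rev t.2.2)) x with hf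
    have f1 : ∀ u, f (Sum.inl u) = Sum.inl u := fun u => rfl
    have f2 : ∀ e k j, f (Sum.inr (e, k, j)) =
        Sum.inr ((φ e, k), if st e then j else Fin.rev j) := fun e k j => rfl
    have finj : Function.Injective f := by
      intro x y hxy
      rcases x with u | ⟨e, k, j⟩ <;> rcases y with v | ⟨e', k', j'⟩
      · rw [f1, f1] at hxy
        rw [Sum.inl.inj hxy]
      · rw [f1, f2] at hxy
        exact absurd hxy (by simp)
      · rw [f1, f2] at hxy
        exact absurd hxy (by simp)
      · rw [f2, f2] at hxy
        have h1 := Sum.inr.inj hxy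
        obtain ⟨h2, h3⟩ := Prod.mk.inj h1
        obtain ⟨h4, h5⟩ := Prod.mk.inj h2
        have h6 := hinj h4
        subst h6
        subst h5
        by_cases hs : st e
        · rw [if_pos hs, if_pos hs] at h3
          rw [h3]
        · rw [if_neg hs, if_neg hs] at h3
          rw [Fin.rev_injective h3]
    have hrel : ∀ x y, sgRel G (K + 1) M x y → (gr (mulB (mulA a K) M)).Adj (f x) (f y) := by
      intro x y hxy
      rcases x with u | ⟨e, k, j⟩ <;> rcases y with v | ⟨e', k', j'⟩
      · exact absurd hxy (by simp [sgRel])
      · rw [f1, f2]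
        refine ⟨by simp, ?_⟩
        have hc : (u = e'.1.1 ∧ j'.val = 0) ∨ (u = e'.1.2 ∧ j'.val + 1 = M) := hxy
        by_cases hs : st e'
        · rw [if_pos hs]
          rcases hc with ⟨h1, h2⟩ | ⟨h1, h2⟩
          · have h3 := lk_first (mulA a K) (φ e', k') j' h2
            have h4 : (mulA a K (φ e', k')).1 = u := by rw [h1]; exact hs.1
            rwa [h4] at h3
          · have h3 := lk_last (mulA a K) (φ e', k') j' h2
            have h4 : (mulA a K (φ e', k')).2 = u := by rw [h1]; exact hs.2
            rwa [h4] at h3
        · rw [if_neg hs]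
          have hr := hrev e' hs
          rcases hc with ⟨h1, h2⟩ | ⟨h1, h2⟩
          · have h3 := lk_last (mulA a K) (φ e', k') (Fin.rev j') (by
              rw [Fin.val_rev]
              have := j'.2
              omega)
            have h4 : (mulA a K (φ e', k')).2 = u := by rw [h1]; exact hr.2
            rwa [h4] at h3
          · have h3 := lk_first (mulA a K) (φ e', k') (Fin.rev j') (by
              rw [Fin.val_rev]
              omega)
            have h4 : (mulA a K (φ e', k')).1 = u := by rw [h1]; exact hr.1
            rwa [h4] at h3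
      · exact absurd hxy (by simp [sgRel])
      · have hc : e = e' ∧ k = k' ∧ j.val + 1 = j'.val := hxy
        obtain ⟨h1, h2, h3⟩ := hc
        subst h1
        subst h2
        rw [f2, f2]
        have hjj : j ≠ j' := by
          intro h
          rw [h] at h3
          omega
        by_cases hs : st e
        · rw [if_pos hs, if_pos hs]
          refine ⟨?_, lk_mid (mulA a K) (φ e, k) j j' h3⟩
          intro h4
          exact hjj (Prod.mk.inj (Sum.inr.inj h4)).2
        · rw [if_neg hs, if_neg hs]
          refine ⟨?_, Lk.symm (lk_mid (mulA a K) (φ e, k) (Fin.rev j') (Fin.rev j) ?_)⟩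
          · intro h4
            exact hjj (Fin.rev_injective (Prod.mk.inj (Sum.inr.inj h4)).2)
          · rw [Fin.val_rev, Fin.val_rev]
            have := j'.2
            omega
    refine ⟨_, _, _, inferInstance, inferInstance, inferInstance, _, _, hpl,
      IsMinor.of_inj f finj ?_⟩
    intro x y hxy
    have h1 : x ≠ y ∧ (sgRel G (K + 1) M x y ∨ sgRel G (K + 1) M y x) := by
      have := hxy
      unfold Sg at this
      rwa [SimpleGraph.fromRel_adj] at this
    rcases h1.2 with h2 | h2
    · exact hrel x y h2
    · exact (hrel y x h2).symm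

end Pool.Agent.ZOL
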