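import Pool.Agent.ZOL.Clo
import Pool.Agent.ZOL.Uni
import Pool.Agent.ZOL.MgSum

/-!
# Stacking two 4-discs

The discs are glued along the path `p0 p3 p2 = r0 r1 r2`; the new ring is `p0 p1 p2 r3`.  The structure
`Qt G0 Y f` says that `Y` is the quotient of `G0` by the map `f` (no loops), with the formula for the sums
over colourings; `Qt.step` identifies two neighbouring corners of a disc.
-/

set_option autoImplicit false

noncomputable section

namespace Pool.Agent.ZOL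

open Pool.Agent.Helper1.PG
open Pool.Agent.Helper36.BL (cp cnt cols cp_eval mem_cols IsMinor)
open Pool.Agent.U5 (P)
open Pool.Agent.SB (Disc ad eqv)

open scoped Classical in
/-- `Y` is the quotient of `G0` by `f` -/
private structure Qt {V0 W : Type} [Fintype V0] [Fintype W] (G0 : SimpleGraph V0)
    (Y : SimpleGraph W) (f : V0 → W) : Prop where
  surj : Function.Surjective f
  adj : ∀ u v, Y.Adj (f u) (f v) → ∃ u0 v0, f u0 = f u ∧ f v0 = f v ∧ G0.Adj u0 v0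
  adj' : ∀ u v, G0.Adj u v → Y.Adj (f u) (f v)
  sum : ∀ (N : ℕ) (w : (V0 → Fin N) → ℝ), ∑ c ∈ cols Y N, w (c ∘ f) =
    ∑ c ∈ (cols G0 N).filter (fun c => ∀ u v, f u = f v → c u = c v), w c

private theorem Qt.refl {V0 : Type} [Fintype V0] (G0 : SimpleGraph V0) : Qt G0 G0 id := by
  classical
  refine ⟨Function.surjective_id, fun u v h => ⟨u, v, rfl, rfl, h⟩, fun u v h => h, fun N w => ?_⟩
  have h1 : (cols G0 N).filter (fun c => ∀ u v : V0, id u = id v → c u = c v) = cols G0 N := by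
    apply Finset.filter_true_of_mem
    rintro c - u v h
    exact congrArg c h
  rw [h1]
  rfl

private theorem Qt.step {V0 W : Type} [Fintype V0] [Fintype W] {G0 : SimpleGraph V0}
    {Y : SimpleGraph W} {f : V0 → W} (hq : Qt G0 Y f) {p r : V0} (hpr : f p ≠ f r)
    (hna : ¬ Y.Adj (f p) (f r)) {l l' : List V0} (hD : Disc Y ((l ++ p :: r :: l').map f)) :
    ∃ (W' : Type) (_ : Fintype W') (Y' : SimpleGraph W') (f' : V0 → W'), Qt G0 Y' f' ∧
      Disc Y' ((l ++ p :: l').map f') ∧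
      ∀ u v, f' u = f' v ↔ f u = f v ∨ (f u = f p ∧ f v = f r) ∨ (f u = f r ∧ f v = f p) := by
  classical
  have hmg : ∀ x y : W, merge (f p) (f r) hpr x = merge (f p) (f r) hpr y ↔
      x = y ∨ (x = f p ∧ y = f r) ∨ (x = f r ∧ y = f p) := by
    intro x y
    constructor
    · exact merge_eq_iff hpr x y
    · rintro (h | ⟨h1, h2⟩ | ⟨h1, h2⟩)
      · rw [h]
      · rw [h1, h2, merge_self, merge_of_ne hpr hpr]
      · rw [h1, h2, merge_self, merge_of_ne hpr hpr]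
  refine ⟨{v : W // v ≠ f r}, inferInstance, mgG Y (f p) (f r) hpr,
    merge (f p) (f r) hpr ∘ f, ⟨?_, ?_, ?_, ?_⟩, ?_, fun u v => hmg (f u) (f v)⟩
  · rintro ⟨y, hy⟩
    obtain ⟨u, rfl⟩ := hq.surj y
    exact ⟨u, merge_of_ne hpr hy⟩
  · rintro u v ⟨-, u1, v1, h2, h3, h4⟩
    obtain ⟨u2, rfl⟩ := hq.surj u1
    obtain ⟨v2, rfl⟩ := hq.surj v1
    obtain ⟨u0, v0, h5, h6, h7⟩ := hq.adj u2 v2 h4
    refine ⟨u0, v0, ?_, ?_, h7⟩
    · rw [← h2, Function.comp_apply, h5]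
    · rw [← h3, Function.comp_apply, h6]
  · intro u v huv
    have h1 := hq.adj' u v huv
    refine ⟨fun h2 => ?_, f u, f v, rfl, rfl, h1⟩
    rcases (hmg _ _).1 h2 with h | ⟨h3, h4⟩ | ⟨h3, h4⟩
    · exact h1.ne h
    · rw [h3, h4] at h1
      exact hna h1
    · rw [h3, h4] at h1
      exact hna h1.symm
  · intro N w
    have h1 := sum_cols_mg Y hpr hna N (fun c => w (c ∘ f))
    have h2 := hq.sum N (fun c => if c p = c r then w c else 0)
    calc ∑ c ∈ cols (mgG Y (f p) (f r) hpr) N, w (c ∘ merge (f p) (f r) hpr ∘ f)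
        = ∑ c ∈ (cols Y N).filter (fun c => c (f p) = c (f r)), w (c ∘ f) := h1
      _ = ∑ c ∈ cols Y N, if (c ∘ f) p = (c ∘ f) r then w (c ∘ f) else 0 := by
          rw [Finset.sum_filter]
          rfl
      _ = _ := h2
      _ = _ := by
          rw [← Finset.sum_filter, Finset.filter_filter]
          refine Finset.sum_congr ?_ (fun _ _ => rfl)
          ext c
          simp only [Finset.mem_filter]
          refine and_congr_right fun _ => ?_
          constructor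
          · rintro ⟨h3, h4⟩ u v h5
            rcases (hmg _ _).1 h5 with h | ⟨h6, h7⟩ | ⟨h6, h7⟩
            · exact h3 u v h
            · rw [h3 u p h6, h4, h3 v r h7]
            · rw [h3 u r h6, ← h4, h3 v p h7]
          · intro h3
            refine ⟨fun u v h => h3 u v ((hmg _ _).2 (Or.inl h)), h3 p r ((hmg _ _).2 ?_)⟩
            exact Or.inr (Or.inl ⟨rfl, rfl⟩)
  · have h1 : (l ++ p :: r :: l').map f = l.map f ++ f p :: f r :: l'.map f := by simp
    rw [h1] at hD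
    have h2 := disc_mg hD hpr
    have h3 : (l ++ p :: l').map (merge (f p) (f r) hpr ∘ f) =
        (l.map f ++ f p :: l'.map f).map (merge (f p) (f r) hpr) := by simp
    rw [h3]
    exact h2

private theorem sum_fin_ite {N : ℕ} (x : Fin N) (A : Prop) (B : Fin N → Prop) [Decidable A]
    [∀ a, Decidable (B a)] :
    (∑ a, (if A ∧ x = a then (1 : ℝ) else 0) * (if B a then 1 else 0)) =
      if A ∧ B x then 1 else 0 := by
  rw [Finset.sum_eq_single x]
  · by_cases hA : A <;> by_cases hB : B x <;> simp [hA, hB]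
  · intro a _ ha
    rw [if_neg (fun h => ha h.2.symm), zero_mul]
  · intro h
    exact absurd (Finset.mem_univ x) h

theorem exists_stk {V V' : Type} [Fintype V] [Fintype V'] {H : SimpleGraph V}
    {H' : SimpleGraph V'} {p0 p1 p2 p3 : V} {r0 r1 r2 r3 : V'} (h : D4 H p0 p1 p2 p3)
    (h' : D4 H' r0 r1 r2 r3) :
    ∃ (W : Type) (_ : Fintype W) (Y : SimpleGraph W) (s0 s1 s2 s3 : W), D4 Y s0 s1 s2 s3 ∧
      ∀ (N : ℕ) (x0 x1 x2 x3 : Fin N), z4 Y s0 s1 s2 s3 N x0 x1 x2 x3 =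
        ∑ a, z4 H p0 p1 p2 p3 N x0 x1 x2 a * z4 H' r0 r1 r2 r3 N x0 a x2 x3 := by
  classical
  have hp01 := h.e01.ne
  have hp12 := h.e12.ne
  have hp23 := h.e23.ne
  have hp30 := h.e30.ne
  have hp02 := h.n02
  have hp13 := h.n13
  have hr01 := h'.e01.ne
  have hr12 := h'.e12.ne
  have hr23 := h'.e23.ne
  have hr30 := h'.e30.ne
  have hr02 := h'.n02
  have hr13 := h'.n13
  have hna : ∀ (u : V) (v : V'), ¬ (H ⊕g H').Adj (Sum.inl u) (Sum.inr v) := by
    intro u v h1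
    simp at h1
  have hna' : ∀ (u : V) (v : V'), ¬ (H ⊕g H').Adj (Sum.inr v) (Sum.inl u) :=
    fun u v h1 => hna u v h1.symm
  -- the union
  have hD0 : Disc (H ⊕g H') ([Sum.inl p0, Sum.inl p1, Sum.inl p2, Sum.inl p3, Sum.inr r1,
      Sum.inr r2, Sum.inr r3, Sum.inr r0] : List (V ⊕ V')) := by
    have h1 : Disc H' ([r1, r2, r3] ++ [r0]) := disc_rot (l1 := [r0]) (l2 := [r1, r2, r3]) h'.disc
    exact disc_union h.disc h1
  -- first merge
  obtain ⟨W1, i1, Y1, f1, hq1, hD1, hf1⟩ := (Qt.refl (H ⊕g H')).step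
    (p := Sum.inl p3) (r := Sum.inr r1) (by simp) (hna p3 r1)
    (l := [Sum.inl p0, Sum.inl p1, Sum.inl p2]) (l' := [Sum.inr r2, Sum.inr r3, Sum.inr r0])
    (by simpa using hD0)
  simp only [id] at hf1
  have hD1' : Disc Y1 (([Sum.inl p0, Sum.inl p1] ++ Sum.inl p2 :: Sum.inr r2 ::
      [Sum.inr r3, Sum.inr r0] : List (V ⊕ V')).map f1) := by
    refine hD1.sublist (List.Sublist.map f1 ?_)
    simp
  have e1 : ∀ u, f1 u = f1 (Sum.inl p2) ↔ u = Sum.inl p2 := by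
    intro u
    rw [hf1]
    simp [hp23]
  have e2 : ∀ u, f1 u = f1 (Sum.inr r2) ↔ u = Sum.inr r2 := by
    intro u
    rw [hf1]
    simp [hr12.symm]
  -- second merge
  obtain ⟨W2, i2, Y2, f2, hq2, hD2, hf2⟩ := hq1.step
    (p := Sum.inl p2) (r := Sum.inr r2) (by
      intro h1
      rw [e2] at h1
      simp at h1) (by
      intro h1
      obtain ⟨u0, v0, h2, h3, h4⟩ := hq1.adj _ _ h1
      rw [e1] at h2
      rw [e2] at h3
      rw [h2, h3] at h4
      exact hna _ _ h4) hD1'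
  simp only [e1, e2, hf1] at hf2
  have hD2' : Disc Y2 (([] ++ Sum.inr r0 :: Sum.inl p0 ::
      [Sum.inl p1, Sum.inl p2, Sum.inr r3] : List (V ⊕ V')).map f2) := by
    have h1 : Disc Y2 ([f2 (Sum.inl p0), f2 (Sum.inl p1), f2 (Sum.inl p2), f2 (Sum.inr r3)] ++
      [f2 (Sum.inr r0)]) := by simpa using hD2
    simpa using disc_rot h1
  have e3 : ∀ u, f2 u = f2 (Sum.inl p0) ↔ u = Sum.inl p0 := by
    intro u
    rw [hf2]
    simp [hp30.symm, hp02]
  have e4 : ∀ u, f2 u = f2 (Sum.inr r0) ↔ u = Sum.inr r0 := by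
    intro u
    rw [hf2]
    simp [hr01, hr02]
  -- third merge
  obtain ⟨W3, i3, Y, f, hq, hD3, hf3⟩ := hq2.step
    (p := Sum.inr r0) (r := Sum.inl p0) (by
      intro h1
      rw [e3] at h1
      simp at h1) (by
      intro h1
      obtain ⟨u0, v0, h2, h3, h4⟩ := hq2.adj _ _ h1
      rw [e4] at h2
      rw [e3] at h3
      rw [h2, h3] at h4
      exact hna' _ _ h4) hD2'
  simp only [e3, e4, hf2] at hf3
  have g0 : f (Sum.inr r0) = f (Sum.inl p0) := by
    rw [hf3]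
    simp
  have g1 : f (Sum.inr r1) = f (Sum.inl p3) := by
    rw [hf3]
    simp
  have g2 : f (Sum.inr r2) = f (Sum.inl p2) := by
    rw [hf3]
    simp
  have hD : Disc Y [f (Sum.inl p0), f (Sum.inl p1), f (Sum.inl p2), f (Sum.inr r3)] := by
    rw [← g0]
    simpa using hD3
  refine ⟨W3, i3, Y, f (Sum.inl p0), f (Sum.inl p1), f (Sum.inl p2), f (Sum.inr r3),
    ⟨hD, hq.adj' _ _ (by simpa using h.e01), hq.adj' _ _ (by simpa using h.e12), ?_, ?_, ?_, ?_⟩,
    ?_⟩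
  · rw [← g2]
    exact hq.adj' _ _ (by simpa using h'.e23)
  · rw [← g0]
    exact hq.adj' _ _ (by simpa using h'.e30)
  · intro h1
    rw [hf3] at h1
    simp [hp02] at h1
  · intro h1
    rw [hf3] at h1
    simp [hp13, hp12, hp01.symm] at h1
  · intro N x0 x1 x2 x3
    have hfib : ∀ c : V ⊕ V' → Fin N, (∀ u v, f u = f v → c u = c v) ↔
        (c (Sum.inr r0) = c (Sum.inl p0) ∧ c (Sum.inr r1) = c (Sum.inl p3) ∧
          c (Sum.inr r2) = c (Sum.inl p2)) := by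
      intro c
      constructor
      · intro h1
        exact ⟨h1 _ _ g0, h1 _ _ g1, h1 _ _ g2⟩
      · rintro ⟨h1, h2, h3⟩ u v huv
        rw [hf3] at huv
        rcases huv with ((h4 | ⟨h4, h5⟩ | ⟨h4, h5⟩) | ⟨h4, h5⟩ | ⟨h4, h5⟩) | ⟨h4, h5⟩ | ⟨h4, h5⟩
        · rw [h4]
        · rw [h4, h5, h2]
        · rw [h4, h5, h2]
        · rw [h4, h5, h3]
        · rw [h4, h5, h3]
        · rw [h4, h5, h1]
        · rw [h4, h5, h1]
    have hL : (z4 Y (f (Sum.inl p0)) (f (Sum.inl p1)) (f (Sum.inl p2)) (f (Sum.inr r3)) N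
        x0 x1 x2 x3 : ℝ) = ∑ c ∈ cols H N, ∑ c' ∈ cols H' N,
          if (c' r0 = c p0 ∧ c' r1 = c p3 ∧ c' r2 = c p2) ∧
            (c p0 = x0 ∧ c p1 = x1 ∧ c p2 = x2 ∧ c' r3 = x3) then (1 : ℝ) else 0 := by
      have h1 := hq.sum N (fun c => if c (Sum.inl p0) = x0 ∧ c (Sum.inl p1) = x1 ∧
        c (Sum.inl p2) = x2 ∧ c (Sum.inr r3) = x3 then (1 : ℝ) else 0)
      have h2 := sum_cols_sum H H' N (fun c c' => if (c' r0 = c p0 ∧ c' r1 = c p3 ∧
        c' r2 = c p2) ∧ (c p0 = x0 ∧ c p1 = x1 ∧ c p2 = x2 ∧ c' r3 = x3) then (1 : ℝ) else 0)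
      rw [← h2]
      have h3 : (z4 Y (f (Sum.inl p0)) (f (Sum.inl p1)) (f (Sum.inl p2)) (f (Sum.inr r3)) N
          x0 x1 x2 x3 : ℝ) = ∑ c ∈ cols Y N, (fun c : V ⊕ V' → Fin N =>
            if c (Sum.inl p0) = x0 ∧ c (Sum.inl p1) = x1 ∧
              c (Sum.inl p2) = x2 ∧ c (Sum.inr r3) = x3 then (1 : ℝ) else 0) (c ∘ f) := by
        unfold z4
        rw [Finset.card_filter]
        push_cast
        rfl
      rw [h3, h1, Finset.sum_filter]
      refine Finset.sum_congr rfl fun c _ => ?_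
      simp only [hfib, Function.comp_apply, ite_and]
    have hR : ((∑ a, z4 H p0 p1 p2 p3 N x0 x1 x2 a * z4 H' r0 r1 r2 r3 N x0 a x2 x3 : ℕ) : ℝ) =
        ∑ c ∈ cols H N, ∑ c' ∈ cols H' N, ∑ a,
          (if (c p0 = x0 ∧ c p1 = x1 ∧ c p2 = x2) ∧ c p3 = a then (1 : ℝ) else 0) *
            (if c' r0 = x0 ∧ c' r1 = a ∧ c' r2 = x2 ∧ c' r3 = x3 then (1 : ℝ) else 0) := by
      have h1 : ∀ a : Fin N, ((z4 H p0 p1 p2 p3 N x0 x1 x2 a *
          z4 H' r0 r1 r2 r3 N x0 a x2 x3 : ℕ) : ℝ) = ∑ c ∈ cols H N, ∑ c' ∈ cols H' N,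
          (if (c p0 = x0 ∧ c p1 = x1 ∧ c p2 = x2) ∧ c p3 = a then (1 : ℝ) else 0) *
            (if c' r0 = x0 ∧ c' r1 = a ∧ c' r2 = x2 ∧ c' r3 = x3 then (1 : ℝ) else 0) := by
        intro a
        unfold z4
        rw [Finset.card_filter, Finset.card_filter]
        push_cast
        rw [Finset.sum_mul_sum]
        simp only [and_assoc]
      push_cast at h1 ⊢
      rw [Finset.sum_congr rfl fun a _ => h1 a, Finset.sum_comm]
      exact Finset.sum_congr rfl fun c _ => Finset.sum_comm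
    have hE : (z4 Y (f (Sum.inl p0)) (f (Sum.inl p1)) (f (Sum.inl p2)) (f (Sum.inr r3)) N
        x0 x1 x2 x3 : ℝ) =
        ((∑ a, z4 H p0 p1 p2 p3 N x0 x1 x2 a * z4 H' r0 r1 r2 r3 N x0 a x2 x3 : ℕ) : ℝ) := by
      rw [hL, hR]
      refine Finset.sum_congr rfl fun c _ => Finset.sum_congr rfl fun c' _ => ?_
      rw [sum_fin_ite (c p3) (c p0 = x0 ∧ c p1 = x1 ∧ c p2 = x2)
        (fun a => c' r0 = x0 ∧ c' r1 = a ∧ c' r2 = x2 ∧ c' r3 = x3)]
      refine if_congr ?_ rfl rfl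
      constructor
      · rintro ⟨⟨h1, h2, h3⟩, h4, h5, h6, h7⟩
        exact ⟨⟨h4, h5, h6⟩, h1.trans h4, h2, h3.trans h6, h7⟩
      · rintro ⟨⟨h4, h5, h6⟩, h1, h2, h3, h7⟩
        exact ⟨⟨h1.trans h4.symm, h2, h3.trans h6.symm⟩, h4, h5, h6, h7⟩
    exact_mod_cast hE

end Pool.Agent.ZOL
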