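import Pool.Agent.ZOL.Pos
import Pool.Agent.ZOL.HubD
import Pool.Agent.ZOL.HubV
import Pool.Agent.ZOL.Ana

/-!
# The wheel inequality from positivity
-/

set_option autoImplicit false

noncomputable section

namespace Pool.Agent.ZOL

open Pool.Agent.Helper1.PG
open Pool.Agent.Helper36.BL (cp cnt cols cp_eval mem_cols IsMinor)
open Pool.Agent.U5 (P)
open Pool.Agent.SB (Disc ad eqv eqv_symm)

/-- all values at `q` are nonnegative -/
def AllNN (q : ℝ) : Prop :=
  ∀ (W : Type) [Fintype W] (Y : SimpleGraph W), Pl Y → 0 ≤ P q Y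

variable {V : Type} [Fintype V] {H : SimpleGraph V}

/-- merging two vertices on a face gives a plane graph -/
theorem eqv_nonneg {q : ℝ} (hP : AllNN q) {x y : V} (hxy : x ≠ y) (h : Disc H [x, y]) :
    0 ≤ eqv q H x y := by
  classical
  by_cases ha : H.Adj x y
  · rw [SB.eqv_adj ha]
  · rw [SB.eqv_mg q H hxy ha]
    have := disc_mg (l1 := []) (l3 := []) (p := x) (r := y) h hxy
    exact hP _ _ (disc_pl this)

variable {r : ZMod 5 → V}

theorem R5.disc2 (h : R5 H r) (i : ZMod 5) : Disc H [r (i - 1), r (i + 1)] := by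
  have h1 := (h.shift (i - 1)).disc
  have e0 : (0 : ZMod 5) + (i - 1) = i - 1 := by ring
  have e2 : (2 : ZMod 5) + (i - 1) = i + 1 := by ring
  simp only [e0, e2] at h1
  exact h1.sublist (by simp)

theorem R5.ne2 (h : R5 H r) (i : ZMod 5) : r (i - 1) ≠ r (i + 1) := by
  intro e
  have e1 := h.inj e
  have e2 : (2 : ZMod 5) = 0 := by
    have : (i + 1) - (i - 1) = (0 : ZMod 5) := by rw [e1]; ring
    have h2 : (i + 1) - (i - 1) = (2 : ZMod 5) := by ring
    rw [← h2, this]
  exact absurd e2 (by decide)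

theorem c5_nonneg {q : ℝ} (hP : AllNN q) (h : R5 H r) (i : ZMod 5) : 0 ≤ c5 q H r i :=
  eqv_nonneg hP (h.ne2 i) (h.disc2 i)

/-- sum over the five positions of the same quantity -/
theorem sum_shift (f : ZMod 5 → ℝ) (a : ZMod 5) : ∑ i, f (i + a) = ∑ i, f i :=
  Equiv.sum_comp (Equiv.addRight a) f

/-- the channels of the hub disc -/
theorem hub_U {q : ℝ} (h4 : 4 < q) (h : R5 H r) (i : ZMod 5) :
    U0 q (hub H r {j | j ≠ i}) none (some (r (i - 1))) (some (r i)) (some (r (i + 1))) =
      (P q H - c5 q H r (i + 1) - c5 q H r (i - 1)) / (q * (q - 1)) ∧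
    U1 q (hub H r {j | j ≠ i}) none (some (r (i - 1))) (some (r i)) (some (r (i + 1))) =
      P q (hub H r Set.univ) / (q * (q - 1) * (q - 2)) ∧
    (q ^ 2 - 3 * q + 1) *
      U2 q (hub H r {j | j ≠ i}) none (some (r (i - 1))) (some (r i)) (some (r (i + 1))) =
      ((q - 1) * (q - 2) * ((q - 3) * c5 q H r i) -
        (q - 2) * (P q H - c5 q H r (i + 1) - c5 q H r (i - 1)) -
        (q - 1) * P q (hub H r Set.univ)) / (q * (q - 1) * (q - 2)) := by
  have h0 : q ≠ 0 := by intro h; linarith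
  have h1 : q - 1 ≠ 0 := by intro h; linarith
  have h2 : q - 2 ≠ 0 := by intro h; linarith
  have h3 : q ^ 2 - 3 * q + 1 ≠ 0 := by intro h; nlinarith
  have hm := hub_m h.ring h.inj q i
  have hn := hub_n h.ring h.inj q i
  have hw := hub_w h.ring h.inj q i
  refine ⟨?_, ?_, ?_⟩
  · unfold U0
    rw [hm]
  · unfold U1
    rw [hw]
    congr 1
    ring
  · unfold U2
    rw [hn, hm, hw, hm]
    obtain ⟨d, hd⟩ : ∃ d : ℝ, d = q ^ 2 - 3 * q + 1 := ⟨_, rfl⟩
    rw [← hd] at h3 ⊢
    field_simp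
    ring

/-- the first channel of the rotated hub disc -/
theorem hub_U' {q : ℝ} (h : R5 H r) (i : ZMod 5) :
    U0 q (hub H r {j | j ≠ i}) (some (r (i - 1))) (some (r i)) (some (r (i + 1))) none =
      ((q - 3) * c5 q H r i) / (q * (q - 1)) := by
  unfold U0
  rw [hub_n h.ring h.inj q i]

/-- **Zero-one law, local form.**  If all plane graphs have nonnegative values at `q`, then a
vertex of degree five costs only a constant factor. -/
theorem zol {q : ℝ} (h4 : 4 < q) (h5 : q < 5) (hP : AllNN q) : ∃ c : ℝ, 0 < c ∧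
    ∀ (V : Type) [Fintype V] (H : SimpleGraph V) (r : ZMod 5 → V), R5 H r → Pl H →
      c * P q H ≤ P q (hub H r Set.univ) := by
  set κ : ℝ := (q - 4) * (q ^ 2 - 5 * q + 5) with hκ
  have hq5 : 0 < q ^ 2 - 5 * q + 5 := by nlinarith
  have hκ0 : 0 < κ := mul_pos (by linarith) hq5
  have hd : 0 < q ^ 2 - 4 * q + 5 := by nlinarith
  obtain ⟨a0, ha0, hana⟩ := ana (η := κ / 10) h4 h5 (by positivity)
  set β : ℝ := κ / 2 / (q ^ 2 - 4 * q + 5) with hβ
  have hβ0 : 0 < β := by positivity
  have hβe : β * (q ^ 2 - 4 * q + 5) = κ / 2 := by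
    rw [hβ]
    exact div_mul_cancel₀ _ hd.ne'
  have h2 : 0 < q - 2 := by linarith
  refine ⟨min β (a0 * (q - 2) * (κ / 10)), lt_min hβ0 (by positivity), ?_⟩
  intro V _ H r h hH
  have hp : 0 ≤ P q H := hP V H hH
  have hG : 0 ≤ P q (hub H r Set.univ) := hP _ _ (hub_pl h)
  have hc := c5_nonneg hP h
  have hfull := hub_full h.ring q
  rcases hp.eq_or_lt with hp0 | hp0
  · rw [← hp0, mul_zero]
    exact hG
  rcases le_or_gt (β * P q H) (P q (hub H r Set.univ)) with hb | hb
  · exact (mul_le_mul_of_nonneg_right (min_le_left _ _) hp).trans hb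
  refine (mul_le_mul_of_nonneg_right (min_le_right _ _) hp).trans ?_
  -- a good position
  obtain ⟨i, hi⟩ : ∃ i : ZMod 5, κ / 10 * P q H ≤
      (P q H - c5 q H r (i + 1) - c5 q H r (i - 1)) - (q - 1) * ((q - 3) * c5 q H r i) := by
    by_contra hno
    push Not at hno
    have hs : ∑ i : ZMod 5, ((P q H - c5 q H r (i + 1) - c5 q H r (i - 1)) -
        (q - 1) * ((q - 3) * c5 q H r i)) < ∑ _i : ZMod 5, κ / 10 * P q H :=
      Finset.sum_lt_sum_of_nonempty Finset.univ_nonempty (fun i _ => hno i)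
    have e1 : ∑ i : ZMod 5, c5 q H r (i + 1) = ∑ i, c5 q H r i := sum_shift _ 1
    have e2 : ∑ i : ZMod 5, c5 q H r (i - 1) = ∑ i, c5 q H r i := by
      have := sum_shift (c5 q H r) (-1)
      simpa [sub_eq_add_neg] using this
    have e3 : ∑ i : ZMod 5, ((P q H - c5 q H r (i + 1) - c5 q H r (i - 1)) -
        (q - 1) * ((q - 3) * c5 q H r i)) =
        5 * P q H - (q ^ 2 - 4 * q + 5) * ∑ i, c5 q H r i := by
      rw [Finset.sum_sub_distrib, Finset.sum_sub_distrib, Finset.sum_sub_distrib, e1, e2,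
        ← Finset.mul_sum, ← Finset.mul_sum, Finset.sum_const, Finset.card_univ, ZMod.card]
      rw [nsmul_eq_mul]
      push_cast
      ring
    have e4 : ∑ _i : ZMod 5, κ / 10 * P q H = κ / 2 * P q H := by
      rw [Finset.sum_const, Finset.card_univ, ZMod.card, nsmul_eq_mul]
      push_cast
      ring
    rw [e3, e4] at hs
    have e5 : ∑ i, c5 q H r i = P q (hub H r Set.univ) + (5 - q) * P q H := by linarith
    rw [e5] at hs
    have e6 : (q ^ 2 - 4 * q + 5) * P q (hub H r Set.univ) < κ / 2 * P q H := by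
      rw [← hβe]
      nlinarith
    have e7 : 5 * P q H - (q ^ 2 - 4 * q + 5) * ((5 - q) * P q H) = κ * P q H := by
      rw [hκ]
      ring
    nlinarith
  have h4' : 4 ≤ q := h4.le
  have hq0 : 0 < q := by linarith
  have hq1 : 0 < q - 1 := by linarith
  have hD := hub_D4 h i
  obtain ⟨u0, u1, u2⟩ := hub_U h4 h i
  have u0' := hub_U' (q := q) h i
  obtain ⟨r0, r1, r2⟩ := rot_val h4' (hub H r {j | j ≠ i}) none (some (r (i - 1))) (some (r i))
    (some (r (i + 1)))
  have hmi : κ / 10 * P q H ≤ P q H - c5 q H r (i + 1) - c5 q H r (i - 1) := by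
    have := hc i
    have h3 : 0 ≤ (q - 1) * ((q - 3) * c5 q H r i) :=
      mul_nonneg hq1.le (mul_nonneg (by linarith) this)
    linarith
  have hmi0 : 0 < P q H - c5 q H r (i + 1) - c5 q H r (i - 1) :=
    lt_of_lt_of_le (by positivity) hmi
  have hmp : P q H - c5 q H r (i + 1) - c5 q H r (i - 1) ≤ P q H := by
    have := hc (i + 1)
    have := hc (i - 1)
    linarith
  have key := hana _ _ _ _ _ _
    (by rw [u0]; exact div_pos hmi0 (mul_pos hq0 hq1))
    (by rw [u1]; exact div_nonneg hG (by positivity)) r0 r1 r2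
    (by rw [u0']; exact div_nonneg (mul_nonneg (by linarith) (hc i)) (by positivity))
    (by
      rw [u2, u0, neg_div', ← mul_div_assoc, div_le_div_iff₀ (by positivity) (by positivity)]
      have h7 : κ / 10 * (P q H - c5 q H r (i + 1) - c5 q H r (i - 1)) ≤
          (P q H - c5 q H r (i + 1) - c5 q H r (i - 1)) - (q - 1) * ((q - 3) * c5 q H r i) :=
        (mul_le_mul_of_nonneg_left hmp (by positivity)).trans hi
      have h8 : κ / 10 * (P q H - c5 q H r (i + 1) - c5 q H r (i - 1)) * (q - 2) ≤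
          -((q - 1) * (q - 2) * ((q - 3) * c5 q H r i) -
            (q - 2) * (P q H - c5 q H r (i + 1) - c5 q H r (i - 1)) -
            (q - 1) * P q (hub H r Set.univ)) := by
        have h9 := mul_le_mul_of_nonneg_right h7 h2.le
        have h10 : 0 ≤ (q - 1) * P q (hub H r Set.univ) := mul_nonneg hq1.le hG
        nlinarith
      have h11 : 0 ≤ q * (q - 1) := by positivity
      have h12 := mul_le_mul_of_nonneg_right h8 h11
      linarith)
    (fun k => pair_nonneg h4' hP hD k)
  rw [u0, u1, ← mul_div_assoc, div_le_div_iff₀ (by positivity) (by positivity)] at key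
  have k1 : a0 * (P q H - c5 q H r (i + 1) - c5 q H r (i - 1)) * (q - 2) ≤
      P q (hub H r Set.univ) := by
    have h13 : 0 < q * (q - 1) := by positivity
    have h14 : (a0 * (P q H - c5 q H r (i + 1) - c5 q H r (i - 1)) * (q - 2)) * (q * (q - 1)) ≤
        P q (hub H r Set.univ) * (q * (q - 1)) := by linarith
    exact le_of_mul_le_mul_right h14 h13
  have k2 := mul_le_mul_of_nonneg_left hmi (mul_nonneg ha0.le h2.le)
  nlinarith

end Pool.Agent.ZOL
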